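import Pool.Agent.Z72.SF.Stm
import Pool.Agent.TH809.MZ.Fin
import Pool.Agent.TH158.FM.Main

/-! Part A2F of project SF: mean square of the product of at most four shifted zeta values. -/

set_option autoImplicit false

namespace Pool.Agent.Z72.SF

open Complex MeasureTheory Set Filter
open Pool.Agent.TH612.GS (z z_cont)

noncomputable section

/-- a product of at most `n` nonnegative numbers -/
theorem prod_leF {k n : ℕ} (F : Finset (Fin k)) (hk : F.card ≤ n) (x : Fin k → ℝ) (hx : ∀ j, 0 ≤ x j) :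
    ∏ j ∈ F, x j ≤ 1 + ∑ j ∈ F, x j ^ n := by
  have hs : 0 ≤ ∑ j ∈ F, x j ^ n := Finset.sum_nonneg fun j _ => pow_nonneg (hx j) n
  rcases F.eq_empty_or_nonempty with h0 | h0
  · subst h0
    simp
  obtain ⟨j0, hj0F, hj0⟩ := Finset.exists_max_image F x h0
  by_cases h1 : x j0 ≤ 1
  · have h2 : ∏ j ∈ F, x j ≤ 1 :=
      Finset.prod_le_one (fun j _ => hx j) fun j hj => (hj0 j hj).trans h1
    linarith
  · rw [not_le] at h1
    have h2 : ∏ j ∈ F, x j ≤ ∏ _j ∈ F, x j0 :=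
      Finset.prod_le_prod (fun j _ => hx j) fun j hj => hj0 j hj
    rw [Finset.prod_const] at h2
    have h3 : x j0 ^ F.card ≤ x j0 ^ n := pow_le_pow_right₀ h1.le hk
    have h4 : x j0 ^ n ≤ ∑ j ∈ F, x j ^ n :=
      Finset.single_le_sum (f := fun j => x j ^ n) (fun j _ => pow_nonneg (hx j) n) hj0F
    linarith

/-- the fourth moment -/
theorem fourth_eps (h : ℝ → ℝ) (hc : Continuous h) (h0 : ∀ u, 0 ≤ h u)
    (h4 : ∀ T : ℝ, 1000 ≤ T → ∫ t in (0:ℝ)..T, h t ^ 4 ≤ 4 / 5 * (T * Real.log T ^ 4))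
    (ε : ℝ) (hε : 0 < ε) : ∃ C : ℝ, 0 < C ∧ ∀ X : ℝ, 1 ≤ X → ∫ t in (0:ℝ)..X, h t ^ 4 ≤ C * X ^ (1 + ε) := by
  have hc4 : Continuous fun u => h u ^ 4 := hc.pow 4
  have hlog : ∀ X : ℝ, 1 ≤ X → 4 / 5 * (X * Real.log X ^ 4) ≤ (4 / ε) ^ 4 * X ^ (1 + ε) := by
    intro X hX
    have hX0 : 0 < X := by linarith
    have h1 := Real.log_le_rpow_div hX0.le (show 0 < ε / 4 by positivity)
    have h2 : Real.log X ^ 4 ≤ (X ^ (ε / 4) / (ε / 4)) ^ 4 :=
      pow_le_pow_left₀ (Real.log_nonneg hX) h1 4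
    have h3 : (X ^ (ε / 4) / (ε / 4)) ^ 4 = (4 / ε) ^ 4 * X ^ ε := by
      rw [div_pow, ← Real.rpow_natCast (X ^ (ε / 4)), ← Real.rpow_mul hX0.le]
      have : ε / 4 * ((4 : ℕ) : ℝ) = ε := by push_cast; ring
      rw [this]
      field_simp
    rw [h3] at h2
    have h4 : X ^ (1 + ε) = X * X ^ ε := by rw [Real.rpow_add hX0, Real.rpow_one]
    rw [h4]
    have h5 : X * Real.log X ^ 4 ≤ X * ((4 / ε) ^ 4 * X ^ ε) := mul_le_mul_of_nonneg_left h2 hX0.le
    have h6 : 0 ≤ X * Real.log X ^ 4 := by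
      have := Real.log_nonneg hX
      positivity
    calc 4 / 5 * (X * Real.log X ^ 4) ≤ X * Real.log X ^ 4 := by linarith
      _ ≤ _ := h5
      _ = _ := by ring
  set K : ℝ := (4 / ε) ^ 4 * 1000 ^ (1 + ε) with hK
  refine ⟨(4 / ε) ^ 4 + K, by positivity, fun X hX => ?_⟩
  have hX0 : 0 < X := by linarith
  rcases le_or_gt 1000 X with h1 | h1
  · refine (h4 X h1).trans ((hlog X hX).trans ?_)
    have : 0 ≤ K * X ^ (1 + ε) := by positivity
    linarith
  · have h2 : ∫ t in (0:ℝ)..X, h t ^ 4 ≤ ∫ t in (0:ℝ)..1000, h t ^ 4 :=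
      intervalIntegral.integral_mono_interval le_rfl hX0.le h1.le
        (Eventually.of_forall fun u => pow_nonneg (h0 u) 4) (hc4.intervalIntegrable _ _)
    refine h2.trans ((h4 1000 le_rfl).trans ((hlog 1000 (by norm_num)).trans ?_))
    have h3 : 1 ≤ X ^ (1 + ε) := Real.one_le_rpow hX (by linarith)
    have h4 : 0 ≤ (4 / ε) ^ 4 * X ^ (1 + ε) := by positivity
    have h5 : K ≤ K * X ^ (1 + ε) := le_mul_of_one_le_right (by positivity) h3
    linarith

/-- the moments between the fourth and the eighth -/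
theorem moment_eps (h : ℝ → ℝ) (hc : Continuous h) (h0 : ∀ u, 0 ≤ h u) (he : ∀ u, h (-u) = h u)
    (hg : ∀ ε : ℝ, 0 < ε → ∃ C : ℝ, ∀ u, h u ≤ C * (1 + |u|) ^ (1 / 6 + ε))
    (h4 : ∀ T : ℝ, 1000 ≤ T → ∫ t in (0:ℝ)..T, h t ^ 4 ≤ 4 / 5 * (T * Real.log T ^ 4))
    (n : ℕ) (hn : 2 ≤ n) (ε : ℝ) (hε : 0 < ε) (a : ℝ) :
    ∃ C : ℝ, 0 < C ∧ ∀ T : ℝ, 1 ≤ T →
      ∫ t in (0:ℝ)..T, h (t + a) ^ (2 * n) ≤ C * T ^ (((n : ℝ) + 1) / 3 + ε) := by
  obtain ⟨C₄, hC₄, h4e⟩ := fourth_eps h hc h0 h4 (ε / 2) (by positivity)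
  set δ : ℝ := ε / (4 * n) with hδ
  have hn0 : (0:ℝ) < n := by exact_mod_cast (by omega : 0 < n)
  have hδ0 : 0 < δ := by positivity
  obtain ⟨C₁, hC₁⟩ := hg δ hδ0
  have hC1 : 0 ≤ C₁ := by
    have h1 := (h0 0).trans (hC₁ 0)
    rwa [abs_zero, add_zero, Real.one_rpow, mul_one] at h1
  have hc8 : Continuous fun u => h u ^ (2 * n) := hc.pow _
  have hc4 : Continuous fun u => h u ^ 4 := hc.pow 4
  set E : ℝ := ((n : ℝ) + 1) / 3 + ε with hE
  have hE0 : 0 < E := by positivity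
  refine ⟨2 * ((C₁ ^ (2 * n - 4) * 2 ^ (((n : ℝ) - 2) / 3 + ε / 2) * C₄) * (1 + |a|) ^ E + 1), by positivity,
    fun T hT => ?_⟩
  have hT0 : 0 < T := by linarith
  set B : ℝ := T + |a| with hB
  have ha := abs_le.1 (le_refl |a|)
  have ha0 := abs_nonneg a
  have hB1 : 1 ≤ B := by linarith
  have hB0 : 0 < B := by linarith
  have h1 : ∫ t in (0:ℝ)..T, h (t + a) ^ (2 * n) = ∫ u in (0 + a)..(T + a), h u ^ (2 * n) :=
    intervalIntegral.integral_comp_add_right (fun u => h u ^ (2 * n)) a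
  have h2 : ∫ u in (0 + a)..(T + a), h u ^ (2 * n) ≤ ∫ u in (-B)..B, h u ^ (2 * n) := by
    refine intervalIntegral.integral_mono_interval (by linarith) (by linarith) (by linarith) ?_
      (hc8.intervalIntegrable _ _)
    exact Eventually.of_forall fun u => pow_nonneg (h0 u) _
  have h3 : ∫ u in (-B)..B, h u ^ (2 * n) = 2 * ∫ u in (0:ℝ)..B, h u ^ (2 * n) := by
    rw [← intervalIntegral.integral_add_adjacent_intervals (hc8.intervalIntegrable (-B) 0)
      (hc8.intervalIntegrable 0 B)]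
    have h5 : ∫ u in (0:ℝ)..B, h (-u) ^ (2 * n) = ∫ u in (-B)..(-0), h u ^ (2 * n) :=
      intervalIntegral.integral_comp_neg (fun u => h u ^ (2 * n))
    rw [neg_zero] at h5
    rw [← h5]
    simp only [he]
    ring
  set K : ℝ := C₁ * (1 + B) ^ (1 / 6 + δ : ℝ) with hK
  have hK0 : 0 ≤ K := by positivity
  have h6 : ∫ u in (0:ℝ)..B, h u ^ (2 * n) ≤ ∫ u in (0:ℝ)..B, K ^ (2 * n - 4) * h u ^ 4 := by
    refine intervalIntegral.integral_mono_on (by linarith) (hc8.intervalIntegrable _ _)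
      ((continuous_const.mul hc4).intervalIntegrable _ _) ?_
    intro u hu
    have h7 : h u ≤ K := by
      refine (hC₁ u).trans ?_
      apply mul_le_mul_of_nonneg_left _ hC1
      apply Real.rpow_le_rpow (by positivity) _ (by positivity)
      rw [abs_of_nonneg hu.1]
      linarith [hu.2]
    have h8 : h u ^ (2 * n) = h u ^ (2 * n - 4) * h u ^ 4 := by
      rw [← pow_add]
      congr 1
      omega
    rw [h8]
    exact mul_le_mul_of_nonneg_right (pow_le_pow_left₀ (h0 u) h7 _) (pow_nonneg (h0 u) 4)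
  rw [intervalIntegral.integral_const_mul] at h6
  have h9 := mul_le_mul_of_nonneg_left (h4e B hB1) (pow_nonneg hK0 (2 * n - 4))
  have hKp : K ^ (2 * n - 4) ≤ C₁ ^ (2 * n - 4) * (2 ^ (((n : ℝ) - 2) / 3 + ε / 2) *
      B ^ (((n : ℝ) - 2) / 3 + ε / 2)) := by
    rw [hK, mul_pow]
    refine mul_le_mul_of_nonneg_left ?_ (by positivity)
    rw [← Real.rpow_natCast, ← Real.rpow_mul (by positivity),
      ← Real.mul_rpow (by norm_num) hB0.le]
    have e1 : (1 / 6 + δ) * ((2 * n - 4 : ℕ) : ℝ) ≤ ((n : ℝ) - 2) / 3 + ε / 2 := by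
      rw [Nat.cast_sub (by omega)]
      push_cast
      have : δ * n = ε / 4 := by
        rw [hδ]
        field_simp
      nlinarith
    calc (1 + B) ^ ((1 / 6 + δ) * ((2 * n - 4 : ℕ) : ℝ))
        ≤ (1 + B) ^ (((n : ℝ) - 2) / 3 + ε / 2) :=
          Real.rpow_le_rpow_of_exponent_le (by linarith) e1
      _ ≤ (2 * B) ^ (((n : ℝ) - 2) / 3 + ε / 2) := by
          refine Real.rpow_le_rpow (by positivity) (by linarith) ?_
          have : (2:ℝ) ≤ n := by exact_mod_cast hn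
          have : 0 ≤ ((n : ℝ) - 2) / 3 := by
            apply div_nonneg <;> linarith
          positivity
  have hBE : B ^ E ≤ (1 + |a|) ^ E * T ^ E := by
    rw [← Real.mul_rpow (by positivity) hT0.le]
    refine Real.rpow_le_rpow hB0.le ?_ hE0.le
    nlinarith
  have hfin : K ^ (2 * n - 4) * (C₄ * B ^ (1 + ε / 2)) ≤
      (C₁ ^ (2 * n - 4) * 2 ^ (((n : ℝ) - 2) / 3 + ε / 2) * C₄) * B ^ E := by
    calc K ^ (2 * n - 4) * (C₄ * B ^ (1 + ε / 2)) ≤
          (C₁ ^ (2 * n - 4) * (2 ^ (((n : ℝ) - 2) / 3 + ε / 2) *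
            B ^ (((n : ℝ) - 2) / 3 + ε / 2))) * (C₄ * B ^ (1 + ε / 2)) :=
          mul_le_mul_of_nonneg_right hKp (by positivity)
      _ = (C₁ ^ (2 * n - 4) * 2 ^ (((n : ℝ) - 2) / 3 + ε / 2) * C₄) *
            (B ^ (((n : ℝ) - 2) / 3 + ε / 2) * B ^ (1 + ε / 2)) := by ring
      _ = _ := by
          rw [← Real.rpow_add hB0]
          congr 2
          rw [hE]
          ring
  rw [h1]
  have h10 : (C₁ ^ (2 * n - 4) * 2 ^ (((n : ℝ) - 2) / 3 + ε / 2) * C₄) * B ^ E ≤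
      (C₁ ^ (2 * n - 4) * 2 ^ (((n : ℝ) - 2) / 3 + ε / 2) * C₄) * ((1 + |a|) ^ E * T ^ E) :=
    mul_le_mul_of_nonneg_left hBE (by positivity)
  have h11 : 0 ≤ T ^ E := by positivity
  calc _ ≤ _ := h2
    _ = _ := h3
    _ ≤ 2 * (K ^ (2 * n - 4) * ∫ u in (0:ℝ)..B, h u ^ 4) := by linarith
    _ ≤ 2 * ((C₁ ^ (2 * n - 4) * 2 ^ (((n : ℝ) - 2) / 3 + ε / 2) * C₄) * ((1 + |a|) ^ E * T ^ E)) := by
        linarith
    _ ≤ _ := by nlinarith

theorem t_A2F : S_A2F := by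
  intro k F α ε hk hε
  have hz1 : ∀ u : ℝ, z u = riemannZeta ⟨1 / 2, u⟩ := by
    intro u
    unfold z
    congr 1
    apply Complex.ext <;> simp
  have hz2 : ∀ u : ℝ, z u = riemannZeta (((1 / 2 : ℝ) : ℂ) + (u : ℂ) * I) := by
    intro u
    unfold z
    congr 1
    push_cast
    ring
  have hz3 : ∀ u : ℝ, ‖z (-u)‖ = ‖z u‖ := by
    intro u
    have h1 : z (-u) = (starRingEnd ℂ) (z u) := by
      rw [hz1, hz1, ← riemannZeta_conj]
      congr 1
    rw [h1, Complex.norm_conj]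
  set n : ℕ := max F.card 2 with hn
  have hn2 : 2 ≤ n := le_max_right _ _
  have hFn : F.card ≤ n := le_max_left _ _
  have hee : ee F.card = ((n : ℝ) + 1) / 3 := by
    unfold ee
    rw [hn]
    rcases le_total F.card 2 with h | h
    · rw [max_eq_right h, max_eq_left]
      · norm_num
      · have : (F.card : ℝ) ≤ 2 := by exact_mod_cast h
        linarith
    · rw [max_eq_left h, max_eq_right]
      have : (2:ℝ) ≤ F.card := by exact_mod_cast h
      linarith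
  have hmom := moment_eps (fun u => ‖z u‖) z_cont.norm (fun u => norm_nonneg _) hz3
    (fun ε hε => by
      obtain ⟨C, hC⟩ := Pool.Agent.TH809.MZ.growth_weyl ε hε
      exact ⟨C, fun u => by rw [hz1]; exact hC u⟩)
    (fun T hT => by
      have h := Pool.Agent.TH158.FM.fourth_all T hT
      simp only [hz2]
      exact h) n hn2 ε hε
  choose C hC hCT using fun j => hmom (α j)
  refine ⟨1 + ∑ j, C j, ?_, fun T hT => ?_⟩
  · have : 0 ≤ ∑ j, C j := Finset.sum_nonneg fun j _ => (hC j).le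
    linarith
  have hT0 : 0 < T := by linarith
  rw [hee]
  set E : ℝ := ((n : ℝ) + 1) / 3 + ε with hE
  have hn2' : (2:ℝ) ≤ n := by exact_mod_cast hn2
  have hcj : ∀ j, Continuous fun t => ‖z (t + α j)‖ ^ (2 * n) := fun j =>
    (z_cont.norm.comp (continuous_id.add continuous_const)).pow _
  have hcA : Continuous fun t => ‖AF F α t‖ ^ 2 := by
    unfold AF
    exact ((continuous_finsetProd _ fun j _ =>
      z_cont.comp (continuous_id.add continuous_const)).norm).pow 2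
  have h1 : ∫ t in (0:ℝ)..T, ‖AF F α t‖ ^ 2 ≤
      ∫ t in (0:ℝ)..T, (1 + ∑ j ∈ F, ‖z (t + α j)‖ ^ (2 * n)) := by
    refine intervalIntegral.integral_mono_on (by linarith) (hcA.intervalIntegrable _ _) ?_ ?_
    · apply Continuous.intervalIntegrable
      exact continuous_const.add (continuous_finsetSum _ fun j _ => hcj j)
    · intro t _
      unfold AF
      rw [norm_prod, ← Finset.prod_pow]
      refine (prod_leF F hFn (fun j => ‖z (t + α j)‖ ^ 2) fun j => by positivity).trans (le_of_eq ?_)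
      congr 1
      refine Finset.sum_congr rfl fun j _ => ?_
      rw [← pow_mul]
  have h2 : ∫ t in (0:ℝ)..T, (1 + ∑ j ∈ F, ‖z (t + α j)‖ ^ (2 * n)) =
      T + ∑ j ∈ F, ∫ t in (0:ℝ)..T, ‖z (t + α j)‖ ^ (2 * n) := by
    rw [intervalIntegral.integral_add intervalIntegrable_const
      ((continuous_finsetSum _ fun j _ => hcj j).intervalIntegrable _ _),
      intervalIntegral.integral_finsetSum fun j _ => (hcj j).intervalIntegrable _ _]
    congr 1
    rw [intervalIntegral.integral_const]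
    simp
  rw [h2] at h1
  refine h1.trans ?_
  have h3 : ∑ j ∈ F, ∫ t in (0:ℝ)..T, ‖z (t + α j)‖ ^ (2 * n) ≤ ∑ j ∈ F, C j * T ^ E :=
    Finset.sum_le_sum fun j _ => hCT j T (by linarith)
  have h3' : ∑ j ∈ F, C j * T ^ E ≤ ∑ j, C j * T ^ E :=
    Finset.sum_le_sum_of_subset_of_nonneg (Finset.subset_univ _) fun j _ _ => by
      have := hC j
      positivity
  have h5 : T ≤ T ^ E := by
    have := Real.rpow_le_rpow_of_exponent_le (by linarith : (1:ℝ) ≤ T)
      (show (1:ℝ) ≤ E by rw [hE]; linarith)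
    rwa [Real.rpow_one] at this
  rw [← Finset.sum_mul Finset.univ] at h3'
  calc T + ∑ j ∈ F, ∫ t in (0:ℝ)..T, ‖z (t + α j)‖ ^ (2 * n) ≤ T ^ E + (∑ j, C j) * T ^ E :=
        add_le_add h5 (h3.trans h3')
    _ = _ := by ring

end

end Pool.Agent.Z72.SF
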