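import Pool.Agent.Z72.SF.Stm
import Pool.Agent.TH521.GF.SW3
import Pool.Agent.TH406.GS.CHI

set_option autoImplicit false

/-! # Project SF, part SWF: the terms with at least one swap are small on average over the free shifts -/

namespace Pool.Agent.Z72.SF

open Complex Filter Topology MeasureTheory Set
open Pool.Agent.TH612.CF Pool.Agent.TH612.GS
open Pool.Agent.TH805.GS
open Pool.Agent.TH521.GF (RL GG_splitL RL_update norm_RL cont_RL exists_right)
open scoped ComplexConjugate

noncomputable section

variable {k : ℕ}

lemma mx_update (E : Finset (Fin k)) (α : Fin k → ℝ) (ξ : Fin k ⊕ Fin k → ℝ) (l : Fin k) (y : ℝ) :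
    mx E α (Function.update ξ (Sum.inr l) y) = Function.update (mx E α ξ) (Sum.inr l) y := by
  funext i
  rcases i with j | j
  · rw [Function.update_of_ne (by simp)]
    unfold mx
    simp only [Sum.elim_inl]
    rw [Function.update_of_ne (by simp)]
  · by_cases h : j = l
    · subst h
      rw [Function.update_self]
      unfold mx
      simp only [Sum.elim_inr]
      rw [Function.update_self]
    · rw [Function.update_of_ne (by simpa using h)]
      unfold mx
      simp only [Sum.elim_inr]
      rw [Function.update_of_ne (by simpa using h)]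

lemma cont_mx (E : Finset (Fin k)) (α : Fin k → ℝ) :
    Continuous fun ξ : Fin k ⊕ Fin k → ℝ => mx E α ξ := by
  refine continuous_pi fun i => ?_
  rcases i with j | j
  · unfold mx
    simp only [Sum.elim_inl]
    split_ifs
    · exact continuous_const
    · exact continuous_apply _
  · exact continuous_apply _

theorem t_SWF : S_SWF := by
  intro k E α
  obtain ⟨C, T₀, hC, hT₀, hchi⟩ := Pool.Agent.TH406.GS.t_CHI
  refine ⟨C, T₀, hC, hT₀, ?_⟩
  rintro T U S π hT hU hUT hS hST ⟨j₀, hj₀⟩
  have hT0 : 0 < T := by linarith
  obtain ⟨i₀, p, hp⟩ := exists_right π j₀ hj₀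
  have hpr : (π (Sum.inl i₀)).isRight = true := by rw [hp]; rfl
  set F : (Fin k ⊕ Fin k → ℝ) → ENNReal :=
    fun β => ENNReal.ofReal (‖∫ t in (0:ℝ)..S, GG t (fun i => (mx E α β i : ℂ)) π‖ ^ 2) with hF
  have hFm : Measurable F := by
    have : Continuous F := ENNReal.continuous_ofReal.comp
      ((((cont_int π S).comp (cont_mx E α)).norm).pow 2)
    exact this.measurable
  have hin : ∀ β : Fin k ⊕ Fin k → ℝ,
      ∫⁻ y, F (Function.update β (Sum.inr p) y) ∂(volume.restrict (Icc 0 U)) ≤
        ENNReal.ofReal (C * T ^ 2 * Real.log T ^ 2) := by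
    intro β
    have hcR : Continuous fun t : ℝ => conj (RL i₀ t (mx E α β) π) :=
      continuous_conj.comp (cont_RL i₀ (mx E α β) π)
    have h1 := hchi T S (fun t => conj (RL i₀ t (mx E α β) π)) hT hS hST hcR
      (fun t => by rw [RCLike.norm_conj]; exact norm_RL i₀ t (mx E α β) π)
    have hc : Continuous fun y : ℝ =>
        ‖∫ t in (0:ℝ)..S, chi (1 / 2 + I * (t + y)) * conj (RL i₀ t (mx E α β) π)‖ ^ 2 := by
      refine Continuous.pow (Continuous.norm ?_) 2
      refine intervalIntegral.continuous_parametric_intervalIntegral_of_continuous'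
        (f := fun (y t : ℝ) => chi (1 / 2 + I * ((t : ℂ) + (y : ℂ))) *
          conj (RL i₀ t (mx E α β) π)) ?_ 0 S
      have h2 : Continuous fun q : ℝ × ℝ => chi (1 / 2 + I * ((q.2 : ℂ) + (q.1 : ℂ))) := by
        have h := cont_chi.comp (g := fun u : ℝ => chi (1 / 2 + I * (u : ℂ)))
          (f := fun q : ℝ × ℝ => q.2 + q.1) (by fun_prop)
        refine h.congr fun t => ?_
        simp only [Function.comp]
        congr 1
        push_cast
        ring
      exact h2.mul (hcR.comp continuous_snd)
    have h3 : ∀ y : ℝ, F (Function.update β (Sum.inr p) y) =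
        ENNReal.ofReal (‖∫ t in (0:ℝ)..S, chi (1 / 2 + I * (t + y)) *
          conj (RL i₀ t (mx E α β) π)‖ ^ 2) := by
      intro y
      simp only [hF]
      have e : (∫ t in (0:ℝ)..S, GG t (fun i => (mx E α (Function.update β (Sum.inr p) y) i : ℂ)) π) =
          conj (∫ t in (0:ℝ)..S, chi (1 / 2 + I * (t + y)) * conj (RL i₀ t (mx E α β) π)) := by
        rw [intervalIntegral.integral_of_le hS, intervalIntegral.integral_of_le hS,
          ← integral_conj]
        refine integral_congr_ae (Eventually.of_forall fun t => ?_)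
        simp only
        rw [GG_splitL i₀ t (mx E α (Function.update β (Sum.inr p) y)) π hpr, mx_update, hp]
        have := RL_update i₀ t y (mx E α β) π
        rw [hp] at this
        rw [this, Function.update_self]
      rw [e, RCLike.norm_conj]
    simp only [h3]
    rw [← ofReal_integral_eq_lintegral_ofReal]
    · refine ENNReal.ofReal_le_ofReal ?_
      rw [integral_Icc_eq_integral_Ioc, ← intervalIntegral.integral_of_le hU.le]
      refine le_trans ?_ h1
      exact intervalIntegral.integral_mono_interval le_rfl hU.le hUT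
        (Eventually.of_forall fun y => by positivity) (hc.intervalIntegrable _ _)
    · exact hc.continuousOn.integrableOn_compact isCompact_Icc
    · exact Eventually.of_forall fun y => by positivity
  change ∫⁻ β, F β ∂(Measure.pi fun _ => volume.restrict (Icc 0 U)) ≤ _
  rw [lintegral_eq_lmarginal_univ (fun _ => (0 : ℝ)), lmarginal_erase' F hFm (Finset.mem_univ (Sum.inr p))]
  refine (lmarginal_mono (g := fun _ => ENNReal.ofReal (C * T ^ 2 * Real.log T ^ 2))
    (fun γ => hin γ) _).trans ?_
  unfold lmarginal
  rw [lintegral_const, Measure.pi_univ]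
  have hm : (∏ i : {x // x ∈ Finset.univ.erase (Sum.inr p : Fin k ⊕ Fin k)}, (volume.restrict (Icc 0 U) : Measure ℝ) univ)
      = ENNReal.ofReal U ^ (2 * k - 1) := by
    rw [Measure.restrict_apply_univ, Real.volume_Icc, sub_zero, Finset.prod_const]
    congr 1
    rw [Finset.card_univ, Fintype.card_coe, Finset.card_erase_of_mem (Finset.mem_univ _),
      Finset.card_univ, Fintype.card_sum, Fintype.card_fin]
    omega
  rw [hm, ← ENNReal.ofReal_pow hU.le, ← ENNReal.ofReal_mul (by positivity)]
  refine ENNReal.ofReal_le_ofReal (le_of_eq ?_)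
  ring

end

end Pool.Agent.Z72.SF
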