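import Pool.Agent.Z72.SF.Stm
import Pool.Agent.Z72.SF.Swf
import Pool.Agent.Z72.SQ.Dg

/-!
DGF: the diagonal sum is close to the first term of the recipe on average, with fixed shifts.
-/

set_option autoImplicit false
set_option linter.all false

namespace Pool.Agent.Z72.SF

open Complex Filter Topology MeasureTheory Set
open Pool.Agent.TH612.GS (z zN PN mP SN zr Sep DD tup ch wt dr IG)
open Pool.Agent.TH612.CF (dg dg_zero tau_le)
open Pool.Agent.W182.KO (tau)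
open Pool.Agent.Z72.SQ (dr_norm dr_meas ch_meas mP_univ' sq4)
open scoped ENNReal

noncomputable section

variable {k : ℕ}

lemma Sf_meas (F : Finset (Fin k)) (α : Fin k → ℝ) (N : ℕ) :
    Measurable fun ξ : Fin k ⊕ Fin k → ℝ => Sf F α N ξ := by
  unfold Sf
  exact Finset.measurable_sum _ fun ν _ => ((ch_meas ν).const_mul _).mul_const _

lemma SepF_meas (F : Finset (Fin k)) (α : Fin k → ℝ) (U : ℝ) : MeasurableSet (SepF F α U) := by
  have h1 : SepF F α U = (⋂ i : Fin k ⊕ Fin k, {ξ : Fin k ⊕ Fin k → ℝ | 0 ≤ ξ i ∧ ξ i ≤ U}) ∩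
      ⋂ p : Fin k ⊕ Fin k, ⋂ q : Fin k ⊕ Fin k, {ξ : Fin k ⊕ Fin k → ℝ |
        p ≠ q → ¬ (inF F p ∧ inF F q) → U ^ (1 / 2 : ℝ) ≤ |mx F α ξ p - mx F α ξ q|} := by
    ext ξ
    simp only [SepF, Set.mem_setOf_eq, Set.mem_inter_iff, Set.mem_iInter]
  rw [h1]
  refine MeasurableSet.inter (MeasurableSet.iInter fun i => ?_)
    (MeasurableSet.iInter fun p => MeasurableSet.iInter fun q => ?_)
  · exact ((isClosed_le continuous_const (continuous_apply i)).inter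
      (isClosed_le (continuous_apply i) continuous_const)).measurableSet
  · by_cases hp : p ≠ q
    · by_cases hq : ¬ (inF F p ∧ inF F q)
      · have e : {ξ : Fin k ⊕ Fin k → ℝ |
            p ≠ q → ¬ (inF F p ∧ inF F q) → U ^ (1 / 2 : ℝ) ≤ |mx F α ξ p - mx F α ξ q|} =
            {ξ : Fin k ⊕ Fin k → ℝ | U ^ (1 / 2 : ℝ) ≤ |mx F α ξ p - mx F α ξ q|} := by
          ext ξ
          simp only [Set.mem_setOf_eq]
          exact ⟨fun h => h hp hq, fun h _ _ => h⟩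
        rw [e]
        exact (isClosed_le continuous_const
          ((((continuous_apply p).comp (cont_mx F α)).sub
            ((continuous_apply q).comp (cont_mx F α))).abs)).measurableSet
      · have e : {ξ : Fin k ⊕ Fin k → ℝ |
            p ≠ q → ¬ (inF F p ∧ inF F q) → U ^ (1 / 2 : ℝ) ≤ |mx F α ξ p - mx F α ξ q|} =
            Set.univ := by
          ext ξ
          simp only [Set.mem_setOf_eq, Set.mem_univ, iff_true]
          exact fun _ h => absurd h hq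
        rw [e]
        exact MeasurableSet.univ
    · have e : {ξ : Fin k ⊕ Fin k → ℝ |
            p ≠ q → ¬ (inF F p ∧ inF F q) → U ^ (1 / 2 : ℝ) ≤ |mx F α ξ p - mx F α ξ q|} =
            Set.univ := by
          ext ξ
          simp only [Set.mem_setOf_eq, Set.mem_univ, iff_true]
          exact fun h => absurd h hp
      rw [e]
      exact MeasurableSet.univ

theorem t_DGF (hSAF : S_SAF) (hDTF : S_DTF) : S_DGF := by
  intro k F α ε hε
  obtain ⟨W, C1, U1, B, hC1, hU1, hB, hW1, hW2, hSA⟩ := hSAF k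
  obtain ⟨C2, hC2, hDT⟩ := hDTF k F α (2 * B) ε hε
  have hA : ∀ j, |α j| ≤ ∑ j, |α j| := fun j =>
    Finset.single_le_sum (f := fun j => |α j|) (fun i _ => abs_nonneg _) (Finset.mem_univ j)
  have hA0 : 0 ≤ ∑ j, |α j| := Finset.sum_nonneg fun i _ => abs_nonneg _
  obtain ⟨C3, hC3⟩ : ∃ C3 : ℝ, C3 = C1 * 16 ^ (2 * k + 2) := ⟨_, rfl⟩
  have hC30 : 0 < C3 := by rw [hC3]; positivity
  refine ⟨4 * (C1 ^ 2 + C3 ^ 2) + 8 * C2, U1 + ∑ j, |α j|, by positivity, (by linarith : 3 ≤ U1 + ∑ j, |α j|), fun U N hUA hUN hNU => ?_⟩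
  have hU : U1 ≤ U := by linarith
  have hAU : ∀ j, |α j| ≤ U := fun j => by linarith [hA j]
  have hU3 : 3 ≤ U := hU1.trans hU
  have hU0 : 0 < U := by linarith
  have hU1' : 1 ≤ U := by linarith
  obtain ⟨hD1, hD2⟩ := hDT U N hU3 hUN hNU
  obtain ⟨Y, hY⟩ : ∃ Y, Y = ⌊U ^ (2 * B)⌋₊ := ⟨_, rfl⟩
  have hYU : (Y : ℝ) ≤ U ^ (2 * B) := by
    rw [hY]
    exact Nat.floor_le (by positivity)
  have hp4 : 16 * U ≤ U ^ 4 := by nlinarith [mul_pos hU0 hU0, mul_pos (mul_pos hU0 hU0) hU0]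
  have hpB : U ^ 4 ≤ U ^ B := pow_le_pow_right₀ hU1' (by omega)
  have hp2B : U ^ 4 ≤ U ^ (2 * B) := pow_le_pow_right₀ hU1' (by omega)
  have hNY : N ≤ Y := by
    rw [hY]
    exact Nat.le_floor (hNU.trans (hp4.trans hp2B))
  have hUB : 0 < U ^ B := by positivity
  have hc := hD1 (fun n => W (n / U ^ B)) (fun n => hW1 _) Y hYU
  -- the sum near the origin
  have hb : ∀ γ : Fin k ⊕ Fin k → ℝ, ‖∑ n ∈ Finset.Icc 1 N, dr γ n * (W (n / U ^ B) - 1)‖ ≤
      C3 / U := by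
    intro γ
    have h1 : ∀ n ∈ Finset.Icc 1 N, ‖dr γ n * (W (n / U ^ B) - 1)‖ ≤
        C1 * (16 * U) ^ (2 * k + 1) / U ^ B := by
      intro n hn
      rw [Finset.mem_Icc] at hn
      have hn1 : (1 : ℝ) ≤ n := by exact_mod_cast hn.1
      have hnN : (n : ℝ) ≤ 16 * U := le_trans (by exact_mod_cast hn.2) hNU
      have e1 : 0 < (n : ℝ) / U ^ B := by positivity
      have e2 : (n : ℝ) / U ^ B ≤ 1 := by
        rw [div_le_one hUB]
        exact hnN.trans (hp4.trans hpB)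
      have e3 := hW2 _ e1 e2
      rw [norm_mul]
      calc ‖dr γ n‖ * ‖W (n / U ^ B) - 1‖ ≤ (n : ℝ) ^ (2 * k) * (C1 * (n / U ^ B)) :=
            mul_le_mul (dr_norm γ n) e3 (norm_nonneg _) (by positivity)
        _ = C1 * (n : ℝ) ^ (2 * k + 1) / U ^ B := by
            rw [pow_succ]
            ring
        _ ≤ C1 * (16 * U) ^ (2 * k + 1) / U ^ B := by gcongr
    refine (norm_sum_le _ _).trans ((Finset.sum_le_sum h1).trans ?_)
    rw [Finset.sum_const, Nat.card_Icc, Nat.add_sub_cancel, nsmul_eq_mul]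
    have e4 : U ^ (2 * k + 2) * U ≤ U ^ B := by
      rw [← pow_succ]
      exact pow_le_pow_right₀ hU1' (by omega)
    calc (N : ℝ) * (C1 * (16 * U) ^ (2 * k + 1) / U ^ B)
        ≤ (16 * U) * (C1 * (16 * U) ^ (2 * k + 1) / U ^ B) := by gcongr
      _ = C3 * U ^ (2 * k + 2) / U ^ B := by
          rw [hC3]
          have : (16 * U) ^ (2 * k + 1) * (16 * U) = 16 ^ (2 * k + 2) * U ^ (2 * k + 2) := by
            rw [← pow_succ, mul_pow]
          calc _ = C1 * ((16 * U) ^ (2 * k + 1) * (16 * U)) / U ^ B := by ring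
            _ = _ := by rw [this]; ring
      _ ≤ C3 / U := by
          rw [div_le_div_iff₀ hUB hU0, mul_assoc]
          exact mul_le_mul_of_nonneg_left e4 hC30.le
  have hpt : ∀ ξ ∈ SepF F α U, ENNReal.ofReal (‖Sf F α N ξ - zr (mx F α ξ)‖ ^ 2) ≤
      ENNReal.ofReal (4 * (C1 ^ 2 + C3 ^ 2) / U ^ 2) +
      (4 * ENNReal.ofReal (‖∑ n ∈ Finset.Ioc N Y, dr (mx F α ξ) n * W (n / U ^ B)‖ ^ 2) +
      4 * ENNReal.ofReal (‖Sf F α N ξ - ∑ n ∈ Finset.Icc 1 N, dr (mx F α ξ) n‖ ^ 2)) := by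
    intro ξ hξ
    have ha := hSA U hU (mx F α ξ) (by
      intro i
      rcases i with j | j
      · unfold mx
        simp only [Sum.elim_inl]
        split_ifs
        · exact hAU j
        · rw [abs_of_nonneg (hξ.1 _).1]
          exact (hξ.1 _).2
      · unfold mx
        simp only [Sum.elim_inr]
        rw [abs_of_nonneg (hξ.1 _).1]
        exact (hξ.1 _).2) (fun j l => hξ.2 (Sum.inl j) (Sum.inr l) (by simp) (by simp [inF]))
    rw [← hY] at ha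
    obtain ⟨a, ha'⟩ : ∃ a, a = zr (mx F α ξ) - ∑ n ∈ Finset.Icc 1 Y, dr (mx F α ξ) n * W (n / U ^ B) := ⟨_, rfl⟩
    obtain ⟨b, hb'⟩ : ∃ b, b = ∑ n ∈ Finset.Icc 1 N, dr (mx F α ξ) n * (W (n / U ^ B) - 1) := ⟨_, rfl⟩
    obtain ⟨c, hc'⟩ : ∃ c, c = ∑ n ∈ Finset.Ioc N Y, dr (mx F α ξ) n * W (n / U ^ B) := ⟨_, rfl⟩
    obtain ⟨d, hd'⟩ : ∃ d, d = Sf F α N ξ - ∑ n ∈ Finset.Icc 1 N, dr (mx F α ξ) n := ⟨_, rfl⟩
    have hsplit : ∑ n ∈ Finset.Icc 1 Y, dr (mx F α ξ) n * W (n / U ^ B) =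
        ∑ n ∈ Finset.Icc 1 N, dr (mx F α ξ) n * W (n / U ^ B) +
          ∑ n ∈ Finset.Ioc N Y, dr (mx F α ξ) n * W (n / U ^ B) := by
      rw [← Finset.sum_union]
      · congr 1
        ext n
        simp only [Finset.mem_union, Finset.mem_Icc, Finset.mem_Ioc]
        omega
      · rw [Finset.disjoint_left]
        intro n hn hn'
        rw [Finset.mem_Icc] at hn
        rw [Finset.mem_Ioc] at hn'
        omega
    have hb'' : b = ∑ n ∈ Finset.Icc 1 N, dr (mx F α ξ) n * W (n / U ^ B) -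
        ∑ n ∈ Finset.Icc 1 N, dr (mx F α ξ) n := by
      rw [hb', ← Finset.sum_sub_distrib]
      exact Finset.sum_congr rfl fun n _ => by ring
    have he : Sf F α N ξ - zr (mx F α ξ) = d - b - c - a := by
      rw [hd', hb'', hc', ha', hsplit]
      ring
    have hn : ‖Sf F α N ξ - zr (mx F α ξ)‖ ≤ ‖d‖ + ‖b‖ + ‖c‖ + ‖a‖ := by
      rw [he]
      refine (norm_sub_le _ _).trans (add_le_add ?_ le_rfl)
      refine (norm_sub_le _ _).trans (add_le_add ?_ le_rfl)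
      exact norm_sub_le _ _
    have hbn : ‖b‖ ≤ C3 / U := by rw [hb']; exact hb (mx F α ξ)
    have han : ‖a‖ ≤ C1 / U := by rw [ha']; exact ha
    rw [← hc', ← hd']
    have h4 : (4 : ℝ≥0∞) = ENNReal.ofReal 4 := by norm_num
    rw [h4, ← ENNReal.ofReal_mul (by norm_num), ← ENNReal.ofReal_mul (by norm_num),
      ← ENNReal.ofReal_add (by positivity) (by positivity),
      ← ENNReal.ofReal_add (by positivity) (by positivity)]
    apply ENNReal.ofReal_le_ofReal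
    calc ‖Sf F α N ξ - zr (mx F α ξ)‖ ^ 2 ≤ (‖d‖ + ‖b‖ + ‖c‖ + ‖a‖) ^ 2 :=
          pow_le_pow_left₀ (norm_nonneg _) hn 2
      _ ≤ 4 * (‖d‖ ^ 2 + ‖b‖ ^ 2 + ‖c‖ ^ 2 + ‖a‖ ^ 2) := sq4 _ _ _ _
      _ ≤ 4 * (‖d‖ ^ 2 + (C3 / U) ^ 2 + ‖c‖ ^ 2 + (C1 / U) ^ 2) := by gcongr
      _ = _ := by
          rw [div_pow, div_pow]
          ring
  have hm1 : Measurable fun ξ : Fin k ⊕ Fin k → ℝ =>
      4 * ENNReal.ofReal (‖∑ n ∈ Finset.Ioc N Y, dr (mx F α ξ) n * W (n / U ^ B)‖ ^ 2) := by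
    refine Measurable.const_mul (Measurable.ennreal_ofReal (Measurable.pow_const
      (Measurable.norm ?_) 2)) _
    exact Finset.measurable_sum _ fun n _ => ((dr_meas n).comp (cont_mx F α).measurable).mul_const _
  have hm2 : Measurable fun ξ : Fin k ⊕ Fin k → ℝ =>
      ENNReal.ofReal (‖∑ n ∈ Finset.Ioc N Y, dr (mx F α ξ) n * W (n / U ^ B)‖ ^ 2) := by
    refine (Measurable.ennreal_ofReal (Measurable.pow_const
      (Measurable.norm ?_) 2))
    exact Finset.measurable_sum _ fun n _ => ((dr_meas n).comp (cont_mx F α).measurable).mul_const _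
  have hm3 : Measurable fun ξ : Fin k ⊕ Fin k → ℝ =>
      ENNReal.ofReal (‖Sf F α N ξ - ∑ n ∈ Finset.Icc 1 N, dr (mx F α ξ) n‖ ^ 2) := by
    refine (Measurable.ennreal_ofReal (Measurable.pow_const
      (Measurable.norm ?_) 2))
    exact (Sf_meas F α N).sub (Finset.measurable_sum _ fun n _ =>
      (dr_meas n).comp (cont_mx F α).measurable)
  have hUe : 1 / U ^ 2 ≤ U ^ (ε - 1) := by
    rw [one_div, ← Real.rpow_natCast, ← Real.rpow_neg hU0.le]
    apply Real.rpow_le_rpow_of_exponent_le hU1'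
    push_cast
    linarith
  calc ∫⁻ ξ in SepF F α U, ENNReal.ofReal (‖Sf F α N ξ - zr (mx F α ξ)‖ ^ 2) ∂(mP (Fin k ⊕ Fin k) U)
      ≤ ∫⁻ ξ in SepF F α U, (ENNReal.ofReal (4 * (C1 ^ 2 + C3 ^ 2) / U ^ 2) +
      (4 * ENNReal.ofReal (‖∑ n ∈ Finset.Ioc N Y, dr (mx F α ξ) n * W (n / U ^ B)‖ ^ 2) +
      4 * ENNReal.ofReal (‖Sf F α N ξ - ∑ n ∈ Finset.Icc 1 N, dr (mx F α ξ) n‖ ^ 2)))
        ∂(mP (Fin k ⊕ Fin k) U) := setLIntegral_mono' (SepF_meas F α U) hpt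
    _ ≤ ∫⁻ ξ, (ENNReal.ofReal (4 * (C1 ^ 2 + C3 ^ 2) / U ^ 2) +
      (4 * ENNReal.ofReal (‖∑ n ∈ Finset.Ioc N Y, dr (mx F α ξ) n * W (n / U ^ B)‖ ^ 2) +
      4 * ENNReal.ofReal (‖Sf F α N ξ - ∑ n ∈ Finset.Icc 1 N, dr (mx F α ξ) n‖ ^ 2)))
        ∂(mP (Fin k ⊕ Fin k) U) := setLIntegral_le_lintegral _ _
    _ = ENNReal.ofReal (4 * (C1 ^ 2 + C3 ^ 2) / U ^ 2) * ENNReal.ofReal (U ^ (2 * k)) +
      (4 * ∫⁻ ξ, ENNReal.ofReal (‖∑ n ∈ Finset.Ioc N Y, dr (mx F α ξ) n * W (n / U ^ B)‖ ^ 2)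
        ∂(mP (Fin k ⊕ Fin k) U) +
      4 * ∫⁻ ξ, ENNReal.ofReal (‖Sf F α N ξ - ∑ n ∈ Finset.Icc 1 N, dr (mx F α ξ) n‖ ^ 2)
        ∂(mP (Fin k ⊕ Fin k) U)) := by
        rw [lintegral_add_left measurable_const, lintegral_const, mP_univ' hU0.le,
          lintegral_add_left hm1, lintegral_const_mul _ hm2, lintegral_const_mul _ hm3]
    _ ≤ ENNReal.ofReal (4 * (C1 ^ 2 + C3 ^ 2) / U ^ 2) * ENNReal.ofReal (U ^ (2 * k)) +
      (4 * ENNReal.ofReal (C2 * U ^ (2 * k) * U ^ (ε - 1)) +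
      4 * ENNReal.ofReal (C2 * U ^ (2 * k) * U ^ (ε - 1))) := by
        gcongr
    _ ≤ _ := by
        have h4 : (4 : ℝ≥0∞) = ENNReal.ofReal 4 := by norm_num
        rw [h4, ← ENNReal.ofReal_mul (by positivity), ← ENNReal.ofReal_mul (by norm_num),
          ← ENNReal.ofReal_add (by positivity) (by positivity),
          ← ENNReal.ofReal_add (by positivity) (by positivity)]
        apply ENNReal.ofReal_le_ofReal
        have h5 : 4 * (C1 ^ 2 + C3 ^ 2) / U ^ 2 * U ^ (2 * k) ≤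
            4 * (C1 ^ 2 + C3 ^ 2) * U ^ (ε - 1) * U ^ (2 * k) := by
          refine mul_le_mul_of_nonneg_right ?_ (by positivity)
          rw [div_eq_mul_one_div]
          exact mul_le_mul_of_nonneg_left hUe (by positivity)
        calc _ ≤ 4 * (C1 ^ 2 + C3 ^ 2) * U ^ (ε - 1) * U ^ (2 * k) +
              (4 * (C2 * U ^ (2 * k) * U ^ (ε - 1)) + 4 * (C2 * U ^ (2 * k) * U ^ (ε - 1))) :=
              add_le_add h5 le_rfl
          _ = _ := by ring

end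

end Pool.Agent.Z72.SF
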