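import Pool.Agent.Z72.SF.Stm
import Pool.Agent.Z72.SQ.Dt

set_option autoImplicit false

/-! # Project SF, part DTF: the tail of the diagonal series is small on average, with fixed shifts -/

namespace Pool.Agent.Z72.SF

open Complex Filter Topology MeasureTheory Set
open Pool.Agent.TH612.GS (z zN PN mP SN zr Sep DD tup ch wt dr IG)
open Pool.Agent.TH612.CF (dg)
open Pool.Agent.W182.KO (tau)
open Pool.Agent.TH367.GS (pl pr mem_tup pl_pos fma_card)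
open Pool.Agent.Z72.SQ (one_coord harm harm_dvd sel sel_some sel_none cont_ch S_MM S_MT)
open scoped ComplexConjugate

noncomputable section

variable {k : ℕ}

/-- the relevant tuples -/
def DF (F : Finset (Fin k)) (N : ℕ) : Finset (Fin k ⊕ Fin k → ℕ) :=
  (tF F N).filter (fun ν => pl ν ∣ pr ν)

lemma mem_tF {F : Finset (Fin k)} {N : ℕ} {ν : Fin k ⊕ Fin k → ℕ} :
    ν ∈ tF F N ↔ ν ∈ tup k N ∧ ∀ j ∈ F, ν (Sum.inl j) = 1 := by
  simp [tF]

lemma mem_DF {F : Finset (Fin k)} {N : ℕ} {ν : Fin k ⊕ Fin k → ℕ} :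
    ν ∈ DF F N ↔ ν ∈ tF F N ∧ pl ν ∣ pr ν := by
  simp [DF]

lemma pr_pos {N : ℕ} {ν : Fin k ⊕ Fin k → ℕ} (h : ν ∈ tup k N) : 1 ≤ pr ν := by
  have h1 : 0 < ∏ j, ν (Sum.inr j) := Finset.prod_pos fun j _ => (mem_tup.1 h (Sum.inr j)).1
  exact h1

lemma coord_dvd {ν : Fin k ⊕ Fin k → ℕ} (h : pl ν ∣ pr ν) (i : Fin k ⊕ Fin k) : ν i ∣ pr ν := by
  rcases i with j | j
  · exact (Finset.dvd_prod_of_mem (fun j => ν (Sum.inl j)) (Finset.mem_univ j)).trans h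
  · exact Finset.dvd_prod_of_mem (fun j => ν (Sum.inr j)) (Finset.mem_univ j)

lemma fiber_cardF (F : Finset (Fin k)) (N n : ℕ) (hn : 1 ≤ n) :
    ((DF F N).filter (fun ν => pr ν = n)).card ≤ n.divisors.card ^ (2 * k) := by
  have h1 : (DF F N).filter (fun ν => pr ν = n) ⊆ Fintype.piFinset fun _ => n.divisors := by
    intro ν hν
    obtain ⟨h2, h3⟩ := Finset.mem_filter.1 hν
    rw [Fintype.mem_piFinset]
    intro i
    rw [Nat.mem_divisors]
    refine ⟨?_, by omega⟩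
    rw [← h3]
    exact coord_dvd (mem_DF.1 h2).2 i
  refine (Finset.card_le_card h1).trans ?_
  rw [Fintype.card_piFinset]
  simp [two_mul]

lemma fiber_leF (F : Finset (Fin k)) (ε : ℝ) (hε : 0 < ε) : ∃ C : ℝ, 0 ≤ C ∧ ∀ N n : ℕ, 1 ≤ n →
    (((DF F N).filter (fun ν => pr ν = n)).card : ℝ) ≤ C * (n : ℝ) ^ ε := by
  obtain ⟨C, hC0, hC⟩ := Pool.Agent.H510R2.divisor_bound (ε / (2 * (k + 1))) (by positivity)
  refine ⟨C ^ (2 * k), by positivity, fun N n hn1 => ?_⟩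
  have hn0 : (0:ℝ) < n := by exact_mod_cast hn1
  have h3 : (((DF F N).filter (fun ν => pr ν = n)).card : ℝ) ≤ (n.divisors.card : ℝ) ^ (2 * k) := by
    exact_mod_cast fiber_cardF F N n hn1
  refine h3.trans ?_
  refine (pow_le_pow_left₀ (by positivity) (hC n hn1) _).trans ?_
  rw [mul_pow, ← Real.rpow_natCast ((n:ℝ) ^ _), ← Real.rpow_mul hn0.le]
  refine mul_le_mul_of_nonneg_left ?_ (by positivity)
  refine Real.rpow_le_rpow_of_exponent_le (by exact_mod_cast hn1) ?_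
  push_cast
  rw [div_mul_eq_mul_div, div_le_iff₀ (by positivity)]
  nlinarith

lemma sum_by_fiberF (F : Finset (Fin k)) (N : ℕ) (P : ℕ → Prop) [DecidablePred P] (f : ℕ → ℝ) (M : ℕ)
    (hM : ∀ ν ∈ DF F N, P (pr ν) → pr ν ≤ M) :
    ∑ ν ∈ (DF F N).filter (fun ν => P (pr ν)), f (pr ν) =
      ∑ n ∈ (Finset.Icc 1 M).filter P, (((DF F N).filter (fun ν => pr ν = n)).card : ℝ) * f n := by
  rw [← Finset.sum_fiberwise_of_maps_to (s := (DF F N).filter (fun ν => P (pr ν)))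
    (t := (Finset.Icc 1 M).filter P) (g := pr)]
  · refine Finset.sum_congr rfl fun n hn => ?_
    have h1 : ((DF F N).filter (fun ν => P (pr ν))).filter (fun ν => pr ν = n) =
        (DF F N).filter (fun ν => pr ν = n) := by
      ext ν
      simp only [Finset.mem_filter]
      constructor
      · rintro ⟨⟨h, _⟩, h'⟩
        exact ⟨h, h'⟩
      · rintro ⟨h, h'⟩
        refine ⟨⟨h, ?_⟩, h'⟩
        rw [h']
        exact (Finset.mem_filter.1 hn).2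
    rw [h1, Finset.sum_congr rfl (g := fun _ => f n), Finset.sum_const, nsmul_eq_mul]
    intro ν hν
    rw [(Finset.mem_filter.1 hν).2]
  · intro ν hν
    obtain ⟨h1, h2⟩ := Finset.mem_filter.1 hν
    rw [Finset.mem_filter, Finset.mem_Icc]
    exact ⟨⟨pr_pos (mem_tF.1 (mem_DF.1 h1).1).1, hM ν h1 h2⟩, h2⟩

lemma pr_le {F : Finset (Fin k)} {N : ℕ} {ν : Fin k ⊕ Fin k → ℕ} (h : ν ∈ DF F N) : pr ν ≤ N ^ k := by
  unfold pr
  refine (Finset.prod_le_pow_card _ _ N fun j _ => ?_).trans (by simp)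
  exact (mem_tup.1 (mem_tF.1 (mem_DF.1 h).1).1 (Sum.inr j)).2

lemma diag_boundF (F : Finset (Fin k)) (ε : ℝ) (hε : 0 < ε) : ∃ K : ℝ, 0 ≤ K ∧ ∀ N : ℕ,
    ∑ ν ∈ DF F N, ((pr ν : ℕ) : ℝ) ^ (-(1 + ε)) ≤ K := by
  obtain ⟨C, hC0, hC⟩ := fiber_leF F (ε / 2) (by positivity)
  have hs : Summable (fun n : ℕ => (n : ℝ) ^ (-(1 + ε / 2))) :=
    Real.summable_nat_rpow.2 (by linarith)
  refine ⟨C * ∑' n : ℕ, (n : ℝ) ^ (-(1 + ε / 2)),
    mul_nonneg (by positivity) (tsum_nonneg fun n => by positivity), fun N => ?_⟩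
  have h1 := sum_by_fiberF F N (fun _ => True) (fun n => (n : ℝ) ^ (-(1 + ε))) (N ^ k)
    (fun ν hν _ => pr_le hν)
  rw [Finset.filter_true, Finset.filter_true] at h1
  rw [h1, ← tsum_mul_left]
  refine le_trans ?_ ((hs.mul_left _).sum_le_tsum (Finset.Icc 1 (N ^ k)) (fun n _ => by positivity))
  refine Finset.sum_le_sum fun n hn => ?_
  have hn1 : 1 ≤ n := (Finset.mem_Icc.1 hn).1
  have hn0 : (0:ℝ) < n := by exact_mod_cast hn1
  calc _ ≤ (C * (n : ℝ) ^ (ε / 2)) * (n : ℝ) ^ (-(1 + ε)) := by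
        gcongr
        exact hC N n hn1
    _ = C * (n : ℝ) ^ (-(1 + ε / 2)) := by
      rw [mul_assoc, ← Real.rpow_add hn0]
      congr 2
      ring

/-- the sums over the tuples with one fixed coordinate -/
lemma coord_boundF (F : Finset (Fin k)) (ε : ℝ) (hε : 0 < ε) : ∃ C : ℝ, 0 ≤ C ∧ ∀ Y m : ℕ, 1 ≤ m → 1 ≤ Y →
    ∑ ν ∈ (DF F Y).filter (fun ν => pr ν ≤ Y ∧ m ∣ pr ν), ((pr ν : ℕ) : ℝ)⁻¹ ≤
      C * (Y : ℝ) ^ ε * (1 + Real.log Y) / m := by
  obtain ⟨C, hC0, hC⟩ := fiber_leF F ε hε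
  refine ⟨C, hC0, fun Y m hm hY => ?_⟩
  have h1 := sum_by_fiberF F Y (fun n => n ≤ Y ∧ m ∣ n) (fun n => (n : ℝ)⁻¹) Y
    (fun ν _ h => h.1)
  rw [h1]
  have h2 : (Finset.Icc 1 Y).filter (fun n => n ≤ Y ∧ m ∣ n) =
      (Finset.Icc 1 Y).filter (fun n => m ∣ n) := by
    refine Finset.filter_congr fun n hn => ?_
    have := (Finset.mem_Icc.1 hn).2
    tauto
  rw [h2]
  have h3 := harm_dvd Y m hm
  calc _ ≤ ∑ n ∈ (Finset.Icc 1 Y).filter (fun n => m ∣ n), C * (Y : ℝ) ^ ε * ((n : ℕ) : ℝ)⁻¹ := by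
        refine Finset.sum_le_sum fun n hn => ?_
        obtain ⟨hn1, hn2⟩ := Finset.mem_Icc.1 (Finset.mem_filter.1 hn).1
        refine mul_le_mul_of_nonneg_right ((hC Y n hn1).trans ?_) (by positivity)
        refine mul_le_mul_of_nonneg_left (Real.rpow_le_rpow (by positivity) ?_ hε.le) hC0
        exact_mod_cast hn2
    _ ≤ _ := by
        rw [← Finset.mul_sum, mul_div_assoc]
        exact mul_le_mul_of_nonneg_left h3 (by positivity)

/-- the coefficients -/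
def cf (F : Finset (Fin k)) (α : Fin k → ℝ) (ν : Fin k ⊕ Fin k → ℕ) : ℂ :=
  ((pr ν : ℕ) : ℂ)⁻¹ * tauF F α (pr ν / pl ν)

lemma tauF_le (F : Finset (Fin k)) (α : Fin k → ℝ) (n : ℕ) (hn : 1 ≤ n) :
    ‖tauF F α n‖ ≤ (n.divisors.card : ℝ) ^ k := by
  unfold tauF
  refine (norm_sum_le _ _).trans ?_
  have h1 : ∀ d ∈ (Nat.finMulAntidiag k n).filter (fun d => ∀ j, j ∉ F → d j = 1),
      ‖∏ j ∈ F, (d j : ℂ) ^ (-(I * (α j : ℂ)))‖ = 1 := by
    intro d hd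
    rw [norm_prod]
    refine Finset.prod_eq_one fun j _ => ?_
    have h2 := (Nat.mem_finMulAntidiag.1 (Finset.mem_filter.1 hd).1).1
    have h3 : d j ∣ n := by
      rw [← h2]
      exact Finset.dvd_prod_of_mem d (Finset.mem_univ j)
    rw [Complex.norm_natCast_cpow_of_pos (Nat.pos_of_dvd_of_pos h3 hn)]
    simp
  rw [Finset.sum_congr rfl h1, Finset.sum_const, nsmul_eq_mul, mul_one]
  have h2 := (Finset.card_filter_le (Nat.finMulAntidiag k n) (fun d => ∀ j, j ∉ F → d j = 1)).trans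
    (fma_card n hn)
  exact_mod_cast h2

lemma cf_le (F : Finset (Fin k)) (α : Fin k → ℝ) (ε : ℝ) (hε : 0 < ε) : ∃ K : ℝ, 0 < K ∧
    ∀ (N : ℕ), ∀ ν ∈ DF F N, ‖cf F α ν‖ ≤ K * ((pr ν : ℕ) : ℝ) ^ ε * ((pr ν : ℕ) : ℝ)⁻¹ := by
  obtain ⟨C, hC0, hC⟩ := Pool.Agent.H510R2.divisor_bound (ε / (k + 1)) (by positivity)
  refine ⟨C ^ k, by positivity, fun N ν hν => ?_⟩
  obtain ⟨h1, h2⟩ := mem_DF.1 hν
  have hp := pr_pos (mem_tF.1 h1).1
  have hl := pl_pos (mem_tF.1 h1).1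
  have hp0 : (0:ℝ) < (pr ν : ℕ) := by exact_mod_cast hp
  unfold cf
  rw [norm_mul, norm_inv, Complex.norm_natCast, mul_comm]
  refine mul_le_mul_of_nonneg_right ?_ (by positivity)
  have hq : 1 ≤ pr ν / pl ν := Nat.div_pos (Nat.le_of_dvd hp h2) hl
  refine (tauF_le F α _ hq).trans ?_
  have h3 : (((pr ν / pl ν).divisors.card : ℕ) : ℝ) ≤ C * ((pr ν : ℕ) : ℝ) ^ (ε / (k + 1)) := by
    refine (hC _ hq).trans ?_
    refine mul_le_mul_of_nonneg_left (Real.rpow_le_rpow (by positivity) ?_ (by positivity)) hC0.le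
    exact_mod_cast Nat.div_le_self _ _
  refine (pow_le_pow_left₀ (by positivity) h3 _).trans ?_
  rw [mul_pow, ← Real.rpow_natCast (((pr ν : ℕ):ℝ) ^ _), ← Real.rpow_mul hp0.le]
  refine mul_le_mul_of_nonneg_left ?_ (by positivity)
  refine Real.rpow_le_rpow_of_exponent_le (by exact_mod_cast hp) ?_
  rw [div_mul_eq_mul_div, div_le_iff₀ (by positivity)]
  nlinarith

/-- the terms with product `n` -/
lemma fiber_sumF (F : Finset (Fin k)) (α : Fin k → ℝ) (Y n : ℕ) (hn : 1 ≤ n) (hnY : n ≤ Y)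
    (ξ : Fin k ⊕ Fin k → ℝ) :
    ∑ ν ∈ (DF F Y).filter (fun ν => pr ν = n), cf F α ν * ch ν ξ = dr (mx F α ξ) n := by
  have e1 : dr (mx F α ξ) n = ∑ p ∈ Nat.finMulAntidiag k n ×ˢ Nat.finMulAntidiag k n,
      ((n : ℕ) : ℂ)⁻¹ * ((∏ j, (p.1 j : ℂ) ^ (-(I * (mx F α ξ (Sum.inl j) : ℂ)))) *
        ∏ j, (p.2 j : ℂ) ^ (I * (mx F α ξ (Sum.inr j) : ℂ))) := by
    rw [Finset.sum_product]
    unfold dr dg tau
    simp_rw [← Finset.mul_sum]
    rw [← Finset.sum_mul]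
    ring
  have e2 : ∑ ν ∈ (DF F Y).filter (fun ν => pr ν = n), cf F α ν * ch ν ξ =
      ∑ q ∈ ((DF F Y).filter (fun ν => pr ν = n)).sigma (fun ν =>
        (Nat.finMulAntidiag k (n / pl ν)).filter (fun d => ∀ j, j ∉ F → d j = 1)),
        ((n : ℕ) : ℂ)⁻¹ * (∏ j ∈ F, (q.2 j : ℂ) ^ (-(I * (α j : ℂ)))) * ch q.1 ξ := by
    rw [Finset.sum_sigma]
    refine Finset.sum_congr rfl fun ν hν => ?_
    unfold cf tauF
    rw [(Finset.mem_filter.1 hν).2, Finset.mul_sum, Finset.sum_mul]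
  rw [e1, e2]
  refine Finset.sum_bij'
    (i := fun q _ => (fun j => q.1 (Sum.inl j) * q.2 j, fun j => q.1 (Sum.inr j)))
    (j := fun p _ => ⟨Sum.elim (fun j => if j ∈ F then 1 else p.1 j) p.2,
      fun j => if j ∈ F then p.1 j else 1⟩) ?_ ?_ ?_ ?_ ?_
  · rintro ⟨ν, d⟩ hq
    rw [Finset.mem_sigma, Finset.mem_filter, mem_DF, mem_tF, Finset.mem_filter,
      Nat.mem_finMulAntidiag] at hq
    obtain ⟨⟨⟨⟨h1, h2⟩, h3⟩, h4⟩, ⟨h5, h6⟩, h7⟩ := hq
    simp only at h1 h2 h3 h4 h5 h6 h7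
    rw [Finset.mem_product, Nat.mem_finMulAntidiag, Nat.mem_finMulAntidiag]
    refine ⟨⟨?_, by omega⟩, ⟨h4, by omega⟩⟩
    simp only
    rw [Finset.prod_mul_distrib, h5]
    have h8 : pl ν ∣ n := by rw [← h4]; exact h3
    exact Nat.mul_div_cancel' h8
  · rintro ⟨g, f⟩ hp
    rw [Finset.mem_product, Nat.mem_finMulAntidiag, Nat.mem_finMulAntidiag] at hp
    obtain ⟨⟨hg, hn0⟩, ⟨hf, _⟩⟩ := hp
    simp only at hg hf hn0
    have bd : ∀ (u : Fin k → ℕ), ∏ i, u i = n → ∀ j, 1 ≤ u j ∧ u j ≤ Y := by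
      intro u hu j
      have hd : u j ∣ n := by rw [← hu]; exact Finset.dvd_prod_of_mem u (Finset.mem_univ j)
      exact ⟨Nat.pos_of_dvd_of_pos hd hn, (Nat.le_of_dvd hn hd).trans hnY⟩
    have hsp : (∏ j, (if j ∈ F then 1 else g j)) * (∏ j, (if j ∈ F then g j else 1)) = n := by
      rw [← Finset.prod_mul_distrib, ← hg]
      refine Finset.prod_congr rfl fun j _ => ?_
      split_ifs <;> simp
    have hpl : pl (Sum.elim (fun j => if j ∈ F then 1 else g j) f) = ∏ j, (if j ∈ F then 1 else g j) := by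
      unfold pl
      rfl
    have hpr : pr (Sum.elim (fun j => if j ∈ F then 1 else g j) f) = n := by
      unfold pr
      exact hf
    have hpl1 : 1 ≤ pl (Sum.elim (fun j => if j ∈ F then 1 else g j) f) := by
      rw [hpl]
      have : 0 < ∏ j, (if j ∈ F then 1 else g j) := by
        refine Finset.prod_pos fun j _ => ?_
        split_ifs
        · exact Nat.one_pos
        · exact (bd g hg j).1
      exact this
    rw [Finset.mem_sigma, Finset.mem_filter, mem_DF, mem_tF, Finset.mem_filter,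
      Nat.mem_finMulAntidiag]
    refine ⟨⟨⟨⟨?_, ?_⟩, ?_⟩, hpr⟩, ⟨?_, ?_⟩, ?_⟩
    · rw [mem_tup]
      rintro (j | j)
      · simp only [Sum.elim_inl]
        split_ifs
        · exact ⟨le_rfl, hn.trans hnY⟩
        · exact bd g hg j
      · exact bd f hf j
    · intro j hj
      simp only [Sum.elim_inl, if_pos hj]
    · simp only
      rw [hpr, hpl]
      exact ⟨_, hsp.symm⟩
    · simp only
      rw [hpl]
      rw [hpl] at hpl1
      refine (Nat.div_eq_of_eq_mul_right hpl1 ?_).symm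
      exact hsp.symm
    · simp only
      have : pl (Sum.elim (fun j => if j ∈ F then 1 else g j) f) ∣ n := by
        rw [hpl]
        exact ⟨_, hsp.symm⟩
      exact (Nat.div_pos (Nat.le_of_dvd hn this) hpl1).ne'
    · intro j hj
      simp only [if_neg hj]
  · rintro ⟨ν, d⟩ hq
    rw [Finset.mem_sigma, Finset.mem_filter, mem_DF, mem_tF, Finset.mem_filter,
      Nat.mem_finMulAntidiag] at hq
    obtain ⟨⟨⟨⟨h1, h2⟩, h3⟩, h4⟩, ⟨h5, h6⟩, h7⟩ := hq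
    simp only at h1 h2 h3 h4 h5 h6 h7
    simp only [Sigma.mk.injEq, heq_eq_eq]
    constructor
    · funext i
      rcases i with j | j
      · simp only [Sum.elim_inl]
        split_ifs with hj
        · exact (h2 j hj).symm
        · rw [h7 j hj, mul_one]
      · rfl
    · funext j
      split_ifs with hj
      · rw [h2 j hj, one_mul]
      · exact (h7 j hj).symm
  · rintro ⟨g, f⟩ _
    simp only [Sum.elim_inl, Sum.elim_inr, Prod.mk.injEq, and_true]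
    funext j
    split_ifs <;> simp
  · rintro ⟨ν, d⟩ hq
    rw [Finset.mem_sigma, Finset.mem_filter, mem_DF, mem_tF, Finset.mem_filter,
      Nat.mem_finMulAntidiag] at hq
    obtain ⟨⟨⟨⟨h1, h2⟩, h3⟩, h4⟩, ⟨h5, h6⟩, h7⟩ := hq
    simp only at h1 h2 h3 h4 h5 h6 h7
    have hpr : ∏ j, ((ν (Sum.inl j) * d j : ℕ) : ℂ) ^ (-(I * (mx F α ξ (Sum.inl j) : ℂ))) =
        (∏ j, (ν (Sum.inl j) : ℂ) ^ (-(I * (ξ (Sum.inl j) : ℂ)))) *
          ∏ j ∈ F, (d j : ℂ) ^ (-(I * (α j : ℂ))) := by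
      have h8 : ∏ j ∈ F, (d j : ℂ) ^ (-(I * (α j : ℂ))) =
          ∏ j, if j ∈ F then (d j : ℂ) ^ (-(I * (α j : ℂ))) else 1 := by
        rw [Finset.prod_ite_mem, Finset.univ_inter]
      rw [h8, ← Finset.prod_mul_distrib]
      refine Finset.prod_congr rfl fun j _ => ?_
      unfold mx
      simp only [Sum.elim_inl]
      by_cases hj : j ∈ F
      · rw [if_pos hj, if_pos hj, h2 j hj]
        simp
      · rw [if_neg hj, if_neg hj, h7 j hj]
        simp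
    simp only
    rw [hpr]
    unfold ch mx
    simp only [Sum.elim_inr]
    ring

/-- sums of `dr` as sums over tuples -/
lemma dr_sumF (F : Finset (Fin k)) (α : Fin k → ℝ) (Y : ℕ) (S : Finset ℕ)
    (hS : ∀ n ∈ S, 1 ≤ n ∧ n ≤ Y) (W : ℕ → ℂ) (ξ : Fin k ⊕ Fin k → ℝ) :
    ∑ n ∈ S, dr (mx F α ξ) n * W n =
      ∑ ν ∈ (DF F Y).filter (fun ν => pr ν ∈ S), (cf F α ν * W (pr ν)) * ch ν ξ := by
  rw [← Finset.sum_fiberwise_of_maps_to (s := (DF F Y).filter (fun ν => pr ν ∈ S))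
    (t := S) (g := pr) (fun ν hν => (Finset.mem_filter.1 hν).2)]
  refine Finset.sum_congr rfl fun n hn => ?_
  obtain ⟨hn1, hn2⟩ := hS n hn
  have h1 : ((DF F Y).filter (fun ν => pr ν ∈ S)).filter (fun ν => pr ν = n) =
      (DF F Y).filter (fun ν => pr ν = n) := by
    ext ν
    simp only [Finset.mem_filter]
    constructor
    · rintro ⟨⟨h, _⟩, h'⟩
      exact ⟨h, h'⟩
    · rintro ⟨h, h'⟩
      refine ⟨⟨h, ?_⟩, h'⟩
      rw [h']
      exact hn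
  rw [h1, ← fiber_sumF F α Y n hn1 hn2 ξ, Finset.sum_mul]
  refine Finset.sum_congr rfl fun ν hν => ?_
  rw [(Finset.mem_filter.1 hν).2]
  ring

/-- the diagonal sum in the same form -/
lemma Sf_eq (F : Finset (Fin k)) (α : Fin k → ℝ) (N : ℕ) (ξ : Fin k ⊕ Fin k → ℝ) :
    Sf F α N ξ = ∑ ν ∈ DF F N, cf F α ν * ch ν ξ := by
  unfold Sf DF
  rw [Finset.sum_filter]
  refine Finset.sum_congr rfl fun ν hν => ?_
  have hp := pr_pos (mem_tF.1 hν).1
  have hl := pl_pos (mem_tF.1 hν).1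
  change (wt ν : ℂ) * ch ν ξ * mF F α (pr ν) (pl ν) = _
  unfold mF cf
  split_ifs with h
  · have h1 : (wt ν : ℂ) * (((pr ν / pl ν : ℕ) : ℕ) : ℂ) ^ (-(1 / 2) : ℂ) = ((pr ν : ℕ) : ℂ)⁻¹ := by
      have hp0 : (0:ℝ) < (pr ν : ℕ) := by exact_mod_cast hp
      have hl0 : (0:ℝ) < (pl ν : ℕ) := by exact_mod_cast hl
      have e1 : (((pr ν / pl ν : ℕ) : ℕ) : ℂ) ^ (-(1 / 2) : ℂ) =
          (((((pr ν : ℕ) : ℝ) / ((pl ν : ℕ) : ℝ)) ^ (-(1 / 2) : ℝ) : ℝ) : ℂ) := by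
        rw [Complex.ofReal_cpow (by positivity)]
        have e2 : (((pr ν / pl ν : ℕ) : ℕ) : ℂ) = ((((pr ν : ℕ) : ℝ) / ((pl ν : ℕ) : ℝ) : ℝ) : ℂ) := by
          rw [Nat.cast_div h (by exact_mod_cast hl0.ne')]
          push_cast
          rfl
        rw [e2]
        push_cast
        rfl
      have e3 : wt ν = (((pl ν : ℕ) : ℝ) * ((pr ν : ℕ) : ℝ)) ^ (-(1 / 2) : ℝ) := by
        unfold wt
        rw [Fintype.prod_sum_type]
        unfold pl pr
        push_cast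
        rfl
      rw [e1, e3, ← Complex.ofReal_mul, ← Real.mul_rpow (by positivity) (by positivity)]
      have e4 : ((pl ν : ℕ) : ℝ) * ((pr ν : ℕ) : ℝ) * (((pr ν : ℕ) : ℝ) / ((pl ν : ℕ) : ℝ)) =
          ((pr ν : ℕ) : ℝ) ^ (2 : ℝ) := by
        rw [show (2:ℝ) = ((2:ℕ) : ℝ) by norm_num, Real.rpow_natCast, pow_two]
        field_simp
      rw [e4, ← Real.rpow_mul hp0.le]
      norm_num
      rw [Real.rpow_neg_one]
      push_cast
      rfl
    calc _ = ((wt ν : ℂ) * (((pr ν / pl ν : ℕ) : ℕ) : ℂ) ^ (-(1 / 2) : ℂ)) *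
          tauF F α (pr ν / pl ν) * ch ν ξ := by ring
      _ = _ := by rw [h1]
  · rw [mul_zero]

/-- the part with all coordinates at most `N` -/
lemma small_partF (hMM : S_MM) (F : Finset (Fin k)) (ε : ℝ) (hε : 0 < ε) (hε1 : ε ≤ 1) (K₀ : ℝ)
    (hK₀ : 0 < K₀) : ∃ C : ℝ, 0 < C ∧
    ∀ (U : ℝ) (N : ℕ) (c : (Fin k ⊕ Fin k → ℕ) → ℂ), 3 ≤ U → U ≤ 2 * N → (N : ℝ) ≤ 16 * U →
    (∀ ν ∈ tup k N, c ν ≠ 0 → ν ∈ DF F N ∧ N < pr ν ∧
      ‖c ν‖ ≤ K₀ * ((pr ν : ℕ) : ℝ) ^ (ε / 4) * ((pr ν : ℕ) : ℝ)⁻¹) →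
    ∫⁻ γ, ENNReal.ofReal (‖∑ ν ∈ tup k N, c ν * ch ν γ‖ ^ 2) ∂(mP (Fin k ⊕ Fin k) U) ≤
      ENNReal.ofReal (C * U ^ (2 * k) * U ^ (ε - 1)) := by
  obtain ⟨C, hC, h⟩ := hMM
  obtain ⟨K, hK0, hK⟩ := diag_boundF F (ε / 2) (by positivity)
  refine ⟨C ^ (2 * k) * (2 * (K₀ ^ 2 * K) + 1), by positivity, fun U N c hU hUN hNU hc => ?_⟩
  have hU0 : 0 < U := by linarith
  have hN0 : (0:ℝ) < N := by linarith
  have hN1 : 1 ≤ N := by exact_mod_cast (Nat.cast_pos.1 hN0)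
  refine (h k N U c hN1 (by linarith) hNU).trans (ENNReal.ofReal_le_ofReal ?_)
  have h1 : ∑ ν ∈ tup k N, ‖c ν‖ ^ 2 ≤ (N : ℝ) ^ (ε - 1) * (K₀ ^ 2 * K) := by
    have h5 : ∑ ν ∈ tup k N, ‖c ν‖ ^ 2 ≤
        ∑ ν ∈ DF F N, (N : ℝ) ^ (ε - 1) * (K₀ ^ 2 * ((pr ν : ℕ) : ℝ) ^ (-(1 + ε / 2))) := by
      have hsub : DF F N ⊆ tup k N := fun ν hν => (mem_tF.1 (mem_DF.1 hν).1).1
      rw [← Finset.sum_subset hsub]
      · refine Finset.sum_le_sum fun ν hν => ?_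
        by_cases h0 : c ν = 0
        · rw [h0, norm_zero, zero_pow two_ne_zero]
          positivity
        · obtain ⟨_, h3, h4⟩ := hc ν (hsub hν) h0
          have hp0 : (0:ℝ) < (pr ν : ℕ) := by exact_mod_cast pr_pos (hsub hν)
          calc ‖c ν‖ ^ 2 ≤ (K₀ * ((pr ν : ℕ) : ℝ) ^ (ε / 4) * ((pr ν : ℕ) : ℝ)⁻¹) ^ 2 :=
                pow_le_pow_left₀ (norm_nonneg _) h4 2
            _ = ((pr ν : ℕ) : ℝ) ^ (ε - 1) * (K₀ ^ 2 * ((pr ν : ℕ) : ℝ) ^ (-(1 + ε / 2))) := by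
              have e1 : (((pr ν : ℕ) : ℝ) ^ (ε / 4)) ^ 2 = ((pr ν : ℕ) : ℝ) ^ (ε / 2) := by
                rw [← Real.rpow_natCast, ← Real.rpow_mul hp0.le]
                congr 1
                push_cast
                ring
              have e2 : (((pr ν : ℕ) : ℝ)⁻¹) ^ 2 = ((pr ν : ℕ) : ℝ) ^ (-2 : ℝ) := by
                rw [← Real.rpow_neg_one, ← Real.rpow_natCast, ← Real.rpow_mul hp0.le]
                norm_num
              have e3 : ((pr ν : ℕ) : ℝ) ^ (ε - 1) * ((pr ν : ℕ) : ℝ) ^ (-(1 + ε / 2)) =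
                  ((pr ν : ℕ) : ℝ) ^ (ε / 2) * ((pr ν : ℕ) : ℝ) ^ (-2 : ℝ) := by
                rw [← Real.rpow_add hp0, ← Real.rpow_add hp0]
                congr 1
                ring
              rw [mul_pow, mul_pow, e1, e2]
              calc K₀ ^ 2 * ((pr ν : ℕ) : ℝ) ^ (ε / 2) * ((pr ν : ℕ) : ℝ) ^ (-2 : ℝ) =
                    K₀ ^ 2 * (((pr ν : ℕ) : ℝ) ^ (ε / 2) * ((pr ν : ℕ) : ℝ) ^ (-2 : ℝ)) := by ring
                _ = _ := by
                    rw [← e3]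
                    ring
            _ ≤ _ := by
              refine mul_le_mul_of_nonneg_right ?_ (by positivity)
              exact Real.rpow_le_rpow_of_nonpos hN0 (by exact_mod_cast h3.le) (by linarith)
      · intro ν hν hν2
        by_contra h0
        have h0' : c ν ≠ 0 := by
          intro h6
          exact h0 (by rw [h6, norm_zero, zero_pow two_ne_zero])
        exact hν2 (hc ν hν h0').1
    refine h5.trans ?_
    rw [← Finset.mul_sum, ← Finset.mul_sum]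
    exact mul_le_mul_of_nonneg_left (mul_le_mul_of_nonneg_left (hK N) (by positivity)) (by positivity)
  have h2 : (N : ℝ) ^ (ε - 1) ≤ 2 * U ^ (ε - 1) := by
    calc (N : ℝ) ^ (ε - 1) ≤ (U / 2) ^ (ε - 1) :=
          Real.rpow_le_rpow_of_nonpos (by positivity) (by linarith) (by linarith)
      _ = U ^ (ε - 1) * (1 / 2) ^ (ε - 1) := by
        rw [div_eq_mul_one_div, Real.mul_rpow hU0.le (by norm_num)]
      _ ≤ U ^ (ε - 1) * 2 := by
        refine mul_le_mul_of_nonneg_left ?_ (by positivity)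
        calc ((1:ℝ) / 2) ^ (ε - 1) ≤ (1 / 2) ^ (-1 : ℝ) :=
              Real.rpow_le_rpow_of_exponent_ge (by norm_num) (by norm_num) (by linarith)
          _ = 2 := by
            rw [Real.rpow_neg_one]
            norm_num
      _ = _ := by ring
  rw [mul_pow]
  have hUe : 0 < U ^ (ε - 1) := by positivity
  have hKK : 0 ≤ K₀ ^ 2 * K := by positivity
  calc C ^ (2 * k) * U ^ (2 * k) * ∑ ν ∈ tup k N, ‖c ν‖ ^ 2
      ≤ C ^ (2 * k) * U ^ (2 * k) * (2 * U ^ (ε - 1) * (K₀ ^ 2 * K)) := by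
        gcongr
        exact h1.trans (mul_le_mul_of_nonneg_right h2 hKK)
    _ ≤ _ := by
        have : 0 ≤ C ^ (2 * k) * U ^ (2 * k) * U ^ (ε - 1) := by positivity
        nlinarith

/-- the part with a given coordinate above `N` -/
lemma large_partF (hMT : S_MT) (F : Finset (Fin k)) (B : ℕ) (ε : ℝ) (hε : 0 < ε) : ∃ e : ℝ, 0 < e ∧
    ∀ K₀ : ℝ, 0 < K₀ → ∃ C : ℝ, 0 < C ∧
    ∀ (U : ℝ) (N Y : ℕ) (i : Fin k ⊕ Fin k) (A : Finset (Fin k ⊕ Fin k → ℕ))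
    (c : (Fin k ⊕ Fin k → ℕ) → ℂ), 3 ≤ U → U ≤ 2 * N → 1 ≤ Y → (Y : ℝ) ≤ U ^ B →
    A ⊆ (DF F Y).filter (fun ν => pr ν ≤ Y) → (∀ ν ∈ A, N < ν i) →
    (∀ ν ∈ A, ‖c ν‖ ≤ K₀ * ((pr ν : ℕ) : ℝ) ^ e * ((pr ν : ℕ) : ℝ)⁻¹) →
    ∫⁻ γ, ENNReal.ofReal (‖∑ ν ∈ A, c ν * ch ν γ‖ ^ 2) ∂(mP (Fin k ⊕ Fin k) U) ≤
      ENNReal.ofReal (C * U ^ (2 * k) * U ^ (ε - 1)) := by
  obtain ⟨C, hC, h⟩ := one_coord hMT
  set e : ℝ := ε / (8 * (B + 1)) with he
  have he0 : 0 < e := by positivity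
  obtain ⟨D, hD0, hD⟩ := coord_boundF F e he0
  refine ⟨e, he0, fun K₀ hK₀ => ⟨C * (K₀ * D) ^ 2 * (1 + 1 / e) ^ 4 + 1, by positivity,
    fun U N Y i A c hU hUN hY hYU hA hAi hc => ?_⟩⟩
  have hU0 : 0 < U := by linarith
  have hN0 : (0:ℝ) < N := by linarith
  have hN1 : 1 ≤ N := by exact_mod_cast (Nat.cast_pos.1 hN0)
  have hY1 : (1:ℝ) ≤ Y := by exact_mod_cast hY
  have hY0 : (0:ℝ) < Y := by linarith
  have hlogY : 0 ≤ Real.log Y := Real.log_nonneg hY1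
  have hk : 1 ≤ k := by
    rcases i with j | j
    · exact j.pos
    · exact j.pos
  have hA' : ∀ ν ∈ A, ν ∈ DF F Y ∧ pr ν ≤ Y := fun ν hν => Finset.mem_filter.1 (hA hν)
  have hAt : ∀ ν ∈ A, ν ∈ tup k Y := fun ν hν => (mem_tF.1 (mem_DF.1 (hA' ν hν).1).1).1
  have h1 := h k i N Y U A c hN1 hY hU0.le hUN
    (fun ν hν j => (mem_tup.1 (hAt ν hν) j).1)
    (fun ν hν => ⟨hAi ν hν, (mem_tup.1 (hAt ν hν) i).2⟩)
  refine h1.trans (ENNReal.ofReal_le_ofReal ?_)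
  have hYe0 : 0 < (Y : ℝ) ^ e := by positivity
  have h2 : ∀ m ∈ Finset.Ioc N Y, (m : ℝ) * (∑ ν ∈ A.filter (fun ν => ν i = m), ‖c ν‖) ^ 2 ≤
      (K₀ * D * ((Y : ℝ) ^ e) ^ 2 * (1 + Real.log Y)) ^ 2 * (m : ℝ)⁻¹ := by
    intro m hm
    have hm1 : 1 ≤ m := by
      have := (Finset.mem_Ioc.1 hm).1
      omega
    have hm0 : (0:ℝ) < m := by exact_mod_cast hm1
    have h3 : ∑ ν ∈ A.filter (fun ν => ν i = m), ‖c ν‖ ≤
        K₀ * (Y : ℝ) ^ e * (D * (Y : ℝ) ^ e * (1 + Real.log Y) / m) := by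
      refine le_trans ?_ (mul_le_mul_of_nonneg_left (hD Y m hm1 hY) (by positivity))
      rw [Finset.mul_sum]
      calc ∑ ν ∈ A.filter (fun ν => ν i = m), ‖c ν‖
          ≤ ∑ ν ∈ A.filter (fun ν => ν i = m), K₀ * (Y : ℝ) ^ e * ((pr ν : ℕ) : ℝ)⁻¹ := by
            refine Finset.sum_le_sum fun ν hν => ?_
            have h4 := (Finset.mem_filter.1 hν).1
            refine (hc ν h4).trans (mul_le_mul_of_nonneg_right ?_ (by positivity))
            refine mul_le_mul_of_nonneg_left (Real.rpow_le_rpow (by positivity) ?_ he0.le) hK₀.le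
            exact_mod_cast (hA' ν h4).2
        _ ≤ _ := by
            refine Finset.sum_le_sum_of_subset_of_nonneg ?_ fun ν _ _ => by positivity
            intro ν hν
            obtain ⟨h4, h5⟩ := Finset.mem_filter.1 hν
            obtain ⟨h6, h7⟩ := hA' ν h4
            rw [Finset.mem_filter]
            refine ⟨h6, h7, ?_⟩
            rw [← h5]
            exact coord_dvd (mem_DF.1 h6).2 i
    calc (m : ℝ) * (∑ ν ∈ A.filter (fun ν => ν i = m), ‖c ν‖) ^ 2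
        ≤ (m : ℝ) * (K₀ * (Y : ℝ) ^ e * (D * (Y : ℝ) ^ e * (1 + Real.log Y) / m)) ^ 2 := by
          have : 0 ≤ ∑ ν ∈ A.filter (fun ν => ν i = m), ‖c ν‖ := Finset.sum_nonneg fun _ _ => norm_nonneg _
          gcongr
      _ = _ := by
          field_simp
  have h3 : ∑ m ∈ Finset.Ioc N Y, (m : ℝ)⁻¹ ≤ 1 + Real.log Y := by
    refine le_trans (Finset.sum_le_sum_of_subset_of_nonneg ?_ fun q _ _ => by positivity) (harm Y)
    intro m hm
    rw [Finset.mem_Ioc] at hm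
    rw [Finset.mem_Icc]
    omega
  have h4 : ∑ m ∈ Finset.Ioc N Y, (m : ℝ) * (∑ ν ∈ A.filter (fun ν => ν i = m), ‖c ν‖) ^ 2 ≤
      (K₀ * D * ((Y : ℝ) ^ e) ^ 2 * (1 + Real.log Y)) ^ 2 * (1 + Real.log Y) := by
    refine (Finset.sum_le_sum h2).trans ?_
    rw [← Finset.mul_sum]
    exact mul_le_mul_of_nonneg_left h3 (by positivity)
  have hYe : 1 ≤ (Y : ℝ) ^ e := Real.one_le_rpow hY1 he0.le
  have h5 : 1 + Real.log Y ≤ (1 + 1 / e) * (Y : ℝ) ^ e := by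
    have := Real.log_le_rpow_div hY0.le he0
    rw [add_mul, one_mul, one_div, inv_mul_eq_div]
    linarith
  have h6 : ((Y : ℝ) ^ e) ^ 8 ≤ U ^ ε := by
    rw [← Real.rpow_natCast, ← Real.rpow_mul hY0.le]
    calc (Y : ℝ) ^ (e * ((8 : ℕ) : ℝ)) ≤ (U ^ B) ^ (e * ((8 : ℕ) : ℝ)) :=
          Real.rpow_le_rpow hY0.le hYU (by positivity)
      _ = U ^ ((B : ℝ) * (e * ((8 : ℕ) : ℝ))) := by
          rw [← Real.rpow_natCast, ← Real.rpow_mul hU0.le]
      _ ≤ U ^ ε := by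
          refine Real.rpow_le_rpow_of_exponent_le (by linarith) ?_
          rw [he]
          push_cast
          have : (B : ℝ) * (ε / (8 * (B + 1)) * 8) = ε * (B / (B + 1)) := by
            field_simp
          rw [this]
          have h7 : (B : ℝ) / (B + 1) ≤ 1 := by
            rw [div_le_one (by positivity)]
            linarith
          nlinarith
  have h7 : U ^ (2 * k - 1) = U ^ (2 * k) * U⁻¹ := by
    have : U ^ (2 * k) = U ^ (2 * k - 1) * U := by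
      rw [← pow_succ]
      congr 1
      omega
    rw [this]
    field_simp
  have h8 : U ^ (ε - 1) = U ^ ε * U⁻¹ := by
    rw [Real.rpow_sub hU0, Real.rpow_one]
    ring
  calc C * (1 + Real.log Y) * (∑ m ∈ Finset.Ioc N Y, (m : ℝ) *
        (∑ ν ∈ A.filter (fun ν => ν i = m), ‖c ν‖) ^ 2) * U ^ (2 * k - 1)
      ≤ C * (1 + Real.log Y) * ((K₀ * D * ((Y : ℝ) ^ e) ^ 2 * (1 + Real.log Y)) ^ 2 * (1 + Real.log Y)) *
        U ^ (2 * k - 1) := by gcongr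
    _ = C * (K₀ * D) ^ 2 * ((1 + Real.log Y) ^ 4 * ((Y : ℝ) ^ e) ^ 4) * U ^ (2 * k - 1) := by ring
    _ ≤ C * (K₀ * D) ^ 2 * (((1 + 1 / e) * (Y : ℝ) ^ e) ^ 4 * ((Y : ℝ) ^ e) ^ 4) * U ^ (2 * k - 1) := by
        gcongr
    _ = C * (K₀ * D) ^ 2 * (1 + 1 / e) ^ 4 * ((Y : ℝ) ^ e) ^ 8 * U ^ (2 * k - 1) := by ring
    _ ≤ C * (K₀ * D) ^ 2 * (1 + 1 / e) ^ 4 * U ^ ε * U ^ (2 * k - 1) := by gcongr
    _ = C * (K₀ * D) ^ 2 * (1 + 1 / e) ^ 4 * U ^ (2 * k) * U ^ (ε - 1) := by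
        rw [h7, h8]
        ring
    _ ≤ _ := by
        have : 0 ≤ U ^ (2 * k) * U ^ (ε - 1) := by positivity
        nlinarith

theorem t_DTF (hMM : S_MM) (hMT : S_MT) : S_DTF := by
  intro k F α B ε hε
  set ε₁ : ℝ := min ε 1 with hε₁
  have hε₁0 : 0 < ε₁ := lt_min hε one_pos
  have hε₁1 : ε₁ ≤ 1 := min_le_right _ _
  have hε₁ε : ε₁ ≤ ε := min_le_left _ _
  obtain ⟨e, he0, h₂'⟩ := large_partF hMT F B ε₁ hε₁0
  obtain ⟨K₁, hK₁, hcf1⟩ := cf_le F α (ε₁ / 4) (by positivity)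
  obtain ⟨K₂, hK₂, hcf2⟩ := cf_le F α e he0
  obtain ⟨C₁, hC₁, h₁⟩ := small_partF hMM F ε₁ hε₁0 hε₁1 K₁ hK₁
  obtain ⟨C₂, hC₂, h₂⟩ := h₂' K₂ hK₂
  set n₀ : ℝ := (Fintype.card (Option (Fin k ⊕ Fin k)) : ℝ) with hn₀
  have hn₀0 : 0 < n₀ := by
    rw [hn₀]
    exact_mod_cast Fintype.card_pos
  refine ⟨n₀ ^ 2 * (C₁ + C₂) + C₁, by positivity, fun U N hU hUN hNU => ?_⟩
  have hU0 : 0 < U := by linarith
  have hUe : U ^ (ε₁ - 1) ≤ U ^ (ε - 1) :=
    Real.rpow_le_rpow_of_exponent_le (by linarith) (by linarith)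
  have hUk : 0 ≤ U ^ (2 * k) * U ^ (ε - 1) := by positivity
  have hUk1 : 0 ≤ U ^ (2 * k) * U ^ (ε₁ - 1) := by positivity
  have hUkk : U ^ (2 * k) * U ^ (ε₁ - 1) ≤ U ^ (2 * k) * U ^ (ε - 1) :=
    mul_le_mul_of_nonneg_left hUe (by positivity)
  constructor
  · intro W hW Y hYU
    rcases Nat.eq_zero_or_pos Y with hY0 | hY
    · subst hY0
      simp
    set D : Finset (Fin k ⊕ Fin k → ℕ) := (DF F Y).filter (fun ν => pr ν ∈ Finset.Ioc N Y) with hD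
    set c : (Fin k ⊕ Fin k → ℕ) → ℂ := fun ν => cf F α ν * W (pr ν) with hc
    have hcn : ∀ ν, ‖c ν‖ ≤ ‖cf F α ν‖ := by
      intro ν
      simp only [hc]
      rw [norm_mul]
      exact mul_le_of_le_one_right (norm_nonneg _) (hW _)
    have hF : ∀ γ : Fin k ⊕ Fin k → ℝ, ∑ n ∈ Finset.Ioc N Y, dr (mx F α γ) n * W n =
        ∑ o : Option (Fin k ⊕ Fin k), ∑ ν ∈ D.filter (fun ν => sel N ν = o), c ν * ch ν γ := by
      intro γ
      rw [dr_sumF F α Y (Finset.Ioc N Y) (fun n hn => by rw [Finset.mem_Ioc] at hn; omega) W γ]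
      rw [Finset.sum_fiberwise]
    have hD1 : ∀ ν ∈ D, ∀ j, 1 ≤ ν j := fun ν hν j =>
      (mem_tup.1 (mem_tF.1 (mem_DF.1 (Finset.mem_filter.1 hν).1).1).1 j).1
    set G : Option (Fin k ⊕ Fin k) → (Fin k ⊕ Fin k → ℝ) → ℂ :=
      fun o γ => ∑ ν ∈ D.filter (fun ν => sel N ν = o), c ν * ch ν γ with hG
    have hGc : ∀ o, Continuous (G o) := fun o =>
      continuous_finset_sum _ fun ν hν =>
        continuous_const.mul (cont_ch (hD1 ν (Finset.mem_filter.1 hν).1))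
    have hpart : ∀ o, ∫⁻ γ, ENNReal.ofReal (‖G o γ‖ ^ 2) ∂(mP (Fin k ⊕ Fin k) U) ≤
        ENNReal.ofReal ((C₁ + C₂) * U ^ (2 * k) * U ^ (ε₁ - 1)) := by
      intro o
      rcases o with _ | i
      · set c₀ : (Fin k ⊕ Fin k → ℕ) → ℂ :=
          fun ν => if ν ∈ DF F N ∧ N < pr ν ∧ pr ν ≤ Y then c ν else 0 with hc₀
        have h3 : ∀ γ, G none γ = ∑ ν ∈ tup k N, c₀ ν * ch ν γ := by
          intro γ
          simp only [hG, hc₀, ite_mul, zero_mul]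
          rw [← Finset.sum_filter]
          refine Finset.sum_congr ?_ fun _ _ => rfl
          ext ν
          simp only [hD, Finset.mem_filter, mem_DF, mem_tF, Finset.mem_Ioc, mem_tup]
          constructor
          · rintro ⟨⟨⟨⟨h4, h5⟩, h6⟩, h6', h6''⟩, h7⟩
            have h8 : ∀ i, 1 ≤ ν i ∧ ν i ≤ N := fun i => ⟨(h4 i).1, sel_none h7 i⟩
            exact ⟨h8, ⟨⟨h8, h5⟩, h6⟩, h6', h6''⟩
          · rintro ⟨h4, ⟨⟨_, h5⟩, h6⟩, h6', h6''⟩
            have hpp : 1 ≤ pr ν := by omega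
            have hpl : ∀ i, ν i ≤ pr ν := fun i => Nat.le_of_dvd hpp (coord_dvd h6 i)
            refine ⟨⟨⟨⟨fun i => ⟨(h4 i).1, (hpl i).trans h6''⟩, h5⟩, h6⟩, h6', h6''⟩, ?_⟩
            unfold sel
            rw [dif_neg]
            push Not
            exact fun i => (h4 i).2
        simp_rw [h3]
        refine (h₁ U N c₀ hU hUN hNU ?_).trans (ENNReal.ofReal_le_ofReal ?_)
        · intro ν _ hne
          simp only [hc₀] at hne ⊢
          split_ifs at hne with h4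
          · rw [if_pos h4]
            exact ⟨h4.1, h4.2.1, (hcn ν).trans (hcf1 N ν h4.1)⟩
          · exact absurd rfl hne
        · nlinarith
      · refine (h₂ U N Y i _ c hU hUN hY hYU ?_ ?_ ?_).trans (ENNReal.ofReal_le_ofReal ?_)
        · intro ν hν
          obtain ⟨h3, _⟩ := Finset.mem_filter.1 hν
          obtain ⟨h4, h5⟩ := Finset.mem_filter.1 h3
          exact Finset.mem_filter.2 ⟨h4, (Finset.mem_Ioc.1 h5).2⟩
        · intro ν hν
          exact sel_some (Finset.mem_filter.1 hν).2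
        · intro ν hν
          exact (hcn ν).trans (hcf2 Y ν (Finset.mem_filter.1 (Finset.mem_filter.1 hν).1).1)
        · nlinarith
    calc ∫⁻ γ, ENNReal.ofReal (‖∑ n ∈ Finset.Ioc N Y, dr (mx F α γ) n * W n‖ ^ 2) ∂(mP (Fin k ⊕ Fin k) U)
        ≤ ∫⁻ γ, ENNReal.ofReal n₀ * ∑ o, ENNReal.ofReal (‖G o γ‖ ^ 2) ∂(mP (Fin k ⊕ Fin k) U) := by
          refine lintegral_mono fun γ => ?_
          rw [hF, ← ENNReal.ofReal_sum_of_nonneg (fun o _ => by positivity),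
            ← ENNReal.ofReal_mul hn₀0.le]
          refine ENNReal.ofReal_le_ofReal ?_
          calc ‖∑ o, G o γ‖ ^ 2 ≤ (∑ o, ‖G o γ‖) ^ 2 :=
                pow_le_pow_left₀ (norm_nonneg _) (norm_sum_le _ _) 2
            _ ≤ _ := by
                have := sq_sum_le_card_mul_sum_sq (s := Finset.univ) (f := fun o => ‖G o γ‖)
                rw [Finset.card_univ] at this
                exact this
      _ = ENNReal.ofReal n₀ * ∑ o, ∫⁻ γ, ENNReal.ofReal (‖G o γ‖ ^ 2) ∂(mP (Fin k ⊕ Fin k) U) := by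
          have hm : ∀ o, Measurable fun γ => ENNReal.ofReal (‖G o γ‖ ^ 2) := fun o =>
            (ENNReal.continuous_ofReal.comp ((hGc o).norm.pow 2)).measurable
          rw [lintegral_const_mul _ (Finset.measurable_sum _ fun o _ => hm o),
            lintegral_finset_sum _ fun o _ => hm o]
      _ ≤ ENNReal.ofReal n₀ * ∑ _o : Option (Fin k ⊕ Fin k),
            ENNReal.ofReal ((C₁ + C₂) * U ^ (2 * k) * U ^ (ε₁ - 1)) := by
          gcongr with o _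
          exact hpart o
      _ = ENNReal.ofReal (n₀ * (n₀ * ((C₁ + C₂) * U ^ (2 * k) * U ^ (ε₁ - 1)))) := by
          rw [Finset.sum_const, Finset.card_univ, nsmul_eq_mul, ENNReal.ofReal_mul hn₀0.le,
            ENNReal.ofReal_mul hn₀0.le, hn₀, ENNReal.ofReal_natCast]
      _ ≤ _ := by
          refine ENNReal.ofReal_le_ofReal ?_
          have h3 : n₀ * (n₀ * ((C₁ + C₂) * U ^ (2 * k) * U ^ (ε₁ - 1))) =
              n₀ ^ 2 * (C₁ + C₂) * (U ^ (2 * k) * U ^ (ε₁ - 1)) := by ring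
          rw [h3]
          have h4 : n₀ ^ 2 * (C₁ + C₂) * (U ^ (2 * k) * U ^ (ε₁ - 1)) ≤
              n₀ ^ 2 * (C₁ + C₂) * (U ^ (2 * k) * U ^ (ε - 1)) :=
            mul_le_mul_of_nonneg_left hUkk (by positivity)
          nlinarith
  · set c₀ : (Fin k ⊕ Fin k → ℕ) → ℂ :=
      fun ν => if ν ∈ DF F N ∧ N < pr ν then cf F α ν else 0 with hc₀
    have h3 : ∀ ξ : Fin k ⊕ Fin k → ℝ, Sf F α N ξ - ∑ n ∈ Finset.Icc 1 N, dr (mx F α ξ) n =
        ∑ ν ∈ tup k N, c₀ ν * ch ν ξ := by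
      intro ξ
      have h4 := dr_sumF F α N (Finset.Icc 1 N) (fun n hn => by rw [Finset.mem_Icc] at hn; exact hn)
        (fun _ => 1) ξ
      simp only [mul_one] at h4
      rw [h4, Sf_eq, Finset.sum_filter, ← Finset.sum_sub_distrib]
      simp only [hc₀, ite_mul, zero_mul]
      rw [← Finset.sum_filter]
      have h6 : (tup k N).filter (fun ν => ν ∈ DF F N ∧ N < pr ν) =
          (DF F N).filter (fun ν => N < pr ν) := by
        ext ν
        simp only [Finset.mem_filter]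
        constructor
        · rintro ⟨_, h⟩
          exact h
        · intro h
          exact ⟨(mem_tF.1 (mem_DF.1 h.1).1).1, h⟩
      rw [h6, Finset.sum_filter]
      refine Finset.sum_congr rfl fun ν hν => ?_
      have hp := pr_pos (mem_tF.1 (mem_DF.1 hν).1).1
      simp only [Finset.mem_Icc]
      by_cases h7 : N < pr ν
      · rw [if_pos h7, if_neg (by omega)]
        ring
      · rw [if_neg h7, if_pos ⟨hp, by omega⟩]
        ring
    simp_rw [h3]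
    refine (h₁ U N c₀ hU hUN hNU ?_).trans (ENNReal.ofReal_le_ofReal ?_)
    · intro ν _ hne
      simp only [hc₀] at hne ⊢
      split_ifs at hne with h4
      · rw [if_pos h4]
        exact ⟨h4.1, h4.2, hcf1 N ν h4.1⟩
      · exact absurd rfl hne
    · have : 0 ≤ n₀ ^ 2 * (C₁ + C₂) := by positivity
      have h5 : C₁ * (U ^ (2 * k) * U ^ (ε₁ - 1)) ≤ C₁ * (U ^ (2 * k) * U ^ (ε - 1)) :=
        mul_le_mul_of_nonneg_left hUkk hC₁.le
      nlinarith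

end

end Pool.Agent.Z72.SF
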