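import Pool.Agent.Z72.SF.Stm
import Pool.Agent.TH637.GF.NA

set_option autoImplicit false

/-!
Project SF, part NAF: almost all vectors are separated.
-/

namespace Pool.Agent.Z72.SF

open Complex Filter Topology MeasureTheory Set
open Pool.Agent.TH612.GS
open Pool.Agent.TH637.GF (slab_pi)

noncomputable section

lemma naF (k : ℕ) (F : Finset (Fin k)) (α : Fin k → ℝ) (T : ℝ) (hT : 1 ≤ T) :
    mP (Fin k ⊕ Fin k) T (SepF F α T)ᶜ ≤ ENNReal.ofReal ((8 * k ^ 2 + 1) * T ^ (2 * k - 1 / 2 : ℝ)) := by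
  have hT0 : (0 : ℝ) < T := by linarith
  set r : ℝ := T ^ (1 / 2 : ℝ) with hr
  have hr0 : 0 ≤ r := by positivity
  have hsub : (SepF F α T)ᶜ ⊆ (⋃ i : Fin k ⊕ Fin k, Function.eval i ⁻¹' (Icc 0 T)ᶜ) ∪
      (⋃ i : (Fin k ⊕ Fin k) × (Fin k ⊕ Fin k), {ξ : Fin k ⊕ Fin k → ℝ | i.1 ≠ i.2 ∧
        ¬ (inF F i.1 ∧ inF F i.2) ∧ |mx F α ξ i.1 - mx F α ξ i.2| < r}) := by
    intro β hβ
    by_cases h : ∀ i, 0 ≤ β i ∧ β i ≤ T
    · right
      have h3 : ¬ ∀ p q, p ≠ q → ¬ (inF F p ∧ inF F q) → T ^ (1 / 2 : ℝ) ≤ |mx F α β p - mx F α β q| :=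
        fun h3 => hβ ⟨h, h3⟩
      by_contra hcon
      apply h3
      intro p q hpq hF
      by_contra hlt
      exact hcon (Set.mem_iUnion.2 ⟨(p, q), hpq, hF, not_le.1 hlt⟩)
    · left
      rw [not_forall] at h
      obtain ⟨i, hi⟩ := h
      exact Set.mem_iUnion.2 ⟨i, hi⟩
  have hnull : mP (Fin k ⊕ Fin k) T (⋃ i : Fin k ⊕ Fin k, Function.eval i ⁻¹' (Icc 0 T)ᶜ) = 0 := by
    rw [measure_iUnion_null_iff]
    intro i
    apply Measure.pi_eval_preimage_null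
    rw [Measure.restrict_apply measurableSet_Icc.compl]
    simp
  have hpow : ∀ _ : Fin k ⊕ Fin k,
      ENNReal.ofReal (2 * r) * ENNReal.ofReal T ^ (Fintype.card (Fin k ⊕ Fin k) - 1) ≤
      ENNReal.ofReal (2 * T ^ (2 * k - 1 / 2 : ℝ)) := by
    intro p
    have hk : 1 ≤ k := by
      rcases p with p | p
      · exact p.pos
      · exact p.pos
    rw [Fintype.card_sum, Fintype.card_fin, ← ENNReal.ofReal_pow hT0.le, ← ENNReal.ofReal_mul (by positivity)]
    apply ENNReal.ofReal_le_ofReal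
    have h5 : T ^ (2 * k - 1 / 2 : ℝ) = r * T ^ (k + k - 1 : ℕ) := by
      rw [hr, ← Real.rpow_natCast, ← Real.rpow_add hT0]
      congr 1
      rw [Nat.cast_sub (by omega)]
      push_cast
      ring
    rw [h5]
    apply le_of_eq
    ring
  have hpair : ∀ i : (Fin k ⊕ Fin k) × (Fin k ⊕ Fin k),
      mP (Fin k ⊕ Fin k) T {ξ : Fin k ⊕ Fin k → ℝ | i.1 ≠ i.2 ∧
        ¬ (inF F i.1 ∧ inF F i.2) ∧ |mx F α ξ i.1 - mx F α ξ i.2| < r} ≤
      ENNReal.ofReal (2 * T ^ (2 * k - 1 / 2 : ℝ)) := by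
    rintro ⟨p, q⟩
    simp only
    by_cases hpq : p = q
    · have : {ξ : Fin k ⊕ Fin k → ℝ | p ≠ q ∧
        ¬ (inF F p ∧ inF F q) ∧ |mx F α ξ p - mx F α ξ q| < r} = ∅ := by
        ext γ
        simp [hpq]
      rw [this, measure_empty]
      exact zero_le
    · have hmx : ∀ (i : Fin k ⊕ Fin k), (∃ a : ℝ, ∀ ξ : Fin k ⊕ Fin k → ℝ, mx F α ξ i = a) ∧ inF F i ∨
          (∀ ξ : Fin k ⊕ Fin k → ℝ, mx F α ξ i = ξ i) := by
        intro i
        rcases i with j | j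
        · by_cases hj : j ∈ F
          · left
            refine ⟨⟨α j, fun ξ => ?_⟩, hj⟩
            unfold mx
            simp only [Sum.elim_inl, if_pos hj]
          · right
            intro ξ
            unfold mx
            simp only [Sum.elim_inl, if_neg hj]
        · right
          intro ξ
          rfl
      by_cases hF : inF F p ∧ inF F q
      · have : {ξ : Fin k ⊕ Fin k → ℝ | p ≠ q ∧
          ¬ (inF F p ∧ inF F q) ∧ |mx F α ξ p - mx F α ξ q| < r} = ∅ := by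
          ext γ
          simp [hF]
        rw [this, measure_empty]
        exact zero_le
      rcases hmx p with ⟨⟨a, ha⟩, hpF⟩ | hp
      · rcases hmx q with ⟨_, hqF⟩ | hq
        · exact absurd ⟨hpF, hqF⟩ hF
        · have h4 : {ξ : Fin k ⊕ Fin k → ℝ | p ≠ q ∧
            ¬ (inF F p ∧ inF F q) ∧ |mx F α ξ p - mx F α ξ q| < r} ⊆
            {ξ : Fin k ⊕ Fin k → ℝ | |ξ q - a| < r} := by
            rintro ξ ⟨_, _, h⟩
            rw [ha ξ, hq ξ, abs_sub_comm] at h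
            exact h
          exact (measure_mono h4).trans ((slab_pi T r a q).trans (hpow q))
      · rcases hmx q with ⟨⟨a, ha⟩, hqF⟩ | hq
        · have h4 : {ξ : Fin k ⊕ Fin k → ℝ | p ≠ q ∧
            ¬ (inF F p ∧ inF F q) ∧ |mx F α ξ p - mx F α ξ q| < r} ⊆
            {ξ : Fin k ⊕ Fin k → ℝ | |ξ p - a| < r} := by
            rintro ξ ⟨_, _, h⟩
            rw [ha ξ, hp ξ] at h
            exact h
          exact (measure_mono h4).trans ((slab_pi T r a p).trans (hpow p))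
        · have h4 : {ξ : Fin k ⊕ Fin k → ℝ | p ≠ q ∧
            ¬ (inF F p ∧ inF F q) ∧ |mx F α ξ p - mx F α ξ q| < r} ⊆
            {ξ : Fin k ⊕ Fin k → ℝ | |ξ p - ξ q| < r} := by
            rintro ξ ⟨_, _, h⟩
            rw [hq ξ, hp ξ] at h
            exact h
          exact (measure_mono h4).trans
            ((Pool.Agent.TH767.GS.pair_le T r p q hpq).trans (hpow p))
  have hc : mP (Fin k ⊕ Fin k) T (⋃ i : (Fin k ⊕ Fin k) × (Fin k ⊕ Fin k), {ξ : Fin k ⊕ Fin k → ℝ | i.1 ≠ i.2 ∧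
        ¬ (inF F i.1 ∧ inF F i.2) ∧ |mx F α ξ i.1 - mx F α ξ i.2| < r}) ≤
        ENNReal.ofReal (8 * k ^ 2 * T ^ (2 * k - 1 / 2 : ℝ)) := by
    refine (measure_iUnion_fintype_le _ _).trans ?_
    calc _ ≤ ∑ _i : (Fin k ⊕ Fin k) × (Fin k ⊕ Fin k), ENNReal.ofReal (2 * T ^ (2 * k - 1 / 2 : ℝ)) :=
          Finset.sum_le_sum fun i _ => hpair i
      _ = ENNReal.ofReal (8 * k ^ 2 * T ^ (2 * k - 1 / 2 : ℝ)) := by
        rw [Finset.sum_const, Finset.card_univ, Fintype.card_prod, Fintype.card_sum, Fintype.card_fin,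
          nsmul_eq_mul, ← ENNReal.ofReal_natCast, ← ENNReal.ofReal_mul (by positivity)]
        congr 1
        push_cast
        ring
  calc mP (Fin k ⊕ Fin k) T (SepF F α T)ᶜ ≤ _ := measure_mono hsub
    _ ≤ _ := measure_union_le _ _
    _ ≤ 0 + ENNReal.ofReal (8 * k ^ 2 * T ^ (2 * k - 1 / 2 : ℝ)) := by
        rw [hnull]
        exact add_le_add le_rfl hc
    _ ≤ ENNReal.ofReal ((8 * k ^ 2 + 1) * T ^ (2 * k - 1 / 2 : ℝ)) := by
        rw [zero_add]
        apply ENNReal.ofReal_le_ofReal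
        have : 0 ≤ T ^ (2 * k - 1 / 2 : ℝ) := by positivity
        nlinarith

theorem t_NAF : S_NAF := by
  intro k F α
  exact ⟨8 * k ^ 2 + 1, 1, by positivity, le_rfl, fun T hT => naF k F α T hT⟩

end

end Pool.Agent.Z72.SF
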