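import Pool.Agent.Z72.SF.Odf2

/-!
# Task SF_NTF (helper25): the sum over the twists
-/

set_option autoImplicit false

namespace Pool.Agent.Z72.SF

open Finset
open Pool.Agent.Z72.SQ.NtA (harm)
open OdfA (tail_sq)

noncomputable section

namespace NtfA

/-- the inverse square of the distance to the multiples -/
def ph (B r : ℕ) : ℝ := if r = 0 then 0 else (((min r (B - r) : ℕ) : ℝ) ^ 2)⁻¹

theorem ph_nonneg (B r : ℕ) : 0 ≤ ph B r := by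
  unfold ph
  split_ifs <;> positivity

theorem sum_ph (B : ℕ) (hB : 1 ≤ B) : ∑ r ∈ range B, ph B r ≤ 4 := by
  have h1 : ∑ r ∈ range B, ph B r ≤
      ∑ r ∈ Icc 1 (B - 1), ((((r : ℕ) : ℝ) ^ 2)⁻¹ + (((B - r : ℕ) : ℝ) ^ 2)⁻¹) := by
    have h2 : ∑ r ∈ range B, ph B r = ∑ r ∈ Icc 1 (B - 1), ph B r := by
      symm
      refine Finset.sum_subset ?_ ?_
      · intro r hr
        rw [mem_Icc] at hr
        rw [mem_range]
        omega
      · intro r hr hr2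
        rw [mem_range] at hr
        rw [mem_Icc] at hr2
        have : r = 0 := by omega
        rw [this]
        unfold ph
        rw [if_pos rfl]
    rw [h2]
    refine Finset.sum_le_sum fun r hr => ?_
    rw [mem_Icc] at hr
    unfold ph
    rw [if_neg (by omega)]
    rcases le_total r (B - r) with h | h
    · rw [min_eq_left h]
      have : 0 ≤ (((B - r : ℕ) : ℝ) ^ 2)⁻¹ := by positivity
      linarith
    · rw [min_eq_right h]
      have : 0 ≤ (((r : ℕ) : ℝ) ^ 2)⁻¹ := by positivity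
      linarith
  refine h1.trans ?_
  rw [sum_add_distrib]
  have h3 : ∑ r ∈ Icc 1 (B - 1), (((B - r : ℕ) : ℝ) ^ 2)⁻¹ = ∑ r ∈ Icc 1 (B - 1), (((r : ℕ) : ℝ) ^ 2)⁻¹ := by
    refine Finset.sum_bij' (fun r _ => B - r) (fun r _ => B - r) ?_ ?_ ?_ ?_ ?_
    · intro r hr
      rw [mem_Icc] at hr ⊢
      omega
    · intro r hr
      rw [mem_Icc] at hr ⊢
      omega
    · intro r hr
      rw [mem_Icc] at hr
      show B - (B - r) = r
      omega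
    · intro r hr
      rw [mem_Icc] at hr
      show B - (B - r) = r
      omega
    · intro r _; rfl
  rw [h3]
  have h4 := tail_sq 1 (B - 1) (le_refl _)
  norm_num at h4 ⊢
  linarith

theorem sum_mod (B : ℕ) (hB : 1 ≤ B) (q : ℕ) :
    ∑ A ∈ range (q * B), ph B (A % B) = q * ∑ r ∈ range B, ph B r := by
  induction q with
  | zero => simp
  | succ q ih =>
    have e : (q + 1) * B = q * B + B := by ring
    rw [e, Finset.sum_range_add, ih]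
    have h : ∑ x ∈ range B, ph B ((q * B + x) % B) = ∑ r ∈ range B, ph B r := by
      refine Finset.sum_congr rfl fun x hx => ?_
      rw [mem_range] at hx
      rw [Nat.add_comm, Nat.add_mul_mod_self_right, Nat.mod_eq_of_lt hx]
    rw [h]
    push_cast
    ring

theorem sum_A (B M : ℕ) (hB : 1 ≤ B) :
    ∑ A ∈ Icc 1 M, ph B (A % B) ≤ ((M : ℝ) * (B : ℝ)⁻¹ + 1) * 4 := by
  have h1 : ∑ A ∈ Icc 1 M, ph B (A % B) ≤ ∑ A ∈ range ((M / B + 1) * B), ph B (A % B) := by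
    refine Finset.sum_le_sum_of_subset_of_nonneg ?_ fun _ _ _ => ph_nonneg _ _
    intro A hA
    rw [mem_Icc] at hA
    rw [mem_range]
    have := Nat.lt_mul_div_succ M (by omega : 0 < B)
    have h2 : B * (M / B + 1) = (M / B + 1) * B := by ring
    omega
  refine h1.trans ?_
  rw [sum_mod B hB]
  have h2 : ((M / B + 1 : ℕ) : ℝ) ≤ (M : ℝ) * (B : ℝ)⁻¹ + 1 := by
    push_cast
    have : ((M / B : ℕ) : ℝ) ≤ (M : ℝ) / B := Nat.cast_div_le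
    rw [div_eq_mul_inv] at this
    linarith
  exact mul_le_mul h2 (sum_ph B hB) (Finset.sum_nonneg fun _ _ => ph_nonneg _ _) (by positivity)

theorem term_le {X : ℝ} (A B : ℕ) (hA : 1 ≤ A) (hB : 1 ≤ B) :
    ((A : ℝ) * B)⁻¹ * (X + ((A : ℝ) / B) ^ (1 / 2 : ℝ) * (1 + dd A B)) ^ 2 ≤
      3 * X ^ 2 * ((A : ℝ)⁻¹ * (B : ℝ)⁻¹) + 3 * ((B : ℝ) ^ 2)⁻¹ + 3 * ph B (A % B) := by
  have hA0 : (0 : ℝ) < A := by exact_mod_cast hA
  have hB0 : (0 : ℝ) < B := by exact_mod_cast hB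
  obtain ⟨s, hs⟩ : ∃ s : ℝ, s = ((A : ℝ) / B) ^ (1 / 2 : ℝ) := ⟨_, rfl⟩
  have hs2 : s ^ 2 = (A : ℝ) / B := by
    rw [hs, ← Real.rpow_natCast, ← Real.rpow_mul (by positivity)]
    norm_num
  rw [← hs]
  have h1 : (X + s * (1 + dd A B)) ^ 2 ≤ 3 * (X ^ 2 + s ^ 2 + s ^ 2 * dd A B ^ 2) := by
    nlinarith [sq_nonneg (X - s), sq_nonneg (X - s * dd A B), sq_nonneg (s - s * dd A B)]
  have h2 : ((A : ℝ) * B)⁻¹ * (s ^ 2 * dd A B ^ 2) = ph B (A % B) := by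
    rw [hs2]
    unfold dd ph
    by_cases h : A % B = 0
    · rw [if_pos h, if_pos h]
      ring
    · rw [if_neg h, if_neg h, div_pow]
      field_simp
  have h3 : ((A : ℝ) * B)⁻¹ * s ^ 2 = ((B : ℝ) ^ 2)⁻¹ := by
    rw [hs2]
    field_simp
  calc ((A : ℝ) * B)⁻¹ * (X + s * (1 + dd A B)) ^ 2 ≤
        ((A : ℝ) * B)⁻¹ * (3 * (X ^ 2 + s ^ 2 + s ^ 2 * dd A B ^ 2)) :=
        mul_le_mul_of_nonneg_left h1 (by positivity)
    _ = 3 * X ^ 2 * ((A : ℝ) * B)⁻¹ + 3 * (((A : ℝ) * B)⁻¹ * s ^ 2) +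
        3 * (((A : ℝ) * B)⁻¹ * (s ^ 2 * dd A B ^ 2)) := by ring
    _ = _ := by rw [h2, h3, mul_inv]

end NtfA

open NtfA

theorem t_NTF : S_NTF := by
  intro ε hε
  refine ⟨30 * (1 + 2 / ε) ^ 2, by positivity, fun T X hT hX => ?_⟩
  have hT0 : (0 : ℝ) < T := by linarith
  have hT1 : (1 : ℝ) ≤ T := by linarith
  obtain ⟨M, hM⟩ : ∃ M, M = ⌊T⌋₊ := ⟨_, rfl⟩
  have hMT : (M : ℝ) ≤ T := by rw [hM]; exact Nat.floor_le hT0.le
  have hM1 : 1 ≤ M := by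
    rw [hM]
    exact Nat.le_floor (by push_cast; linarith)
  rw [← hM]
  obtain ⟨L, hL⟩ : ∃ L, L = 1 + Real.log T := ⟨_, rfl⟩
  have hlT : 0 ≤ Real.log T := Real.log_nonneg hT1
  have hL1 : 1 ≤ L := by rw [hL]; linarith
  have hH : ∑ n ∈ Icc 1 M, (n : ℝ)⁻¹ ≤ L := by
    refine (harm M).trans ?_
    rw [hL]
    have : Real.log M ≤ Real.log T := Real.log_le_log (by exact_mod_cast hM1) hMT
    linarith
  have hH0 : 0 ≤ ∑ n ∈ Icc 1 M, (n : ℝ)⁻¹ := Finset.sum_nonneg fun _ _ => by positivity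
  have h1 : ∑ A ∈ Icc 1 M, ∑ B ∈ Icc 1 M, ((A : ℝ) * B)⁻¹ *
      (X + ((A : ℝ) / B) ^ (1 / 2 : ℝ) * (1 + dd A B)) ^ 2 ≤
      ∑ A ∈ Icc 1 M, ∑ B ∈ Icc 1 M, (3 * X ^ 2 * ((A : ℝ)⁻¹ * (B : ℝ)⁻¹) + 3 * ((B : ℝ) ^ 2)⁻¹ +
        3 * ph B (A % B)) := by
    refine Finset.sum_le_sum fun A hA => Finset.sum_le_sum fun B hB => ?_
    rw [mem_Icc] at hA hB
    exact term_le A B hA.1 hB.1
  refine h1.trans ?_
  simp only [Finset.sum_add_distrib, ← Finset.mul_sum]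
  -- first
  have h2 : 3 * X ^ 2 * (∑ A ∈ Icc 1 M, (A : ℝ)⁻¹ * ∑ B ∈ Icc 1 M, (B : ℝ)⁻¹) ≤ 3 * X ^ 2 * L ^ 2 := by
    refine mul_le_mul_of_nonneg_left ?_ (by positivity)
    rw [← Finset.sum_mul, sq]
    exact mul_le_mul hH hH hH0 (by linarith)
  -- second
  have h3 : ∑ A ∈ Icc 1 M, ∑ B ∈ Icc 1 M, ((B : ℝ) ^ 2)⁻¹ ≤ T * 2 := by
    rw [Finset.sum_const, nsmul_eq_mul, Nat.card_Icc, Nat.add_sub_cancel]
    have := tail_sq 1 M (le_refl _)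
    norm_num at this
    exact mul_le_mul hMT this (Finset.sum_nonneg fun _ _ => by positivity) hT0.le
  -- third
  have h4 : ∑ A ∈ Icc 1 M, ∑ B ∈ Icc 1 M, ph B (A % B) ≤ 8 * (T * L) := by
    rw [Finset.sum_comm]
    have h5 : ∀ B ∈ Icc 1 M, ∑ A ∈ Icc 1 M, ph B (A % B) ≤ ((M : ℝ) * (B : ℝ)⁻¹ + 1) * 4 := by
      intro B hB
      rw [mem_Icc] at hB
      exact sum_A B M hB.1
    refine (Finset.sum_le_sum h5).trans ?_
    rw [← Finset.sum_mul, Finset.sum_add_distrib, ← Finset.mul_sum, Finset.sum_const, nsmul_eq_mul,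
      Nat.card_Icc, Nat.add_sub_cancel, mul_one]
    have h6 : (M : ℝ) * ∑ n ∈ Icc 1 M, (n : ℝ)⁻¹ ≤ T * L := mul_le_mul hMT hH hH0 hT0.le
    nlinarith
  -- the logarithm
  have h7 : L ^ 2 ≤ (1 + 2 / ε) ^ 2 * T ^ ε := by
    have h8 : Real.log T ≤ T ^ (ε / 2) / (ε / 2) := Real.log_le_rpow_div hT0.le (by positivity)
    have h9 : (1 : ℝ) ≤ T ^ (ε / 2) := Real.one_le_rpow hT1 (by positivity)
    have h10 : L ≤ (1 + 2 / ε) * T ^ (ε / 2) := by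
      rw [hL]
      have : T ^ (ε / 2) / (ε / 2) = 2 / ε * T ^ (ε / 2) := by field_simp
      rw [this] at h8
      linarith
    calc L ^ 2 ≤ ((1 + 2 / ε) * T ^ (ε / 2)) ^ 2 := pow_le_pow_left₀ (by linarith) h10 2
      _ = (1 + 2 / ε) ^ 2 * T ^ ε := by
        rw [mul_pow, ← Real.rpow_natCast (T ^ (ε / 2)) 2, ← Real.rpow_mul hT0.le]
        congr 2
        push_cast
        ring
  have hLL : L ≤ L ^ 2 := by nlinarith
  have h1L : 1 ≤ L ^ 2 := by nlinarith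
  calc 3 * X ^ 2 * (∑ A ∈ Icc 1 M, (A : ℝ)⁻¹ * ∑ B ∈ Icc 1 M, (B : ℝ)⁻¹) +
        3 * ∑ A ∈ Icc 1 M, ∑ B ∈ Icc 1 M, ((B : ℝ) ^ 2)⁻¹ +
        3 * ∑ A ∈ Icc 1 M, ∑ B ∈ Icc 1 M, ph B (A % B) ≤
        3 * X ^ 2 * L ^ 2 + 3 * (T * 2) + 3 * (8 * (T * L)) := by linarith
    _ ≤ 30 * L ^ 2 * (T + X ^ 2) := by
        nlinarith [sq_nonneg X, mul_nonneg hT0.le (sub_nonneg.2 hLL),
          mul_nonneg hT0.le (sub_nonneg.2 h1L), mul_nonneg (sq_nonneg X) (sq_nonneg L)]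
    _ ≤ 30 * ((1 + 2 / ε) ^ 2 * T ^ ε) * (T + X ^ 2) := by
        refine mul_le_mul_of_nonneg_right ?_ (by positivity)
        linarith
    _ = _ := by ring

end

end Pool.Agent.Z72.SF
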