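import Pool.Agent.Z72.SF.Odf3

/-!
# Task SF_ODF (helper25): the off-diagonal terms are small on average
-/

set_option autoImplicit false

namespace Pool.Agent.Z72.SF

open Complex Filter Topology MeasureTheory Set
open Pool.Agent.TH612.GS (z zN PN mP tup ch wt S_MVB)
open Pool.Agent.TH367.GS (pl pr mem_tup)
open Pool.Agent.Z72.SQ.NtA (fiber2 one_le_prod prod_le wt_sq)

noncomputable section

open OdfA

theorem t_ODF (hMM : Pool.Agent.Z72.SQ.S_MM) (hRNF : S_RNF) (hNTF : S_NTF)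
    (hMVB : Pool.Agent.TH612.GS.S_MVB) (hA2F : S_A2F) : S_ODF := by
  classical
  intro k F α ε hF4 hε
  obtain ⟨δ, hδe⟩ : ∃ δ, δ = ε / 8 := ⟨_, rfl⟩
  have hδ : 0 < δ := by rw [hδe]; positivity
  obtain ⟨C1, hC1, h1⟩ := hMM
  obtain ⟨C2, hC2, h2⟩ := pair_sum hRNF hNTF hMVB hA2F F α δ hF4 hδ
  obtain ⟨C3, hC3, h3⟩ := div_pow k δ hδ
  refine ⟨C1 ^ (2 * k) * (C3 ^ 2 * C2), by positivity, fun T U a b N hT hU hUT hN hNU ha hab hb => ?_⟩
  have hT0 : (0 : ℝ) < T := by linarith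
  have hT1 : (1 : ℝ) ≤ T := by linarith
  have hNT : (N : ℝ) ≤ 16 * T := by linarith
  obtain ⟨X, hX⟩ : ∃ X, X = N ^ k := ⟨_, rfl⟩
  -- the coefficients
  obtain ⟨w, hw⟩ : ∃ w : (Fin k ⊕ Fin k → ℕ) → ℂ, ∀ ν, w ν = (wt ν : ℂ) *
      (cF F α a b (pr ν) (pl ν) - ((b - a : ℝ) : ℂ) * mF F α (pr ν) (pl ν)) := ⟨_, fun _ => rfl⟩
  obtain ⟨c, hc⟩ : ∃ c : (Fin k ⊕ Fin k → ℕ) → ℂ, ∀ ν, c ν =
      if (∀ j ∈ F, ν (Sum.inl j) = 1) then w ν else 0 := ⟨_, fun _ => rfl⟩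
  have hdiff : ∀ ξ : Fin k ⊕ Fin k → ℝ, (∫ t in a..b, AF F α t * ∏ i, hF F (PN N) i (t + ξ i)) -
      ((b - a : ℝ) : ℂ) * Sf F α N ξ = ∑ ν ∈ tup k N, c ν * ch ν ξ := by
    intro ξ
    rw [diff_eq F α a b hN ξ, tF, Finset.sum_filter]
    refine Finset.sum_congr rfl fun ν _ => ?_
    rw [hc]
    by_cases h : ∀ j ∈ F, ν (Sum.inl j) = 1
    · rw [if_pos h, if_pos h, hw]
    · rw [if_neg h, if_neg h, zero_mul]
  simp only [hdiff]
  refine (h1 k N U c hN hU hNU).trans ?_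
  refine ENNReal.ofReal_le_ofReal ?_
  obtain ⟨g, hg⟩ : ∃ g : ℕ × ℕ → ℝ, ∀ p, g p = ((p.1 : ℝ) * p.2)⁻¹ *
      ‖cF F α a b p.1 p.2 - ((b - a : ℝ) : ℂ) * mF F α p.1 p.2‖ ^ 2 := ⟨_, fun _ => rfl⟩
  have hg0 : ∀ p, 0 ≤ g p := fun p => by rw [hg]; positivity
  have hsq : ∑ ν ∈ tup k N, ‖c ν‖ ^ 2 ≤ (C3 * T ^ δ) ^ 2 * (C2 * T ^ (ee F.card + 4 * δ)) := by
    have h4 : ∀ ν ∈ tup k N, ‖c ν‖ ^ 2 ≤ g (pr ν, pl ν) := by
      intro ν hν
      rw [hc]
      by_cases h : ∀ j ∈ F, ν (Sum.inl j) = 1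
      · rw [if_pos h, hw, hg, norm_mul, mul_pow, Complex.norm_real, Real.norm_eq_abs, sq_abs, wt_sq N ν hν]
        simp only
        rw [mul_comm (pl ν : ℝ)]
      · rw [if_neg h, norm_zero, zero_pow two_ne_zero]
        exact hg0 _
    refine (Finset.sum_le_sum h4).trans ?_
    have hmaps : ∀ ν ∈ tup k N, (pr ν, pl ν) ∈ (Finset.Icc 1 X) ×ˢ (Finset.Icc 1 X) := by
      intro ν hν
      rw [Finset.mem_product, Finset.mem_Icc, Finset.mem_Icc, hX]
      have hm := mem_tup.1 hν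
      exact ⟨⟨one_le_prod _ fun j => (hm _).1, prod_le N _ fun j => (hm _).2⟩,
        ⟨one_le_prod _ fun j => (hm _).1, prod_le N _ fun j => (hm _).2⟩⟩
    rw [← Finset.sum_fiberwise_of_maps_to' hmaps g]
    have h5 : ∀ p ∈ (Finset.Icc 1 X) ×ˢ (Finset.Icc 1 X),
        ∑ _ν ∈ (tup k N).filter (fun ν => (pr ν, pl ν) = p), g p ≤ (C3 * T ^ δ) ^ 2 * g p := by
      intro p hp
      rw [Finset.mem_product, Finset.mem_Icc, Finset.mem_Icc] at hp
      rw [Finset.sum_const, nsmul_eq_mul]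
      refine mul_le_mul_of_nonneg_right ?_ (hg0 p)
      have h6 : ((tup k N).filter (fun ν => (pr ν, pl ν) = p)).card ≤
          ((tup k N).filter (fun ν => (pl ν, pr ν) = (p.2, p.1))).card := by
        refine Finset.card_le_card fun ν hν => ?_
        rw [Finset.mem_filter] at hν ⊢
        refine ⟨hν.1, ?_⟩
        have := hν.2
        rw [Prod.ext_iff] at this ⊢
        exact ⟨this.2, this.1⟩
      have h7 := h6.trans (fiber2 (k := k) N p.2 p.1 hp.2.1 hp.1.1)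
      have h8 : (((tup k N).filter (fun ν => (pr ν, pl ν) = p)).card : ℝ) ≤
          (p.2.divisors.card : ℝ) ^ k * (p.1.divisors.card : ℝ) ^ k := by exact_mod_cast h7
      refine h8.trans ?_
      have hb : ∀ n : ℕ, 1 ≤ n → n ≤ X → (n.divisors.card : ℝ) ^ k ≤ C3 * T ^ δ := by
        intro n hn hnX
        refine le_trans ?_ (h3 T N n hT hNT hn (by rw [← hX]; exact hnX))
        exact pow_le_pow_right₀ (one_le_card_div hn) (by omega)
      rw [sq]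
      exact mul_le_mul (hb _ hp.2.1 hp.2.2) (hb _ hp.1.1 hp.1.2) (by positivity) (by positivity)
    refine (Finset.sum_le_sum h5).trans ?_
    rw [← Finset.mul_sum]
    refine mul_le_mul_of_nonneg_left ?_ (by positivity)
    have h9 := h2 T a b N hT hN hNT ha hab hb
    rw [← hX] at h9
    simp only [hg]
    exact h9
  calc (C1 * U) ^ (2 * k) * ∑ ν ∈ tup k N, ‖c ν‖ ^ 2 ≤
        (C1 * U) ^ (2 * k) * ((C3 * T ^ δ) ^ 2 * (C2 * T ^ (ee F.card + 4 * δ))) := by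
        refine mul_le_mul_of_nonneg_left hsq (by positivity)
    _ = C1 ^ (2 * k) * (C3 ^ 2 * C2) * U ^ (2 * k) * T ^ (ee F.card + 6 * δ) := by
        have : T ^ (ee F.card + 6 * δ) = T ^ δ * T ^ δ * T ^ (ee F.card + 4 * δ) := by
          rw [← Real.rpow_add hT0, ← Real.rpow_add hT0]
          congr 1
          ring
        rw [this, mul_pow]
        ring
    _ ≤ C1 ^ (2 * k) * (C3 ^ 2 * C2) * U ^ (2 * k) * T ^ (ee F.card + ε) := by
        refine mul_le_mul_of_nonneg_left ?_ (by positivity)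
        exact Real.rpow_le_rpow_of_exponent_le hT1 (by rw [hδe]; linarith)

end

end Pool.Agent.Z72.SF
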