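import Pool.Agent.Z72.SF.Stm
import Pool.Agent.TH914.GF.TW
import Pool.Agent.TH445.GF.DS

set_option autoImplicit false

/-!
The twisted integrals of the fixed block: contour shift for a rational twist.
-/

namespace Pool.Agent.Z72.SF.RNFm

open Complex Filter Topology MeasureTheory Set
open Pool.Agent.TH612.CF Pool.Agent.TH612.GS
open Pool.Agent.W182.KO hiding ee SS_summable
open Pool.Agent.TH445.GF (G G_zero G_nonneg G_summable osc cp)
open Pool.Agent.Z72.SF

noncomputable section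

/-! ### The Dirichlet series on the line to the right of one -/

/-- the elementary inequality for the oscillating terms -/
lemma elemB {e : ℝ} (he : 0 < e) {A B n : ℕ} (hA : 0 < A) (hB : 0 < B) (hn : 0 < n)
    (hne : n * B ≠ A) :
    G e n * (1 / |Real.log A - Real.log (n * B : ℕ)|) ≤
      2 * (A : ℝ) ^ (2 * e) * (G e n + G e (A / B - n) + G e (n - (A / B + 1))) +
        (if n = A / B then 2 * dd A B else 0) + (if n = A / B + 1 then 1 + dd A B else 0) := by
  obtain ⟨N, hN⟩ : ∃ N, N = A / B := ⟨_, rfl⟩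
  obtain ⟨r, hr⟩ : ∃ r, r = A % B := ⟨_, rfl⟩
  have hAr : A = N * B + r := by rw [hN, hr, mul_comm]; exact (Nat.div_add_mod A B).symm
  have hrB : r < B := by rw [hr]; exact Nat.mod_lt _ hB
  have hA1 : (1 : ℝ) ≤ A := by exact_mod_cast hA
  have hA0 : (0 : ℝ) < A := by linarith
  have hB0 : (0 : ℝ) < B := by exact_mod_cast hB
  have hn1 : (1 : ℝ) ≤ n := by exact_mod_cast hn
  have hn0 : (0 : ℝ) < n := by linarith
  have hnB0 : (0 : ℝ) < ((n * B : ℕ) : ℝ) := by push_cast; positivity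
  have hAe : 1 ≤ (A : ℝ) ^ (2 * e) := Real.one_le_rpow hA1 (by positivity)
  have hdd : 0 ≤ dd A B := by unfold dd; split_ifs <;> positivity
  have hGn := G_nonneg e n
  have hG1 := G_nonneg e (A / B - n)
  have hG2 := G_nonneg e (n - (A / B + 1))
  have hGle : G e n ≤ 1 := by
    unfold G
    exact Real.rpow_le_one_of_one_le_of_nonpos hn1 (by linarith)
  have hmaj : 0 ≤ 2 * (A : ℝ) ^ (2 * e) * (G e n + G e (A / B - n) + G e (n - (A / B + 1))) := by
    positivity
  have hArR : (A : ℝ) = N * B + r := by exact_mod_cast hAr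
  have hrBR : (r : ℝ) + 1 ≤ B := by exact_mod_cast hrB
  have hr0 : (0 : ℝ) ≤ r := by positivity
  rw [← hN] at hG1 hG2 hmaj ⊢
  rcases lt_or_gt_of_ne hne with h | h
  · -- n B < A, so n ≤ N
    have hR : ((n * B : ℕ) : ℝ) < A := by exact_mod_cast h
    have hd : (0 : ℝ) < (A : ℝ) - (n * B : ℕ) := by linarith
    have hnN : n ≤ N := by
      by_contra hcon
      push Not at hcon
      have : (N + 1) * B ≤ n * B := Nat.mul_le_mul_right _ hcon
      have h2 : (N + 1) * B = N * B + B := by ring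
      omega
    have hNn : (n : ℝ) ≤ N := by exact_mod_cast hnN
    have h1 : ((A : ℝ) - (n * B : ℕ)) / A ≤ |Real.log A - Real.log (n * B : ℕ)| := by
      have h2 := Real.one_sub_inv_le_log_of_pos (div_pos hA0 hnB0)
      rw [Real.log_div hA0.ne' hnB0.ne', inv_div] at h2
      refine le_trans (le_of_eq ?_) (h2.trans (le_abs_self _))
      field_simp
    have h3 : 1 / |Real.log A - Real.log (n * B : ℕ)| ≤ A / ((A : ℝ) - (n * B : ℕ)) :=
      (one_div_le_one_div_of_le (div_pos hd hA0) h1).trans (le_of_eq (one_div_div _ _))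
    rcases Nat.lt_or_ge n N with hlt | hge
    · -- n < N
      rw [if_neg (by omega), if_neg (by omega), add_zero, add_zero]
      have hltR : (n : ℝ) + 1 ≤ N := by exact_mod_cast hlt
      have hdN : (0 : ℝ) < (N : ℝ) - n := by linarith
      have h4 : (A : ℝ) / ((A : ℝ) - (n * B : ℕ)) ≤ 2 * (1 + n / ((N : ℝ) - n)) := by
        rw [div_le_iff₀ hd]
        push_cast
        rw [hArR]
        have e1 : 2 * (1 + n / ((N : ℝ) - n)) = 2 * N / ((N : ℝ) - n) := by
          field_simp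
          ring
        rw [e1, div_mul_eq_mul_div, le_div_iff₀ hdN]
        have h5 : (N : ℝ) * B + r - n * B = (N - n) * B + r := by ring
        rw [h5]
        have h6 : (N * B + r) * ((N : ℝ) - n) ≤ (2 * N * B) * ((N : ℝ) - n) := by
          refine mul_le_mul_of_nonneg_right ?_ hdN.le
          have : (1 : ℝ) ≤ N := by linarith
          nlinarith
        have h7 : 0 ≤ 2 * (N : ℝ) * r := by positivity
        nlinarith
      have h5 : G e n * (n / ((N : ℝ) - n)) ≤ (A : ℝ) ^ (2 * e) * G e (N - n) := by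
        unfold G
        rw [Nat.cast_sub hnN]
        have e1 : (n : ℝ) ^ (-(1 + e)) = (n : ℝ) ^ (-e) * (n : ℝ)⁻¹ := by
          rw [← Real.rpow_neg_one, ← Real.rpow_add hn0]
          congr 1; ring
        have e2 : ((N : ℝ) - n) ^ (-(1 + e)) = ((N : ℝ) - n) ^ (-e) * ((N : ℝ) - n)⁻¹ := by
          rw [← Real.rpow_neg_one, ← Real.rpow_add hdN]
          congr 1; ring
        have e3 : (n : ℝ) ^ (-e) ≤ 1 := Real.rpow_le_one_of_one_le_of_nonpos hn1 (by linarith)
        have hNA : (N : ℝ) ≤ A := by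
          rw [hArR]
          have : (1 : ℝ) ≤ B := by exact_mod_cast hB
          nlinarith [show (0 : ℝ) ≤ N by positivity]
        have e4 : 1 ≤ (A : ℝ) ^ (2 * e) * ((N : ℝ) - n) ^ (-e) := by
          rw [Real.rpow_neg hdN.le, ← div_eq_mul_inv, one_le_div (by positivity)]
          calc ((N : ℝ) - n) ^ e ≤ (A : ℝ) ^ e := Real.rpow_le_rpow hdN.le (by linarith) he.le
            _ ≤ (A : ℝ) ^ (2 * e) := Real.rpow_le_rpow_of_exponent_le hA1 (by linarith)
        rw [e1, e2]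
        calc (n : ℝ) ^ (-e) * (n : ℝ)⁻¹ * (n / ((N : ℝ) - n))
            = (n : ℝ) ^ (-e) * ((N : ℝ) - n)⁻¹ := by field_simp
          _ ≤ ((A : ℝ) ^ (2 * e) * ((N : ℝ) - n) ^ (-e)) * ((N : ℝ) - n)⁻¹ :=
              mul_le_mul_of_nonneg_right (e3.trans e4) (by positivity)
          _ = _ := by ring
      calc G e n * (1 / |Real.log A - Real.log (n * B : ℕ)|)
          ≤ G e n * (2 * (1 + n / ((N : ℝ) - n))) :=
            mul_le_mul_of_nonneg_left (h3.trans h4) hGn
        _ = 2 * G e n + 2 * (G e n * (n / ((N : ℝ) - n))) := by ring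
        _ ≤ 2 * ((A : ℝ) ^ (2 * e) * G e n) + 2 * ((A : ℝ) ^ (2 * e) * G e (N - n)) := by
            have h6 : G e n ≤ (A : ℝ) ^ (2 * e) * G e n := by nlinarith
            linarith
        _ ≤ 2 * (A : ℝ) ^ (2 * e) * (G e n + G e (N - n) + G e (n - (N + 1))) := by
            have h6 : 0 ≤ (A : ℝ) ^ (2 * e) * G e (n - (N + 1)) := by positivity
            nlinarith
    · -- n = N, r > 0
      have hnN' : n = N := le_antisymm hnN hge
      rw [if_pos hnN', if_neg (by omega), add_zero]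
      have hr1 : 0 < r := by
        rcases Nat.eq_zero_or_pos r with h0 | h0
        · exfalso
          rw [h0, add_zero, ← hnN'] at hAr
          omega
        · exact h0
      have hr1R : (0 : ℝ) < r := by exact_mod_cast hr1
      have h4 : (A : ℝ) - (n * B : ℕ) = r := by
        push_cast
        rw [hArR, hnN']
        ring
      rw [h4] at h3
      have h5 : (B : ℝ) / r ≤ dd A B := by
        unfold dd
        rw [← hr, if_neg (by omega)]
        refine div_le_div_of_nonneg_left hB0.le ?_ ?_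
        · have : 0 < min r (B - r) := by omega
          exact_mod_cast this
        · exact_mod_cast min_le_left _ _
      have h6 : G e n * (A : ℝ) ≤ 2 * B := by
        have e1 : G e n ≤ (n : ℝ)⁻¹ := by
          unfold G
          rw [← Real.rpow_neg_one]
          exact Real.rpow_le_rpow_of_exponent_le hn1 (by linarith)
        calc G e n * (A : ℝ) ≤ (n : ℝ)⁻¹ * A := mul_le_mul_of_nonneg_right e1 hA0.le
          _ ≤ (n : ℝ)⁻¹ * (2 * n * B) := by
              refine mul_le_mul_of_nonneg_left ?_ (by positivity)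
              rw [hArR, ← hnN']
              nlinarith
          _ = 2 * B := by field_simp
      have h7 : G e n * (1 / |Real.log A - Real.log (n * B : ℕ)|) ≤ 2 * dd A B := by
        calc G e n * (1 / |Real.log A - Real.log (n * B : ℕ)|) ≤ G e n * (A / r) :=
              mul_le_mul_of_nonneg_left h3 hGn
          _ = (G e n * A) / r := by ring
          _ ≤ (2 * B) / r := div_le_div_of_nonneg_right h6 hr1R.le
          _ = 2 * (B / r) := by ring
          _ ≤ 2 * dd A B := by linarith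
      linarith
  · -- A < n B
    have hR : (A : ℝ) < ((n * B : ℕ) : ℝ) := by exact_mod_cast h
    have hd : (0 : ℝ) < ((n * B : ℕ) : ℝ) - A := by linarith
    have h1 : (((n * B : ℕ) : ℝ) - A) / (n * B : ℕ) ≤ |Real.log A - Real.log (n * B : ℕ)| := by
      have h2 := Real.one_sub_inv_le_log_of_pos (div_pos hnB0 hA0)
      rw [Real.log_div hnB0.ne' hA0.ne', inv_div] at h2
      rw [abs_sub_comm]
      refine le_trans (le_of_eq ?_) (h2.trans (le_abs_self _))
      field_simp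
    have h3 : 1 / |Real.log A - Real.log (n * B : ℕ)| ≤
        ((n * B : ℕ) : ℝ) / (((n * B : ℕ) : ℝ) - A) :=
      (one_div_le_one_div_of_le (div_pos hd hnB0) h1).trans (le_of_eq (one_div_div _ _))
    have hnN : N + 1 ≤ n := by
      by_contra hcon
      push Not at hcon
      have : n * B ≤ N * B := Nat.mul_le_mul_right _ (by omega)
      omega
    rw [if_neg (by omega), add_zero]
    rcases Nat.lt_or_ge (N + 1) n with hlt | hge
    · rw [if_neg (by omega), add_zero]
      have hltR : (N : ℝ) + 1 + 1 ≤ n := by exact_mod_cast hlt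
      have hdN : (0 : ℝ) < (n : ℝ) - (N + 1) := by linarith
      have h4 : ((n * B : ℕ) : ℝ) / (((n * B : ℕ) : ℝ) - A) ≤ n / ((n : ℝ) - (N + 1)) := by
        rw [div_le_div_iff₀ hd hdN]
        push_cast
        rw [hArR]
        have h5 : (n : ℝ) * B - (N * B + r) = (n - (N + 1)) * B + (B - r) := by ring
        rw [h5]
        have h6 : 0 ≤ (n : ℝ) * (B - r) := by
          refine mul_nonneg hn0.le ?_
          linarith
        nlinarith
      have h5 : G e n * (n / ((n : ℝ) - (N + 1))) ≤ G e (n - (N + 1)) := by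
        unfold G
        rw [Nat.cast_sub hlt.le]
        push_cast
        have e1 : (n : ℝ) ^ (-(1 + e)) = (n : ℝ) ^ (-e) * (n : ℝ)⁻¹ := by
          rw [← Real.rpow_neg_one, ← Real.rpow_add hn0]
          congr 1; ring
        have e2 : ((n : ℝ) - (N + 1)) ^ (-(1 + e)) =
            ((n : ℝ) - (N + 1)) ^ (-e) * ((n : ℝ) - (N + 1))⁻¹ := by
          rw [← Real.rpow_neg_one, ← Real.rpow_add hdN]
          congr 1; ring
        rw [e1, e2]
        have e3 : (n : ℝ) ^ (-e) ≤ ((n : ℝ) - (N + 1)) ^ (-e) :=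
          Real.rpow_le_rpow_of_nonpos hdN (by linarith [show (0 : ℝ) ≤ N by positivity])
            (by linarith)
        calc (n : ℝ) ^ (-e) * (n : ℝ)⁻¹ * (n / ((n : ℝ) - (N + 1)))
            = (n : ℝ) ^ (-e) * ((n : ℝ) - (N + 1))⁻¹ := by field_simp
          _ ≤ _ := mul_le_mul_of_nonneg_right e3 (by positivity)
      calc G e n * (1 / |Real.log A - Real.log (n * B : ℕ)|)
          ≤ G e n * (n / ((n : ℝ) - (N + 1))) := mul_le_mul_of_nonneg_left (h3.trans h4) hGn
        _ ≤ G e (n - (N + 1)) := h5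
        _ ≤ 2 * (A : ℝ) ^ (2 * e) * (G e n + G e (N - n) + G e (n - (N + 1))) := by
            nlinarith
    · have hnN' : n = N + 1 := le_antisymm hge hnN
      rw [if_pos hnN']
      have hBr : (0 : ℝ) < (B : ℝ) - r := by linarith
      have h4 : ((n * B : ℕ) : ℝ) - A = B - r := by
        push_cast
        rw [hArR, hnN']
        push_cast
        ring
      rw [h4] at h3
      have h5 : (B : ℝ) / (B - r) ≤ 1 + dd A B := by
        rcases Nat.eq_zero_or_pos r with h0 | h0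
        · rw [h0, Nat.cast_zero, sub_zero, div_self hB0.ne']
          linarith
        · unfold dd
          rw [← hr, if_neg (by omega)]
          have h6 : (B : ℝ) / (B - r) ≤ B / (min r (B - r) : ℕ) := by
            refine div_le_div_of_nonneg_left hB0.le ?_ ?_
            · have : 0 < min r (B - r) := by omega
              exact_mod_cast this
            · have h7 : ((B - r : ℕ) : ℝ) = B - r := by
                rw [Nat.cast_sub hrB.le]
              rw [← h7]
              exact_mod_cast min_le_right _ _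
          linarith
      have h6 : G e n * ((n * B : ℕ) : ℝ) ≤ B := by
        have e1 : G e n ≤ (n : ℝ)⁻¹ := by
          unfold G
          rw [← Real.rpow_neg_one]
          exact Real.rpow_le_rpow_of_exponent_le hn1 (by linarith)
        calc G e n * ((n * B : ℕ) : ℝ) ≤ (n : ℝ)⁻¹ * ((n * B : ℕ) : ℝ) :=
              mul_le_mul_of_nonneg_right e1 hnB0.le
          _ = B := by push_cast; field_simp
      have h7 : G e n * (1 / |Real.log A - Real.log (n * B : ℕ)|) ≤ 1 + dd A B := by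
        calc G e n * (1 / |Real.log A - Real.log (n * B : ℕ)|)
            ≤ G e n * (((n * B : ℕ) : ℝ) / (B - r)) := mul_le_mul_of_nonneg_left h3 hGn
          _ = (G e n * ((n * B : ℕ) : ℝ)) / (B - r) := by ring
          _ ≤ B / (B - r) := div_le_div_of_nonneg_right h6 hBr.le
          _ ≤ 1 + dd A B := h5
      linarith

/-- the sum of the majorant -/
lemma majB {e : ℝ} (he : 0 < e) (N : ℕ) : ∃ S : ℝ, S ≤ 3 * ∑' n, G e n ∧
    HasSum (fun n => G e n + G e (N - n) + G e (n - (N + 1))) S := by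
  have h1 := (G_summable he).hasSum
  have h2 : HasSum (fun n => G e (n - (N + 1))) (∑' n, G e n) := by
    refine (hasSum_nat_add_iff' (N + 1)).1 ?_
    have e1 : ∑ i ∈ Finset.range (N + 1), G e (i - (N + 1)) = 0 := by
      refine Finset.sum_eq_zero fun i hi => ?_
      rw [Nat.sub_eq_zero_of_le (Finset.mem_range.1 hi).le, G_zero he]
    rw [e1, sub_zero]
    simpa using h1
  have h3 : HasSum (fun n => G e (N - n)) (∑ n ∈ Finset.range N, G e (N - n)) := by
    refine hasSum_sum_of_ne_finset_zero fun n hn => ?_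
    rw [Finset.mem_range, not_lt] at hn
    rw [Nat.sub_eq_zero_of_le hn, G_zero he]
  have h4 : ∑ n ∈ Finset.range N, G e (N - n) ≤ ∑' n, G e n := by
    have h5 : ∑ n ∈ Finset.range N, G e (N - n) =
        ∑ j ∈ (Finset.range N).image (fun n => N - n), G e j := by
      rw [Finset.sum_image]
      intro x hx y hy hxy
      have hx' := Finset.mem_range.1 (Finset.mem_coe.1 hx)
      have hy' := Finset.mem_range.1 (Finset.mem_coe.1 hy)
      simp only at hxy
      omega
    rw [h5]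
    exact (G_summable he).sum_le_tsum _ fun i _ => G_nonneg e i
  exact ⟨_, by linarith, (h1.add h3).add h2⟩

/-- the mean value of the product twisted by `(A/B)^{it}` -/
def mm {k : ℕ} (β : Fin k → ℝ) (A B : ℕ) : ℂ :=
  if B ∣ A then tau (fun j => -((β j : ℂ) * I)) (A / B) * ((A / B : ℕ) : ℂ) ^ (-(1 / 2) : ℂ) else 0

/-- powers of a positive real number -/
lemma cpq {q : ℝ} (hq : 0 < q) (w : ℂ) : (q : ℂ) ^ w = Complex.exp ((Real.log q : ℂ) * w) := by
  rw [Complex.cpow_def_of_ne_zero (by exact_mod_cast hq.ne'), Complex.ofReal_log hq.le]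

/-- the terms of the twisted integrand -/
lemma term_eqB (η : ℝ) (c : ℂ) {q : ℝ} {n : ℕ} (hq : 0 < q) (hn : 0 < n) (t : ℝ) :
    c / (n : ℂ) ^ (1 + η + I * t : ℂ) * (q : ℂ) ^ (1 / 2 + η + I * t : ℂ) =
      (c * ((((n : ℝ) ^ (-(1 + η)) * q ^ (1 / 2 + η) : ℝ)) : ℂ)) *
        Complex.exp ((((Real.log q - Real.log n : ℝ) : ℂ) * I) * t) := by
  have hn0 : (0 : ℝ) < n := by exact_mod_cast hn
  rw [div_eq_mul_inv, ← Complex.cpow_neg, cp hn, cpq hq, Real.rpow_def_of_pos hn0,
    Real.rpow_def_of_pos hq, ← Real.exp_add, Complex.ofReal_exp, mul_assoc, mul_assoc,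
    ← Complex.exp_add, ← Complex.exp_add]
  congr 2
  push_cast
  ring

theorem DSB (k : ℕ) {η : ℝ} (hη : 0 < η) : ∃ C : ℝ, 0 < C ∧ ∀ (β : Fin k → ℝ) (a b : ℝ) (A B : ℕ),
    1 ≤ A → 1 ≤ B →
    ‖(∫ t in a..b, (∏ j, riemannZeta (1 + η + I * (t + β j))) *
        (((A : ℝ) / (B : ℝ) : ℝ) : ℂ) ^ (1 / 2 + η + I * t : ℂ)) - (b - a) * mm β A B‖ ≤
      C * ((A : ℝ) ^ η * ((A : ℝ) / B) ^ (1 / 2 + η) * (1 + dd A B)) := by
  obtain ⟨D, hD0, hD⟩ := tau_ptw k (half_pos hη)
  set e : ℝ := η / 2 with he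
  have he0 : 0 < e := half_pos hη
  set Z : ℝ := ∑' n, G e n with hZ
  have hZ0 : 0 ≤ Z := tsum_nonneg fun n => G_nonneg e n
  refine ⟨2 * D * (6 * Z + 3) + 1, by positivity, ?_⟩
  intro β a b A B hA hB
  have hA0 : (0 : ℝ) < A := by exact_mod_cast hA
  have hA1 : (1 : ℝ) ≤ A := by exact_mod_cast hA
  have hB0 : (0 : ℝ) < B := by exact_mod_cast hB
  obtain ⟨q, hq⟩ : ∃ q : ℝ, q = (A : ℝ) / B := ⟨_, rfl⟩
  have hq0 : 0 < q := by rw [hq]; positivity
  have hlq : Real.log q = Real.log A - Real.log B := by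
    rw [hq, Real.log_div hA0.ne' hB0.ne']
  rw [← hq]
  set T : ℕ → ℂ := tau (fun j => -((β j : ℂ) * I)) with hT
  have hTn : ∀ n, ‖T n‖ ≤ D * (n : ℝ) ^ e := fun n => hD β n
  have hdd : 0 ≤ dd A B := by unfold dd; split_ifs <;> positivity
  -- the terms
  let F : ℕ → ℝ → ℂ := fun n t => LSeries.term T (1 + η + I * t : ℂ) n *
    (q : ℂ) ^ (1 / 2 + η + I * t : ℂ)
  have hF0 : ∀ t, F 0 t = 0 := by
    intro t
    simp [F]
  have hFn : ∀ n, 0 < n → ∀ t, F n t =
      (T n * ((((n : ℝ) ^ (-(1 + η)) * q ^ (1 / 2 + η) : ℝ)) : ℂ)) *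
        Complex.exp ((((Real.log q - Real.log n : ℝ) : ℂ) * I) * t) := by
    intro n hn t
    simp only [F]
    rw [LSeries.term_of_ne_zero hn.ne', term_eqB η _ hq0 hn t]
  have hcoef : ∀ n, 0 < n → ‖T n * ((((n : ℝ) ^ (-(1 + η)) * q ^ (1 / 2 + η) : ℝ)) : ℂ)‖ ≤
      D * q ^ (1 / 2 + η) * G e n := by
    intro n hn
    have hn0 : (0 : ℝ) < n := by exact_mod_cast hn
    rw [norm_mul, Complex.norm_real, Real.norm_eq_abs, abs_of_nonneg (by positivity)]
    have e1 : G e n = (n : ℝ) ^ e * (n : ℝ) ^ (-(1 + η)) := by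
      unfold G
      rw [← Real.rpow_add hn0]
      congr 1
      rw [he]; ring
    rw [e1]
    calc ‖T n‖ * ((n : ℝ) ^ (-(1 + η)) * q ^ (1 / 2 + η))
        ≤ (D * (n : ℝ) ^ e) * ((n : ℝ) ^ (-(1 + η)) * q ^ (1 / 2 + η)) :=
          mul_le_mul_of_nonneg_right (hTn n) (by positivity)
      _ = _ := by ring
  have hexp : ∀ (ω t : ℝ), ‖Complex.exp (((ω : ℂ) * I) * t)‖ = 1 := by
    intro ω t
    have : (ω : ℂ) * I * t = ((ω * t : ℝ) : ℂ) * I := by push_cast; ring
    rw [this, Complex.norm_exp_ofReal_mul_I]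
  have hbd : ∀ n t, ‖F n t‖ ≤ D * q ^ (1 / 2 + η) * G e n := by
    intro n t
    rcases Nat.eq_zero_or_pos n with hn | hn
    · subst hn
      rw [hF0, norm_zero]
      exact mul_nonneg (by positivity) (G_nonneg _ _)
    · rw [hFn n hn t, norm_mul, hexp, mul_one]
      exact hcoef n hn
  have hcont : ∀ n, Continuous (F n) := by
    intro n
    rcases Nat.eq_zero_or_pos n with hn | hn
    · subst hn
      have : F 0 = fun _ => 0 := funext hF0
      rw [this]
      exact continuous_const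
    · have : F n = fun t : ℝ =>
          (T n * ((((n : ℝ) ^ (-(1 + η)) * q ^ (1 / 2 + η) : ℝ)) : ℂ)) *
          Complex.exp ((((Real.log q - Real.log n : ℝ) : ℂ) * I) * t) := funext (hFn n hn)
      rw [this]
      fun_prop
  have hsum : ∀ t : ℝ, HasSum (fun n => F n t) ((∏ j, riemannZeta (1 + η + I * (t + β j))) *
      (q : ℂ) ^ (1 / 2 + η + I * t : ℂ)) := by
    intro t
    have h1 := tau_hasSum k β (1 + η + I * t : ℂ) (by simp; exact hη)
    have h2 : ZP β (1 + η + I * t : ℂ) = ∏ j, riemannZeta (1 + η + I * (t + β j)) := by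
      unfold ZP
      refine Finset.prod_congr rfl fun j _ => ?_
      congr 1; ring
    rw [← h2]
    exact h1.mul_right _
  have hint : HasSum (fun n => ∫ t in a..b, F n t)
      (∫ t in a..b, (∏ j, riemannZeta (1 + η + I * (t + β j))) *
        (q : ℂ) ^ (1 / 2 + η + I * t : ℂ)) := by
    refine intervalIntegral.hasSum_integral_of_dominated_convergence
      (fun n _ => D * q ^ (1 / 2 + η) * G e n)
      (fun n => (hcont n).aestronglyMeasurable) ?_ ?_ ?_ ?_
    · intro n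
      exact Eventually.of_forall fun t _ => hbd n t
    · exact Eventually.of_forall fun t _ => (G_summable he0).mul_left _
    · exact intervalIntegrable_const
    · exact Eventually.of_forall fun t _ => hsum t
  -- the main term
  have hmain : HasSum (fun n => if n * B = A then ∫ t in a..b, F n t else 0)
      ((b - a) * mm β A B) := by
    have h1 := hasSum_single (f := fun n => if n * B = A then ∫ t in a..b, F n t else 0) (A / B)
      (fun n hn => by
        rw [if_neg]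
        intro h
        apply hn
        rw [← h, Nat.mul_div_cancel _ hB])
    convert h1 using 1
    unfold mm
    by_cases hdvd : B ∣ A
    · rw [if_pos hdvd, if_pos (Nat.div_mul_cancel hdvd)]
      have hm : 0 < A / B := Nat.div_pos (Nat.le_of_dvd hA hdvd) hB
      have hqm : q = ((A / B : ℕ) : ℝ) := by
        rw [hq, Nat.cast_div hdvd hB0.ne']
      have h2 : ∀ t : ℝ, F (A / B) t = T (A / B) * ((A / B : ℕ) : ℂ) ^ (-(1 / 2) : ℂ) := by
        intro t
        have hm0 : (0 : ℝ) < ((A / B : ℕ) : ℝ) := by exact_mod_cast hm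
        rw [hFn _ hm t, hqm, sub_self, Complex.ofReal_zero, zero_mul, zero_mul, Complex.exp_zero,
          mul_one, cp hm, ← Real.rpow_add hm0, Real.rpow_def_of_pos hm0, Complex.ofReal_exp]
        congr 2
        push_cast
        ring
      simp only [h2]
      rw [intervalIntegral.integral_const, Complex.real_smul]
      push_cast
      ring
    · rw [if_neg hdvd, if_neg, mul_zero]
      intro h
      exact hdvd ⟨A / B, by rw [mul_comm]; exact h.symm⟩
  have hdiff := hint.sub hmain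
  obtain ⟨S, hS, hmaj⟩ := majB he0 (A / B)
  rw [← hdiff.tsum_eq]
  have hmaj2 := ((hmaj.mul_left (2 * (A : ℝ) ^ (2 * e))).add
    (hasSum_ite_eq (A / B) (2 * dd A B))).add (hasSum_ite_eq (A / B + 1) (1 + dd A B))
  have hfin := tsum_of_norm_bounded (hmaj2.mul_left (2 * D * q ^ (1 / 2 + η)))
    (f := fun n => (∫ t in a..b, F n t) - if n * B = A then ∫ t in a..b, F n t else 0) (by
    intro n
    have hR : 0 ≤ 2 * (A : ℝ) ^ (2 * e) * (G e n + G e (A / B - n) + G e (n - (A / B + 1))) +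
        (if n = A / B then 2 * dd A B else 0) + (if n = A / B + 1 then 1 + dd A B else 0) := by
      have g1 := G_nonneg e n
      have g2 := G_nonneg e (A / B - n)
      have g3 := G_nonneg e (n - (A / B + 1))
      have g4 : 0 ≤ 2 * (A : ℝ) ^ (2 * e) * (G e n + G e (A / B - n) + G e (n - (A / B + 1))) := by
        positivity
      split_ifs <;> linarith
    by_cases hnm : n * B = A
    · rw [if_pos hnm, sub_self, norm_zero]
      positivity
    · rw [if_neg hnm, sub_zero]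
      rcases Nat.eq_zero_or_pos n with hn | hn
      · subst hn
        simp only [hF0, intervalIntegral.integral_zero, norm_zero]
        positivity
      · have hn0 : (0 : ℝ) < n := by exact_mod_cast hn
        have hnB : Real.log ((n * B : ℕ) : ℝ) = Real.log n + Real.log B := by
          push_cast
          rw [Real.log_mul hn0.ne' hB0.ne']
        have hωe : Real.log q - Real.log n = Real.log A - Real.log ((n * B : ℕ) : ℝ) := by
          rw [hnB, hlq]; ring
        have hω : Real.log q - Real.log n ≠ 0 := by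
          rw [hωe]
          intro h0
          have hnB0 : (0 : ℝ) < ((n * B : ℕ) : ℝ) := by push_cast; positivity
          have := Real.log_injOn_pos (Set.mem_Ioi.2 hA0) (Set.mem_Ioi.2 hnB0) (sub_eq_zero.1 h0)
          exact hnm (by exact_mod_cast this.symm)
        have h1 : ∫ t in a..b, F n t =
            (T n * ((((n : ℝ) ^ (-(1 + η)) * q ^ (1 / 2 + η) : ℝ)) : ℂ)) *
            ∫ t in a..b, Complex.exp ((((Real.log q - Real.log n : ℝ) : ℂ) * I) * t) := by
          rw [← intervalIntegral.integral_const_mul]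
          exact intervalIntegral.integral_congr fun t _ => hFn n hn t
        rw [h1, norm_mul]
        have h2 := osc hω a b
        have h3 := elemB he0 hA hB hn hnm
        rw [← hωe] at h3
        calc _ ≤ (D * q ^ (1 / 2 + η) * G e n) * (2 / |Real.log q - Real.log n|) :=
              mul_le_mul (hcoef n hn) h2 (norm_nonneg _)
                (mul_nonneg (by positivity) (G_nonneg _ _))
          _ = 2 * D * q ^ (1 / 2 + η) * (G e n * (1 / |Real.log q - Real.log n|)) := by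
              ring
          _ ≤ _ := mul_le_mul_of_nonneg_left h3 (by positivity))
  refine hfin.trans ?_
  have hAe : 1 ≤ (A : ℝ) ^ (2 * e) := Real.one_le_rpow hA1 (by positivity)
  have hp : (A : ℝ) ^ η = (A : ℝ) ^ (2 * e) := by
    congr 1
    rw [he]; ring
  rw [hp]
  obtain ⟨W, hW⟩ : ∃ W, W = (A : ℝ) ^ (2 * e) := ⟨_, rfl⟩
  rw [← hW] at hAe ⊢
  have h1 : 2 * W * S + 2 * dd A B + (1 + dd A B) ≤ W * (1 + dd A B) * (6 * Z + 3) := by
    have h2 : 2 * W * S ≤ 2 * W * (3 * Z) := mul_le_mul_of_nonneg_left hS (by linarith)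
    have h3 : 1 + 3 * dd A B ≤ 3 * (W * (1 + dd A B)) := by nlinarith
    have h4 : 0 ≤ 6 * Z * (W * dd A B) := by positivity
    nlinarith
  have hq1 : 0 ≤ q ^ (1 / 2 + η) := by positivity
  calc 2 * D * q ^ (1 / 2 + η) * (2 * W * S + 2 * dd A B + (1 + dd A B))
      ≤ 2 * D * q ^ (1 / 2 + η) * (W * (1 + dd A B) * (6 * Z + 3)) :=
        mul_le_mul_of_nonneg_left h1 (by positivity)
    _ = 2 * D * (6 * Z + 3) * (W * q ^ (1 / 2 + η) * (1 + dd A B)) := by ring
    _ ≤ (2 * D * (6 * Z + 3) + 1) * (W * q ^ (1 / 2 + η) * (1 + dd A B)) := by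
        refine mul_le_mul_of_nonneg_right (by linarith) (by positivity)

/-! ### The contour shift -/

section shift

variable {k : ℕ}

/-- the function whose contour is shifted -/
def Fq (β : Fin k → ℝ) (q : ℝ) (s : ℂ) : ℂ :=
  (∏ j, riemannZeta (s + I * (β j : ℂ))) * (q : ℂ) ^ (s - 1 / 2)

lemma Fq_half (β : Fin k → ℝ) (q t : ℝ) :
    Fq β q (((1 / 2 : ℝ) : ℂ) + t * I) = AA β t * (q : ℂ) ^ (I * (t : ℂ)) := by
  unfold Fq AA z
  congr 1
  · refine Finset.prod_congr rfl fun j _ => ?_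
    congr 1
    push_cast
    ring
  · congr 1
    push_cast
    ring

lemma Fq_right (β : Fin k → ℝ) (q η t : ℝ) :
    Fq β q (((1 + η : ℝ) : ℂ) + t * I) =
      (∏ j, riemannZeta (1 + η + I * (t + β j))) * (q : ℂ) ^ (1 / 2 + η + I * t : ℂ) := by
  unfold Fq
  congr 1
  · refine Finset.prod_congr rfl fun j _ => ?_
    congr 1
    push_cast
    ring
  · congr 1
    push_cast
    ring

lemma Fq_norm (β : Fin k → ℝ) {q : ℝ} (hq : 0 < q) (x h : ℝ) :
    ‖Fq β q ((x : ℂ) + h * I)‖ =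
      (∏ j, ‖riemannZeta (x + I * ((h + β j : ℝ) : ℂ))‖) * q ^ (x - 1 / 2) := by
  unfold Fq
  rw [norm_mul, norm_prod, Complex.norm_cpow_eq_rpow_re_of_pos hq]
  congr 1
  · refine Finset.prod_congr rfl fun j _ => ?_
    congr 2
    push_cast
    ring
  · congr 1
    simp

lemma Fq_diff (β : Fin k → ℝ) {q : ℝ} (hq : 0 < q) {s : ℂ} (hs : ∀ j, 0 < s.im + β j) :
    DifferentiableAt ℂ (Fq β q) s := by
  unfold Fq
  have hm0 : (q : ℂ) ≠ 0 := by exact_mod_cast hq.ne'
  refine DifferentiableAt.mul ?_ ?_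
  · refine DifferentiableAt.fun_finsetProd fun j _ => ?_
    have h1 : DifferentiableAt ℂ riemannZeta (s + I * (β j : ℂ)) := by
      refine differentiableAt_riemannZeta ?_
      intro h
      have := congrArg Complex.im h
      simp at this
      linarith [hs j]
    exact h1.comp s (by fun_prop)
  · exact DifferentiableAt.const_cpow (by fun_prop) (Or.inl hm0)

lemma Fq_diff' (β : Fin k → ℝ) {q : ℝ} (hq : 0 < q) {s : ℂ} (hs : s.re ≠ 1) :
    DifferentiableAt ℂ (Fq β q) s := by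
  unfold Fq
  have hm0 : (q : ℂ) ≠ 0 := by exact_mod_cast hq.ne'
  refine DifferentiableAt.mul ?_ ?_
  · refine DifferentiableAt.fun_finsetProd fun j _ => ?_
    have h1 : DifferentiableAt ℂ riemannZeta (s + I * (β j : ℂ)) := by
      refine differentiableAt_riemannZeta ?_
      intro h
      have := congrArg Complex.re h
      simp at this
      exact hs this
    exact h1.comp s (by fun_prop)
  · exact DifferentiableAt.const_cpow (by fun_prop) (Or.inl hm0)

lemma Fq_cont (β : Fin k → ℝ) {q : ℝ} (hq : 0 < q) {x : ℝ} (hx : x ≠ 1) :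
    Continuous fun t : ℝ => Fq β q ((x : ℂ) + t * I) := by
  rw [continuous_iff_continuousAt]
  intro t
  have h1 : ContinuousAt (Fq β q) ((x : ℂ) + t * I) :=
    (Fq_diff' β hq (by simpa using hx)).continuousAt
  have h2 : ContinuousAt (fun t : ℝ => (x : ℂ) + t * I) t := by fun_prop
  exact ContinuousAt.comp (f := fun t : ℝ => (x : ℂ) + t * I) (g := Fq β q) h1 h2

lemma shiftq (β : Fin k → ℝ) {q : ℝ} (hq : 0 < q) {η a S B : ℝ} (hη : 0 < η) (haS : a ≤ S)
    (ha : ∀ j, 0 < a + β j)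
    (hB : ∀ x h : ℝ, 1 / 2 ≤ x → x ≤ 1 + η → (h = a ∨ h = S) →
      ‖Fq β q ((x : ℂ) + h * I)‖ ≤ B) :
    ‖(∫ t in a..S, Fq β q (((1 / 2 : ℝ) : ℂ) + t * I)) -
      ∫ t in a..S, Fq β q (((1 + η : ℝ) : ℂ) + t * I)‖ ≤ 2 * (1 / 2 + η) * B := by
  have H := Complex.integral_boundary_rect_eq_zero_of_differentiableOn (Fq β q)
    (⟨1 / 2, a⟩ : ℂ) (⟨1 + η, S⟩ : ℂ) (by
      intro s hs
      refine (Fq_diff β hq ?_).differentiableWithinAt
      intro j
      have h2 : s.im ∈ Set.uIcc a S := hs.2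
      rw [uIcc_of_le haS] at h2
      linarith [h2.1, ha j])
  simp only [smul_eq_mul] at H
  have hx : ∀ h : ℝ, (h = a ∨ h = S) →
      ‖∫ x in (1 / 2 : ℝ)..(1 + η), Fq β q ((x : ℂ) + (h : ℂ) * I)‖ ≤ B * (1 / 2 + η) := by
    intro h hh
    have h1 := intervalIntegral.norm_integral_le_of_norm_le_const (a := (1 / 2 : ℝ)) (b := 1 + η)
      (f := fun x : ℝ => Fq β q ((x : ℂ) + (h : ℂ) * I)) (C := B) (fun x hx => by
        rw [uIoc_of_le (by linarith)] at hx
        exact hB x h (by linarith [hx.1]) hx.2 hh)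
    have h2 : |1 + η - 1 / 2| = 1 / 2 + η := by
      rw [abs_of_nonneg (by linarith)]
      ring
    rw [h2] at h1
    exact h1
  have h1 := hx a (Or.inl rfl)
  have h2 := hx S (Or.inr rfl)
  generalize (∫ x in (1 / 2 : ℝ)..(1 + η), Fq β q ((x : ℂ) + (a : ℂ) * I)) = X1 at H h1
  generalize (∫ x in (1 / 2 : ℝ)..(1 + η), Fq β q ((x : ℂ) + (S : ℂ) * I)) = X2 at H h2
  generalize (∫ t in a..S, Fq β q (((1 / 2 : ℝ) : ℂ) + t * I)) = P at H ⊢
  generalize (∫ t in a..S, Fq β q (((1 + η : ℝ) : ℂ) + t * I)) = Q at H ⊢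
  have h3 : I * (P - Q) = X1 - X2 := by linear_combination -H
  have h4 : ‖P - Q‖ = ‖X1 - X2‖ := by
    rw [← h3, norm_mul, Complex.norm_I, one_mul]
  rw [h4]
  calc ‖X1 - X2‖ ≤ ‖X1‖ + ‖X2‖ := norm_sub_le _ _
    _ ≤ 2 * (1 / 2 + η) * B := by linarith

/-- interpolation between the two ends of a horizontal side -/
lemma interp {T q η x : ℝ} (c : ℝ) (hT : 1 ≤ T) (hq : 0 < q) (hqT : q ≤ T) (hη : 0 < η)
    (hx1 : 1 / 2 ≤ x) (hx2 : x ≤ 1 + η) :
    T ^ (c * max 0 ((1 - x) / 3)) * q ^ (x - 1 / 2) ≤ (T ^ (c / 6) + q ^ (1 / 2 : ℝ)) * T ^ η := by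
  have hT0 : 0 < T := by linarith
  have hTη : 1 ≤ T ^ η := Real.one_le_rpow hT hη.le
  have h1 : 0 < T ^ (c / 6) := Real.rpow_pos_of_pos hT0 _
  have h2 : 0 < q ^ (1 / 2 : ℝ) := Real.rpow_pos_of_pos hq _
  rcases le_or_gt x 1 with hx | hx
  · rw [max_eq_right (by linarith)]
    have e1 : T ^ (c * ((1 - x) / 3)) = (T ^ (c / 6)) ^ (2 - 2 * x) := by
      rw [← Real.rpow_mul hT0.le]
      congr 1
      ring
    have e2 : q ^ (x - 1 / 2) = (q ^ (1 / 2 : ℝ)) ^ (2 * x - 1) := by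
      rw [← Real.rpow_mul hq.le]
      congr 1
      ring
    rw [e1, e2]
    have h3 := Real.geom_mean_le_arith_mean2_weighted (w₁ := 2 - 2 * x) (w₂ := 2 * x - 1)
      (by linarith) (by linarith) h1.le h2.le (by ring)
    calc (T ^ (c / 6)) ^ (2 - 2 * x) * (q ^ (1 / 2 : ℝ)) ^ (2 * x - 1)
        ≤ (2 - 2 * x) * T ^ (c / 6) + (2 * x - 1) * q ^ (1 / 2 : ℝ) := h3
      _ ≤ T ^ (c / 6) + q ^ (1 / 2 : ℝ) := by nlinarith
      _ ≤ (T ^ (c / 6) + q ^ (1 / 2 : ℝ)) * T ^ η := by nlinarith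
  · rw [max_eq_left (by linarith), mul_zero, Real.rpow_zero, one_mul]
    have e1 : q ^ (x - 1 / 2) = q ^ (1 / 2 : ℝ) * q ^ (x - 1) := by
      rw [← Real.rpow_add hq]
      congr 1
      ring
    have e2 : q ^ (x - 1) ≤ T ^ η :=
      (Real.rpow_le_rpow hq.le hqT (by linarith)).trans
        (Real.rpow_le_rpow_of_exponent_le hT (by linarith))
    rw [e1]
    calc q ^ (1 / 2 : ℝ) * q ^ (x - 1) ≤ q ^ (1 / 2 : ℝ) * T ^ η :=
          mul_le_mul_of_nonneg_left e2 h2.le
      _ ≤ (T ^ (c / 6) + q ^ (1 / 2 : ℝ)) * T ^ η :=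
          mul_le_mul_of_nonneg_right (by linarith) (by positivity)

/-- the bound on a horizontal side -/
lemma sideq (β : Fin k → ℝ) {q T C K ε₁ η x h : ℝ} (hq : 0 < q) (hqT : q ≤ T) (hT : 1 ≤ T)
    (hC : 0 < C) (hK : 1 ≤ K) (hε : 0 < ε₁) (hε1 : ε₁ ≤ 1) (hη : 0 < η)
    (hx1 : 1 / 2 ≤ x) (hx2 : x ≤ 1 + η)
    (hz : ∀ j, ‖riemannZeta (x + I * ((h + β j : ℝ) : ℂ))‖ ≤
      C * |h + β j| ^ (max 0 ((1 - x) / 3) + ε₁))
    (hh : ∀ j, 1 ≤ |h + β j| ∧ |h + β j| ≤ K * T) :
    ‖Fq β q ((x : ℂ) + h * I)‖ ≤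
      (C * K ^ 2) ^ k * T ^ (k * ε₁ + η) * (T ^ ((k : ℝ) / 6) + q ^ (1 / 2 : ℝ)) := by
  rw [Fq_norm β hq]
  have hT0 : 0 < T := by linarith
  have hK0 : 0 < K := by linarith
  obtain ⟨p, hp⟩ : ∃ p, p = max 0 ((1 - x) / 3) := ⟨_, rfl⟩
  have hp0 : 0 ≤ p := by rw [hp]; exact le_max_left _ _
  have hp1 : p ≤ 1 := by
    rw [hp]
    exact max_le (by norm_num) (by linarith)
  rw [← hp] at hz
  have h1 : ∏ j, ‖riemannZeta (x + I * ((h + β j : ℝ) : ℂ))‖ ≤
      ∏ _j : Fin k, (C * K ^ 2 * T ^ (p + ε₁)) := by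
    refine Finset.prod_le_prod (fun j _ => norm_nonneg _) fun j _ => ?_
    calc ‖riemannZeta (x + I * ((h + β j : ℝ) : ℂ))‖ ≤ C * |h + β j| ^ (p + ε₁) := hz j
      _ ≤ C * (K * T) ^ (p + ε₁) := mul_le_mul_of_nonneg_left
          (Real.rpow_le_rpow (abs_nonneg _) (hh j).2 (by linarith)) hC.le
      _ = C * (K ^ (p + ε₁) * T ^ (p + ε₁)) := by rw [Real.mul_rpow hK0.le hT0.le]
      _ ≤ C * (K ^ (2 : ℝ) * T ^ (p + ε₁)) := by
          refine mul_le_mul_of_nonneg_left (mul_le_mul_of_nonneg_right ?_ (by positivity)) hC.le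
          exact Real.rpow_le_rpow_of_exponent_le hK (by linarith)
      _ = C * K ^ 2 * T ^ (p + ε₁) := by rw [Real.rpow_two]; ring
  rw [Finset.prod_const, Finset.card_univ, Fintype.card_fin, mul_pow] at h1
  have h2 : (T ^ (p + ε₁)) ^ k = T ^ (k * ε₁) * T ^ (k * p) := by
    rw [← Real.rpow_natCast, ← Real.rpow_mul hT0.le, ← Real.rpow_add hT0]
    congr 1
    ring
  have h3 := interp (k : ℝ) hT hq hqT hη hx1 hx2
  rw [← hp] at h3
  calc (∏ j, ‖riemannZeta (x + I * ((h + β j : ℝ) : ℂ))‖) * q ^ (x - 1 / 2)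
      ≤ ((C * K ^ 2) ^ k * (T ^ (p + ε₁)) ^ k) * q ^ (x - 1 / 2) :=
        mul_le_mul_of_nonneg_right h1 (by positivity)
    _ = (C * K ^ 2) ^ k * T ^ (k * ε₁) * (T ^ (k * p) * q ^ (x - 1 / 2)) := by rw [h2]; ring
    _ ≤ (C * K ^ 2) ^ k * T ^ (k * ε₁) * ((T ^ ((k : ℝ) / 6) + q ^ (1 / 2 : ℝ)) * T ^ η) :=
        mul_le_mul_of_nonneg_left h3 (by positivity)
    _ = _ := by rw [Real.rpow_add hT0]; ring

/-- the twisted integral for a full block -/
theorem mainK (hZC : S_ZC) (β : Fin k → ℝ) {ε : ℝ} (hε : 0 < ε) : ∃ C : ℝ, 0 < C ∧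
    ∀ (T a b : ℝ) (A B : ℕ), 3 ≤ T → 0 ≤ a → a ≤ b → b ≤ T → 1 ≤ A → (A : ℝ) ≤ T → 1 ≤ B →
      (B : ℝ) ≤ T →
      ‖(∫ t in a..b, AA β t * (((A : ℝ) / (B : ℝ) : ℝ) : ℂ) ^ (I * (t : ℂ))) -
        ((b - a : ℝ) : ℂ) * mm β A B‖ ≤
      C * T ^ ε * (T ^ ((k : ℝ) / 6) + ((A : ℝ) / B) ^ (1 / 2 : ℝ) * (1 + dd A B)) := by
  obtain ⟨η, hη⟩ : ∃ η : ℝ, η = min 1 (ε / 4) := ⟨_, rfl⟩
  have hη0 : 0 < η := by rw [hη]; exact lt_min one_pos (by linarith)
  have hη1 : η ≤ 1 := by rw [hη]; exact min_le_left _ _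
  have hηε : η ≤ ε / 4 := by rw [hη]; exact min_le_right _ _
  obtain ⟨ε₁, hε₁⟩ : ∃ ε₁ : ℝ, ε₁ = η / (k + 1) := ⟨_, rfl⟩
  have hk1 : (0 : ℝ) < (k : ℝ) + 1 := by positivity
  have hε₁0 : 0 < ε₁ := by rw [hε₁]; positivity
  have hkε : k * ε₁ ≤ η := by
    rw [hε₁, mul_div_assoc', div_le_iff₀ hk1]
    nlinarith
  have hε₁1 : ε₁ ≤ 1 := by
    rw [hε₁, div_le_one hk1]
    linarith [show (0 : ℝ) ≤ k by positivity]
  obtain ⟨C₁, hC₁, hzc⟩ := hZC ε₁ hε₁0
  obtain ⟨C₂, hC₂, hdsb⟩ := DSB k hη0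
  obtain ⟨D, hD0, hD⟩ := tau_ptw k hε
  obtain ⟨Am, hAm0, hAm⟩ : ∃ Am : ℝ, 0 ≤ Am ∧ ∀ j, |β j| ≤ Am :=
    ⟨∑ j, |β j|, Finset.sum_nonneg fun j _ => abs_nonneg _,
      fun j => Finset.single_le_sum (f := fun j => |β j|) (fun j _ => abs_nonneg _)
        (Finset.mem_univ j)⟩
  obtain ⟨c₀, hc₀⟩ : ∃ c₀ : ℝ, c₀ = 2 + Am := ⟨_, rfl⟩
  obtain ⟨K, hK⟩ : ∃ K : ℝ, K = 1 + Am := ⟨_, rfl⟩
  have hAAc : Continuous fun t : ℝ => AA β t := by
    have h1 : Continuous fun t : ℝ => Fq β 1 (((1 / 2 : ℝ) : ℂ) + t * I) :=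
      Fq_cont _ one_pos (by norm_num)
    refine h1.congr fun t => ?_
    rw [Fq_half]
    simp
  obtain ⟨M₀, hM₀⟩ := (isCompact_Icc (a := (0 : ℝ)) (b := c₀)).exists_bound_of_continuousOn
    hAAc.continuousOn
  refine ⟨|M₀| * c₀ + D * c₀ + 3 * (C₁ * K ^ 2) ^ k + C₂ + 1, by
    rw [hc₀, hK]
    positivity, ?_⟩
  intro T a b A B hT ha hab hbT hA hAT hB hBT
  have hT1 : 1 ≤ T := by linarith
  have hT0 : 0 < T := by linarith
  have hA0 : (0 : ℝ) < A := by exact_mod_cast hA
  have hB0 : (0 : ℝ) < B := by exact_mod_cast hB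
  have hB1 : (1 : ℝ) ≤ B := by exact_mod_cast hB
  obtain ⟨q, hq⟩ : ∃ q : ℝ, q = (A : ℝ) / B := ⟨_, rfl⟩
  have hq0 : 0 < q := by rw [hq]; positivity
  have hqT : q ≤ T := by
    rw [hq]
    exact (div_le_self hA0.le hB1).trans hAT
  have hdd : 0 ≤ dd A B := by unfold dd; split_ifs <;> positivity
  have hmm : ‖mm β A B‖ ≤ D * T ^ ε := by
    unfold mm
    split_ifs with hdvd
    · have hm : 0 < A / B := Nat.div_pos (Nat.le_of_dvd hA hdvd) hB
      have hm1 : (1 : ℝ) ≤ ((A / B : ℕ) : ℝ) := by exact_mod_cast hm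
      have hmT : ((A / B : ℕ) : ℝ) ≤ T := by
        refine le_trans ?_ hAT
        exact_mod_cast Nat.div_le_self A B
      rw [norm_mul, Complex.norm_natCast_cpow_of_pos hm]
      calc ‖tau (fun j => -((β j : ℂ) * I)) (A / B)‖ * ((A / B : ℕ) : ℝ) ^ (-(1 / 2) : ℂ).re
          ≤ (D * ((A / B : ℕ) : ℝ) ^ ε) * 1 := by
            refine mul_le_mul (hD β _) ?_ (by positivity) (by positivity)
            refine Real.rpow_le_one_of_one_le_of_nonpos hm1 ?_
            norm_num
        _ ≤ (D * T ^ ε) * 1 := by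
            have := Real.rpow_le_rpow (by linarith) hmT hε.le
            gcongr
        _ = D * T ^ ε := mul_one _
    · rw [norm_zero]
      positivity
  obtain ⟨P, hP⟩ : ∃ P, P = T ^ ((k : ℝ) / 6) := ⟨_, rfl⟩
  obtain ⟨Q, hQ⟩ : ∃ Q, Q = q ^ (1 / 2 : ℝ) := ⟨_, rfl⟩
  have hP1 : 1 ≤ P := by rw [hP]; exact Real.one_le_rpow hT1 (by positivity)
  have hQ0 : 0 < Q := by rw [hQ]; exact Real.rpow_pos_of_pos hq0 _
  have hTε : 1 ≤ T ^ ε := Real.one_le_rpow hT1 hε.le
  rw [← hq]
  rw [← hP, ← hQ]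
  obtain ⟨R, hR⟩ : ∃ R, R = P + Q * (1 + dd A B) := ⟨_, rfl⟩
  rw [← hR]
  have hQd : Q ≤ Q * (1 + dd A B) := by nlinarith
  have hR1 : 1 ≤ R := by rw [hR]; linarith
  obtain ⟨c, hc⟩ : ∃ c : ℝ, c = max a (min c₀ b) := ⟨_, rfl⟩
  have hac : a ≤ c := by rw [hc]; exact le_max_left _ _
  have hcb : c ≤ b := by rw [hc]; exact max_le hab (min_le_right _ _)
  have hc0 : c - a ≤ c₀ ∧ (c ≤ c₀ ∨ c = a) := by
    rw [hc]
    rcases le_total a (min c₀ b) with h | h
    · rw [max_eq_right h]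
      have := min_le_left c₀ b
      exact ⟨by linarith, Or.inl this⟩
    · rw [max_eq_left h]
      have : 0 ≤ c₀ := by rw [hc₀]; linarith
      exact ⟨by linarith, Or.inr rfl⟩
  have hcc : c = b ∨ c₀ ≤ c := by
    rw [hc]
    rcases le_total c₀ b with h | h
    · right
      rw [min_eq_left h]
      exact le_max_right _ _
    · left
      rw [min_eq_right h, max_eq_right hab]
  have hH : Continuous fun t : ℝ => AA β t * (q : ℂ) ^ (I * (t : ℂ)) := by
    refine (Fq_cont β hq0 (x := 1 / 2) (by norm_num)).congr fun t => ?_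
    exact Fq_half β q t
  have e1 := intervalIntegral.integral_add_adjacent_intervals (hH.intervalIntegrable a c)
    (hH.intervalIntegrable (μ := volume) c b)
  -- the first part
  have E1 : ‖∫ t in a..c, AA β t * (q : ℂ) ^ (I * (t : ℂ))‖ ≤ |M₀| * c₀ := by
    rcases hc0.2 with h | h
    · have h1 := intervalIntegral.norm_integral_le_of_norm_le_const (a := a) (b := c)
        (f := fun t : ℝ => AA β t * (q : ℂ) ^ (I * (t : ℂ))) (C := |M₀|)
        (fun t ht => by
          rw [uIoc_of_le hac] at ht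
          rw [norm_mul, Complex.norm_cpow_eq_rpow_re_of_pos hq0]
          have e2 : (I * (t : ℂ)).re = 0 := by simp
          rw [e2, Real.rpow_zero, mul_one]
          exact (hM₀ t ⟨by linarith [ht.1], by linarith [ht.2]⟩).trans (le_abs_self _))
      rw [abs_of_nonneg (show 0 ≤ c - a by linarith)] at h1
      exact h1.trans (mul_le_mul_of_nonneg_left hc0.1 (abs_nonneg _))
    · rw [h, intervalIntegral.integral_same, norm_zero]
      have : 0 ≤ c₀ := by rw [hc₀]; linarith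
      positivity
  have E2 : ‖((c - a : ℝ) : ℂ) * mm β A B‖ ≤ D * c₀ * T ^ ε := by
    rw [norm_mul, Complex.norm_real, Real.norm_eq_abs, abs_of_nonneg (by linarith)]
    calc (c - a) * ‖mm β A B‖ ≤ c₀ * (D * T ^ ε) :=
          mul_le_mul hc0.1 hmm (norm_nonneg _) (by rw [hc₀]; linarith)
      _ = D * c₀ * T ^ ε := by ring
  -- the second part
  have E3 : ‖(∫ t in c..b, AA β t * (q : ℂ) ^ (I * (t : ℂ))) - ((b - c : ℝ) : ℂ) * mm β A B‖ ≤
      (3 * (C₁ * K ^ 2) ^ k + C₂) * (T ^ ε * R) := by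
    rcases hcc with h | h
    · rw [h, intervalIntegral.integral_same, sub_self, Complex.ofReal_zero, zero_mul, sub_zero,
        norm_zero]
      have : 0 ≤ K := by rw [hK]; linarith
      positivity
    · have hK1 : 1 ≤ K := by rw [hK]; linarith
      have hj : ∀ j, -Am ≤ β j ∧ β j ≤ Am := fun j => abs_le.1 (hAm j)
      have hpos : ∀ j, ∀ y, c ≤ y → 2 ≤ y + β j := fun j y hy => by
        have := (hj j).1
        rw [hc₀] at h
        linarith
      have h1 := shiftq β hq0 (η := η) (a := c) (S := b)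
        (B := (C₁ * K ^ 2) ^ k * T ^ (k * ε₁ + η) * (T ^ ((k : ℝ) / 6) + q ^ (1 / 2 : ℝ))) hη0 hcb
        (fun j => by linarith [hpos j c le_rfl]) (fun x y hx1 hx2 hy => by
          have hy1 : c ≤ y := by
            rcases hy with hy | hy
            · exact hy.ge
            · rw [hy]
              exact hcb
          have hy2 : y ≤ T := by
            rcases hy with hy | hy
            · rw [hy]
              exact hcb.trans hbT
            · rw [hy]
              exact hbT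
          have hab' : ∀ j, |y + β j| = y + β j := fun j =>
            abs_of_nonneg (by linarith [hpos j y hy1])
          refine sideq β hq0 hqT hT1 hC₁ hK1 hε₁0 hε₁1 hη0 hx1 hx2 (fun j => ?_) (fun j => ?_)
          · exact hzc x (y + β j) hx1 (by linarith) (by
              rw [hab' j]
              linarith [hpos j y hy1])
          · rw [hab' j]
            refine ⟨by linarith [hpos j y hy1], ?_⟩
            rw [hK]
            nlinarith [(hj j).2])
      have h2 : (∫ t in c..b, Fq β q (((1 / 2 : ℝ) : ℂ) + t * I)) =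
          ∫ t in c..b, AA β t * (q : ℂ) ^ (I * (t : ℂ)) :=
        intervalIntegral.integral_congr fun t _ => Fq_half β q t
      have h3 : (∫ t in c..b, Fq β q (((1 + η : ℝ) : ℂ) + t * I)) =
          ∫ t in c..b, (∏ j, riemannZeta (1 + η + I * (t + β j))) *
            (q : ℂ) ^ (1 / 2 + η + I * t : ℂ) :=
        intervalIntegral.integral_congr fun t _ => Fq_right β q η t
      rw [h2, h3, ← hP, ← hQ] at h1
      have h4 := hdsb β c b A B hA hB
      rw [← hq] at h4
      have h5 : 2 * (1 / 2 + η) * ((C₁ * K ^ 2) ^ k * T ^ (k * ε₁ + η) * (P + Q)) ≤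
          3 * (C₁ * K ^ 2) ^ k * (T ^ ε * R) := by
        have h6 : T ^ (k * ε₁ + η) ≤ T ^ ε := Real.rpow_le_rpow_of_exponent_le hT1 (by linarith)
        have h7 : P + Q ≤ R := by rw [hR]; linarith
        have h8 : 0 ≤ (C₁ * K ^ 2) ^ k := by positivity
        calc 2 * (1 / 2 + η) * ((C₁ * K ^ 2) ^ k * T ^ (k * ε₁ + η) * (P + Q))
            ≤ 3 * ((C₁ * K ^ 2) ^ k * T ^ (k * ε₁ + η) * (P + Q)) := by
              refine mul_le_mul_of_nonneg_right (by linarith) (by positivity)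
          _ ≤ 3 * ((C₁ * K ^ 2) ^ k * T ^ ε * R) := by gcongr
          _ = _ := by ring
      have h9 : C₂ * ((A : ℝ) ^ η * q ^ (1 / 2 + η) * (1 + dd A B)) ≤ C₂ * (T ^ ε * R) := by
        have e3 : q ^ (1 / 2 + η) = Q * q ^ η := by
          rw [hQ, ← Real.rpow_add hq0]
        have e4 : (A : ℝ) ^ η * q ^ η ≤ T ^ ε := by
          calc (A : ℝ) ^ η * q ^ η ≤ T ^ η * T ^ η := by
                refine mul_le_mul (Real.rpow_le_rpow hA0.le hAT hη0.le)
                  (Real.rpow_le_rpow hq0.le hqT hη0.le) (by positivity) (by positivity)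
            _ = T ^ (η + η) := (Real.rpow_add hT0 _ _).symm
            _ ≤ T ^ ε := Real.rpow_le_rpow_of_exponent_le hT1 (by linarith)
        refine mul_le_mul_of_nonneg_left ?_ hC₂.le
        rw [e3]
        calc (A : ℝ) ^ η * (Q * q ^ η) * (1 + dd A B)
            = ((A : ℝ) ^ η * q ^ η) * (Q * (1 + dd A B)) := by ring
          _ ≤ T ^ ε * (Q * (1 + dd A B)) := mul_le_mul_of_nonneg_right e4 (by positivity)
          _ ≤ T ^ ε * R := by
              refine mul_le_mul_of_nonneg_left ?_ (by positivity)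
              rw [hR]
              linarith
      have h10 : ((b - c : ℝ) : ℂ) = (b : ℂ) - c := by push_cast; ring
      rw [h10]
      generalize (∫ t in c..b, AA β t * (q : ℂ) ^ (I * (t : ℂ))) = X at h1 ⊢
      generalize (∫ t in c..b, (∏ j, riemannZeta (1 + η + I * (t + β j))) *
            (q : ℂ) ^ (1 / 2 + η + I * t : ℂ)) = Y at h1 h4
      calc ‖X - ((b : ℂ) - c) * mm β A B‖ = ‖(X - Y) + (Y - ((b : ℂ) - c) * mm β A B)‖ := by
            congr 1; ring
        _ ≤ ‖X - Y‖ + ‖Y - ((b : ℂ) - c) * mm β A B‖ := norm_add_le _ _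
        _ ≤ 3 * (C₁ * K ^ 2) ^ k * (T ^ ε * R) + C₂ * (T ^ ε * R) :=
            add_le_add (h1.trans h5) (h4.trans h9)
        _ = _ := by ring
  rw [← e1]
  have e5 : ((b - a : ℝ) : ℂ) = ((c - a : ℝ) : ℂ) + ((b - c : ℝ) : ℂ) := by push_cast; ring
  rw [e5]
  have hTR : 1 ≤ T ^ ε * R := by nlinarith
  generalize (∫ t in a..c, AA β t * (q : ℂ) ^ (I * (t : ℂ))) = X1 at E1 ⊢
  generalize (∫ t in c..b, AA β t * (q : ℂ) ^ (I * (t : ℂ))) = X2 at E3 ⊢
  have hc₀' : 0 ≤ c₀ := by rw [hc₀]; linarith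
  have E1' : |M₀| * c₀ ≤ |M₀| * c₀ * (T ^ ε * R) :=
    le_mul_of_one_le_right (by positivity) hTR
  have E2' : D * c₀ * T ^ ε ≤ D * c₀ * (T ^ ε * R) := by
    rw [mul_assoc (D * c₀) (T ^ ε) R |>.symm]
    exact le_mul_of_one_le_right (by positivity) hR1
  calc ‖X1 + X2 - (((c - a : ℝ) : ℂ) + ((b - c : ℝ) : ℂ)) * mm β A B‖
      = ‖(X1 - ((c - a : ℝ) : ℂ) * mm β A B) + (X2 - ((b - c : ℝ) : ℂ) * mm β A B)‖ := by
        congr 1; ring
    _ ≤ ‖X1 - ((c - a : ℝ) : ℂ) * mm β A B‖ + ‖X2 - ((b - c : ℝ) : ℂ) * mm β A B‖ :=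
        norm_add_le _ _
    _ ≤ (‖X1‖ + ‖((c - a : ℝ) : ℂ) * mm β A B‖) + ‖X2 - ((b - c : ℝ) : ℂ) * mm β A B‖ := by
        gcongr; exact norm_sub_le _ _
    _ ≤ (|M₀| * c₀ * (T ^ ε * R) + D * c₀ * (T ^ ε * R)) +
        (3 * (C₁ * K ^ 2) ^ k + C₂) * (T ^ ε * R) :=
        add_le_add (add_le_add (E1.trans E1') (E2.trans E2')) E3
    _ ≤ (|M₀| * c₀ + D * c₀ + 3 * (C₁ * K ^ 2) ^ k + C₂ + 1) * T ^ ε * R := by
        have : 0 ≤ T ^ ε * R := by positivity
        nlinarith

end shift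

/-! ### Reduction to a full block -/

section red

variable {k : ℕ}

/-- the shifts of the block, indexed by `Fin |F|` -/
def bt (F : Finset (Fin k)) (α : Fin k → ℝ) (i : Fin F.card) : ℝ := α (F.equivFin.symm i)

lemma AF_eq (F : Finset (Fin k)) (α : Fin k → ℝ) (t : ℝ) : AF F α t = AA (bt F α) t := by
  unfold AF AA bt
  rw [← Finset.prod_coe_sort F (fun j => z (t + α j))]
  exact (Equiv.prod_comp F.equivFin.symm (fun j : F => z (t + α j))).symm

lemma tauF_eq (F : Finset (Fin k)) (α : Fin k → ℝ) (n : ℕ) :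
    tauF F α n = tau (fun j => -((bt F α j : ℂ) * I)) n := by
  unfold tauF tau
  have hprod : ∀ d : Fin k → ℕ, (∀ j, j ∉ F → d j = 1) →
      ∏ j, d j = ∏ i : Fin F.card, d (F.equivFin.symm i) := by
    intro d hd
    rw [← Finset.prod_subset (Finset.subset_univ F) (fun j _ hj => hd j hj),
      ← Finset.prod_coe_sort F (fun j => d j)]
    exact (Equiv.prod_comp F.equivFin.symm (fun j : F => d j)).symm
  refine Finset.sum_bij' (fun d _ => fun i => d (F.equivFin.symm i))
    (fun f _ => fun j => if h : j ∈ F then f (F.equivFin ⟨j, h⟩) else 1) ?_ ?_ ?_ ?_ ?_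
  · intro d hd
    rw [Finset.mem_filter, Nat.mem_finMulAntidiag] at hd
    rw [Nat.mem_finMulAntidiag]
    refine ⟨?_, hd.1.2⟩
    rw [← hprod d hd.2]
    exact hd.1.1
  · intro f hf
    rw [Nat.mem_finMulAntidiag] at hf
    rw [Finset.mem_filter, Nat.mem_finMulAntidiag]
    refine ⟨⟨?_, hf.2⟩, fun j hj => dif_neg hj⟩
    rw [hprod _ (fun j hj => dif_neg hj)]
    rw [← hf.1]
    refine Finset.prod_congr rfl fun i _ => ?_
    rw [dif_pos (F.equivFin.symm i).2]
    simp
  · intro d hd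
    rw [Finset.mem_filter] at hd
    funext j
    by_cases hj : j ∈ F
    · simp [hj]
    · simp [hj, hd.2 j hj]
  · intro f hf
    funext i
    simp
  · intro d hd
    rw [← Finset.prod_coe_sort F (fun j => (d j : ℂ) ^ (-(I * (α j : ℂ))))]
    rw [← Equiv.prod_comp F.equivFin.symm (fun j : F => (d j : ℂ) ^ (-(I * (α j : ℂ))))]
    refine Finset.prod_congr rfl fun i _ => ?_
    unfold bt
    rw [mul_comm I]

end red

/-- TASK RNF -/
theorem t_RNF (hZC : S_ZC) : S_RNF := by
  intro k F α ε hF hε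
  obtain ⟨C, hC, h⟩ := mainK hZC (bt F α) hε
  refine ⟨C, hC, fun T a b A B hT ha hab hbT hA hAT hB hBT => ?_⟩
  have h1 := h T a b A B hT ha hab hbT hA hAT hB hBT
  have e1 : cF F α a b A B =
      ∫ t in a..b, AA (bt F α) t * (((A : ℝ) / (B : ℝ) : ℝ) : ℂ) ^ (I * (t : ℂ)) := by
    unfold cF
    exact intervalIntegral.integral_congr fun t _ => by
      rw [AF_eq]
  have e2 : mF F α A B = mm (bt F α) A B := by
    unfold mF mm
    rw [tauF_eq]
  rw [e1, e2]
  exact h1

end

end Pool.Agent.Z72.SF.RNFm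

theorem Pool.Agent.Z72.SF.t_RNF (hZC : Pool.Agent.Z72.SF.S_ZC) : Pool.Agent.Z72.SF.S_RNF :=
  Pool.Agent.Z72.SF.RNFm.t_RNF hZC
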