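import Pool.Agent.Z72.SF.Stm
import Pool.Agent.Z72.SQ.Rp

set_option autoImplicit false

/-! Project SF: proof of RPF (after SQ/Rp.lean of helper55). -/

namespace Pool.Agent.Z72.SF

open Complex Filter Topology MeasureTheory Set
open Pool.Agent.TH612.GS (z zN PN mP SN zr Sep DD tup ch wt dr IG z_cont PN_cont)
open Pool.Agent.N879.PU (fs fs_norm fs_cont fs_prod card_ii)
open Pool.Agent.N879.PZ (Wb)
open Pool.Agent.Z72.SH (ker_conj)
open Pool.Agent.Z72.SQ.RpAux (cs log_pow_bound op1)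

noncomputable section

theorem AF_contR {k : ℕ} (F : Finset (Fin k)) (α : Fin k → ℝ) : Continuous (AF F α) := by
  have : AF F α = fun t => ∏ j ∈ F, z (t + α j) := rfl
  rw [this]
  exact continuous_finsetProd _ fun j _ => z_cont.comp (by fun_prop)

theorem hF_contR {k : ℕ} (F : Finset (Fin k)) {f : ℝ → ℂ} (hf : Continuous f) (i : Fin k ⊕ Fin k) :
    Continuous (hF F f i) := by
  cases i with
  | inl j =>
    by_cases h : j ∈ F
    · have : hF F f (Sum.inl j) = fun _ => 1 := by funext u; simp [hF, h]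
      rw [this]; exact continuous_const
    · have : hF F f (Sum.inl j) = f := by funext u; simp [hF, h]
      rw [this]; exact hf
  | inr j =>
    have : hF F f (Sum.inr j) = fun u => (starRingEnd ℂ) (f u) := by funext u; simp [hF]
    rw [this]; exact Complex.continuous_conj.comp hf

/-- either a fixed index or a free one -/
theorem hF_cases {k : ℕ} (F : Finset (Fin k)) (i : Fin k ⊕ Fin k) :
    (∀ f : ℝ → ℂ, hF F f i = fun _ => 1) ∨ ∀ f : ℝ → ℂ, hF F f i = fs f i := by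
  cases i with
  | inl j =>
    by_cases h : j ∈ F
    · left; intro f; funext u; simp [hF, h]
    · right; intro f; funext u; simp [hF, h, fs]
  | inr j => right; intro f; funext u; simp [hF, fs]

/-- the replacement with the weight on a subinterval -/
theorem rw_wt (hRW : Pool.Agent.Z72.SH.S_RW) {ι : Type} [Fintype ι] {a b U K : ℝ} {w : ℝ → ℝ} {f g : ι → ℝ → ℂ}
    {v0 : ℝ → ℂ} (hv0 : Continuous v0) (hab : a ≤ b)
    (hU : 0 < U) (hK : 0 ≤ K) (hw : Continuous w) (hw0 : ∀ t, 0 ≤ w t) (hf : ∀ i, Continuous (f i))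
    (hg : ∀ i, Continuous (g i))
    (h1 : ∀ i, ∀ F : ℝ → ℂ, Wb a b F → ∫ c in (0 : ℝ)..U, ‖∫ t in a..b, F t * (f i (t + c) - g i (t + c))‖ ^ 2 ≤
      K * ∫ t in a..b, ‖F t‖ ^ 2)
    (h2 : ∀ i, ∀ t ∈ Icc a b, ∫ c in (0 : ℝ)..U, ‖f i (t + c)‖ ^ 2 ≤ w t)
    (h3 : ∀ i, ∀ t ∈ Icc a b, ∫ c in (0 : ℝ)..U, ‖g i (t + c)‖ ^ 2 ≤ w t) {x y : ℝ} (hx : a ≤ x) (hxy : x ≤ y)
    (hy : y ≤ b) :
    ∫⁻ γ, ENNReal.ofReal (‖∫ t in x..y, v0 t * (∏ i, f i (t + γ i) - ∏ i, g i (t + γ i))‖ ^ 2) ∂(mP ι U) ≤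
      ENNReal.ofReal (4 ^ Fintype.card ι * K * ∫ t in x..y, ‖v0 t‖ ^ 2 * w t ^ (Fintype.card ι - 1)) := by
  obtain ⟨v, hv⟩ : ∃ v : ℝ → ℂ, v = (Ioc x y).indicator v0 := ⟨_, rfl⟩
  have hvW : Wb a b v := by
    obtain ⟨M, hM⟩ := (isCompact_Icc (a := a) (b := b)).exists_bound_of_continuousOn hv0.continuousOn
    refine ⟨?_, max M 0, fun t ht => ?_⟩
    · rw [hv]; exact hv0.measurable.indicator measurableSet_Ioc
    · by_cases h : t ∈ Ioc x y
      · rw [hv, indicator_of_mem h]; exact (hM t ht).trans (le_max_left _ _)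
      · rw [hv, indicator_of_notMem h, norm_zero]; exact le_max_right _ _
  have hsub : Ioc x y ⊆ Ioc a b := Ioc_subset_Ioc hx hy
  have key := hRW ι a b U K w f g v hab hU hK hw hw0 hf hg h1 h2 h3 hvW
  have e1 : ∀ G : ℝ → ℂ, ∫ t in a..b, v t * G t = ∫ t in x..y, v0 t * G t := by
    intro G
    rw [intervalIntegral.integral_of_le hab, intervalIntegral.integral_of_le hxy]
    have : ∀ t, v t * G t = (Ioc x y).indicator (fun t => v0 t * G t) t := by
      intro t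
      by_cases h : t ∈ Ioc x y
      · rw [hv, indicator_of_mem h, indicator_of_mem h]
      · rw [hv, indicator_of_notMem h, indicator_of_notMem h, zero_mul]
    simp only [this]
    rw [setIntegral_indicator measurableSet_Ioc, inter_eq_self_of_subset_right hsub]
  have e2 : ∀ G : ℝ → ℝ, ∫ t in a..b, ‖v t‖ ^ 2 * G t = ∫ t in x..y, ‖v0 t‖ ^ 2 * G t := by
    intro G
    rw [intervalIntegral.integral_of_le hab, intervalIntegral.integral_of_le hxy]
    have : ∀ t, ‖v t‖ ^ 2 * G t = (Ioc x y).indicator (fun t => ‖v0 t‖ ^ 2 * G t) t := by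
      intro t
      by_cases h : t ∈ Ioc x y
      · rw [hv, indicator_of_mem h, indicator_of_mem h]
      · rw [hv, indicator_of_notMem h, indicator_of_notMem h, norm_zero]; ring
    simp only [this]
    rw [setIntegral_indicator measurableSet_Ioc, inter_eq_self_of_subset_right hsub]
  simp only [e1, e2] at key
  exact key

theorem fin_bound' {k : ℕ} {ε T U P Q K X J : ℝ} (hk : 1 ≤ k) (hε : 0 < ε) (hT : 1 ≤ T) (hU : 0 ≤ U)
    (hP : 0 ≤ P) (hQ : 0 ≤ Q) (hX : 0 ≤ X) (hK : K ≤ P * X * T ^ (ε / 2)) (hJ : 0 ≤ J) :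
    4 ^ (2 * k) * K * (J * (Q * T ^ (ε / (4 * k)) * U) ^ (2 * k - 1)) ≤
      (4 ^ (2 * k) * P * Q ^ (2 * k - 1)) * (X * T ^ ε) * U ^ (2 * k - 1) * J := by
  have hT0 : 0 < T := by linarith
  have hk0 : (1 : ℝ) ≤ k := by exact_mod_cast hk
  have h1 : (T ^ (ε / (4 * k))) ^ (2 * k - 1) ≤ T ^ (ε / 2) := by
    rw [← Real.rpow_natCast, ← Real.rpow_mul hT0.le]
    refine Real.rpow_le_rpow_of_exponent_le hT ?_
    have h2 : ((2 * k - 1 : ℕ) : ℝ) ≤ 2 * k := by
      have : 2 * k - 1 ≤ 2 * k := Nat.sub_le _ _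
      exact_mod_cast this
    calc ε / (4 * k) * ((2 * k - 1 : ℕ) : ℝ) ≤ ε / (4 * k) * (2 * k) := by gcongr
      _ = ε / 2 := by field_simp; norm_num
  have h3 : T ^ ε = T ^ (ε / 2) * T ^ (ε / 2) := by
    rw [← Real.rpow_add hT0]
    congr 1
    ring
  rw [mul_pow, mul_pow, h3]
  calc 4 ^ (2 * k) * K * (J * (Q ^ (2 * k - 1) * (T ^ (ε / (4 * k))) ^ (2 * k - 1) * U ^ (2 * k - 1)))
      ≤ 4 ^ (2 * k) * (P * X * T ^ (ε / 2)) * (J * (Q ^ (2 * k - 1) * T ^ (ε / 2) * U ^ (2 * k - 1))) := by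
        have : 0 ≤ P * X * T ^ (ε / 2) := by positivity
        gcongr
    _ = _ := by ring

/-- the common conclusion -/
theorem rpf_core (hRW : Pool.Agent.Z72.SH.S_RW) {k N : ℕ} (F : Finset (Fin k)) (α : Fin k → ℝ)
    {ε T U P Q K X x y a b : ℝ} (hk : 1 ≤ k) (hε : 0 < ε)
    (hT : 1 ≤ T) (hU : 0 < U) (hP : 0 ≤ P) (hQ : 1 ≤ Q) (hX : 0 ≤ X) (hK0 : 0 ≤ K) (hK : K ≤ P * X * T ^ (ε / 2))
    (hxy : x ≤ y)
    (h1 : ∀ F : ℝ → ℂ, Wb x y F → ∫ c in (0 : ℝ)..U, ‖∫ t in x..y, F t * (z (t + c) - PN N (t + c))‖ ^ 2 ≤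
      K * ∫ t in x..y, ‖F t‖ ^ 2)
    (h2 : ∀ t ∈ Icc x y, ∫ c in (0 : ℝ)..U, ‖z (t + c)‖ ^ 2 ≤ Q * T ^ (ε / (4 * k)) * U)
    (h3 : ∀ t ∈ Icc x y, ∫ c in (0 : ℝ)..U, ‖PN N (t + c)‖ ^ 2 ≤ Q * T ^ (ε / (4 * k)) * U)
    (hxa : x ≤ a) (hab : a ≤ b) (hby : b ≤ y) :
    ∫⁻ ξ, ENNReal.ofReal (‖∫ t in a..b, AF F α t * (∏ i, hF F z i (t + ξ i) - ∏ i, hF F (PN N) i (t + ξ i))‖ ^ 2)
      ∂(mP (Fin k ⊕ Fin k) U) ≤
      ENNReal.ofReal ((4 ^ (2 * k) * P * Q ^ (2 * k - 1)) * (X * T ^ ε) * U ^ (2 * k - 1) *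
        ∫ t in a..b, ‖AF F α t‖ ^ 2) := by
  have hQ0 : 0 ≤ Q := by linarith
  have hTp : 1 ≤ T ^ (ε / (4 * k)) := Real.one_le_rpow hT (by positivity)
  have hW0 : 0 ≤ Q * T ^ (ε / (4 * k)) * U := by positivity
  have hWU : U ≤ Q * T ^ (ε / (4 * k)) * U := by
    have : 1 ≤ Q * T ^ (ε / (4 * k)) := by nlinarith
    nlinarith
  have one_mean : ∀ _t : ℝ, ∫ _c in (0 : ℝ)..U, ‖(1:ℂ)‖ ^ 2 ≤ Q * T ^ (ε / (4 * k)) * U := by
    intro _
    simpa using hWU
  have key := rw_wt hRW (ι := Fin k ⊕ Fin k) (w := fun _ => Q * T ^ (ε / (4 * k)) * U) (f := fun i => hF F z i)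
    (g := fun i => hF F (PN N) i) (AF_contR F α) hxy hU hK0 continuous_const (fun _ => hW0)
    (fun i => hF_contR F z_cont i) (fun i => hF_contR F (PN_cont N) i)
    (fun i G hG => by
      rcases hF_cases F i with h | h
      · rw [h, h]
        have hn : 0 ≤ K * ∫ t in x..y, ‖G t‖ ^ 2 :=
          mul_nonneg hK0 (intervalIntegral.integral_nonneg hxy fun t _ => by positivity)
        simpa using hn
      · rw [h, h]
        exact ker_conj i h1 G hG)
    (fun i t ht => by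
      rcases hF_cases F i with h | h
      · rw [h]; exact one_mean t
      · rw [h]; simp only [fs_norm]; exact h2 t ht)
    (fun i t ht => by
      rcases hF_cases F i with h | h
      · rw [h]; exact one_mean t
      · rw [h]; simp only [fs_norm]; exact h3 t ht) hxa hab hby
  rw [card_ii, intervalIntegral.integral_mul_const] at key
  have hJ : 0 ≤ ∫ t in a..b, ‖AF F α t‖ ^ 2 := intervalIntegral.integral_nonneg hab fun t _ => by positivity
  exact key.trans (ENNReal.ofReal_le_ofReal (fin_bound' hk hε hT hU.le hP hQ0 hX hK hJ))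

/-- **RPF** -/
theorem t_RPF (hKD : Pool.Agent.Z72.SH.S_KD) (hRW : Pool.Agent.Z72.SH.S_RW) (hWM : Pool.Agent.Z72.SH.S_WM)
    (hWI : Pool.Agent.N879.PU.S_WINU) (hEMN : Pool.Agent.Z72.SQ.S_EMN) (hSM : Pool.Agent.TH612.GS.S_SM) : S_RPF := by
  intro k F α ε hk hε
  have hk0 : (1 : ℝ) ≤ k := by exact_mod_cast hk
  obtain ⟨δ, hδ⟩ : ∃ δ : ℝ, δ = ε / (4 * k) := ⟨_, rfl⟩
  have hδ0 : 0 < δ := by rw [hδ]; positivity
  obtain ⟨C1, A1, hC1, hkd⟩ := hKD
  obtain ⟨Cm, hCm, hwm⟩ := hWM δ hδ0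
  obtain ⟨Cw, hCw, hwin⟩ := hWI
  obtain ⟨CE, hCE, hemn⟩ := hEMN
  obtain ⟨Cs, T₀, hCs, hT₀, hsm⟩ := hSM
  obtain ⟨L2, hL2, hl2⟩ := log_pow_bound 2 hδ0
  obtain ⟨L1, hL1, hl1⟩ := log_pow_bound 1 hδ0
  obtain ⟨LA, hLA, hlA⟩ := log_pow_bound A1 (half_pos hε)
  obtain ⟨LE, hLE, hlE⟩ := log_pow_bound 1 (half_pos hε)
  -- constants
  obtain ⟨Q1, hQ1⟩ : ∃ Q1 : ℝ, Q1 = Cs * T₀ * (L1 * T₀ ^ δ) + Cw * 16 * (L2 * 16 ^ δ) + 1 := ⟨_, rfl⟩
  obtain ⟨Q2, hQ2⟩ : ∃ Q2 : ℝ, Q2 = 2 * Cm + Cw * L2 + 1 := ⟨_, rfl⟩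
  obtain ⟨P1, hP1⟩ : ∃ P1 : ℝ, P1 = CE ^ 2 * 16 * (LE * 2 ^ (ε / 2)) := ⟨_, rfl⟩
  obtain ⟨P2, hP2⟩ : ∃ P2 : ℝ, P2 = C1 * LA * 3 := ⟨_, rfl⟩
  have hT₀0 : 0 < T₀ := by linarith
  have hQ1one : 1 ≤ Q1 := by
    rw [hQ1]
    have : 0 < Cs * T₀ * (L1 * T₀ ^ δ) + Cw * 16 * (L2 * 16 ^ δ) := by positivity
    linarith
  have hQ2one : 1 ≤ Q2 := by
    rw [hQ2]
    have : 0 < 2 * Cm + Cw * L2 := by positivity
    linarith
  have hQ1p : 0 < Q1 := by linarith
  have hQ2p : 0 < Q2 := by linarith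
  have hP1p : 0 < P1 := by rw [hP1]; positivity
  have hP2p : 0 < P2 := by rw [hP2]; positivity
  refine ⟨4 ^ (2 * k) * P1 * Q1 ^ (2 * k - 1) + 4 ^ (2 * k) * P2 * Q2 ^ (2 * k - 1), by positivity,
    fun T U hU hUT hTU => ?_⟩
  have hU0 : 0 < U := by linarith
  have hT0 : 0 < T := by linarith
  have hT1 : 1 ≤ T := by linarith
  have hU1 : 1 ≤ U := by linarith
  have hTδ : 0 < T ^ δ := by positivity
  have hmono1 : ∀ c ≤ 4 ^ (2 * k) * P1 * Q1 ^ (2 * k - 1) + 4 ^ (2 * k) * P2 * Q2 ^ (2 * k - 1), ∀ J : ℝ, 0 ≤ J →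
      ENNReal.ofReal (c * (U * T ^ ε) * U ^ (2 * k - 1) * J) ≤
      ENNReal.ofReal ((4 ^ (2 * k) * P1 * Q1 ^ (2 * k - 1) + 4 ^ (2 * k) * P2 * Q2 ^ (2 * k - 1)) *
        T ^ ε * U ^ (2 * k) * J) := by
    intro c hc J hJ
    refine ENNReal.ofReal_le_ofReal ?_
    have e : U ^ (2 * k) = U ^ (2 * k - 1) * U := by
      rw [← pow_succ]
      congr 1
      omega
    rw [e]
    calc c * (U * T ^ ε) * U ^ (2 * k - 1) * J ≤
          (4 ^ (2 * k) * P1 * Q1 ^ (2 * k - 1) + 4 ^ (2 * k) * P2 * Q2 ^ (2 * k - 1)) * (U * T ^ ε) *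
            U ^ (2 * k - 1) * J := by gcongr
      _ = _ := by ring
  have hmono2 : ∀ c ≤ 4 ^ (2 * k) * P1 * Q1 ^ (2 * k - 1) + 4 ^ (2 * k) * P2 * Q2 ^ (2 * k - 1), ∀ J : ℝ, 0 ≤ J →
      ENNReal.ofReal (c * (T * T ^ ε) * U ^ (2 * k - 1) * J) ≤
      ENNReal.ofReal ((4 ^ (2 * k) * P1 * Q1 ^ (2 * k - 1) + 4 ^ (2 * k) * P2 * Q2 ^ (2 * k - 1)) *
        T ^ (1 + ε) * U ^ (2 * k - 1) * J) := by
    intro c hc J hJ
    refine ENNReal.ofReal_le_ofReal ?_
    have e : T ^ (1 + ε) = T * T ^ ε := by rw [Real.rpow_add hT0, Real.rpow_one]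
    rw [e]
    gcongr
  constructor
  · intro N hN1 hN2 b hab hb
    have hN0 : 1 ≤ N := by
      have : (0 : ℝ) < N := by linarith
      exact_mod_cast this
    refine (rpf_core hRW (N := N) F α (x := 0) (y := U) (X := U)
      (K := (CE * (N : ℝ) ^ (1 / 2 : ℝ)) ^ 2 * Real.log (1 + U))
      hk hε hT1 hU0 hP1p.le hQ1one hU0.le ?_ ?_ hU0.le ?_ ?_ ?_ le_rfl hab hb).trans
      (hmono1 _ ?_ _ (intervalIntegral.integral_nonneg hab fun t _ => by positivity))
    · have := Real.log_nonneg (by linarith : (1 : ℝ) ≤ 1 + U)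
      positivity
    · have e1 : (CE * (N : ℝ) ^ (1 / 2 : ℝ)) ^ 2 = CE ^ 2 * N := by
        rw [mul_pow]
        congr 1
        rw [← Real.rpow_natCast, ← Real.rpow_mul (Nat.cast_nonneg N)]
        norm_num
      rw [e1]
      have h1 := hlE (2 * U) (by linarith)
      rw [pow_one] at h1
      have h2 : Real.log (1 + U) ≤ 1 + Real.log (2 * U) := by
        have : Real.log (1 + U) ≤ Real.log (2 * U) := Real.log_le_log (by linarith) (by linarith)
        linarith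
      have h3 : (2 * U) ^ (ε / 2) ≤ 2 ^ (ε / 2) * T ^ (ε / 2) := by
        rw [← Real.mul_rpow (by norm_num) hT0.le]
        gcongr
      have h4 : 0 ≤ Real.log (1 + U) := Real.log_nonneg (by linarith)
      rw [hP1]
      calc CE ^ 2 * N * Real.log (1 + U) ≤ CE ^ 2 * (16 * U) * (LE * (2 ^ (ε / 2) * T ^ (ε / 2))) := by
            have h6 : (N : ℝ) ≤ 16 * U := by linarith
            have h7 : Real.log (1 + U) ≤ LE * (2 ^ (ε / 2) * T ^ (ε / 2)) :=
              h2.trans (h1.trans (by gcongr))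
            gcongr
        _ = _ := by ring
    · intro F hF
      obtain ⟨hm, M, hM⟩ := hF
      have hb' : ∀ u, 0 ≤ u → u ≤ 2 * U → ‖z u - PN N u‖ ≤ CE * (N : ℝ) ^ (1 / 2 : ℝ) / (1 + u) :=
        fun u hu1 hu2 => hemn N u hN0 hu1 (by linarith)
      exact op1 (h := fun u => z u - PN N u) (z_cont.sub (PN_cont N)) hU0.le hb' hm hM
    · intro t ht
      rw [← hδ]
      rw [intervalIntegral.integral_comp_add_left (fun u => ‖z u‖ ^ 2) t, add_zero]
      have hzc : Continuous fun u : ℝ => ‖z u‖ ^ 2 := z_cont.norm.pow 2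
      have hpos : ∀ u, 0 ≤ ‖z u‖ ^ 2 := fun u => by positivity
      obtain ⟨M, hM⟩ : ∃ M, M = max U T₀ := ⟨_, rfl⟩
      have hM1 : T₀ ≤ M := by rw [hM]; exact le_max_right _ _
      have hM2 : U ≤ M := by rw [hM]; exact le_max_left _ _
      have hM3 : M ≤ T₀ * U := by
        rw [hM]
        refine max_le ?_ ?_
        · nlinarith
        · nlinarith
      have hM0 : 0 < M := by linarith
      have h1 : ∫ u in t..(t + U), ‖z u‖ ^ 2 ≤ ∫ u in (0:ℝ)..(2 * M), ‖z u‖ ^ 2 := by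
        refine intervalIntegral.integral_mono_interval ht.1 (by linarith) (by linarith [ht.2]) ?_ ?_
        · exact Eventually.of_forall fun u => hpos u
        · exact hzc.intervalIntegrable _ _
      have h2 := hsm M hM1
      have h3 : Real.log M ≤ L1 * (T₀ ^ δ * T ^ δ) := by
        have h4 := hl1 (T₀ * U) (by nlinarith)
        rw [pow_one] at h4
        have h5 : Real.log M ≤ Real.log (T₀ * U) := Real.log_le_log hM0 hM3
        have h6 : (T₀ * U) ^ δ ≤ T₀ ^ δ * T ^ δ := by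
          rw [← Real.mul_rpow hT₀0.le hT0.le]
          gcongr
        have h7 : L1 * (T₀ * U) ^ δ ≤ L1 * (T₀ ^ δ * T ^ δ) := by gcongr
        linarith
      have h8 : 0 ≤ Real.log M := Real.log_nonneg (by linarith)
      calc ∫ u in t..(t + U), ‖z u‖ ^ 2 ≤ Cs * M * Real.log M := h1.trans h2
        _ ≤ Cs * (T₀ * U) * (L1 * (T₀ ^ δ * T ^ δ)) := by gcongr
        _ = Cs * T₀ * (L1 * T₀ ^ δ) * T ^ δ * U := by ring
        _ ≤ Q1 * T ^ δ * U := by
            have : Cs * T₀ * (L1 * T₀ ^ δ) ≤ Q1 := by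
              rw [hQ1]
              have : 0 ≤ Cw * 16 * (L2 * 16 ^ δ) := by positivity
              linarith
            gcongr
    · intro t ht
      rw [← hδ]
      have hc : Continuous fun c : ℝ => ‖PN N (t + c)‖ ^ 2 := ((PN_cont N).comp (by fun_prop)).norm.pow 2
      have h1 : ∫ c in (0 : ℝ)..U, ‖PN N (t + c)‖ ^ 2 ≤ ∫ c in (0 : ℝ)..(16 * U), ‖PN N (t + c)‖ ^ 2 := by
        refine intervalIntegral.integral_mono_interval le_rfl hU0.le (by linarith) ?_ ?_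
        · exact Eventually.of_forall fun u => by positivity
        · exact hc.intervalIntegrable _ _
      have h2 := hwin (16 * U) t N (by linarith) hN0 hN2
      have h3 := hl2 (16 * U) (by linarith)
      have h4 : (16 * U) ^ δ ≤ 16 ^ δ * T ^ δ := by
        rw [← Real.mul_rpow (by norm_num) hT0.le]
        gcongr
      have h5 : (1 + Real.log N) ^ 2 ≤ (1 + Real.log (16 * U)) ^ 2 := by
        have h6 : Real.log N ≤ Real.log (16 * U) := Real.log_le_log (by exact_mod_cast (by omega : 0 < N)) hN2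
        have h7 : 0 ≤ Real.log N := Real.log_nonneg (by exact_mod_cast hN0)
        gcongr
      calc ∫ c in (0 : ℝ)..U, ‖PN N (t + c)‖ ^ 2 ≤ Cw * (16 * U) * (1 + Real.log N) ^ 2 := h1.trans h2
        _ ≤ Cw * (16 * U) * (L2 * (16 ^ δ * T ^ δ)) := by
            have : (1 + Real.log N) ^ 2 ≤ L2 * (16 ^ δ * T ^ δ) := h5.trans (h3.trans (by gcongr))
            gcongr
        _ = Cw * 16 * (L2 * 16 ^ δ) * T ^ δ * U := by ring
        _ ≤ Q1 * T ^ δ * U := by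
            have : Cw * 16 * (L2 * 16 ^ δ) ≤ Q1 := by
              rw [hQ1]
              have : 0 ≤ Cs * T₀ * (L1 * T₀ ^ δ) := by positivity
              linarith
            gcongr
    · have : 0 ≤ 4 ^ (2 * k) * P2 * Q2 ^ (2 * k - 1) := by positivity
      linarith
  · intro N hN1 hN2 b hab hb
    have hNr : (0 : ℝ) < N := by linarith
    have hN0 : 1 ≤ N := by exact_mod_cast hNr
    refine (rpf_core hRW (N := N) F α (x := U) (y := T) (X := T)
      (K := C1 * Real.log T ^ A1 * (T * U / N + T))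
      hk hε hT1 hU0 hP2p.le hQ2one hT0.le ?_ ?_ hUT ?_ ?_ ?_ le_rfl hab hb).trans
      (hmono2 _ ?_ _ (intervalIntegral.integral_nonneg hab fun t _ => by positivity))
    · have := Real.log_nonneg hT1
      positivity
    · have h1 := hlA T hT1
      have h0 : 0 ≤ Real.log T := Real.log_nonneg hT1
      have h2 : Real.log T ^ A1 ≤ (1 + Real.log T) ^ A1 := pow_le_pow_left₀ h0 (by linarith) A1
      have h3 : T * U / N ≤ 2 * T := by
        rw [div_le_iff₀ hNr]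
        nlinarith
      rw [hP2]
      calc C1 * Real.log T ^ A1 * (T * U / N + T) ≤ C1 * (LA * T ^ (ε / 2)) * (2 * T + T) := by
            have h6 : Real.log T ^ A1 ≤ LA * T ^ (ε / 2) := h2.trans h1
            gcongr
        _ = _ := by ring
    · intro F hF
      exact hkd T U N F hU hUT hN0 hN2 hF
    · intro t ht
      rw [← hδ]
      have h1 := (hwm T U hU hUT).1 t ht
      refine h1.trans ?_
      calc Cm * T ^ δ * (U + T ^ (1 / 3 : ℝ)) ≤ Cm * T ^ δ * (U + U) := by gcongr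
        _ = 2 * Cm * T ^ δ * U := by ring
        _ ≤ Q2 * T ^ δ * U := by
            have : 2 * Cm ≤ Q2 := by
              rw [hQ2]
              have : 0 ≤ Cw * L2 := by positivity
              linarith
            gcongr
    · intro t ht
      rw [← hδ]
      have h2 := hwin U t N hU1 hN0 hN2
      have h3 := hl2 T hT1
      have h5 : (1 + Real.log N) ^ 2 ≤ (1 + Real.log T) ^ 2 := by
        have h6 : Real.log N ≤ Real.log T := Real.log_le_log hNr (by linarith)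
        have h7 : 0 ≤ Real.log N := Real.log_nonneg (by exact_mod_cast hN0)
        gcongr
      calc ∫ c in (0 : ℝ)..U, ‖PN N (t + c)‖ ^ 2 ≤ Cw * U * (1 + Real.log N) ^ 2 := h2
        _ ≤ Cw * U * (L2 * T ^ δ) := by
            have : (1 + Real.log N) ^ 2 ≤ L2 * T ^ δ := h5.trans h3
            gcongr
        _ = Cw * L2 * T ^ δ * U := by ring
        _ ≤ Q2 * T ^ δ * U := by
            have : Cw * L2 ≤ Q2 := by
              rw [hQ2]
              linarith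
            gcongr
    · have : 0 ≤ 4 ^ (2 * k) * P1 * Q1 ^ (2 * k - 1) := by positivity
      linarith

end

end Pool.Agent.Z72.SF
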