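import Pool.Agent.Z72.SF.Stm
import Pool.Agent.Z72.SQ.SaK
import Pool.Agent.Z72.SH.Gr
import Pool.Agent.TH757.GS.CONT

set_option autoImplicit false

/-! The smoothed sum of the diagonal series by a contour shift; only the cross differences matter (helper1, task
SF_SAF; after `Z72/SQ/Sa.lean`). -/

namespace Pool.Agent.Z72.SF.SAF

open Complex Filter Topology MeasureTheory Set
open Pool.Agent.TH612.GS (zr dr)
open Pool.Agent.TH612.CF (zab dg FH BF Tb FH_le FH_diff zh_eq dg_le dg_summable dg_zero)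
open Pool.Agent.TH757.GS (as bs dg_as as_im bs_im Tb_as)
open Pool.Agent.Z72.SQ.SA

noncomputable section

variable {k : ℕ}

/-- the hypothesis on the vector -/
structure Sx (k : ℕ) (U : ℝ) (γ : Fin k ⊕ Fin k → ℝ) : Prop where
  le : ∀ i, |γ i| ≤ U
  sep : ∀ j l : Fin k, U ^ (1 / 2 : ℝ) ≤ |γ (Sum.inl j) - γ (Sum.inr l)|

/-- the Dirichlet series of the diagonal -/
def Dz (γ : Fin k ⊕ Fin k → ℝ) (s : ℂ) : ℂ := zab (as γ s) (bs γ s)

lemma Dz_zero (γ : Fin k ⊕ Fin k → ℝ) : Dz γ 0 = zr γ := by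
  unfold Dz zr as bs
  simp

lemma Dz_eq (γ : Fin k ⊕ Fin k → ℝ) (s : ℂ) : Dz γ s = FH (as γ s) (bs γ s) *
    ∏ j : Fin k, ∏ l : Fin k, riemannZeta (1 + s + I * ((γ (Sum.inl j) : ℂ) - (γ (Sum.inr l) : ℂ))) := by
  unfold Dz zab
  have e2 : ∀ j l, 1 + I * as γ s j - I * bs γ s l =
      1 + s + I * ((γ (Sum.inl j) : ℂ) - (γ (Sum.inr l) : ℂ)) := by
    intro j l
    unfold as bs
    linear_combination (-s) * I_mul_I
  simp only [e2]

lemma arg_im (γ : Fin k ⊕ Fin k → ℝ) (s : ℂ) (j l : Fin k) :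
    (1 + s + I * ((γ (Sum.inl j) : ℂ) - (γ (Sum.inr l) : ℂ))).im =
      s.im + (γ (Sum.inl j) - γ (Sum.inr l)) := by
  simp

lemma arg_eq (γ : Fin k ⊕ Fin k → ℝ) (s : ℂ) (j l : Fin k) :
    (1 + s + I * ((γ (Sum.inl j) : ℂ) - (γ (Sum.inr l) : ℂ))) =
      ((1 + s.re : ℝ) : ℂ) + I * ((s.im + (γ (Sum.inl j) - γ (Sum.inr l)) : ℝ) : ℂ) := by
  apply Complex.ext <;> simp

/-- the region of holomorphy -/
def Rg (U : ℝ) : Set ℂ := {s | |s.re| < 3 / 8} ∩ {s | |s.im| < U ^ (1 / 2 : ℝ)}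

lemma Rg_open (U : ℝ) : IsOpen (Rg U) :=
  (isOpen_lt (continuous_abs.comp Complex.continuous_re) continuous_const).inter
    (isOpen_lt (continuous_abs.comp Complex.continuous_im) continuous_const)

lemma Dz_diff {U : ℝ} {γ : Fin k ⊕ Fin k → ℝ} (hγ : Sx k U γ) :
    DifferentiableOn ℂ (Dz γ) (Rg U) := by
  have hU : IsOpen {s : ℂ | |s.re| < 3 / 8} :=
    isOpen_lt (continuous_abs.comp Complex.continuous_re) continuous_const
  have h1 := FH_diff (a := fun s => as γ s) (b := fun s => bs γ s) (c := 3 / 16) hU (by norm_num)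
    (fun j => by unfold as; fun_prop) (fun j => by unfold bs; fun_prop)
    (fun s hs => Tb_as γ (by
      have hs' : |s.re| < 3 / 8 := hs
      linarith))
  have h2 : DifferentiableOn ℂ (fun s : ℂ => ∏ j : Fin k, ∏ l : Fin k,
      riemannZeta (1 + s + I * ((γ (Sum.inl j) : ℂ) - (γ (Sum.inr l) : ℂ)))) (Rg U) := by
    intro s hs
    refine DifferentiableWithinAt.fun_finsetProd fun j _ => ?_
    refine DifferentiableWithinAt.fun_finsetProd fun l _ => ?_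
    have hne : (1 + s + I * ((γ (Sum.inl j) : ℂ) - (γ (Sum.inr l) : ℂ))) ≠ 1 := by
      intro h
      have h3 := congrArg Complex.im h
      rw [arg_im, Complex.one_im] at h3
      have h4 : |s.im| < U ^ (1 / 2 : ℝ) := hs.2
      have h5 := hγ.sep j l
      have h6 : γ (Sum.inl j) - γ (Sum.inr l) = -s.im := by linarith
      rw [h6, abs_neg] at h5
      linarith
    refine DifferentiableAt.differentiableWithinAt ?_
    exact (differentiableAt_riemannZeta hne).comp s (by fun_prop)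
  refine ((h1.mono inter_subset_left).mul h2).congr fun s _ => ?_
  exact Dz_eq γ s

lemma Dz_le (k : ℕ) : ∃ (C : ℝ) (m : ℕ), 1 ≤ C ∧ ∀ (U : ℝ) (γ : Fin k ⊕ Fin k → ℝ) (s : ℂ), 4 ≤ U →
    Sx k U γ → |s.re| ≤ 1 / 8 → |s.im| ≤ U ^ (1 / 2 : ℝ) / 2 → ‖Dz γ s‖ ≤ C * U ^ m := by
  obtain ⟨C, A, hC, h⟩ := Pool.Agent.Z72.SH.t_GR
  have hBF : 0 ≤ BF k (1 / 8) := (Real.exp_pos _).le
  refine ⟨max 1 (BF k (1 / 8) * (C * 3 ^ A) ^ (k * k)), A * (k * k), le_max_left _ _,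
    fun U γ s hU hγ h1 h2 => ?_⟩
  have hT : Tb (1 / 8) (as γ s) (bs γ s) := Tb_as γ (by linarith)
  have hV : (2:ℝ) ≤ U ^ (1 / 2 : ℝ) := by
    rw [← Real.sqrt_eq_rpow]
    exact Real.le_sqrt_of_sq_le (by linarith)
  have hV2 : U ^ (1 / 2 : ℝ) ≤ U := by
    conv_rhs => rw [← Real.rpow_one U]
    exact Real.rpow_le_rpow_of_exponent_le (by linarith) (by norm_num)
  rw [Dz_eq, norm_mul]
  have h3 : ‖∏ j : Fin k, ∏ l : Fin k,
      riemannZeta (1 + s + I * ((γ (Sum.inl j) : ℂ) - (γ (Sum.inr l) : ℂ)))‖ ≤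
      (C * (3 * U) ^ A) ^ (k * k) := by
    rw [← Fintype.prod_prod_type (f := fun x : Fin k × Fin k =>
      riemannZeta (1 + s + I * ((γ (Sum.inl x.1) : ℂ) - (γ (Sum.inr x.2) : ℂ)))), norm_prod]
    refine (Finset.prod_le_prod (fun _ _ => norm_nonneg _) (g := fun _ => C * (3 * U) ^ A)
      (fun x _ => ?_)).trans ?_
    · rw [arg_eq]
      have h5 := hγ.sep x.1 x.2
      have h6 := abs_le.1 (hγ.le (Sum.inl x.1))
      have h7 := abs_le.1 (hγ.le (Sum.inr x.2))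
      have h8 : |γ (Sum.inl x.1) - γ (Sum.inr x.2)| ≤ 2 * U := abs_le.2 ⟨by linarith, by linarith⟩
      have h9 : 1 ≤ |s.im + (γ (Sum.inl x.1) - γ (Sum.inr x.2))| := by
        have := abs_sub_abs_le_abs_sub (γ (Sum.inl x.1) - γ (Sum.inr x.2)) (-s.im)
        rw [abs_neg, sub_neg_eq_add, add_comm (γ (Sum.inl x.1) - γ (Sum.inr x.2))] at this
        linarith
      have h10 : |s.im + (γ (Sum.inl x.1) - γ (Sum.inr x.2))| ≤ 2 * U + U / 2 := by
        refine (abs_add_le _ _).trans ?_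
        linarith
      have hb := abs_le.1 h1
      refine (h (1 + s.re) _ (by linarith) (by linarith) (Or.inl h9)).trans ?_
      gcongr
      linarith
    · rw [Finset.prod_const, Finset.card_univ, Fintype.card_prod, Fintype.card_fin]
  have h4 := FH_le (by norm_num) hT
  calc _ ≤ BF k (1 / 8) * (C * (3 * U) ^ A) ^ (k * k) := by gcongr
    _ = BF k (1 / 8) * (C * 3 ^ A) ^ (k * k) * U ^ (A * (k * k)) := by
      rw [mul_pow 3 U, ← mul_assoc, mul_pow (C * 3 ^ A), ← pow_mul]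
      ring
    _ ≤ _ := by gcongr; exact le_max_right _ _

/-! ### the series -/

lemma dg_line (k : ℕ) : ∃ D : ℝ, 0 ≤ D ∧ ∀ (γ : Fin k ⊕ Fin k → ℝ) (t : ℝ) (n : ℕ),
    ‖dg (as γ (cs t)) (bs γ (cs t)) n‖ ≤ D * (n : ℝ) ^ (-(17 / 16) : ℝ) := by
  obtain ⟨D, hD0, hD⟩ := dg_le k (δ := 1 / 16) (by norm_num)
  refine ⟨D, hD0, fun γ t n => ?_⟩
  have h1 := hD (as γ (cs t)) (bs γ (cs t)) (fun j => by
    rw [as_im, bs_im, cs_re]
    constructor <;> norm_num) n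
  have e : (-(1 + 1 / 16) : ℝ) = -(17 / 16) := by norm_num
  rwa [e] at h1

lemma Dz_series (γ : Fin k ⊕ Fin k → ℝ) (t : ℝ) :
    Dz γ (cs t) = ∑' n, dg (as γ (cs t)) (bs γ (cs t)) n := by
  have hT : Tb (1 / 8) (as γ (cs t)) (bs γ (cs t)) := Tb_as γ (by rw [cs_re]; norm_num)
  exact zh_eq (a := as γ (cs t)) (b := bs γ (cs t)) (c := 1 / 8) (δ := 1 / 16) (by norm_num) hT
    (by norm_num) (fun j => by
      rw [as_im, bs_im, cs_re]
      constructor <;> norm_num)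

/-- the constant of the series -/
def Z1 : ℝ := ∑' n : ℕ, (n : ℝ) ^ (-(17 / 16) : ℝ)

lemma Z1_sum : Summable (fun n : ℕ => (n : ℝ) ^ (-(17 / 16) : ℝ)) :=
  Real.summable_nat_rpow.2 (by norm_num)

lemma Z1_nonneg : 0 ≤ Z1 := tsum_nonneg fun n => by positivity

lemma Dz_line (k : ℕ) : ∃ D : ℝ, 1 ≤ D ∧ ∀ (γ : Fin k ⊕ Fin k → ℝ) (t : ℝ),
    ‖Dz γ (cs t)‖ ≤ D := by
  obtain ⟨D, hD0, hD⟩ := dg_line k
  refine ⟨max 1 (D * Z1), le_max_left _ _, fun γ t => ?_⟩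
  rw [Dz_series]
  exact (tsum_of_norm_bounded (Z1_sum.hasSum.mul_left D) (hD γ t)).trans (le_max_right _ _)

lemma cpow_split {a b : ℝ} (ha : 0 < a) (hb : 0 < b) (s : ℂ) :
    ((a / b : ℝ) : ℂ) ^ (-s) = (a : ℂ) ^ (-s) * (b : ℂ) ^ s := by
  have ha' : (a : ℂ) ≠ 0 := by exact_mod_cast ha.ne'
  have hb' : (b : ℂ) ≠ 0 := by exact_mod_cast hb.ne'
  have hab' : ((a / b : ℝ) : ℂ) ≠ 0 := by exact_mod_cast (div_pos ha hb).ne'
  rw [Complex.cpow_def_of_ne_zero ha', Complex.cpow_def_of_ne_zero hb',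
    Complex.cpow_def_of_ne_zero hab', ← Complex.ofReal_log ha.le, ← Complex.ofReal_log hb.le,
    ← Complex.ofReal_log (div_pos ha hb).le, Real.log_div ha.ne' hb.ne', ← Complex.exp_add]
  congr 1
  push_cast
  ring

lemma X_norm {X : ℝ} (hX : 0 < X) (s : ℂ) : ‖(X : ℂ) ^ s‖ = X ^ s.re :=
  Complex.norm_cpow_eq_rpow_re_of_pos hX s

lemma X_cont {X : ℝ} (hX : 0 < X) : Continuous (fun t : ℝ => (X : ℂ) ^ (cs t)) :=
  cs_cont.const_cpow (Or.inl (by exact_mod_cast hX.ne'))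

/-- the sum as an integral -/
lemma sum_int (A : ℕ) {X : ℝ} (hX : 0 < X) (γ : Fin k ⊕ Fin k → ℝ) {N : ℕ}
    (hN : ∀ n : ℕ, N < n → X ≤ n) :
    ∫ t : ℝ, Dz γ (cs t) * ((X : ℂ) ^ (cs t) * KA (A + 1) (cs t)) =
      2 * Real.pi * ∑ n ∈ Finset.Icc 1 N, dr γ n * wA (A + 1) (n / X) := by
  obtain ⟨D, hD0, hD⟩ := dg_line k
  set F : ℕ → ℝ → ℂ := fun n t =>
    dg (as γ (cs t)) (bs γ (cs t)) n * ((X : ℂ) ^ (cs t) * KA (A + 1) (cs t)) with hF
  have hXK : Integrable (fun t : ℝ => (X : ℂ) ^ (cs t) * KA (A + 1) (cs t)) := by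
    refine ((KA_int A).norm.const_mul (X ^ (1 / 8 : ℝ))).mono'
      ((X_cont hX).mul (KA_cont _)).aestronglyMeasurable (Eventually.of_forall fun t => ?_)
    rw [norm_mul, X_norm hX, cs_re]
  have hFn : ∀ n : ℕ, 1 ≤ n → F n = fun t =>
      dr γ n * (((n / X : ℝ) : ℂ) ^ (-(cs t)) * KA (A + 1) (cs t)) := by
    intro n hn
    have hn0 : (0:ℝ) < n := by exact_mod_cast hn
    funext t
    rw [hF]
    simp only
    rw [dg_as γ (cs t) n (by omega), cpow_split hn0 hX, Complex.ofReal_natCast]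
    ring
  have hF0 : F 0 = fun _ => 0 := by
    funext t
    rw [hF]
    simp only
    rw [dg_zero, zero_mul]
  have hFint : ∀ n, Integrable (F n) := by
    intro n
    rcases Nat.eq_zero_or_pos n with rfl | hn
    · rw [hF0]
      exact integrable_zero _ _ _
    · have hn0 : (0:ℝ) < n := by exact_mod_cast hn
      have hnX : (0:ℝ) < n / X := by positivity
      refine (hXK.norm.const_mul (D * (n : ℝ) ^ (-(17 / 16) : ℝ))).mono' ?_
        (Eventually.of_forall fun t => ?_)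
      · rw [hFn n hn]
        refine Continuous.aestronglyMeasurable ?_
        exact continuous_const.mul (((cs_cont.neg).const_cpow
          (Or.inl (by exact_mod_cast hnX.ne'))).mul (KA_cont _))
      · rw [hF]
        simp only
        rw [norm_mul]
        exact mul_le_mul_of_nonneg_right (hD γ t n) (norm_nonneg _)
  have hsum : Summable fun n => ∫ t, ‖F n t‖ := by
    refine Summable.of_nonneg_of_le (fun n => integral_nonneg fun t => norm_nonneg _)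
      (fun n => ?_) (((Z1_sum.mul_left D).mul_right
        (∫ t : ℝ, ‖(X : ℂ) ^ (cs t) * KA (A + 1) (cs t)‖)))
    rw [← integral_const_mul]
    refine integral_mono (hFint n).norm (hXK.norm.const_mul _) fun t => ?_
    simp only [hF]
    rw [norm_mul]
    exact mul_le_mul_of_nonneg_right (hD γ t n) (norm_nonneg _)
  have h1 := hasSum_integral_of_summable_integral_norm hFint hsum
  have h2 : ∀ t, ∑' n, F n t = Dz γ (cs t) * ((X : ℂ) ^ (cs t) * KA (A + 1) (cs t)) := by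
    intro t
    rw [Dz_series, ← tsum_mul_right]
  simp only [h2] at h1
  rw [← h1.tsum_eq]
  have h3 : ∀ n : ℕ, 1 ≤ n → ∫ t, F n t = 2 * Real.pi * (dr γ n * wA (A + 1) (n / X)) := by
    intro n hn
    have hn0 : (0:ℝ) < n := by exact_mod_cast hn
    have hnX : (0:ℝ) < n / X := by positivity
    rw [hFn n hn, integral_const_mul, inv_wA A hnX]
    ring
  rw [tsum_eq_sum (s := Finset.Icc 1 N), Finset.mul_sum]
  · refine Finset.sum_congr rfl fun n hn => ?_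
    exact h3 n (Finset.mem_Icc.1 hn).1
  · intro n hn
    rcases Nat.eq_zero_or_pos n with rfl | hn1
    · rw [hF0]
      simp
    · have hnN : N < n := by
        by_contra h
        exact hn (Finset.mem_Icc.2 ⟨hn1, by omega⟩)
      rw [h3 n hn1, wA_zero (by omega) ((one_le_div hX).2 (hN n hnN))]
      simp

lemma one_int (A : ℕ) {X : ℝ} (hX : 0 < X) :
    ∫ t : ℝ, ((X : ℂ) ^ (cs t) * KA (A + 1) (cs t)) = 2 * Real.pi * wA (A + 1) (1 / X) := by
  rw [← inv_wA A (x := 1 / X) (by positivity)]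
  refine integral_congr_ae (Eventually.of_forall fun t => ?_)
  simp only
  rw [cpow_split one_pos hX, Complex.ofReal_one, Complex.one_cpow, one_mul]

/-! ### the contour shift -/

/-- the integrand -/
def Fi (γ : Fin k ⊕ Fin k → ℝ) (X : ℝ) (A : ℕ) (s : ℂ) : ℂ :=
  (Dz γ s - Dz γ 0) * ((X : ℂ) ^ s * KA A s)

/-- its holomorphic form -/
def Gi (γ : Fin k ⊕ Fin k → ℝ) (X : ℝ) (A : ℕ) (s : ℂ) : ℂ :=
  dslope (Dz γ) 0 s * ((X : ℂ) ^ s * PA A s)

lemma Gi_eq (γ : Fin k ⊕ Fin k → ℝ) (X : ℝ) (A : ℕ) {s : ℂ} (hs : s ≠ 0) :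
    Gi γ X A s = Fi γ X A s := by
  unfold Gi Fi
  rw [dslope_of_ne _ hs, slope_def_field, sub_zero, KA_eq]
  field_simp

lemma Gi_diff {U : ℝ} (hU : 0 < U) {γ : Fin k ⊕ Fin k → ℝ} (hγ : Sx k U γ) {X : ℝ} (hX : 0 < X)
    (A : ℕ) : DifferentiableOn ℂ (Gi γ X A) (Rg U) := by
  have h0 : Rg U ∈ 𝓝 (0:ℂ) := by
    refine (Rg_open U).mem_nhds ⟨?_, ?_⟩
    · simp
    · simp only [mem_ofPred_eq, Complex.zero_im, abs_zero]
      positivity
  have h1 : DifferentiableOn ℂ (dslope (Dz γ) 0) (Rg U) :=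
    (Complex.differentiableOn_dslope h0).2 (Dz_diff hγ)
  have h2 : DifferentiableOn ℂ (PA A) (Rg U) := by
    refine (PA_diff A).mono fun s hs => ?_
    have h3 : |s.re| < 3 / 8 := hs.1
    have := (abs_lt.1 h3).1
    simp only [mem_ofPred_eq]
    linarith
  have h3 : Differentiable ℂ (fun s : ℂ => (X : ℂ) ^ s) :=
    differentiable_id.const_cpow (Or.inl (by exact_mod_cast hX.ne'))
  exact h1.mul (h3.differentiableOn.mul h2)

lemma pt_re (x y : ℝ) : ((x : ℂ) + y * I).re = x := by simp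
lemma pt_im (x y : ℝ) : ((x : ℂ) + y * I).im = y := by simp

lemma pt_ne1 {x : ℝ} (hx : x ≠ 0) (y : ℝ) : ((x : ℂ) + y * I) ≠ 0 := by
  intro h
  have := pt_re x y
  rw [h, Complex.zero_re] at this
  exact hx this.symm

lemma pt_ne2 {y : ℝ} (hy : y ≠ 0) (x : ℝ) : ((x : ℂ) + y * I) ≠ 0 := by
  intro h
  have := pt_im x y
  rw [h, Complex.zero_im] at this
  exact hy this.symm

lemma shift {U : ℝ} (hU : 4 ≤ U) {γ : Fin k ⊕ Fin k → ℝ} (hγ : Sx k U γ) {X : ℝ} (hX : 1 ≤ X)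
    (A : ℕ) {M Y : ℝ} (hY : Y = U ^ (1 / 2 : ℝ) / 2) (hM0 : 0 ≤ M)
    (hM : ∀ s : ℂ, |s.re| ≤ 1 / 8 → |s.im| ≤ Y → ‖Dz γ s‖ ≤ M) :
    ‖∫ t in (-Y)..Y, Fi γ X (A + 1) (cs t)‖ ≤
      2 * M * (X ^ (-(1 / 8) : ℝ) * (8 * ((A + 1).factorial * 2 ^ (A + 1)))) * (2 * Y) +
      2 * M * (X ^ (1 / 8 : ℝ) * ((A + 1).factorial / Y ^ (A + 1 + 1))) * (1 / 4) * 2 := by
  have hX0 : 0 < X := by linarith
  have hV : (2:ℝ) ≤ U ^ (1 / 2 : ℝ) := by
    rw [← Real.sqrt_eq_rpow]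
    exact Real.le_sqrt_of_sq_le (by linarith)
  have hY1 : 1 ≤ Y := by linarith
  have hD0 : ‖Dz γ 0‖ ≤ M := hM 0 (by simp) (by simp; linarith)
  have hdiff : ∀ s : ℂ, |s.re| ≤ 1 / 8 → |s.im| ≤ Y → ‖Dz γ s - Dz γ 0‖ ≤ 2 * M := by
    intro s h1 h2
    refine (norm_sub_le _ _).trans ?_
    have := hM s h1 h2
    linarith
  have h1 := Complex.integral_boundary_rect_eq_zero_of_differentiableOn (Gi γ X (A + 1))
    (((-(1 / 8) : ℝ) : ℂ) + ((-Y : ℝ) : ℂ) * I) (((1 / 8 : ℝ) : ℂ) + (Y : ℂ) * I) (by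
      refine (Gi_diff (by linarith) hγ hX0 _).mono ?_
      intro s hs
      rw [Complex.mem_reProdIm] at hs
      simp only [pt_re, pt_im] at hs
      rw [uIcc_of_le (by norm_num), uIcc_of_le (by linarith)] at hs
      refine ⟨?_, ?_⟩
      · simp only [mem_ofPred_eq]
        exact abs_lt.2 ⟨by linarith [hs.1.1], by linarith [hs.1.2]⟩
      · simp only [mem_ofPred_eq]
        exact abs_lt.2 ⟨by linarith [hs.2.1], by linarith [hs.2.2]⟩)
  simp only [pt_re, pt_im] at h1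
  -- the right side
  have hr : (∫ y in (-Y)..Y, Gi γ X (A + 1) (((1 / 8 : ℝ) : ℂ) + y * I)) =
      ∫ t in (-Y)..Y, Fi γ X (A + 1) (cs t) := by
    refine intervalIntegral.integral_congr fun t _ => ?_
    exact Gi_eq γ X _ (cs_ne t)
  rw [hr] at h1
  -- the left side
  have hl : ‖∫ y in (-Y)..Y, Gi γ X (A + 1) (((-(1 / 8) : ℝ) : ℂ) + y * I)‖ ≤
      2 * M * (X ^ (-(1 / 8) : ℝ) * (8 * ((A + 1).factorial * 2 ^ (A + 1)))) * (2 * Y) := by
    have h2 := intervalIntegral.norm_integral_le_of_norm_le_const (a := -Y) (b := Y)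
      (f := fun y : ℝ => Gi γ X (A + 1) (((-(1 / 8) : ℝ) : ℂ) + y * I))
      (C := 2 * M * (X ^ (-(1 / 8) : ℝ) * (8 * ((A + 1).factorial * 2 ^ (A + 1))))) (by
        intro y hy
        rw [uIoc_of_le (by linarith)] at hy
        rw [Gi_eq γ X _ (pt_ne1 (by norm_num) y)]
        unfold Fi
        rw [norm_mul, norm_mul, X_norm hX0, pt_re]
        have h3 := hdiff (((-(1 / 8) : ℝ) : ℂ) + y * I) (by rw [pt_re]; norm_num [abs_of_nonneg])
          (by rw [pt_im]; exact abs_le.2 ⟨by linarith [hy.1], hy.2⟩)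
        have h4 : ‖KA (A + 1) (((-(1 / 8) : ℝ) : ℂ) + y * I)‖ ≤
            8 * ((A + 1).factorial * 2 ^ (A + 1)) := by
          rw [KA_eq, norm_div]
          have h5 := PA_le (A + 1) (s := ((-(1 / 8) : ℝ) : ℂ) + y * I) (by rw [pt_re])
          have h6 : 1 / 8 ≤ ‖((-(1 / 8) : ℝ) : ℂ) + y * I‖ := by
            have := Complex.abs_re_le_norm (((-(1 / 8) : ℝ) : ℂ) + y * I)
            rw [pt_re, abs_neg, abs_of_nonneg (by norm_num)] at this
            exact this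
          rw [div_le_iff₀ (by linarith)]
          have h7 : (0:ℝ) ≤ ((A + 1).factorial : ℝ) * 2 ^ (A + 1) := by positivity
          nlinarith
        gcongr)
    refine h2.trans (le_of_eq ?_)
    rw [abs_of_nonneg (by linarith)]
    ring
  -- the horizontal sides
  have hh : ∀ v : ℝ, |v| = Y → ‖∫ x in (-(1 / 8) : ℝ)..(1 / 8), Gi γ X (A + 1) ((x : ℂ) + v * I)‖ ≤
      2 * M * (X ^ (1 / 8 : ℝ) * ((A + 1).factorial / Y ^ (A + 1 + 1))) * (1 / 4) := by
    intro v hv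
    have hv0 : v ≠ 0 := by
      rintro rfl
      rw [abs_zero] at hv
      linarith
    have h2 := intervalIntegral.norm_integral_le_of_norm_le_const (a := -(1 / 8)) (b := 1 / 8)
      (f := fun x : ℝ => Gi γ X (A + 1) ((x : ℂ) + v * I))
      (C := 2 * M * (X ^ (1 / 8 : ℝ) * ((A + 1).factorial / Y ^ (A + 1 + 1)))) (by
        intro x hx
        rw [uIoc_of_le (by norm_num)] at hx
        rw [Gi_eq γ X _ (pt_ne2 hv0 x)]
        unfold Fi
        rw [norm_mul, norm_mul, X_norm hX0, pt_re]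
        have h3 := hdiff ((x : ℂ) + v * I) (by rw [pt_re]; exact abs_le.2 ⟨hx.1.le, hx.2⟩)
          (by rw [pt_im]; exact hv.le)
        have h4 := KA_le (A + 1) (s := (x : ℂ) + v * I) (Y := Y) (by linarith)
          (by rw [pt_im]; exact hv.ge)
        have h5 : X ^ x ≤ X ^ (1 / 8 : ℝ) := Real.rpow_le_rpow_of_exponent_le hX hx.2
        gcongr)
    refine h2.trans (le_of_eq ?_)
    rw [abs_of_nonneg (by norm_num)]
    norm_num
  have hh1 := hh (-Y) (by rw [abs_neg, abs_of_nonneg (by linarith)])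
  have hh2 := hh Y (abs_of_nonneg (by linarith))
  set J := ∫ t in (-Y)..Y, Fi γ X (A + 1) (cs t)
  set J1 := ∫ x in (-(1 / 8) : ℝ)..(1 / 8), Gi γ X (A + 1) ((x : ℂ) + ((-Y : ℝ) : ℂ) * I)
  set J2 := ∫ x in (-(1 / 8) : ℝ)..(1 / 8), Gi γ X (A + 1) ((x : ℂ) + (Y : ℂ) * I)
  set J3 := ∫ y in (-Y)..Y, Gi γ X (A + 1) (((-(1 / 8) : ℝ) : ℂ) + y * I)
  simp only [smul_eq_mul] at h1
  have e : J = J3 + I * (J1 - J2) := by
    linear_combination (-I) * h1 + (J - J3) * I_mul_I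
  rw [e]
  refine (norm_add_le _ _).trans ?_
  rw [norm_mul, Complex.norm_I, one_mul]
  have := norm_sub_le J1 J2
  linarith

lemma XK_int {X : ℝ} (hX : 0 < X) (A : ℕ) :
    Integrable (fun t : ℝ => (X : ℂ) ^ (cs t) * KA (A + 1) (cs t)) := by
  refine ((KA_int A).norm.const_mul (X ^ (1 / 8 : ℝ))).mono'
    ((X_cont hX).mul (KA_cont _)).aestronglyMeasurable (Eventually.of_forall fun t => ?_)
  rw [norm_mul, X_norm hX, cs_re]

/-- measurability of the series along the line -/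
lemma Dz_meas (γ : Fin k ⊕ Fin k → ℝ) : AEStronglyMeasurable (fun t : ℝ => Dz γ (cs t)) := by
  simp only [Dz_series]
  have h1 : ∀ N : ℕ, AEStronglyMeasurable (fun t : ℝ => ∑ n ∈ Finset.range N,
      dg (as γ (cs t)) (bs γ (cs t)) n) := by
    intro N
    refine Finset.aestronglyMeasurable_fun_sum _ fun n _ => ?_
    rcases Nat.eq_zero_or_pos n with rfl | hn
    · simp only [dg_zero]
      exact aestronglyMeasurable_const
    · have e : (fun t : ℝ => dg (as γ (cs t)) (bs γ (cs t)) n) =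
          fun t : ℝ => dr γ n * (n : ℂ) ^ (-(cs t)) := by
        funext t
        exact dg_as γ (cs t) n (by omega)
      rw [e]
      refine Continuous.aestronglyMeasurable ?_
      exact continuous_const.mul ((cs_cont.neg).const_cpow
        (Or.inl (by exact_mod_cast (by omega : n ≠ 0))))
  obtain ⟨D, hD0, hD⟩ := dg_line k
  refine aestronglyMeasurable_of_tendsto_ae atTop h1 (Eventually.of_forall fun t => ?_)
  exact (Summable.of_norm_bounded (Z1_sum.mul_left D) (hD γ t)).hasSum.tendsto_sum_nat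

lemma DK_int {X : ℝ} (hX : 0 < X) (A : ℕ) (γ : Fin k ⊕ Fin k → ℝ) :
    Integrable (fun t : ℝ => Dz γ (cs t) * ((X : ℂ) ^ (cs t) * KA (A + 1) (cs t))) := by
  obtain ⟨D, hD1, hD⟩ := Dz_line k
  refine ((XK_int hX A).norm.const_mul D).mono' ((Dz_meas γ).mul (XK_int hX A).1)
    (Eventually.of_forall fun t => ?_)
  rw [norm_mul]
  exact mul_le_mul_of_nonneg_right (hD γ t) (norm_nonneg _)

lemma Fi_int {X : ℝ} (hX : 0 < X) (A : ℕ) (γ : Fin k ⊕ Fin k → ℝ) :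
    Integrable (fun t : ℝ => Fi γ X (A + 1) (cs t)) := by
  unfold Fi
  simp only [sub_mul]
  exact (DK_int hX A γ).sub ((XK_int hX A).const_mul _)

lemma Fi_val {X : ℝ} (hX : 0 < X) (A : ℕ) (γ : Fin k ⊕ Fin k → ℝ) {N : ℕ}
    (hN : ∀ n : ℕ, N < n → X ≤ n) :
    ∫ t : ℝ, Fi γ X (A + 1) (cs t) =
      2 * Real.pi * (∑ n ∈ Finset.Icc 1 N, dr γ n * wA (A + 1) (n / X) -
        zr γ * wA (A + 1) (1 / X)) := by
  unfold Fi
  simp only [sub_mul]
  rw [integral_sub (DK_int hX A γ) ((XK_int hX A).const_mul _), sum_int A hX γ hN,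
    integral_const_mul, one_int A hX, Dz_zero]
  ring

/-- the rest of the line -/
lemma tail {X : ℝ} (hX : 0 < X) (A : ℕ) {D M Y : ℝ} (hY : 0 < Y) (γ : Fin k ⊕ Fin k → ℝ)
    (hD : ∀ t : ℝ, ‖Dz γ (cs t)‖ ≤ D) (hM : ‖Dz γ 0‖ ≤ M) (hD0 : 0 ≤ D) (hM0 : 0 ≤ M) :
    ‖∫ t : ℝ, Fi γ X (A + 1) (cs t)‖ ≤ ‖∫ t in (-Y)..Y, Fi γ X (A + 1) (cs t)‖ +
      (D + M) * (X ^ (1 / 8 : ℝ) * ((A + 1).factorial / Y ^ A)) * G0 := by
  have h1 := integral_add_compl (measurableSet_Ioc (a := -Y) (b := Y)) (Fi_int hX A γ)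
  rw [← h1, intervalIntegral.integral_of_le (by linarith)]
  refine (norm_add_le _ _).trans (add_le_add le_rfl ?_)
  have h2 : ‖∫ t in (Ioc (-Y) Y)ᶜ, Fi γ X (A + 1) (cs t)‖ ≤
      ∫ t in (Ioc (-Y) Y)ᶜ, (D + M) * (X ^ (1 / 8 : ℝ) * ((A + 1).factorial / Y ^ A)) * gm t := by
    refine norm_integral_le_of_norm_le ((gm_int.const_mul _).integrableOn) ?_
    refine (ae_restrict_iff' measurableSet_Ioc.compl).2 (Eventually.of_forall fun t ht => ?_)
    have hYt : Y ≤ |t| := by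
      by_contra h
      have := abs_lt.1 (not_le.1 h)
      exact ht ⟨this.1, this.2.le⟩
    unfold Fi
    rw [norm_mul, norm_mul, X_norm hX, cs_re]
    have h3 := KA_line (A := A) (t := t) hY (Or.inr hYt)
    have h4 : ‖Dz γ (cs t) - Dz γ 0‖ ≤ D + M :=
      (norm_sub_le _ _).trans (add_le_add (hD t) hM)
    calc _ ≤ (D + M) * (X ^ (1 / 8 : ℝ) * ((A + 1).factorial / Y ^ A * gm t)) := by gcongr
      _ = _ := by ring
  refine h2.trans ?_
  rw [integral_const_mul]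
  refine mul_le_mul_of_nonneg_left ?_ (by positivity)
  exact setIntegral_le_integral gm_int (Eventually.of_forall fun t => by unfold gm; positivity)

end

end Pool.Agent.Z72.SF.SAF

namespace Pool.Agent.Z72.SF

open Complex Filter Topology MeasureTheory Set
open SAF
open Pool.Agent.Z72.SQ.SA

theorem t_SAF : S_SAF := by
  intro k
  obtain ⟨C, m, hC1, hC⟩ := Dz_le k
  obtain ⟨D, hD1, hD⟩ := Dz_line k
  obtain ⟨b, hb⟩ : ∃ b : ℕ, b = m + 2 + k := ⟨_, rfl⟩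
  obtain ⟨a, ha⟩ : ∃ a : ℕ, a = m + b + 1 := ⟨_, rfl⟩
  set f : ℝ := ((2 * a + 1).factorial : ℝ) with hf
  have hf1 : 0 < f := by rw [hf]; exact_mod_cast Nat.factorial_pos _
  refine ⟨wA (2 * a + 1), 2 * C * (8 * (f * 2 ^ (2 * a + 1))) + C * (f * 4 ^ (a + 1)) +
    (D + C) * (f * 4 ^ a) * G0 + C * (2 * a + 1 : ℕ) + (2 * a + 1 : ℕ), 4, 8 * b,
    by have := G0_nonneg; positivity, by norm_num, by omega, wA_norm _, fun y h0 h1 => ?_,
    fun U hU γ hg1 hg2 => ?_⟩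
  · refine (wA_sub _ h0 h1).trans (mul_le_mul_of_nonneg_right ?_ h0.le)
    have := G0_nonneg
    have h2 : 0 ≤ 2 * C * (8 * (f * 2 ^ (2 * a + 1))) + C * (f * 4 ^ (a + 1)) +
      (D + C) * (f * 4 ^ a) * G0 + C * (2 * a + 1 : ℕ) := by positivity
    linarith
  have hγ : Sx k U γ := ⟨hg1, hg2⟩
  have hU0 : (0:ℝ) < U := by linarith
  have hU1 : (1:ℝ) ≤ U := by linarith
  obtain ⟨X, hX⟩ : ∃ X : ℝ, X = U ^ (8 * b) := ⟨_, rfl⟩
  have hX1 : 1 ≤ X := by rw [hX]; exact one_le_pow₀ hU1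
  have hX0 : 0 < X := by linarith
  obtain ⟨Y, hY⟩ : ∃ Y : ℝ, Y = U ^ (1 / 2 : ℝ) / 2 := ⟨_, rfl⟩
  have hV : (2:ℝ) ≤ U ^ (1 / 2 : ℝ) := by
    rw [← Real.sqrt_eq_rpow]
    exact Real.le_sqrt_of_sq_le (by linarith)
  have hVsq : (U ^ (1 / 2 : ℝ)) ^ 2 = U := by
    rw [← Real.sqrt_eq_rpow]
    exact Real.sq_sqrt hU0.le
  have hY1 : 1 ≤ Y := by linarith
  have hYsq : Y ^ 2 = U / 4 := by
    rw [hY, div_pow, hVsq]
    norm_num
  have hY2 : 2 * Y ≤ U := by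
    have : U ^ (1 / 2 : ℝ) ≤ U := by
      conv_rhs => rw [← Real.rpow_one U]
      exact Real.rpow_le_rpow_of_exponent_le hU1 (by norm_num)
    linarith
  have hM : ∀ s : ℂ, |s.re| ≤ 1 / 8 → |s.im| ≤ Y → ‖Dz γ s‖ ≤ C * U ^ m := by
    intro s h1 h2
    exact hC U γ s hU hγ h1 (by rw [← hY]; exact h2)
  have hM0 : ‖Dz γ 0‖ ≤ C * U ^ m := hM 0 (by simp) (by simp; linarith)
  have hN : ∀ n : ℕ, ⌊U ^ (2 * (8 * b))⌋₊ < n → X ≤ n := by
    intro n hn
    have h1 : U ^ (2 * (8 * b)) < n := by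
      have := Nat.lt_of_floor_lt hn
      exact this
    refine le_trans ?_ h1.le
    rw [hX]
    exact pow_le_pow_right₀ hU1 (by omega)
  have h1 := Fi_val hX0 (2 * a) γ hN
  have h2 := tail hX0 (2 * a) (D := D) (M := C * U ^ m) (Y := Y) (by linarith) γ (hD γ) hM0
    (by linarith) (by positivity)
  have h3 := shift hU hγ hX1 (2 * a) hY (by positivity) hM
  have eX8 : X ^ (1 / 8 : ℝ) = U ^ b := by
    rw [hX, mul_comm 8 b, pow_mul]
    rw [show (1 / 8 : ℝ) = ((8 : ℕ) : ℝ)⁻¹ by norm_num]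
    exact Real.pow_rpow_inv_natCast (x := U ^ b) (n := 8) (by positivity) (by norm_num)
  have eX8' : X ^ (-(1 / 8) : ℝ) = (U ^ b)⁻¹ := by
    rw [Real.rpow_neg hX0.le, eX8]
  have eY1 : Y ^ (2 * a) = (U / 4) ^ a := by rw [pow_mul, hYsq]
  have eY2 : Y ^ (2 * a + 1 + 1) = (U / 4) ^ (a + 1) := by
    rw [← hYsq, ← pow_mul]
    congr 1
  rw [eX8, eX8', eY2] at h3
  rw [eX8, eY1] at h2
  set S := ∑ n ∈ Finset.Icc 1 ⌊U ^ (2 * (8 * b))⌋₊,
    Pool.Agent.TH612.GS.dr γ n * wA (2 * a + 1) (n / X) with hS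
  set J := ∫ t : ℝ, Fi γ X (2 * a + 1) (cs t) with hJ
  have hJ1 : ‖S - Pool.Agent.TH612.GS.zr γ * wA (2 * a + 1) (1 / X)‖ ≤ ‖J‖ := by
    rw [h1, norm_mul, norm_mul]
    have hpi : (1:ℝ) ≤ ‖(2:ℂ)‖ * ‖(Real.pi : ℂ)‖ := by
      rw [Complex.norm_real, Real.norm_eq_abs, abs_of_pos Real.pi_pos]
      have := Real.pi_gt_three
      norm_num
      linarith
    exact le_mul_of_one_le_left (norm_nonneg _) hpi
  have hz : ‖Pool.Agent.TH612.GS.zr γ‖ ≤ C * U ^ m := by rw [← Dz_zero]; exact hM0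
  have h4 : ‖Pool.Agent.TH612.GS.zr γ * (1 - wA (2 * a + 1) (1 / X))‖ ≤
      C * (2 * a + 1 : ℕ) / U := by
    rw [norm_mul, norm_sub_rev]
    have h5 := wA_sub (2 * a + 1) (y := 1 / X) (by positivity) (by
      rw [div_le_one hX0]; exact hX1)
    calc _ ≤ (C * U ^ m) * ((2 * a + 1 : ℕ) * (1 / X)) := by gcongr
      _ = C * (2 * a + 1 : ℕ) * (U ^ m / X) := by ring
      _ ≤ C * (2 * a + 1 : ℕ) * (1 / U) := by
        refine mul_le_mul_of_nonneg_left ?_ (by have := G0_nonneg; positivity)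
        rw [div_le_div_iff₀ hX0 hU0, one_mul, ← pow_succ, hX]
        exact pow_le_pow_right₀ hU1 (by omega)
      _ = _ := by ring
  have t1 : 2 * (C * U ^ m) * ((U ^ b)⁻¹ * (8 * (f * 2 ^ (2 * a + 1)))) * (2 * Y) ≤
      2 * C * (8 * (f * 2 ^ (2 * a + 1))) / U := by
    calc _ ≤ 2 * (C * U ^ m) * ((U ^ b)⁻¹ * (8 * (f * 2 ^ (2 * a + 1)))) * U := by gcongr
      _ = 2 * C * (8 * (f * 2 ^ (2 * a + 1))) * (U ^ (m + 1) / U ^ b) := by
        rw [pow_succ]; ring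
      _ ≤ 2 * C * (8 * (f * 2 ^ (2 * a + 1))) * (1 / U) := by
        refine mul_le_mul_of_nonneg_left ?_ (by have := G0_nonneg; positivity)
        rw [div_le_div_iff₀ (by positivity) hU0, one_mul, ← pow_succ]
        exact pow_le_pow_right₀ hU1 (by omega)
      _ = _ := by ring
  have t2 : 2 * (C * U ^ m) * (U ^ b * (f / (U / 4) ^ (a + 1))) * (1 / 4) * 2 ≤
      C * (f * 4 ^ (a + 1)) / U := by
    calc _ = C * (f * 4 ^ (a + 1)) * (U ^ (m + b) / U ^ (a + 1)) := by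
          rw [div_pow, pow_add U m b]
          field_simp
          ring
      _ ≤ C * (f * 4 ^ (a + 1)) * (1 / U) := by
        refine mul_le_mul_of_nonneg_left ?_ (by have := G0_nonneg; positivity)
        rw [div_le_div_iff₀ (by positivity) hU0, one_mul, ← pow_succ]
        exact pow_le_pow_right₀ hU1 (by omega)
      _ = _ := by ring
  have t3 : (D + C * U ^ m) * (U ^ b * (f / (U / 4) ^ a)) * G0 ≤
      (D + C) * (f * 4 ^ a) * G0 / U := by
    have hG := G0_nonneg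
    have hp : (1:ℝ) ≤ U ^ m := one_le_pow₀ hU1
    calc _ ≤ (D * U ^ m + C * U ^ m) * (U ^ b * (f / (U / 4) ^ a)) * G0 := by
          gcongr
          exact le_mul_of_one_le_right (by linarith) hp
      _ = (D + C) * (f * 4 ^ a) * G0 * (U ^ (m + b) / U ^ a) := by
          rw [div_pow, pow_add U m b]
          field_simp
      _ ≤ (D + C) * (f * 4 ^ a) * G0 * (1 / U) := by
        refine mul_le_mul_of_nonneg_left ?_ (by have := G0_nonneg; positivity)
        rw [div_le_div_iff₀ (by positivity) hU0, one_mul, ← pow_succ]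
        exact pow_le_pow_right₀ hU1 (by omega)
      _ = _ := by ring
  have e : Pool.Agent.TH612.GS.zr γ - S =
      Pool.Agent.TH612.GS.zr γ * (1 - wA (2 * a + 1) (1 / X)) -
      (S - Pool.Agent.TH612.GS.zr γ * wA (2 * a + 1) (1 / X)) := by ring
  rw [← hX, ← hS, e]
  refine (norm_sub_le _ _).trans ?_
  have hz0 : (0:ℝ) ≤ ((2 * a + 1 : ℕ) : ℝ) / U := by positivity
  rw [add_div, add_div, add_div, add_div]
  linarith

end Pool.Agent.Z72.SF
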