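import Pool.Agent.Z72.SF.Stm
import Pool.Agent.TH440.GF.ZA

set_option autoImplicit false

/-!
Project SF, part ZAF: the values of zeta in the recipe for separated shifts, with fixed shifts.
-/

namespace Pool.Agent.Z72.SF

open Complex Filter Topology MeasureTheory Set
open Pool.Agent.TH612.CF Pool.Agent.TH612.GS
open Pool.Agent.TH440.GF (cA cA_nonneg le_cA)

noncomputable section

lemma pair_bdF {k : ℕ} (F : Finset (Fin k)) (α : Fin k → ℝ) {C T A : ℝ} (hT : 3 ≤ T) (hC : 0 < C)
    (hA : ∀ j, |α j| ≤ A) (hAT : A ≤ T)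
    (h1 : ∀ v : ℝ, 1 ≤ |v| → |v| ≤ 2 * T → ‖riemannZeta (1 + I * v)‖ ≤ C * Real.log (2 * T))
    {ξ : Fin k ⊕ Fin k → ℝ} (hξ : ξ ∈ SepF F α T) (p q : Fin k ⊕ Fin k) (hpq : p ≠ q) :
    ‖riemannZeta (1 + I * ((mx F α ξ p - mx F α ξ q : ℝ) : ℂ))‖ ≤
      (cA α + 2 * C) * Real.log T := by
  have hl1 : 1 ≤ Real.log T := by
    rw [Real.le_log_iff_exp_le (by linarith)]
    exact (Real.exp_one_lt_d9.le.trans (by norm_num)).trans hT
  have hl2 : Real.log (2 * T) ≤ 2 * Real.log T := by
    rw [Real.log_mul (by norm_num) (by linarith)]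
    have : Real.log 2 ≤ Real.log T := Real.log_le_log (by norm_num) (by linarith)
    linarith
  have hc := cA_nonneg α
  have hbig : ∀ v : ℝ, 1 ≤ |v| → |v| ≤ 2 * T →
      ‖riemannZeta (1 + I * v)‖ ≤ (cA α + 2 * C) * Real.log T := by
    intro v hv hv2
    refine (h1 v hv hv2).trans ?_
    have e1 : C * Real.log (2 * T) ≤ C * (2 * Real.log T) := mul_le_mul_of_nonneg_left hl2 hC.le
    have e2 : 0 ≤ cA α * Real.log T := mul_nonneg hc (by linarith)
    nlinarith
  have hroot : 1 ≤ T ^ (1 / 2 : ℝ) := Real.one_le_rpow (by linarith) (by norm_num)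
  have hb : ∀ i, |mx F α ξ i| ≤ T := by
    intro i
    rcases i with j | j
    · unfold mx
      simp only [Sum.elim_inl]
      split_ifs
      · exact (hA j).trans hAT
      · rw [abs_of_nonneg (hξ.1 _).1]
        exact (hξ.1 _).2
    · unfold mx
      simp only [Sum.elim_inr]
      rw [abs_of_nonneg (hξ.1 _).1]
      exact (hξ.1 _).2
  by_cases hF : inF F p ∧ inF F q
  · obtain ⟨hp, hq⟩ := hF
    rcases p with j | j
    · rcases q with l | l
      · have e1 : mx F α ξ (Sum.inl j) = α j := by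
          unfold mx
          simp only [Sum.elim_inl]
          exact if_pos hp
        have e2 : mx F α ξ (Sum.inl l) = α l := by
          unfold mx
          simp only [Sum.elim_inl]
          exact if_pos hq
        rw [e1, e2]
        refine (le_cA α j l).trans ?_
        have e1 : cA α ≤ cA α * Real.log T := le_mul_of_one_le_right hc hl1
        have e2 : 0 ≤ C * Real.log T := mul_nonneg hC.le (by linarith)
        nlinarith
      · exact hq.elim
    · exact hp.elim
  · refine hbig _ (hroot.trans (hξ.2 p q hpq hF)) ?_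
    have := abs_sub (mx F α ξ p) (mx F α ξ q)
    have := hb p
    have := hb q
    linarith

theorem t_ZAF (hONE : Pool.Agent.TH612.GS.S_ONE) : S_ZAF := by
  intro k F α _
  obtain ⟨C, T₀, hC, hT₀, h⟩ := hONE
  set A : ℝ := ∑ j, |α j| with hAdef
  have hA : ∀ j, |α j| ≤ A := fun j =>
    Finset.single_le_sum (f := fun j => |α j|) (fun _ _ => abs_nonneg _) (Finset.mem_univ j)
  have hc := cA_nonneg α
  have hBF : 0 ≤ BF k (1 / 8) := (Real.exp_pos _).le
  refine ⟨BF k (1 / 8) * (cA α + 2 * C) ^ (k ^ 2) + 1, max T₀ A, k ^ 2, by positivity,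
    hT₀.trans (le_max_left _ _), ?_⟩
  intro T hT ξ hξ π
  have hT1 : T₀ ≤ T := (le_max_left _ _).trans hT
  have hAT : A ≤ T := (le_max_right _ _).trans hT
  have hT3 : 3 ≤ T := hT₀.trans hT1
  have h1 : ∀ v : ℝ, 1 ≤ |v| → |v| ≤ 2 * T →
      ‖riemannZeta (1 + I * v)‖ ≤ C * Real.log (2 * T) := by
    refine (h (2 * T) 1 (by linarith) le_rfl ?_).1
    rw [Nat.cast_one]
    exact Real.one_le_rpow (by linarith) (by norm_num)
  have hlog : 0 ≤ Real.log T := Real.log_nonneg (by linarith)
  set D : ℝ := (cA α + 2 * C) * Real.log T with hD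
  have hD0 : 0 ≤ D := by positivity
  have h2 : ∀ j l : Fin k, ‖riemannZeta (1 + I * (mx F α ξ (π (Sum.inl j)) : ℂ) -
      I * (mx F α ξ (π (Sum.inr l)) : ℂ))‖ ≤ D := by
    intro j l
    have hne : π (Sum.inl j) ≠ π (Sum.inr l) := fun h => by
      have := π.injective h
      simp at this
    have e : (1 + I * (mx F α ξ (π (Sum.inl j)) : ℂ) - I * (mx F α ξ (π (Sum.inr l)) : ℂ) : ℂ) =
        1 + I * ((mx F α ξ (π (Sum.inl j)) - mx F α ξ (π (Sum.inr l)) : ℝ) : ℂ) := by
      push_cast; ring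
    rw [e]
    exact pair_bdF F α hT3 hC hA hAT h1 hξ _ _ hne
  have h3 : ‖zab (fun j => (mx F α ξ (π (Sum.inl j)) : ℂ))
      (fun j => (mx F α ξ (π (Sum.inr j)) : ℂ))‖ ≤ BF k (1 / 8) * D ^ (k ^ 2) := by
    unfold zab
    rw [norm_mul, norm_prod]
    refine mul_le_mul ?_ ?_ (by positivity) hBF
    · refine FH_le (by norm_num) fun j => ?_
      rw [Complex.ofReal_im, Complex.ofReal_im, abs_zero]
      norm_num
    · calc ∏ j, ‖∏ l, riemannZeta (1 + I * (mx F α ξ (π (Sum.inl j)) : ℂ) -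
            I * (mx F α ξ (π (Sum.inr l)) : ℂ))‖
          ≤ ∏ _j : Fin k, D ^ k := by
            refine Finset.prod_le_prod (fun _ _ => norm_nonneg _) fun j _ => ?_
            rw [norm_prod]
            refine (Finset.prod_le_prod (fun _ _ => norm_nonneg _) fun l _ => h2 j l).trans ?_
            simp
        _ = D ^ (k ^ 2) := by
            rw [Finset.prod_const, Finset.card_univ, Fintype.card_fin, ← pow_mul]
            congr 1; ring
  refine h3.trans ?_
  rw [hD, mul_pow, ← mul_assoc]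
  have : 0 ≤ Real.log T ^ (k ^ 2) := by positivity
  nlinarith

end

end Pool.Agent.Z72.SF
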