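import Pool.Agent.Z72.SF.Stm
import Pool.Agent.T2h46.ZC.Core

set_option autoImplicit false

/-!
ZC: the convexity bound between Weyl's bound and the `1`-line.
-/

namespace Pool.Agent.Z72.SF

theorem t_ZC : S_ZC := fun ε hε =>
  Pool.Agent.T2h46.ZC.convexity Pool.Agent.TH809.MZ.growth_weyl ε hε

end Pool.Agent.Z72.SF
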