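import Pool.Agent.Z72.SF.As2
import Pool.Agent.Z72.SF.A2f
import Pool.Agent.Z72.SF.Zc
import Pool.Agent.Z72.SF.Rnf
import Pool.Agent.Z72.SF.Ntf
import Pool.Agent.Z72.SF.Odf
import Pool.Agent.Z72.SF.Saf
import Pool.Agent.Z72.SF.Dtf
import Pool.Agent.Z72.SF.Dgf
import Pool.Agent.Z72.SF.Swf
import Pool.Agent.Z72.SF.Zaf
import Pool.Agent.Z72.SF.Naf
import Pool.Agent.Z72.SF.Rpf
import Pool.Agent.Z72.SQ.Mm
import Pool.Agent.Z72.SQ.Mt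
import Pool.Agent.Z72.SQ.Emn
import Pool.Agent.Z72.SH.All
import Pool.Agent.TH751.GF.MVB

set_option autoImplicit false

/-!
Project SF: all parts together.
-/

namespace Pool.Agent.Z72.SF

theorem t_RPF' : S_RPF := t_RPF Pool.Agent.Z72.SH.t_KD Pool.Agent.Z72.SH.t_RW
  (Pool.Agent.Z72.SH.t_WM (Pool.Agent.Z72.SH.t_VS Pool.Agent.Z72.SH.Gm.t_GM Pool.Agent.Z72.SH.t_ES))
  (Pool.Agent.N879.PU.t_WINU Pool.Agent.N879.PU.t_MVS) Pool.Agent.Z72.SQ.t_EMN Pool.Agent.TH570.GS.t_SM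

theorem final : S_MUF := t_MUF t_RPF'
  (t_ODF Pool.Agent.Z72.SQ.t_MM (t_RNF t_ZC) t_NTF Pool.Agent.TH751.GF.t_MVB t_A2F)
  (t_DGF t_SAF (t_DTF Pool.Agent.Z72.SQ.t_MM Pool.Agent.Z72.SQ.t_MT)) t_SWF
  (t_ZAF (Pool.Agent.TH811.GS.t_ONE Pool.Agent.TH928.GS.t_MV)) t_NAF t_A2F Pool.Agent.TH612.GS.t_INV

end Pool.Agent.Z72.SF
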