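import Pool.Agent.Z72.SF.Stm
import Pool.Agent.Z72.SQ.As1

set_option autoImplicit false

/-! Project SF: assembly, general lemmas. -/

namespace Pool.Agent.Z72.SF

open Complex Filter Topology MeasureTheory Set
open Pool.Agent.TH612.GS (z zN PN mP zr Sep DD z_cont PN_cont zp IG Pk inv_le_one DD_eq Zg_fz
  Zg_cont IG_cont GG_cont_t GG_cont_2 norm_GG S_INV tup ch wt)
open Pool.Agent.TH612.CF (Zg GG Qs zab FH_cont zeta_cont one_ne)

noncomputable section

variable {k : ℕ}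

lemma mx_cont (F : Finset (Fin k)) (α : Fin k → ℝ) : Continuous (mx F α) := by
  refine continuous_pi fun i => ?_
  rcases i with j | l
  · simp only [mx, Sum.elim_inl]
    split_ifs
    · exact continuous_const
    · exact continuous_apply _
  · simp only [mx, Sum.elim_inr]
    exact continuous_apply _

lemma hF_cont (F : Finset (Fin k)) {f : ℝ → ℂ} (hf : Continuous f) (i : Fin k ⊕ Fin k) : Continuous (hF F f i) := by
  rcases i with j | l
  · unfold hF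
    simp only [Sum.elim_inl]
    split_ifs
    · exact continuous_const
    · exact hf
  · unfold hF
    simp only [Sum.elim_inr]
    exact Complex.continuous_conj.comp hf

lemma AF_cont (F : Finset (Fin k)) (α : Fin k → ℝ) : Continuous (AF F α) :=
  continuous_finsetProd _ fun j _ => z_cont.comp (by fun_prop)

lemma prodh_cont (F : Finset (Fin k)) {f : ℝ → ℂ} (hf : Continuous f) :
    Continuous fun p : (Fin k ⊕ Fin k → ℝ) × ℝ => ∏ i, hF F f i (p.2 + p.1 i) :=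
  continuous_finsetProd _ fun i _ => (hF_cont F hf i).comp (by fun_prop)

lemma prodh_cont_t (F : Finset (Fin k)) {f : ℝ → ℂ} (hf : Continuous f) (ξ : Fin k ⊕ Fin k → ℝ) :
    Continuous fun t : ℝ => ∏ i, hF F f i (t + ξ i) :=
  continuous_finsetProd _ fun i _ => (hF_cont F hf i).comp (by fun_prop)

lemma Zg_mx (F : Finset (Fin k)) (α : Fin k → ℝ) (ξ : Fin k ⊕ Fin k → ℝ) (t : ℝ) :
    Zg (mx F α ξ) t = AF F α t * ∏ i, hF F z i (t + ξ i) := by
  rw [Zg_fz, Finset.prod_mul_distrib, Fintype.prod_sum_type, ← mul_assoc]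
  congr 1
  unfold AF
  have e1 : ∀ j : Fin k, z (t + mx F α ξ (Sum.inl j)) = (if j ∈ F then z (t + α j) else 1) *
      hF F z (Sum.inl j) (t + ξ (Sum.inl j)) := by
    intro j
    unfold mx hF
    simp only [Sum.elim_inl]
    split_ifs <;> simp
  simp only [e1]
  rw [Finset.prod_mul_distrib]
  congr 1
  rw [Finset.prod_ite_mem]
  simp

lemma nonsing_cont : ContinuousOn (fun γ : Fin k ⊕ Fin k → ℝ => zr γ)
    {γ | ∀ j l : Fin k, γ (Sum.inl j) ≠ γ (Sum.inr l)} := by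
  set U : Set (Fin k ⊕ Fin k → ℝ) := {γ | ∀ j l : Fin k, γ (Sum.inl j) ≠ γ (Sum.inr l)} with hU
  have hUo : IsOpen U := by
    have : U = ⋂ j : Fin k, ⋂ l : Fin k, {γ | γ (Sum.inl j) ≠ γ (Sum.inr l)} := by
      ext γ; simp [hU]
    rw [this]
    exact isOpen_iInter_of_finite fun j => isOpen_iInter_of_finite fun l =>
      isOpen_ne_fun (continuous_apply _) (continuous_apply _)
  unfold zr zab
  refine ContinuousOn.mul ?_ ?_
  · refine FH_cont hUo (c := 1 / 8) (by norm_num) (fun j => by fun_prop) (fun j => by fun_prop)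
      fun γ _ j => ?_
    rw [Complex.ofReal_im, Complex.ofReal_im, abs_zero]
    norm_num
  · refine continuousOn_finsetProd _ fun j _ => continuousOn_finsetProd _ fun l _ => ?_
    refine zeta_cont (by fun_prop) fun γ hγ => one_ne fun h => hγ j l ?_
    exact Complex.ofReal_injective h

lemma cross {F : Finset (Fin k)} {α : Fin k → ℝ} {U : ℝ} {ξ : Fin k ⊕ Fin k → ℝ} (hξ : ξ ∈ SepF F α U)
    (j l : Fin k) : U ^ (1 / 2 : ℝ) ≤ |mx F α ξ (Sum.inl j) - mx F α ξ (Sum.inr l)| := by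
  refine hξ.2 _ _ (by simp) ?_
  rintro ⟨_, h⟩
  exact h

lemma zrF_cont {F : Finset (Fin k)} {α : Fin k → ℝ} {U : ℝ} (hU : 0 < U) :
    ContinuousOn (fun ξ : Fin k ⊕ Fin k → ℝ => zr (mx F α ξ)) (SepF F α U) := by
  refine nonsing_cont.comp (mx_cont F α).continuousOn fun ξ hξ => ?_
  intro j l h
  have h1 := cross hξ j l
  rw [h, sub_self, abs_zero] at h1
  have h2 : 0 < U ^ (1 / 2 : ℝ) := by positivity
  linarith

lemma SepF_measA (F : Finset (Fin k)) (α : Fin k → ℝ) (U : ℝ) : MeasurableSet (SepF F α U) := by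
  have : SepF F α U = (⋂ i, {ξ : Fin k ⊕ Fin k → ℝ | 0 ≤ ξ i ∧ ξ i ≤ U}) ∩
      ⋂ p, ⋂ q, {ξ | p ≠ q → ¬ (inF F p ∧ inF F q) → U ^ (1 / 2 : ℝ) ≤ |mx F α ξ p - mx F α ξ q|} := by
    ext ξ
    simp [SepF]
  rw [this]
  refine IsClosed.measurableSet ?_
  have hm := mx_cont F α
  refine IsClosed.inter (isClosed_iInter fun i => ?_) (isClosed_iInter fun p => isClosed_iInter fun q => ?_)
  · exact (isClosed_le continuous_const (continuous_apply i)).inter
      (isClosed_le (continuous_apply i) continuous_const)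
  · by_cases h : p ≠ q ∧ ¬ (inF F p ∧ inF F q)
    · have e : {ξ : Fin k ⊕ Fin k → ℝ | p ≠ q → ¬ (inF F p ∧ inF F q) →
          U ^ (1 / 2 : ℝ) ≤ |mx F α ξ p - mx F α ξ q|} =
          {ξ | U ^ (1 / 2 : ℝ) ≤ |mx F α ξ p - mx F α ξ q|} := by
        ext ξ
        simp only [mem_ofPred_eq]
        exact ⟨fun h' => h' h.1 h.2, fun h' _ _ => h'⟩
      rw [e]
      exact isClosed_le continuous_const
        (((continuous_apply p).comp hm).sub ((continuous_apply q).comp hm)).abs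
    · have e : {ξ : Fin k ⊕ Fin k → ℝ | p ≠ q → ¬ (inF F p ∧ inF F q) →
          U ^ (1 / 2 : ℝ) ≤ |mx F α ξ p - mx F α ξ q|} = univ := by
        ext ξ
        simp only [mem_ofPred_eq, mem_univ, iff_true]
        exact fun h1 h2 => absurd ⟨h1, h2⟩ h
      rw [e]
      exact isClosed_univ

lemma Sf_cont (F : Finset (Fin k)) (α : Fin k → ℝ) (N : ℕ) : Continuous fun ξ : Fin k ⊕ Fin k → ℝ => Sf F α N ξ := by
  unfold Sf
  refine continuous_finsetSum _ fun ν hν => ?_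
  have hν1 : ∀ i, ν i ≠ 0 := by
    intro i
    have h1 := (Finset.mem_filter.1 hν).1
    have := (Finset.mem_Icc.1 (Fintype.mem_piFinset.1 h1 i)).1
    omega
  refine (continuous_const.mul ?_).mul continuous_const
  unfold ch
  refine (continuous_finsetProd _ fun j _ => ?_).mul (continuous_finsetProd _ fun j _ => ?_)
  · exact Continuous.const_cpow (by fun_prop) (Or.inl (by exact_mod_cast hν1 _))
  · exact Continuous.const_cpow (by fun_prop) (Or.inl (by exact_mod_cast hν1 _))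

/-- the replacement integral -/
def Gi (F : Finset (Fin k)) (α : Fin k → ℝ) (N : ℕ) (a b : ℝ) (ξ : Fin k ⊕ Fin k → ℝ) : ℂ :=
  ∫ t in a..b, AF F α t * (∏ i, hF F z i (t + ξ i) - ∏ i, hF F (PN N) i (t + ξ i))

/-- the off-diagonal integral -/
def Oi (F : Finset (Fin k)) (α : Fin k → ℝ) (N : ℕ) (a b : ℝ) (ξ : Fin k ⊕ Fin k → ℝ) : ℂ :=
  (∫ t in a..b, AF F α t * ∏ i, hF F (PN N) i (t + ξ i)) - ((b - a : ℝ) : ℂ) * Sf F α N ξ

lemma Gi_cont (F : Finset (Fin k)) (α : Fin k → ℝ) (N : ℕ) (a b : ℝ) : Continuous (Gi F α N a b) := by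
  unfold Gi
  exact intervalIntegral.continuous_parametric_intervalIntegral_of_continuous'
    (f := fun (ξ : Fin k ⊕ Fin k → ℝ) (t : ℝ) => AF F α t * (∏ i, hF F z i (t + ξ i) - ∏ i, hF F (PN N) i (t + ξ i)))
    (((AF_cont F α).comp continuous_snd).mul ((prodh_cont F z_cont).sub (prodh_cont F (PN_cont N)))) a b

lemma Oi_cont (F : Finset (Fin k)) (α : Fin k → ℝ) (N : ℕ) (a b : ℝ) : Continuous (Oi F α N a b) := by
  unfold Oi
  refine Continuous.sub ?_ (continuous_const.mul (Sf_cont F α N))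
  exact intervalIntegral.continuous_parametric_intervalIntegral_of_continuous'
    (f := fun (ξ : Fin k ⊕ Fin k → ℝ) (t : ℝ) => AF F α t * ∏ i, hF F (PN N) i (t + ξ i))
    (((AF_cont F α).comp continuous_snd).mul (prodh_cont F (PN_cont N))) a b

lemma piece (F : Finset (Fin k)) (α : Fin k → ℝ) (N : ℕ) {a b : ℝ} (hab : a ≤ b) (ξ : Fin k ⊕ Fin k → ℝ) :
    ‖(∫ t in a..b, Zg (mx F α ξ) t) - ((b - a : ℝ) : ℂ) * zr (mx F α ξ)‖ ≤
      ‖Gi F α N a b ξ‖ + ‖Oi F α N a b ξ‖ + (b - a) * ‖Sf F α N ξ - zr (mx F α ξ)‖ := by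
  have c1 : Continuous fun t : ℝ => AF F α t * ∏ i, hF F z i (t + ξ i) :=
    (AF_cont F α).mul (prodh_cont_t F z_cont ξ)
  have c2 : Continuous fun t : ℝ => AF F α t * ∏ i, hF F (PN N) i (t + ξ i) :=
    (AF_cont F α).mul (prodh_cont_t F (PN_cont N) ξ)
  have e1 : (∫ t in a..b, Zg (mx F α ξ) t) = Gi F α N a b ξ +
      ∫ t in a..b, AF F α t * ∏ i, hF F (PN N) i (t + ξ i) := by
    unfold Gi
    rw [← intervalIntegral.integral_add]
    · refine intervalIntegral.integral_congr fun t _ => ?_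
      rw [Zg_mx]; ring
    · refine Continuous.intervalIntegrable ?_ _ _
      exact (AF_cont F α).mul ((prodh_cont_t F z_cont ξ).sub (prodh_cont_t F (PN_cont N) ξ))
    · exact c2.intervalIntegrable _ _
  have e2 : (∫ t in a..b, Zg (mx F α ξ) t) - ((b - a : ℝ) : ℂ) * zr (mx F α ξ) =
      Gi F α N a b ξ + Oi F α N a b ξ + ((b - a : ℝ) : ℂ) * (Sf F α N ξ - zr (mx F α ξ)) := by
    rw [e1]; unfold Oi; ring
  rw [e2]
  have h1 : ‖((b - a : ℝ) : ℂ) * (Sf F α N ξ - zr (mx F α ξ))‖ = (b - a) * ‖Sf F α N ξ - zr (mx F α ξ)‖ := by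
    rw [norm_mul, Complex.norm_real, Real.norm_of_nonneg (by linarith)]
  rw [← h1]
  exact (norm_add_le _ _).trans (add_le_add (norm_add_le _ _) le_rfl)

lemma DD_bdF (hINV : S_INV) {S Q : ℝ} {γ : Fin k ⊕ Fin k → ℝ} (hQ : ∀ π : Equiv.Perm (Fin k ⊕ Fin k), ‖zp γ π‖ ≤ Q) :
    ‖DD S γ‖ ≤ ‖(∫ t in (0:ℝ)..S, Zg γ t) - S * zr γ‖ + Q * ∑ π ∈ (Pk k)ᶜ, ‖IG S γ π‖ := by
  rw [DD_eq hINV]
  refine (norm_sub_le _ _).trans (add_le_add le_rfl ?_)
  rw [norm_mul]
  calc _ ≤ 1 * ‖∑ π ∈ (Pk k)ᶜ, IG S γ π * zp γ π‖ := by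
        gcongr
        exact inv_le_one
    _ ≤ 1 * ∑ π ∈ (Pk k)ᶜ, ‖IG S γ π * zp γ π‖ := by
        gcongr
        exact norm_sum_le _ _
    _ ≤ 1 * ∑ π ∈ (Pk k)ᶜ, ‖IG S γ π‖ * Q := by
        gcongr with π hπ
        rw [norm_mul]
        gcongr
        exact hQ π
    _ = _ := by rw [one_mul, ← Finset.sum_mul, mul_comm]

/-- the pieces of the exceptional set -/
lemma Bad_subF (hINV : S_INV) {F : Finset (Fin k)} {α : Fin k → ℝ} {T U S lam Q Λ : ℝ} {N₁ N₂ : ℕ} (hU : 0 ≤ U)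
    (hUT : U ≤ T) (hS0 : 0 ≤ S) (hST : S ≤ T) (hT : 0 < T) (hlam : 0 ≤ lam) (hQ0 : 0 ≤ Q)
    (hQ : ∀ ξ ∈ SepF F α U, ∀ π : Equiv.Perm (Fin k ⊕ Fin k), ‖zp (mx F α ξ) π‖ ≤ Q)
    (hΛ : 6 * lam + Q * ((Fintype.card (Equiv.Perm (Fin k ⊕ Fin k)) : ℝ) * lam) ≤ Λ) :
    BadF F α U S Λ ⊆ (SepF F α U)ᶜ ∪ {ξ | lam < ‖Gi F α N₁ 0 (min S U) ξ‖} ∪ {ξ | lam < ‖Gi F α N₂ U (max S U) ξ‖} ∪
      {ξ | lam < ‖Oi F α N₁ 0 (min S U) ξ‖} ∪ {ξ | lam < ‖Oi F α N₂ U (max S U) ξ‖} ∪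
      (SepF F α U ∩ {ξ | lam / T < ‖Sf F α N₁ ξ - zr (mx F α ξ)‖}) ∪
      (SepF F α U ∩ {ξ | lam / T < ‖Sf F α N₂ ξ - zr (mx F α ξ)‖}) ∪
      ⋃ π ∈ (Pk k)ᶜ, {ξ | lam < ‖IG S (mx F α ξ) π‖} := by
  classical
  intro ξ hξ
  by_contra hcon
  simp only [mem_union, not_or, mem_iUnion, not_exists, mem_compl_iff, not_not, mem_ofPred_eq, not_lt,
    mem_inter_iff, not_and] at hcon
  obtain ⟨⟨⟨⟨⟨⟨⟨g1, g2⟩, g3⟩, g4⟩, g5⟩, g6⟩, g7⟩, g8⟩ := hcon
  obtain ⟨hcube, hS⟩ := hξ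
  have b1 : (min S U - 0) * ‖Sf F α N₁ ξ - zr (mx F α ξ)‖ ≤ lam := by
    calc (min S U - 0) * ‖Sf F α N₁ ξ - zr (mx F α ξ)‖ ≤ T * (lam / T) := by
          have := g6 g1
          have h2 : min S U - 0 ≤ T := by rw [sub_zero]; exact (min_le_left _ _).trans hST
          exact mul_le_mul h2 this (norm_nonneg _) hT.le
      _ = lam := by field_simp
  have b2 : (max S U - U) * ‖Sf F α N₂ ξ - zr (mx F α ξ)‖ ≤ lam := by
    calc (max S U - U) * ‖Sf F α N₂ ξ - zr (mx F α ξ)‖ ≤ T * (lam / T) := by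
          have := g7 g1
          have h2 : max S U - U ≤ T := by
            have : max S U ≤ T := max_le hST hUT
            linarith
          exact mul_le_mul h2 this (norm_nonneg _) hT.le
      _ = lam := by field_simp
  have p1 := piece F α N₁ (a := 0) (b := min S U) (le_min hS0 hU) ξ
  have p2 := piece F α N₂ (a := U) (b := max S U) (le_max_right _ _) ξ
  have e : (∫ t in (0:ℝ)..S, Zg (mx F α ξ) t) - S * zr (mx F α ξ) =
      ((∫ t in (0:ℝ)..(min S U), Zg (mx F α ξ) t) - ((min S U - 0 : ℝ) : ℂ) * zr (mx F α ξ)) +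
      ((∫ t in U..(max S U), Zg (mx F α ξ) t) - ((max S U - U : ℝ) : ℂ) * zr (mx F α ξ)) := by
    rcases le_total S U with h | h
    · rw [min_eq_left h, max_eq_right h, intervalIntegral.integral_same]
      push_cast; ring
    · rw [min_eq_right h, max_eq_left h, ← intervalIntegral.integral_add_adjacent_intervals
        ((Zg_cont (mx F α ξ)).intervalIntegrable 0 U) ((Zg_cont (mx F α ξ)).intervalIntegrable U S)]
      push_cast; ring
  have p3 : ‖(∫ t in (0:ℝ)..S, Zg (mx F α ξ) t) - S * zr (mx F α ξ)‖ ≤ 6 * lam := by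
    rw [e]
    refine (norm_add_le _ _).trans ?_
    linarith
  have p4 : ∑ π ∈ (Pk k)ᶜ, ‖IG S (mx F α ξ) π‖ ≤ (Fintype.card (Equiv.Perm (Fin k ⊕ Fin k)) : ℝ) * lam := by
    calc _ ≤ ∑ _π ∈ (Pk k)ᶜ, lam := Finset.sum_le_sum fun π hπ => g8 π hπ
      _ = ((Pk k)ᶜ.card : ℝ) * lam := by rw [Finset.sum_const, nsmul_eq_mul]
      _ ≤ _ := by
          gcongr
          exact_mod_cast Finset.card_le_univ _
  have p5 := DD_bdF hINV (S := S) (hQ ξ g1)
  have p6 : Q * ∑ π ∈ (Pk k)ᶜ, ‖IG S (mx F α ξ) π‖ ≤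
      Q * ((Fintype.card (Equiv.Perm (Fin k ⊕ Fin k)) : ℝ) * lam) := by gcongr
  linarith

end

end Pool.Agent.Z72.SF
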