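import Pool.Agent.Z72.SF.As1

set_option autoImplicit false

/-! Project SF: assembly, the measure of the exceptional set. -/

namespace Pool.Agent.Z72.SF

open Complex Filter Topology MeasureTheory Set
open Pool.Agent.TH612.GS (z zN PN mP zr Sep DD z_cont PN_cont zp IG Pk inv_le_one DD_eq Zg_fz
  Zg_cont IG_cont GG_cont_t GG_cont_2 norm_GG S_INV tup ch wt cheb log_ev)
open Pool.Agent.TH612.CF (Zg GG Qs zab)

noncomputable section

variable {k : ℕ}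

lemma one_le_ee (m : ℕ) : 1 ≤ ee m := le_max_left _ _

/-- Chebyshev -/
lemma ch1 {μ : Measure (Fin k ⊕ Fin k → ℝ)} {h : (Fin k ⊕ Fin k → ℝ) → ℂ} (hc : Continuous h) {B X lam : ℝ}
    (hlam : 0 < lam) (hB : ∫⁻ ξ, ENNReal.ofReal (‖h ξ‖ ^ 2) ∂μ ≤ ENNReal.ofReal B) (hX : B ≤ X * lam ^ 2) :
    μ {ξ | lam < ‖h ξ‖} ≤ ENNReal.ofReal X := by
  refine (cheb (hc.norm.aemeasurable) hlam hB).trans (ENNReal.ofReal_le_ofReal ?_)
  rw [div_le_iff₀ (by positivity)]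
  exact hX

theorem t_MUF (hRPF : S_RPF) (hODF : S_ODF) (hDGF : S_DGF) (hSWF : S_SWF) (hZAF : S_ZAF) (hNAF : S_NAF)
    (hA2F : S_A2F) (hINV : S_INV) : S_MUF := by
  intro k F ε hk hF4 hε
  refine ⟨min (ε / 2) (1 / 12), lt_min (by positivity) (by norm_num), fun α hα => ?_⟩
  classical
  obtain ⟨CA, hCA, hA⟩ := hA2F k F α (ε / 4) hF4 (by positivity)
  obtain ⟨C1, hC1, h1⟩ := hRPF k F α (ε / 4) hk (by positivity)
  obtain ⟨C2, hC2, h2⟩ := hODF k F α (ε / 4) hF4 (by positivity)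
  obtain ⟨C3, U3, hC3, hU3, h3⟩ := hDGF k F α (ε / 4) (by positivity)
  obtain ⟨C4, T4, hC4, hT4, h4⟩ := hSWF k F α
  obtain ⟨C5, T5, B5, hC5, hT5, h5⟩ := hZAF k F α hα
  obtain ⟨C6, T6, hC6, hT6, h6⟩ := hNAF k F α
  obtain ⟨e, he⟩ : ∃ e : ℝ, e = ee F.card := ⟨_, rfl⟩
  have he1 : 1 ≤ e := by rw [he]; exact one_le_ee _
  rw [← he] at hA h2 ⊢
  obtain ⟨P0, hP0⟩ : ∃ P0 : ℝ, P0 = (Fintype.card (Equiv.Perm (Fin k ⊕ Fin k)) : ℝ) := ⟨_, rfl⟩
  have hP0' : 0 ≤ P0 := by rw [hP0]; exact Nat.cast_nonneg _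
  -- large `T`
  have ev1 := log_ev (6 + P0 * C5) B5 (θ := ε / 4) (by positivity)
  have ev2 := log_ev (2 * (2 * (C1 * CA) + 2 * C2 + 2 * C3 + P0 * C4)) 0 (θ := ε / 2) (by positivity)
  have ev3 := log_ev (2 * C6) 0 (θ := 1 / 12) (by norm_num)
  have ev4 := log_ev 1 2 (θ := ε / 2) (by positivity)
  have ev5 := (tendsto_rpow_atTop (y := 1 / 3) (by norm_num)).eventually_ge_atTop (max (max 3 U3) (max T5 T6))
  obtain ⟨T0, hT0⟩ := eventually_atTop.1 ((ev1.and ev2).and ((ev3.and ev4).and ev5))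
  refine ⟨max (max T0 T4) 3, fun T U S hT hTU hUT hS0 hST => ?_⟩
  have hTT0 : T0 ≤ T := ((le_max_left _ _).trans (le_max_left _ _)).trans hT
  have hTT4 : T4 ≤ T := ((le_max_right _ _).trans (le_max_left _ _)).trans hT
  have hT3 : 3 ≤ T := (le_max_right _ _).trans hT
  obtain ⟨⟨k1, k2⟩, ⟨k3, k4⟩, k5⟩ := hT0 T hTT0
  have hTp : 0 < T := by linarith
  have hT1 : 1 ≤ T := by linarith
  have hU3' : 3 ≤ U := ((le_max_left _ _).trans ((le_max_left _ _).trans k5)).trans hTU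
  have hUU3 : U3 ≤ U := ((le_max_right _ _).trans ((le_max_left _ _).trans k5)).trans hTU
  have hUT5 : T5 ≤ U := ((le_max_left _ _).trans ((le_max_right _ _).trans k5)).trans hTU
  have hUT6 : T6 ≤ U := ((le_max_right _ _).trans ((le_max_right _ _).trans k5)).trans hTU
  have hU0 : 0 < U := by linarith
  have hU1 : 1 ≤ U := by linarith
  have hL : 1 ≤ Real.log T := by
    rw [Real.le_log_iff_exp_le hTp]
    have := Real.exp_one_lt_d9
    linarith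
  have hLU : Real.log U ≤ Real.log T := Real.log_le_log hU0 hUT
  have hLU0 : 0 ≤ Real.log U := Real.log_nonneg hU1
  -- the lengths
  obtain ⟨N₁, hN₁⟩ : ∃ N₁ : ℕ, N₁ = ⌈8 * U⌉₊ := ⟨_, rfl⟩
  have hN1a : 8 * U ≤ N₁ := by rw [hN₁]; exact Nat.le_ceil _
  have hN1b : (N₁ : ℝ) ≤ 16 * U := by
    have := (Nat.ceil_lt_add_one (by positivity : 0 ≤ 8 * U)).le
    rw [← hN₁] at this
    linarith
  obtain ⟨N₂, hN₂⟩ : ∃ N₂ : ℕ, N₂ = ⌊U⌋₊ := ⟨_, rfl⟩
  have hN2a : (N₂ : ℝ) ≤ U := by rw [hN₂]; exact Nat.floor_le hU0.le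
  have hN2b : U ≤ 2 * N₂ := by
    have := Nat.lt_floor_add_one U
    rw [← hN₂] at this
    linarith
  have hN11 : 1 ≤ N₁ := by
    have : (1:ℝ) ≤ N₁ := by linarith
    exact_mod_cast this
  have hN21 : 1 ≤ N₂ := by
    have : (1:ℝ) ≤ N₂ := by linarith
    exact_mod_cast this
  -- the thresholds
  obtain ⟨lam, hlam⟩ : ∃ lam : ℝ, lam = T ^ ((1 + e) / 2 + 3 * ε / 4) * U ^ (-(1 / 2) : ℝ) := ⟨_, rfl⟩
  have hlam0 : 0 < lam := by rw [hlam]; positivity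
  have hUk1 : U ^ (2 * k) = U ^ (2 * k - 1) * U := by rw [← pow_succ]; congr 1; omega
  have el : lam ^ 2 = T ^ (1 + e + 3 * ε / 2) * U⁻¹ := by
    rw [hlam, mul_pow, ← Real.rpow_natCast, ← Real.rpow_natCast, ← Real.rpow_mul hTp.le, ← Real.rpow_mul hU0.le]
    congr 1
    · congr 1; push_cast; ring
    · rw [← Real.rpow_neg_one]; congr 1; norm_num
  obtain ⟨X, hX⟩ : ∃ X : ℝ, X = U ^ (2 * k) * T ^ (-ε) := ⟨_, rfl⟩
  have hX0 : 0 < X := by rw [hX]; positivity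
  have eX : X * lam ^ 2 = U ^ (2 * k - 1) * T ^ (1 + e + ε / 2) := by
    have : T ^ (1 + e + ε / 2) = T ^ (-ε) * T ^ (1 + e + 3 * ε / 2) := by
      rw [← Real.rpow_add hTp]; congr 1; ring
    rw [hX, el, hUk1, this]
    field_simp
  have eX2 : X * (lam / T) ^ 2 = U ^ (2 * k - 1) * T ^ (e - 1 + ε / 2) := by
    rw [div_pow, ← mul_div_assoc, eX]
    have : T ^ (1 + e + ε / 2) = T ^ (e - 1 + ε / 2) * T ^ 2 := by
      rw [← Real.rpow_natCast, ← Real.rpow_add hTp]; congr 1; push_cast; ring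
    rw [this]; field_simp
  -- the second moment of the fixed block
  have hAT := hA T hT3
  have cA : Continuous fun t : ℝ => ‖AF F α t‖ ^ 2 := (AF_cont F α).norm.pow 2
  have hAb : ∀ a b : ℝ, 0 ≤ a → a ≤ b → b ≤ T → ∫ t in a..b, ‖AF F α t‖ ^ 2 ≤ CA * T ^ (e + ε / 4) := by
    intro a b ha hab hb
    refine le_trans ?_ hAT
    refine intervalIntegral.integral_mono_interval ha hab hb ?_ (cA.intervalIntegrable _ _)
    exact Eventually.of_forall fun t => by positivity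
  obtain ⟨r1, r2⟩ := h1 T U hU3' hUT hTU
  have m1 : mP (Fin k ⊕ Fin k) U {ξ | lam < ‖Gi F α N₁ 0 (min S U) ξ‖} ≤ ENNReal.ofReal (C1 * CA * X) := by
    refine ch1 (Gi_cont F α N₁ 0 (min S U)) hlam0 (r1 N₁ hN1a hN1b (min S U) (le_min hS0 hU0.le) (min_le_right _ _)) ?_
    have a1 := hAb 0 (min S U) le_rfl (le_min hS0 hU0.le) ((min_le_left _ _).trans hST)
    have a0 : 0 ≤ ∫ t in (0:ℝ)..(min S U), ‖AF F α t‖ ^ 2 :=
      intervalIntegral.integral_nonneg (le_min hS0 hU0.le) fun t _ => by positivity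
    rw [mul_assoc (C1 * CA) X, eX, hUk1]
    have e3 : T ^ (1 + e + ε / 2) = T * (T ^ (ε / 4) * T ^ (e + ε / 4)) := by
      nth_rewrite 2 [← Real.rpow_one T]
      rw [← Real.rpow_add hTp, ← Real.rpow_add hTp]; congr 1; ring
    rw [e3]
    calc C1 * T ^ (ε / 4) * (U ^ (2 * k - 1) * U) * ∫ t in (0:ℝ)..(min S U), ‖AF F α t‖ ^ 2
        ≤ C1 * T ^ (ε / 4) * (U ^ (2 * k - 1) * T) * (CA * T ^ (e + ε / 4)) := by gcongr
      _ = _ := by ring
  have m2 : mP (Fin k ⊕ Fin k) U {ξ | lam < ‖Gi F α N₂ U (max S U) ξ‖} ≤ ENNReal.ofReal (C1 * CA * X) := by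
    refine ch1 (Gi_cont F α N₂ U (max S U)) hlam0 (r2 N₂ hN2b hN2a (max S U) (le_max_right _ _) (max_le hST hUT)) ?_
    have a1 := hAb U (max S U) hU0.le (le_max_right _ _) (max_le hST hUT)
    have a0 : 0 ≤ ∫ t in U..(max S U), ‖AF F α t‖ ^ 2 :=
      intervalIntegral.integral_nonneg (le_max_right _ _) fun t _ => by positivity
    rw [mul_assoc (C1 * CA) X, eX]
    have e3 : T ^ (1 + e + ε / 2) = T ^ (1 + ε / 4) * T ^ (e + ε / 4) := by
      rw [← Real.rpow_add hTp]; congr 1; ring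
    rw [e3]
    calc C1 * T ^ (1 + ε / 4) * U ^ (2 * k - 1) * ∫ t in U..(max S U), ‖AF F α t‖ ^ 2
        ≤ C1 * T ^ (1 + ε / 4) * U ^ (2 * k - 1) * (CA * T ^ (e + ε / 4)) := by gcongr
      _ = _ := by ring
  have hod : ∀ (N : ℕ) (a b : ℝ), 1 ≤ N → (N : ℝ) ≤ 16 * U → 0 ≤ a → a ≤ b → b ≤ T →
      mP (Fin k ⊕ Fin k) U {ξ | lam < ‖Oi F α N a b ξ‖} ≤ ENNReal.ofReal (C2 * X) := by
    intro N a b hN1 hN ha hab hb
    refine ch1 (Oi_cont F α N a b) hlam0 (h2 T U a b N hT3 hU1 hUT hN1 hN ha hab hb) ?_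
    rw [mul_assoc C2 X, eX, hUk1]
    have e3 : T * T ^ (e + ε / 4) ≤ T ^ (1 + e + ε / 2) := by
      nth_rewrite 1 [← Real.rpow_one T]
      rw [← Real.rpow_add hTp]
      exact Real.rpow_le_rpow_of_exponent_le hT1 (by linarith)
    calc C2 * (U ^ (2 * k - 1) * U) * T ^ (e + ε / 4) ≤ C2 * (U ^ (2 * k - 1) * T) * T ^ (e + ε / 4) := by gcongr
      _ = C2 * (U ^ (2 * k - 1) * (T * T ^ (e + ε / 4))) := by ring
      _ ≤ _ := by gcongr
  have m3 := hod N₁ 0 (min S U) hN11 hN1b le_rfl (le_min hS0 hU0.le) ((min_le_left _ _).trans hST)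
  have m4 := hod N₂ U (max S U) hN21 (by linarith) hU0.le (le_max_right _ _) (max_le hST hUT)
  have hdg : ∀ N : ℕ, U ≤ 2 * N → (N : ℝ) ≤ 16 * U →
      mP (Fin k ⊕ Fin k) U (SepF F α U ∩ {ξ | lam / T < ‖Sf F α N ξ - zr (mx F α ξ)‖}) ≤
        ENNReal.ofReal (C3 * X) := by
    intro N hN1 hN2
    have hm : AEMeasurable (fun ξ : Fin k ⊕ Fin k → ℝ => ‖Sf F α N ξ - zr (mx F α ξ)‖)
        ((mP (Fin k ⊕ Fin k) U).restrict (SepF F α U)) :=
      (((Sf_cont F α N).continuousOn.sub (zrF_cont hU0)).norm).aemeasurable (SepF_measA F α U)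
    have hcb := cheb hm (lam := lam / T) (by positivity) (h3 U N hUU3 hN1 hN2)
    have e0 : mP (Fin k ⊕ Fin k) U (SepF F α U ∩ {ξ | lam / T < ‖Sf F α N ξ - zr (mx F α ξ)‖}) ≤
        ((mP (Fin k ⊕ Fin k) U).restrict (SepF F α U)) {ξ | lam / T < ‖Sf F α N ξ - zr (mx F α ξ)‖} := by
      rw [inter_comm]
      exact Measure.le_restrict_apply _ _
    refine e0.trans (hcb.trans (ENNReal.ofReal_le_ofReal ?_))
    rw [div_le_iff₀ (by positivity), mul_assoc C3 X, eX2, hUk1]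
    have e3 : U ^ (ε / 4 - 1) = U ^ (ε / 4) * U⁻¹ := by
      rw [Real.rpow_sub hU0, Real.rpow_one, div_eq_mul_inv]
    have e4 : U ^ (ε / 4) ≤ T ^ (e - 1 + ε / 2) := by
      calc U ^ (ε / 4) ≤ T ^ (ε / 4) := Real.rpow_le_rpow hU0.le hUT (by positivity)
        _ ≤ T ^ (e - 1 + ε / 2) := Real.rpow_le_rpow_of_exponent_le hT1 (by linarith)
    rw [e3]
    calc C3 * (U ^ (2 * k - 1) * U) * (U ^ (ε / 4) * U⁻¹) = C3 * (U ^ (2 * k - 1) * U ^ (ε / 4)) := by field_simp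
      _ ≤ _ := by gcongr
  have m5 := hdg N₁ (by linarith) hN1b
  have m6 := hdg N₂ hN2b (by linarith)
  have m7 : mP (Fin k ⊕ Fin k) U (⋃ π ∈ (Pk k)ᶜ, {ξ | lam < ‖IG S (mx F α ξ) π‖}) ≤
      ENNReal.ofReal (P0 * (C4 * X)) := by
    refine (measure_biUnion_finset_le _ _).trans ?_
    calc ∑ π ∈ (Pk k)ᶜ, mP (Fin k ⊕ Fin k) U {ξ | lam < ‖IG S (mx F α ξ) π‖}
        ≤ ∑ _π ∈ (Pk k)ᶜ, ENNReal.ofReal (C4 * X) := by
          refine Finset.sum_le_sum fun π hπ => ?_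
          have hπ' : ∃ j, (π (Sum.inr j)).isLeft = true := by
            rw [Finset.mem_compl, Pk, Finset.mem_filter, not_and] at hπ
            have := hπ (Finset.mem_univ _)
            push Not at this
            obtain ⟨j, hj⟩ := this
            exact ⟨j, by simpa using hj⟩
          refine ch1 ((IG_cont S π).comp (mx_cont F α)) hlam0 (h4 T U S π hTT4 hU0 hUT hS0 hST hπ') ?_
          rw [mul_assoc C4 X, eX]
          have a5 : Real.log T ^ 2 ≤ T ^ (ε / 2) := by simpa using k4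
          have e3 : T ^ 2 * T ^ (ε / 2) ≤ T ^ (1 + e + ε / 2) := by
            have : T ^ 2 * T ^ (ε / 2) = T ^ (2 + ε / 2) := by
              rw [← Real.rpow_natCast, ← Real.rpow_add hTp]; push_cast; rfl
            rw [this]
            exact Real.rpow_le_rpow_of_exponent_le hT1 (by linarith)
          calc C4 * U ^ (2 * k - 1) * T ^ 2 * Real.log T ^ 2
              ≤ C4 * U ^ (2 * k - 1) * T ^ 2 * T ^ (ε / 2) := by gcongr
            _ = C4 * (U ^ (2 * k - 1) * (T ^ 2 * T ^ (ε / 2))) := by ring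
            _ ≤ _ := by gcongr
      _ = ENNReal.ofReal (((Pk k)ᶜ.card : ℝ) * (C4 * X)) := by
          rw [Finset.sum_const, nsmul_eq_mul,
            ENNReal.ofReal_mul (p := (((Pk k)ᶜ.card : ℕ) : ℝ)) (Nat.cast_nonneg _), ENNReal.ofReal_natCast]
      _ ≤ _ := by
          refine ENNReal.ofReal_le_ofReal ?_
          gcongr
          rw [hP0]
          exact_mod_cast Finset.card_le_univ _
  have m8 := h6 U hUT6
  -- the threshold
  have hΛ : 6 * lam + C5 * Real.log U ^ B5 * ((Fintype.card (Equiv.Perm (Fin k ⊕ Fin k)) : ℝ) * lam) ≤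
      T ^ ((1 + e) / 2 + ε) * U ^ (-(1 / 2) : ℝ) := by
    rw [← hP0]
    have a2 : T ^ ((1 + e) / 2 + ε) * U ^ (-(1 / 2) : ℝ) = T ^ (ε / 4) * lam := by
      rw [hlam, ← mul_assoc, ← Real.rpow_add hTp]
      congr 2; ring
    rw [a2]
    have a3 : 6 * lam + C5 * Real.log U ^ B5 * (P0 * lam) = (6 + P0 * C5 * Real.log U ^ B5) * lam := by ring
    rw [a3]
    refine mul_le_mul_of_nonneg_right (le_trans ?_ k1) hlam0.le
    have b1 : 1 ≤ Real.log T ^ B5 := one_le_pow₀ hL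
    have b2 : Real.log U ^ B5 ≤ Real.log T ^ B5 := pow_le_pow_left₀ hLU0 hLU _
    calc 6 + P0 * C5 * Real.log U ^ B5 ≤ 6 * Real.log T ^ B5 + P0 * C5 * Real.log T ^ B5 := by
          refine add_le_add (by linarith) ?_
          gcongr
      _ = _ := by ring
  -- conclusion
  refine (measure_mono (Bad_subF hINV (N₁ := N₁) (N₂ := N₂) (Q := C5 * Real.log U ^ B5) hU0.le hUT hS0 hST hTp
    hlam0.le (by positivity) (fun ξ hξ π => h5 U hUT5 ξ hξ π) hΛ)).trans ?_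
  have step : ∀ {A B : Set (Fin k ⊕ Fin k → ℝ)} {x w : ℝ}, 0 ≤ x → 0 ≤ w →
      mP (Fin k ⊕ Fin k) U A ≤ ENNReal.ofReal x → mP (Fin k ⊕ Fin k) U B ≤ ENNReal.ofReal w →
      mP (Fin k ⊕ Fin k) U (A ∪ B) ≤ ENNReal.ofReal (x + w) := by
    intro A B x w hx hw hA' hB'
    rw [ENNReal.ofReal_add hx hw]
    exact (measure_union_le _ _).trans (add_le_add hA' hB')
  have tot := step (by positivity) (by positivity) (step (by positivity) (by positivity)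
    (step (by positivity) (by positivity) (step (by positivity) (by positivity)
    (step (by positivity) (by positivity) (step (by positivity) (by positivity)
    (step (by positivity) (by positivity) m8 m1) m2) m3) m4) m5) m6) m7
  refine tot.trans (ENNReal.ofReal_le_ofReal ?_)
  obtain ⟨V, hV⟩ : ∃ V : ℝ, V = U ^ (2 * k) := ⟨_, rfl⟩
  have hV0 : 0 < V := by rw [hV]; positivity
  have e8 : U ^ (2 * k - 1 / 2 : ℝ) = V * U ^ (-(1 / 2) : ℝ) := by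
    rw [hV, ← Real.rpow_natCast, ← Real.rpow_add hU0]
    congr 1; push_cast; ring
  have e9 : U ^ (-(1 / 2) : ℝ) ≤ T ^ (-(1 / 6) : ℝ) := by
    have : (T ^ (1 / 3 : ℝ)) ^ (1 / 2 : ℝ) ≤ U ^ (1 / 2 : ℝ) := Real.rpow_le_rpow (by positivity) hTU (by norm_num)
    rw [← Real.rpow_mul hTp.le] at this
    rw [Real.rpow_neg hU0.le, Real.rpow_neg hTp.le]
    have e10 : (1 / 3 : ℝ) * (1 / 2) = 1 / 6 := by norm_num
    rw [e10] at this
    exact inv_anti₀ (by positivity) this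
  rw [← hV] at hX
  rw [← hV, e8, hX]
  obtain ⟨δ, hδ⟩ : ∃ δ : ℝ, δ = min (ε / 2) (1 / 12) := ⟨_, rfl⟩
  rw [← hδ]
  have hδ1 : δ ≤ ε / 2 := by rw [hδ]; exact min_le_left _ _
  have hδ2 : δ ≤ 1 / 12 := by rw [hδ]; exact min_le_right _ _
  have f1 : T ^ (-(1 / 6) : ℝ) = T ^ (-(1 / 12) : ℝ) * T ^ (-(1 / 12) : ℝ) := by
    rw [← Real.rpow_add hTp]; norm_num
  have f2 : 2 * C6 * T ^ (-(1 / 12) : ℝ) ≤ 1 := by
    rw [Real.rpow_neg hTp.le, ← div_eq_mul_inv, div_le_one (by positivity)]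
    simpa using k3
  have f3 : T ^ (-(1 / 12) : ℝ) ≤ T ^ (-δ) := Real.rpow_le_rpow_of_exponent_le hT1 (by linarith)
  have f4 : C6 * (V * U ^ (-(1 / 2) : ℝ)) ≤ V * T ^ (-δ) / 2 := by
    calc C6 * (V * U ^ (-(1 / 2) : ℝ)) ≤ C6 * (V * T ^ (-(1 / 6) : ℝ)) := by gcongr
      _ = (2 * C6 * T ^ (-(1 / 12) : ℝ)) * (V * T ^ (-(1 / 12) : ℝ)) / 2 := by rw [f1]; ring
      _ ≤ 1 * (V * T ^ (-δ)) / 2 := by gcongr
      _ = _ := by ring
  have f6 : T ^ (-ε) = T ^ (-(ε / 2)) * T ^ (-(ε / 2)) := by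
    rw [← Real.rpow_add hTp]; congr 1; ring
  have f7 : T ^ (-(ε / 2)) ≤ T ^ (-δ) := Real.rpow_le_rpow_of_exponent_le hT1 (by linarith)
  have f8 : (2 * (C1 * CA) + 2 * C2 + 2 * C3 + P0 * C4) * T ^ (-(ε / 2)) ≤ 1 / 2 := by
    rw [Real.rpow_neg hTp.le, ← div_eq_mul_inv, div_le_iff₀ (by positivity)]
    have g1 : 2 * (2 * (C1 * CA) + 2 * C2 + 2 * C3 + P0 * C4) ≤ T ^ (ε / 2) := by simpa using k2
    linarith
  have f9 : (2 * (C1 * CA) + 2 * C2 + 2 * C3 + P0 * C4) * (V * T ^ (-ε)) ≤ V * T ^ (-δ) / 2 := by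
    calc (2 * (C1 * CA) + 2 * C2 + 2 * C3 + P0 * C4) * (V * T ^ (-ε))
        = ((2 * (C1 * CA) + 2 * C2 + 2 * C3 + P0 * C4) * T ^ (-(ε / 2))) * (V * T ^ (-(ε / 2))) := by rw [f6]; ring
      _ ≤ 1 / 2 * (V * T ^ (-δ)) := by gcongr
      _ = _ := by ring
  calc _ = C6 * (V * U ^ (-(1 / 2) : ℝ)) +
        (2 * (C1 * CA) + 2 * C2 + 2 * C3 + P0 * C4) * (V * T ^ (-ε)) := by ring
    _ ≤ V * T ^ (-δ) / 2 + V * T ^ (-δ) / 2 := add_le_add f4 f9
    _ = V * T ^ (-δ) := by ring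

end

end Pool.Agent.Z72.SF
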