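import Pool.Agent.Z72.SF.Stm
import Pool.Agent.TH612.GS.Stm3

/-!
# Task SF_ODF (helper25), part 1: twisted integrals with a large numerator or denominator
-/

set_option autoImplicit false

namespace Pool.Agent.Z72.SF.OdfA

open Complex Filter Topology MeasureTheory Set
open Pool.Agent.TH612.GS (z zN PN mP S_MVB)

noncomputable section

theorem natCast_cpow_I {m : ℕ} (hm : 1 ≤ m) (t : ℝ) :
    (m : ℂ) ^ (I * (t : ℂ)) = Complex.exp (I * t * (Real.log m : ℝ)) := by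
  have h0 : (m : ℂ) ≠ 0 := by exact_mod_cast (by omega : m ≠ 0)
  rw [Complex.cpow_def_of_ne_zero h0, ← Complex.natCast_log]
  congr 1
  ring

theorem sum_biUnion_le' (s : Finset ℕ) (t : ℕ → Finset ℕ) (f : ℕ → ℝ) (hf : ∀ m, 0 ≤ f m) :
    ∑ m ∈ s.biUnion t, f m ≤ ∑ j ∈ s, ∑ m ∈ t j, f m := by
  classical
  induction s using Finset.induction_on with
  | empty => simp
  | insert a s ha ih =>
    rw [Finset.biUnion_insert, Finset.sum_insert ha]
    have h1 := Finset.sum_union_inter (s₁ := t a) (s₂ := s.biUnion t) (f := f)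
    have h2 : 0 ≤ ∑ m ∈ t a ∩ s.biUnion t, f m := Finset.sum_nonneg fun _ _ => hf _
    linarith

/-- dual mean value theorem for a long interval of frequencies -/
theorem dyad (h : S_MVB) : ∃ C : ℝ, 0 < C ∧ ∀ (a b : ℝ) (M X : ℕ) (R : ℝ → ℂ), a ≤ b → b - a ≤ 2 * M →
    1 ≤ M → Continuous R →
    ∑ m ∈ Finset.Icc M X, (m : ℝ)⁻¹ * ‖∫ t in a..b, R t * (m : ℂ) ^ (I * (t : ℂ))‖ ^ 2 ≤
      C * (1 + Real.log X) ^ 2 * ∫ t in a..b, ‖R t‖ ^ 2 := by
  obtain ⟨C, hC, h⟩ := h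
  refine ⟨6 * C, by positivity, fun a b M X R hab hM hM1 hR => ?_⟩
  have hI : 0 ≤ ∫ t in a..b, ‖R t‖ ^ 2 :=
    intervalIntegral.integral_nonneg hab fun t _ => by positivity
  rcases Nat.lt_or_ge X M with hXM | hMX
  · rw [Finset.Icc_eq_empty (by omega), Finset.sum_empty]
    positivity
  have hX1 : 1 ≤ X := hM1.trans hMX
  have hXr : (1 : ℝ) ≤ X := by exact_mod_cast hX1
  have hlX : 0 ≤ Real.log X := Real.log_nonneg hXr
  obtain ⟨f, hf⟩ : ∃ f : ℕ → ℝ, ∀ m, f m = (m : ℝ)⁻¹ * ‖∫ t in a..b, R t * (m : ℂ) ^ (I * (t : ℂ))‖ ^ 2 :=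
    ⟨_, fun _ => rfl⟩
  have hf0 : ∀ m, 0 ≤ f m := fun m => by rw [hf]; positivity
  obtain ⟨J, hJ⟩ : ∃ J, J = Nat.log 2 X + 1 := ⟨_, rfl⟩
  -- each block
  have hblock : ∀ j ∈ Finset.range J, ∑ m ∈ Finset.Icc (2 ^ j * M) (2 * (2 ^ j * M)), f m ≤
      3 * C * (1 + Real.log X) * ∫ t in a..b, ‖R t‖ ^ 2 := by
    intro j hj
    rw [Finset.mem_range, hJ] at hj
    have h2j : 2 ^ j ≤ X := (Nat.pow_le_pow_right (by norm_num) (by omega : j ≤ Nat.log 2 X)).trans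
      (Nat.pow_log_le_self 2 (by omega))
    obtain ⟨Q, hQ⟩ : ∃ Q, Q = 2 ^ j * M := ⟨_, rfl⟩
    have hQ1 : 1 ≤ Q := by rw [hQ]; exact Nat.mul_pos (by positivity) hM1
    have hMQ : M ≤ Q := by rw [hQ]; exact Nat.le_mul_of_pos_left M (by positivity)
    have hQX : Q ≤ X * X := by rw [hQ]; exact Nat.mul_le_mul h2j hMX
    have hQr : (0 : ℝ) < Q := by exact_mod_cast hQ1
    rw [← hQ]
    have h1 := h a b Q R hab hQ1 hR
    have h2 : ∑ m ∈ Finset.Icc Q (2 * Q), f m ≤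
        (Q : ℝ)⁻¹ * ∑ m ∈ Finset.Icc Q (2 * Q), ‖∫ t in a..b, R t * (m : ℂ) ^ (I * (t : ℂ))‖ ^ 2 := by
      rw [Finset.mul_sum]
      refine Finset.sum_le_sum fun m hm => ?_
      rw [hf]
      rw [Finset.mem_Icc] at hm
      refine mul_le_mul_of_nonneg_right ?_ (by positivity)
      exact inv_anti₀ hQr (by exact_mod_cast hm.1)
    refine h2.trans ?_
    have h3 : (Q : ℝ)⁻¹ * ∑ m ∈ Finset.Icc Q (2 * Q), ‖∫ t in a..b, R t * (m : ℂ) ^ (I * (t : ℂ))‖ ^ 2 ≤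
        (Q : ℝ)⁻¹ * (C * ((b - a) + Q * Real.log (2 * Q)) * ∫ t in a..b, ‖R t‖ ^ 2) :=
      mul_le_mul_of_nonneg_left h1 (by positivity)
    refine h3.trans ?_
    rw [← mul_assoc, ← mul_assoc]
    refine mul_le_mul_of_nonneg_right ?_ hI
    have h4 : Real.log (2 * Q) ≤ 1 + 2 * Real.log X := by
      have h5 : (2 * (Q : ℝ)) ≤ 2 * (X * X) := by
        have : (Q : ℝ) ≤ X * X := by exact_mod_cast hQX
        linarith
      refine (Real.log_le_log (by positivity) h5).trans ?_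
      rw [Real.log_mul (by norm_num) (by positivity), Real.log_mul (by positivity) (by positivity)]
      have := Real.log_two_lt_d9
      linarith
    have h6 : (b - a) ≤ 2 * Q := by
      have : (M : ℝ) ≤ Q := by exact_mod_cast hMQ
      linarith
    have h7 : (b - a) + Q * Real.log (2 * Q) ≤ Q * (3 * (1 + Real.log X)) := by
      nlinarith
    calc (Q : ℝ)⁻¹ * C * ((b - a) + Q * Real.log (2 * Q)) ≤ (Q : ℝ)⁻¹ * C * (Q * (3 * (1 + Real.log X))) :=
          mul_le_mul_of_nonneg_left h7 (by positivity)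
      _ = 3 * C * (1 + Real.log X) := by field_simp
  -- the covering
  have hcov : ∑ m ∈ Finset.Icc M X, f m ≤
      ∑ j ∈ Finset.range J, ∑ m ∈ Finset.Icc (2 ^ j * M) (2 * (2 ^ j * M)), f m := by
    have hsub : Finset.Icc M X ⊆ (Finset.range J).biUnion
        (fun j => Finset.Icc (2 ^ j * M) (2 * (2 ^ j * M))) := by
      intro m hm
      rw [Finset.mem_Icc] at hm
      rw [Finset.mem_biUnion]
      have hq : m / M ≠ 0 := (Nat.div_pos hm.1 hM1).ne'
      refine ⟨Nat.log 2 (m / M), ?_, ?_⟩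
      · rw [Finset.mem_range, hJ]
        have : Nat.log 2 (m / M) ≤ Nat.log 2 X := Nat.log_mono_right ((Nat.div_le_self _ _).trans hm.2)
        omega
      · rw [Finset.mem_Icc]
        have h1 := Nat.pow_log_le_self 2 hq
        have h2 := Nat.lt_pow_succ_log_self (b := 2) (by norm_num) (m / M)
        constructor
        · exact (Nat.le_div_iff_mul_le hM1).1 h1
        · have h3 := (Nat.div_lt_iff_lt_mul hM1).1 h2
          rw [Nat.pow_succ] at h3
          have h4 : 2 ^ Nat.log 2 (m / M) * 2 * M = 2 * (2 ^ Nat.log 2 (m / M) * M) := by ring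
          omega
    refine (Finset.sum_le_sum_of_subset_of_nonneg hsub fun _ _ _ => hf0 _).trans ?_
    exact sum_biUnion_le' _ _ _ hf0
  have hfin : ∑ m ∈ Finset.Icc M X, (m : ℝ)⁻¹ * ‖∫ t in a..b, R t * (m : ℂ) ^ (I * (t : ℂ))‖ ^ 2 =
      ∑ m ∈ Finset.Icc M X, f m := Finset.sum_congr rfl fun m _ => (hf m).symm
  rw [hfin]
  refine (hcov.trans (Finset.sum_le_sum hblock)).trans ?_
  rw [Finset.sum_const, Finset.card_range, nsmul_eq_mul]
  have hJ2 : (J : ℝ) ≤ 2 * (1 + Real.log X) := by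
    have h1 : ((2 ^ Nat.log 2 X : ℕ) : ℝ) ≤ X := by exact_mod_cast Nat.pow_log_le_self 2 (by omega)
    have h2 : (Nat.log 2 X : ℝ) * Real.log 2 ≤ Real.log X := by
      rw [← Real.log_pow]
      refine Real.log_le_log (by positivity) ?_
      exact_mod_cast h1
    have h3 := Real.log_two_gt_d9
    have h4 : (0 : ℝ) ≤ (Nat.log 2 X : ℝ) := Nat.cast_nonneg _
    rw [hJ]
    push_cast
    nlinarith
  calc (J : ℝ) * (3 * C * (1 + Real.log X) * ∫ t in a..b, ‖R t‖ ^ 2) ≤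
        (2 * (1 + Real.log X)) * (3 * C * (1 + Real.log X) * ∫ t in a..b, ‖R t‖ ^ 2) :=
        mul_le_mul_of_nonneg_right hJ2 (by positivity)
    _ = 6 * C * (1 + Real.log X) ^ 2 * ∫ t in a..b, ‖R t‖ ^ 2 := by ring

variable {k : ℕ}

theorem AF_cont (F : Finset (Fin k)) (α : Fin k → ℝ) : Continuous (AF F α) := by
  unfold AF
  have := Pool.Agent.TH612.GS.z_cont
  fun_prop

theorem cF_eq (F : Finset (Fin k)) (α : Fin k → ℝ) (a b : ℝ) {A B : ℕ} (hA : 1 ≤ A) (hB : 1 ≤ B) :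
    cF F α a b A B = ∫ t in a..b, AF F α t *
      Complex.exp (I * t * ((Real.log A - Real.log B : ℝ) : ℂ)) := by
  unfold cF
  refine intervalIntegral.integral_congr fun t _ => ?_
  have hA0 : (0 : ℝ) < A := by exact_mod_cast hA
  have hB0 : (0 : ℝ) < B := by exact_mod_cast hB
  have h0 : (((A : ℝ) / (B : ℝ) : ℝ) : ℂ) ≠ 0 := by
    exact_mod_cast (div_pos hA0 hB0).ne'
  rw [Complex.cpow_def_of_ne_zero h0, ← Complex.ofReal_log (div_pos hA0 hB0).le,
    Real.log_div hA0.ne' hB0.ne']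
  congr 2
  ring

/-- the numerator as the frequency -/
theorem cF_num (F : Finset (Fin k)) (α : Fin k → ℝ) (a b : ℝ) {A B : ℕ} (hA : 1 ≤ A) (hB : 1 ≤ B) :
    cF F α a b A B = ∫ t in a..b, (AF F α t * Complex.exp (I * t * ((-Real.log B : ℝ) : ℂ))) *
      (A : ℂ) ^ (I * (t : ℂ)) := by
  rw [cF_eq F α a b hA hB]
  refine intervalIntegral.integral_congr fun t _ => ?_
  rw [natCast_cpow_I hA, mul_assoc (AF F α t), ← Complex.exp_add]
  congr 2
  push_cast
  ring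

/-- the denominator as the frequency -/
theorem cF_den (F : Finset (Fin k)) (α : Fin k → ℝ) (a b : ℝ) {A B : ℕ} (hA : 1 ≤ A) (hB : 1 ≤ B) :
    (starRingEnd ℂ) (cF F α a b A B) = ∫ t in a..b, ((starRingEnd ℂ) (AF F α t) *
      Complex.exp (I * t * ((-Real.log A : ℝ) : ℂ))) * (B : ℂ) ^ (I * (t : ℂ)) := by
  rw [cF_eq F α a b hA hB, ← intervalIntegral.intervalIntegral_conj]
  refine intervalIntegral.integral_congr fun t _ => ?_
  rw [natCast_cpow_I hB, map_mul, mul_assoc ((starRingEnd ℂ) (AF F α t)), ← Complex.exp_add, ← Complex.exp_conj]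
  congr 2
  simp only [map_mul, Complex.conj_I, Complex.conj_ofReal]
  push_cast
  ring

theorem norm_exp_I (t x : ℝ) : ‖Complex.exp (I * t * ((x : ℝ) : ℂ))‖ = 1 := by
  have : I * (t : ℂ) * (x : ℂ) = ((t * x : ℝ) : ℂ) * I := by push_cast; ring
  rw [this, Complex.norm_exp_ofReal_mul_I]

/-- the sum over large numerators -/
theorem large_num (h : S_MVB) : ∃ C : ℝ, 0 < C ∧ ∀ (F : Finset (Fin k)) (α : Fin k → ℝ) (a b : ℝ) (M X B : ℕ),
    a ≤ b → b - a ≤ 2 * M → 1 ≤ M → 1 ≤ B →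
    ∑ A ∈ Finset.Icc M X, (A : ℝ)⁻¹ * ‖cF F α a b A B‖ ^ 2 ≤
      C * (1 + Real.log X) ^ 2 * ∫ t in a..b, ‖AF F α t‖ ^ 2 := by
  obtain ⟨C, hC, hd⟩ := dyad h
  refine ⟨C, hC, fun F α a b M X B hab hM hM1 hB => ?_⟩
  have h1 := hd a b M X (fun t => AF F α t * Complex.exp (I * t * ((-Real.log B : ℝ) : ℂ))) hab hM hM1
    ((AF_cont F α).mul (by fun_prop))
  have h2 : ∀ t : ℝ, ‖AF F α t * Complex.exp (I * t * ((-Real.log B : ℝ) : ℂ))‖ = ‖AF F α t‖ := by
    intro t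
    rw [norm_mul, norm_exp_I, mul_one]
  simp only [h2] at h1
  refine le_trans (le_of_eq ?_) h1
  refine Finset.sum_congr rfl fun A hA => ?_
  rw [Finset.mem_Icc] at hA
  rw [cF_num F α a b (hM1.trans hA.1) hB]

/-- the sum over large denominators -/
theorem large_den (h : S_MVB) : ∃ C : ℝ, 0 < C ∧ ∀ (F : Finset (Fin k)) (α : Fin k → ℝ) (a b : ℝ) (M X A : ℕ),
    a ≤ b → b - a ≤ 2 * M → 1 ≤ M → 1 ≤ A →
    ∑ B ∈ Finset.Icc M X, (B : ℝ)⁻¹ * ‖cF F α a b A B‖ ^ 2 ≤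
      C * (1 + Real.log X) ^ 2 * ∫ t in a..b, ‖AF F α t‖ ^ 2 := by
  obtain ⟨C, hC, hd⟩ := dyad h
  refine ⟨C, hC, fun F α a b M X A hab hM hM1 hA => ?_⟩
  have h1 := hd a b M X (fun t => (starRingEnd ℂ) (AF F α t) *
    Complex.exp (I * t * ((-Real.log A : ℝ) : ℂ))) hab hM hM1
    (((Complex.continuous_conj).comp (AF_cont F α)).mul (by fun_prop))
  have h2 : ∀ t : ℝ, ‖(starRingEnd ℂ) (AF F α t) *
      Complex.exp (I * t * ((-Real.log A : ℝ) : ℂ))‖ = ‖AF F α t‖ := by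
    intro t
    rw [norm_mul, norm_exp_I, mul_one, Complex.norm_conj]
  simp only [h2] at h1
  refine le_trans (le_of_eq ?_) h1
  refine Finset.sum_congr rfl fun B hB => ?_
  rw [Finset.mem_Icc] at hB
  rw [← cF_den F α a b hA (hM1.trans hB.1), Complex.norm_conj]

end

end Pool.Agent.Z72.SF.OdfA
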