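import Pool.Agent.Z72.SF.Odf1
import Pool.Agent.Z72.SQ.Nt
import Pool.Agent.TH509.GS.DIAG

/-!
# Task SF_ODF (helper25), part 2: expansion of the product, divisor bounds
-/

set_option autoImplicit false

namespace Pool.Agent.Z72.SF.OdfA

open Complex Filter Topology MeasureTheory Set
open Pool.Agent.TH612.GS (z zN PN mP tup ch wt)
open Pool.Agent.TH509.GS (EE prod_EE th th_eq)
open Pool.Agent.TH367.GS (pl pr mem_tup)
open Pool.Agent.Z72.SQ.NtA (fiber2 one_le_prod prod_le wt_sq harm)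

noncomputable section

variable {k : ℕ}

open Classical in
/-- the ranges of the entries -/
def SS (F : Finset (Fin k)) (N : ℕ) (i : Fin k ⊕ Fin k) : Finset ℕ :=
  Sum.elim (fun j => if j ∈ F then {1} else Finset.Icc 1 N) (fun _ => Finset.Icc 1 N) i

theorem piF_eq (F : Finset (Fin k)) {N : ℕ} (hN : 1 ≤ N) :
    Fintype.piFinset (SS F N) = tF F N := by
  classical
  ext ν
  unfold tF
  rw [Fintype.mem_piFinset, Finset.mem_filter, mem_tup]
  constructor
  · intro h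
    have hF : ∀ j ∈ F, ν (Sum.inl j) = 1 := by
      intro j hj
      have := h (Sum.inl j)
      simp only [SS, Sum.elim_inl, hj, if_true, Finset.mem_singleton] at this
      exact this
    refine ⟨fun i => ?_, hF⟩
    rcases i with j | j
    · by_cases hj : j ∈ F
      · rw [hF j hj]
        exact ⟨le_refl _, hN⟩
      · have := h (Sum.inl j)
        simp only [SS, Sum.elim_inl, hj, if_false, Finset.mem_Icc] at this
        exact this
    · have := h (Sum.inr j)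
      simp only [SS, Sum.elim_inr, Finset.mem_Icc] at this
      exact this
  · rintro ⟨h1, h2⟩ i
    rcases i with j | j
    · by_cases hj : j ∈ F
      · simp only [SS, Sum.elim_inl, hj, if_true, Finset.mem_singleton]
        exact h2 j hj
      · simp only [SS, Sum.elim_inl, hj, if_false, Finset.mem_Icc]
        exact h1 _
    · simp only [SS, Sum.elim_inr, Finset.mem_Icc]
      exact h1 _

theorem prod_hF (F : Finset (Fin k)) {N : ℕ} (hN : 1 ≤ N) (ξ : Fin k ⊕ Fin k → ℝ) (t : ℝ) :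
    ∏ i, hF F (PN N) i (t + ξ i) =
      ∑ ν ∈ tF F N, (wt ν : ℂ) * ch ν ξ * Complex.exp (I * t * (th ν : ℝ)) := by
  classical
  have h1 : ∏ i, hF F (PN N) i (t + ξ i) = ∏ i, ∑ n ∈ SS F N i, EE ξ t i n := by
    refine Finset.prod_congr rfl fun i _ => ?_
    rcases i with j | j
    · by_cases hj : j ∈ F
      · simp only [hF, SS, Sum.elim_inl, hj, if_true, Finset.sum_singleton]
        unfold Pool.Agent.TH509.GS.EE
        simp
      · simp only [hF, SS, Sum.elim_inl, hj, if_false]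
        unfold Pool.Agent.TH612.GS.PN Pool.Agent.TH612.GS.zN
        rfl
    · simp only [hF, SS, Sum.elim_inr]
      unfold Pool.Agent.TH612.GS.PN Pool.Agent.TH612.GS.zN
      rw [map_sum]
      rfl
  rw [h1, Finset.prod_univ_sum, piF_eq F hN]
  refine Finset.sum_congr rfl fun ν hν => prod_EE ξ t ν fun i => ?_
  rw [tF, Finset.mem_filter] at hν
  exact (mem_tup.1 hν.1 i).1

/-- the difference as a sum of characters -/
theorem diff_eq (F : Finset (Fin k)) (α : Fin k → ℝ) (a b : ℝ) {N : ℕ} (hN : 1 ≤ N)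
    (ξ : Fin k ⊕ Fin k → ℝ) :
    (∫ t in a..b, AF F α t * ∏ i, hF F (PN N) i (t + ξ i)) - ((b - a : ℝ) : ℂ) * Sf F α N ξ =
      ∑ ν ∈ tF F N, (wt ν : ℂ) * (cF F α a b (pr ν) (pl ν) - ((b - a : ℝ) : ℂ) * mF F α (pr ν) (pl ν)) *
        ch ν ξ := by
  have h1 : (∫ t in a..b, AF F α t * ∏ i, hF F (PN N) i (t + ξ i)) =
      ∑ ν ∈ tF F N, (wt ν : ℂ) * ch ν ξ * cF F α a b (pr ν) (pl ν) := by
    have h2 : (fun t : ℝ => AF F α t * ∏ i, hF F (PN N) i (t + ξ i)) = fun t : ℝ =>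
        ∑ ν ∈ tF F N, (wt ν : ℂ) * ch ν ξ * (AF F α t * Complex.exp (I * t * (th ν : ℝ))) := by
      funext t
      rw [prod_hF F hN, Finset.mul_sum]
      refine Finset.sum_congr rfl fun ν _ => ?_
      ring
    rw [h2, intervalIntegral.integral_finsetSum]
    · refine Finset.sum_congr rfl fun ν hν => ?_
      rw [tF, Finset.mem_filter] at hν
      have hm := mem_tup.1 hν.1
      have hpr : 1 ≤ pr ν := one_le_prod _ fun j => (hm _).1
      have hpl : 1 ≤ pl ν := one_le_prod _ fun j => (hm _).1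
      rw [intervalIntegral.integral_const_mul, cF_eq F α a b hpr hpl, th_eq ν (fun i => (hm i).1)]
      rfl
    · intro ν _
      refine Continuous.intervalIntegrable ?_ _ _
      exact continuous_const.mul ((AF_cont F α).mul (by fun_prop))
  rw [h1, Sf, Finset.mul_sum, ← Finset.sum_sub_distrib]
  refine Finset.sum_congr rfl fun ν _ => ?_
  show _ - _ * (_ * _ * mF F α (pr ν) (pl ν)) = _
  ring

/-- divisor bound in terms of `T` -/
theorem div_pow (k : ℕ) (δ : ℝ) (hδ : 0 < δ) : ∃ C : ℝ, 0 < C ∧ ∀ (T : ℝ) (N n : ℕ), 3 ≤ T →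
    (N : ℝ) ≤ 16 * T → 1 ≤ n → n ≤ N ^ k → (n.divisors.card : ℝ) ^ (k + 1) ≤ C * T ^ δ := by
  obtain ⟨C1, hC1, hdiv⟩ := Pool.Agent.H510R2.divisor_bound (δ / (k + 1) ^ 2) (by positivity)
  refine ⟨C1 ^ (k + 1) * 16 ^ δ, by positivity, fun T N n hT hN hn hnN => ?_⟩
  have hT0 : (0 : ℝ) < T := by linarith
  have h1 : (n : ℝ) ≤ (16 * T) ^ k := by
    have h2 : (n : ℝ) ≤ (N : ℝ) ^ k := by exact_mod_cast hnN
    exact h2.trans (pow_le_pow_left₀ (Nat.cast_nonneg _) hN k)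
  have h3 : (n.divisors.card : ℝ) ≤ C1 * ((16 * T) ^ k) ^ (δ / (k + 1) ^ 2) :=
    (hdiv n hn).trans (mul_le_mul_of_nonneg_left
      (Real.rpow_le_rpow (Nat.cast_nonneg _) h1 (by positivity)) hC1.le)
  refine (pow_le_pow_left₀ (Nat.cast_nonneg _) h3 (k + 1)).trans ?_
  rw [mul_pow, mul_assoc]
  refine mul_le_mul_of_nonneg_left ?_ (by positivity)
  rw [← Real.mul_rpow (by norm_num) hT0.le, ← Real.rpow_natCast (16 * T) k,
    ← Real.rpow_mul (by linarith), ← Real.rpow_natCast _ (k + 1), ← Real.rpow_mul (by linarith)]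
  refine Real.rpow_le_rpow_of_exponent_le (by linarith) ?_
  have hk : (0 : ℝ) ≤ k := Nat.cast_nonneg k
  have e1 : (k : ℝ) * (δ / (k + 1) ^ 2) * ((k + 1 : ℕ) : ℝ) = δ * (k / (k + 1)) := by
    push_cast
    field_simp
  rw [e1]
  have e2 : ((k : ℝ) / (k + 1)) ≤ 1 := by
    rw [div_le_one (by positivity)]
    linarith
  nlinarith

/-- logarithms in terms of `T` -/
theorem log_pow' (k : ℕ) (δ : ℝ) (hδ : 0 < δ) : ∃ C : ℝ, 0 < C ∧ ∀ (T : ℝ) (N : ℕ), 3 ≤ T →
    1 ≤ N → (N : ℝ) ≤ 16 * T → 1 + Real.log ((N ^ k : ℕ) : ℝ) ≤ C * T ^ δ := by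
  refine ⟨(1 + k / δ) * 16 ^ δ, by positivity, fun T N hT hN1 hN => ?_⟩
  have hT0 : (0 : ℝ) < T := by linarith
  have hN0 : (0 : ℝ) < N := by exact_mod_cast hN1
  have h1 : Real.log N ≤ (16 * T) ^ δ / δ :=
    (Real.log_le_log hN0 hN).trans (Real.log_le_rpow_div (by linarith) hδ)
  have h2 : (1 : ℝ) ≤ (16 * T) ^ δ := Real.one_le_rpow (by linarith) hδ.le
  push_cast
  rw [Real.log_pow, mul_assoc, ← Real.mul_rpow (by norm_num) hT0.le]
  have h3 : (k : ℝ) * Real.log N ≤ k * ((16 * T) ^ δ / δ) :=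
    mul_le_mul_of_nonneg_left h1 (Nat.cast_nonneg _)
  have h4 : (k : ℝ) * ((16 * T) ^ δ / δ) = k / δ * (16 * T) ^ δ := by ring
  rw [h4] at h3
  linarith

/-- the coefficients of the fixed block -/
theorem tauF_le (F : Finset (Fin k)) (α : Fin k → ℝ) {n : ℕ} (hn : 1 ≤ n) :
    ‖tauF F α n‖ ≤ (n.divisors.card : ℝ) ^ k := by
  unfold tauF
  refine (norm_sum_le _ _).trans ?_
  have h1 : ∀ d ∈ (Nat.finMulAntidiag k n).filter (fun d => ∀ j, j ∉ F → d j = 1),
      ‖∏ j ∈ F, (d j : ℂ) ^ (-(I * (α j : ℂ)))‖ ≤ 1 := by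
    intro d hd
    rw [Finset.mem_filter, Nat.mem_finMulAntidiag] at hd
    rw [norm_prod]
    refine Finset.prod_le_one (fun _ _ => norm_nonneg _) fun j _ => ?_
    have hdj : 0 < d j := by
      rcases Nat.eq_zero_or_pos (d j) with h | h
      · exfalso
        exact hd.1.2 (by rw [← hd.1.1]; exact Finset.prod_eq_zero (Finset.mem_univ j) h)
      · exact h
    rw [Complex.norm_natCast_cpow_of_pos hdj]
    simp
  refine (Finset.sum_le_sum h1).trans ?_
  rw [Finset.sum_const, nsmul_eq_mul, mul_one]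
  have h2 : ((Nat.finMulAntidiag k n).filter (fun d => ∀ j, j ∉ F → d j = 1)).card ≤
      n.divisors.card ^ k :=
    (Finset.card_filter_le _ _).trans (Pool.Agent.TH367.GS.fma_card (k := k) n hn)
  exact_mod_cast h2

/-- the tail of the sum of the inverse squares -/
theorem tail_sq (M X : ℕ) (hM : 1 ≤ M) : ∑ A ∈ Finset.Icc M X, ((A : ℝ) ^ 2)⁻¹ ≤ 2 * (M : ℝ)⁻¹ := by
  have hMr : (1 : ℝ) ≤ M := by exact_mod_cast hM
  have h : ∀ Y : ℕ, ∑ A ∈ Finset.Icc M (M + Y), ((A : ℝ) ^ 2)⁻¹ ≤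
      ((M : ℝ) ^ 2)⁻¹ + (M : ℝ)⁻¹ - ((M : ℝ) + Y)⁻¹ := by
    intro Y
    induction Y with
    | zero => simp
    | succ Y ih =>
      rw [← add_assoc, Finset.sum_Icc_succ_top (by omega)]
      obtain ⟨x, hx⟩ : ∃ x : ℝ, x = (M : ℝ) + Y := ⟨_, rfl⟩
      have hx1 : 1 ≤ x := by
        rw [hx]
        have : (0 : ℝ) ≤ Y := Nat.cast_nonneg _
        linarith
      have e : ((M + Y + 1 : ℕ) : ℝ) = x + 1 := by rw [hx]; push_cast; ring
      have e2 : (M : ℝ) + ((Y + 1 : ℕ) : ℝ) = x + 1 := by rw [hx]; push_cast; ring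
      rw [e, e2]
      rw [← hx] at ih
      have h1 : ((x + 1) ^ 2)⁻¹ ≤ x⁻¹ - (x + 1)⁻¹ := by
        have h2 : x⁻¹ - (x + 1)⁻¹ = (x * (x + 1))⁻¹ := by
          field_simp
          ring
        rw [h2]
        exact inv_anti₀ (by positivity) (by nlinarith)
      linarith
  rcases Nat.lt_or_ge X M with hXM | hMX
  · rw [Finset.Icc_eq_empty (by omega), Finset.sum_empty]
    positivity
  · obtain ⟨Y, rfl⟩ := Nat.exists_eq_add_of_le hMX
    refine (h Y).trans ?_
    have h1 : ((M : ℝ) ^ 2)⁻¹ ≤ (M : ℝ)⁻¹ := inv_anti₀ (by linarith) (by nlinarith)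
    have h2 : 0 ≤ ((M : ℝ) + Y)⁻¹ := by positivity
    linarith

end

end Pool.Agent.Z72.SF.OdfA
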