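import Pool.Agent.Z72.SF.Odf2

/-!
# Task SF_ODF (helper25), part 3: the sum over the pairs
-/

set_option autoImplicit false

namespace Pool.Agent.Z72.SF.OdfA

open Complex Filter Topology MeasureTheory Set
open Pool.Agent.TH612.GS (z zN PN mP tup ch wt S_MVB)
open Pool.Agent.Z72.SQ.NtA (harm)

noncomputable section

variable {k : ℕ}

/-- the terms with `M ≤ A`, of the mean values -/
theorem mF_sq (F : Finset (Fin k)) (α : Fin k → ℝ) {A B : ℕ} {D : ℝ} (hA : 1 ≤ A) (hB : 1 ≤ B)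
    (hD : ∀ n : ℕ, 1 ≤ n → n ≤ A → (n.divisors.card : ℝ) ^ k ≤ D) :
    ((A : ℝ) * B)⁻¹ * ‖mF F α A B‖ ^ 2 ≤ D ^ 2 * (if B ∣ A then ((A : ℝ) ^ 2)⁻¹ else 0) := by
  unfold mF
  by_cases h : B ∣ A
  · rw [if_pos h, if_pos h]
    obtain ⟨m, rfl⟩ := h
    have hm : 1 ≤ m := by
      rcases Nat.eq_zero_or_pos m with h0 | h0
      · rw [h0] at hA; omega
      · exact h0
    have hmA : m ≤ B * m := Nat.le_mul_of_pos_left m hB
    rw [Nat.mul_div_cancel_left m hB, norm_mul, mul_pow]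
    have h1 : ‖tauF F α m‖ ^ 2 ≤ D ^ 2 :=
      pow_le_pow_left₀ (norm_nonneg _) ((tauF_le F α hm).trans (hD m hm hmA)) 2
    have h2 : ‖((m : ℕ) : ℂ) ^ (-(1 / 2) : ℂ)‖ ^ 2 = (m : ℝ)⁻¹ := by
      rw [Complex.norm_natCast_cpow_of_pos hm, ← Real.rpow_natCast, ← Real.rpow_mul (Nat.cast_nonneg _),
        ← Real.rpow_neg_one]
      congr 1
      norm_num
    rw [h2]
    have hB0 : (0 : ℝ) < B := by exact_mod_cast hB
    have hm0 : (0 : ℝ) < m := by exact_mod_cast hm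
    push_cast
    calc ((B : ℝ) * m * B)⁻¹ * (‖tauF F α m‖ ^ 2 * (m : ℝ)⁻¹) ≤
          ((B : ℝ) * m * B)⁻¹ * (D ^ 2 * (m : ℝ)⁻¹) := by
          refine mul_le_mul_of_nonneg_left ?_ (by positivity)
          exact mul_le_mul_of_nonneg_right h1 (by positivity)
      _ = D ^ 2 * (((B : ℝ) * m) ^ 2)⁻¹ := by
          field_simp
  · rw [if_neg h, if_neg h]
    simp

/-- the divisors among the denominators -/
theorem sum_dvd (A X : ℕ) (hA : 1 ≤ A) :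
    ∑ B ∈ Finset.Icc 1 X, (if B ∣ A then ((A : ℝ) ^ 2)⁻¹ else 0) ≤ (A.divisors.card : ℝ) * ((A : ℝ) ^ 2)⁻¹ := by
  rw [← Finset.sum_filter, Finset.sum_const, nsmul_eq_mul]
  refine mul_le_mul_of_nonneg_right ?_ (by positivity)
  have : ((Finset.Icc 1 X).filter (fun B => B ∣ A)).card ≤ A.divisors.card := by
    refine Finset.card_le_card fun B hB => ?_
    rw [Finset.mem_filter] at hB
    exact Nat.mem_divisors.2 ⟨hB.2, by omega⟩
  exact_mod_cast this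

theorem one_le_card_div {n : ℕ} (hn : 1 ≤ n) : (1 : ℝ) ≤ (n.divisors.card : ℝ) := by
  have : 1 ≤ n.divisors.card := Finset.card_pos.2 ⟨1, Nat.mem_divisors.2 ⟨one_dvd _, by omega⟩⟩
  exact_mod_cast this

theorem split4 (X M : ℕ) (G g2 g3 g4 : ℕ × ℕ → ℝ) (hG : ∀ p, 0 ≤ G p) (h2 : ∀ p, 0 ≤ g2 p)
    (h3 : ∀ p, 0 ≤ g3 p) (h4 : ∀ p, 0 ≤ g4 p)
    (hA : ∀ A B : ℕ, 1 ≤ A → 1 ≤ B → M < A → G (A, B) ≤ g2 (A, B) + g4 (A, B))
    (hB : ∀ A B : ℕ, 1 ≤ A → 1 ≤ B → A ≤ M → M < B → G (A, B) ≤ g3 (A, B)) :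
    ∑ p ∈ Finset.Icc 1 X ×ˢ Finset.Icc 1 X, G p ≤
      ∑ p ∈ Finset.Icc 1 M ×ˢ Finset.Icc 1 M, G p + ∑ p ∈ Finset.Icc M X ×ˢ Finset.Icc 1 X, g2 p +
      ∑ p ∈ Finset.Icc 1 X ×ˢ Finset.Icc M X, g3 p + ∑ p ∈ Finset.Icc M X ×ˢ Finset.Icc 1 X, g4 p := by
  classical
  have key : ∀ (P Q : Finset (ℕ × ℕ)) (f : ℕ × ℕ → ℝ), (∀ p, 0 ≤ f p) →
      ∑ p ∈ P, (if p ∈ Q then f p else 0) ≤ ∑ p ∈ Q, f p := by
    intro P Q f hf
    rw [Finset.sum_ite_mem]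
    exact Finset.sum_le_sum_of_subset_of_nonneg Finset.inter_subset_right fun _ _ _ => hf _
  have k1 := key (Finset.Icc 1 X ×ˢ Finset.Icc 1 X) (Finset.Icc 1 M ×ˢ Finset.Icc 1 M) G hG
  have k2 := key (Finset.Icc 1 X ×ˢ Finset.Icc 1 X) (Finset.Icc M X ×ˢ Finset.Icc 1 X) g2 h2
  have k3 := key (Finset.Icc 1 X ×ˢ Finset.Icc 1 X) (Finset.Icc 1 X ×ˢ Finset.Icc M X) g3 h3
  have k4 := key (Finset.Icc 1 X ×ˢ Finset.Icc 1 X) (Finset.Icc M X ×ˢ Finset.Icc 1 X) g4 h4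
  refine le_trans ?_ (add_le_add (add_le_add (add_le_add k1 k2) k3) k4)
  rw [← Finset.sum_add_distrib, ← Finset.sum_add_distrib, ← Finset.sum_add_distrib]
  refine Finset.sum_le_sum fun p hp => ?_
  obtain ⟨A, B⟩ := p
  rw [Finset.mem_product, Finset.mem_Icc, Finset.mem_Icc] at hp
  simp only at hp
  have n2 : 0 ≤ (if (A, B) ∈ Finset.Icc M X ×ˢ Finset.Icc 1 X then g2 (A, B) else 0) := by
    split_ifs; exacts [h2 _, le_refl _]
  have n3 : 0 ≤ (if (A, B) ∈ Finset.Icc 1 X ×ˢ Finset.Icc M X then g3 (A, B) else 0) := by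
    split_ifs; exacts [h3 _, le_refl _]
  have n4 : 0 ≤ (if (A, B) ∈ Finset.Icc M X ×ˢ Finset.Icc 1 X then g4 (A, B) else 0) := by
    split_ifs; exacts [h4 _, le_refl _]
  have n1 : 0 ≤ (if (A, B) ∈ Finset.Icc 1 M ×ˢ Finset.Icc 1 M then G (A, B) else 0) := by
    split_ifs; exacts [hG _, le_refl _]
  rcases Nat.lt_or_ge M A with h | h
  · have e : (A, B) ∈ Finset.Icc M X ×ˢ Finset.Icc 1 X := by
      rw [Finset.mem_product, Finset.mem_Icc, Finset.mem_Icc]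
      exact ⟨⟨h.le, hp.1.2⟩, hp.2⟩
    have := hA A B hp.1.1 hp.2.1 h
    rw [if_pos e, if_pos e]
    linarith
  · rcases Nat.lt_or_ge M B with h' | h'
    · have e : (A, B) ∈ Finset.Icc 1 X ×ˢ Finset.Icc M X := by
        rw [Finset.mem_product, Finset.mem_Icc, Finset.mem_Icc]
        exact ⟨hp.1, ⟨h'.le, hp.2.2⟩⟩
      have := hB A B hp.1.1 hp.2.1 h h'
      rw [if_pos e]
      linarith
    · have e : (A, B) ∈ Finset.Icc 1 M ×ˢ Finset.Icc 1 M := by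
        rw [Finset.mem_product, Finset.mem_Icc, Finset.mem_Icc]
        exact ⟨⟨hp.1.1, h⟩, ⟨hp.2.1, h'⟩⟩
      rw [if_pos e]
      linarith

/-- the sum over all the pairs -/
theorem pair_sum (hRNF : S_RNF) (hNTF : S_NTF) (hMVB : S_MVB) (hA2F : S_A2F) (F : Finset (Fin k))
    (α : Fin k → ℝ) (δ : ℝ) (hF : F.card ≤ 4) (hδ : 0 < δ) : ∃ C : ℝ, 0 < C ∧ ∀ (T a b : ℝ) (N : ℕ), 3 ≤ T →
    1 ≤ N → (N : ℝ) ≤ 16 * T → 0 ≤ a → a ≤ b → b ≤ T →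
    ∑ p ∈ Finset.Icc 1 (N ^ k) ×ˢ Finset.Icc 1 (N ^ k), ((p.1 : ℝ) * p.2)⁻¹ *
      ‖cF F α a b p.1 p.2 - ((b - a : ℝ) : ℂ) * mF F α p.1 p.2‖ ^ 2 ≤ C * T ^ (ee F.card + 4 * δ) := by
  obtain ⟨C1, hC1, h1⟩ := hRNF k F α δ hF hδ
  obtain ⟨C2, hC2, h2⟩ := hNTF δ hδ
  obtain ⟨C3, hC3, h3⟩ := large_num (k := k) hMVB
  obtain ⟨C4, hC4, h4⟩ := large_den (k := k) hMVB
  obtain ⟨C5, hC5, h5⟩ := hA2F k F α δ hF hδ
  obtain ⟨C6, hC6, h6⟩ := div_pow k δ hδ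
  obtain ⟨C7, hC7, h7⟩ := log_pow' k δ hδ
  refine ⟨2 * C1 ^ 2 * C2 + 2 * C3 * C5 * C7 ^ 3 + 2 * C4 * C5 * C7 ^ 3 + 8 * C6 ^ 3, by positivity,
    fun T a b N hT hN hNT ha hab hb => ?_⟩
  have hT0 : (0 : ℝ) < T := by linarith
  have hT1 : (1 : ℝ) ≤ T := by linarith
  obtain ⟨M, hM⟩ : ∃ M, M = ⌊T⌋₊ := ⟨_, rfl⟩
  have hMT : (M : ℝ) ≤ T := by rw [hM]; exact Nat.floor_le hT0.le
  have hMT' : T < M + 1 := by rw [hM]; exact Nat.lt_floor_add_one T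
  have hM1 : 1 ≤ M := by
    rw [hM]
    exact Nat.le_floor (by push_cast; linarith)
  have hM0 : (0 : ℝ) < M := by exact_mod_cast hM1
  have hM2 : T ≤ 2 * M := by
    have : (1 : ℝ) ≤ M := by exact_mod_cast hM1
    linarith
  have hba : b - a ≤ 2 * M := by linarith
  have hba0 : 0 ≤ b - a := by linarith
  obtain ⟨X, hX⟩ : ∃ X, X = N ^ k := ⟨_, rfl⟩
  have hX1 : 1 ≤ X := by rw [hX]; exact Nat.one_le_pow _ _ hN
  rw [← hX]
  obtain ⟨e, he⟩ : ∃ e, e = ee F.card := ⟨_, rfl⟩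
  have he1 : 1 ≤ e := by rw [he]; exact le_max_left _ _
  have he2 : (F.card : ℝ) / 3 ≤ e := by
    rw [he]
    refine le_trans ?_ (le_max_right _ _)
    linarith
  rw [← he] at h5 ⊢
  have hTd : (0 : ℝ) < T ^ δ := by positivity
  -- the logarithm
  have hlog : 1 + Real.log X ≤ C7 * T ^ δ := by rw [hX]; exact h7 T N hT hN hNT
  have hlogX : 0 ≤ Real.log X := Real.log_nonneg (by exact_mod_cast hX1)
  -- the second moment
  have hI : ∫ t in a..b, ‖AF F α t‖ ^ 2 ≤ C5 * T ^ (e + δ) := by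
    refine le_trans ?_ (h5 T hT)
    have hc : Continuous fun t => ‖AF F α t‖ ^ 2 := ((AF_cont F α).norm).pow 2
    refine intervalIntegral.integral_mono_interval ha hab hb ?_ (hc.intervalIntegrable _ _)
    exact Eventually.of_forall fun u => by positivity
  have hI0 : 0 ≤ ∫ t in a..b, ‖AF F α t‖ ^ 2 :=
    intervalIntegral.integral_nonneg hab fun t _ => by positivity
  -- the divisors
  have hdiv : ∀ n : ℕ, 1 ≤ n → n ≤ X → (n.divisors.card : ℝ) ^ k ≤ C6 * T ^ δ := by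
    intro n hn hnX
    refine le_trans ?_ (h6 T N n hT hNT hn (by rw [← hX]; exact hnX))
    exact pow_le_pow_right₀ (one_le_card_div hn) (by omega)
  have hdiv1 : ∀ n : ℕ, 1 ≤ n → n ≤ X → (n.divisors.card : ℝ) ≤ C6 * T ^ δ := by
    intro n hn hnX
    refine le_trans ?_ (h6 T N n hT hNT hn (by rw [← hX]; exact hnX))
    exact le_self_pow₀ (one_le_card_div hn) (by omega)
  -- splitting
  have hsplit := split4 X M
    (fun p => ((p.1 : ℝ) * p.2)⁻¹ * ‖cF F α a b p.1 p.2 - ((b - a : ℝ) : ℂ) * mF F α p.1 p.2‖ ^ 2)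
    (fun p => 2 * (((p.1 : ℝ) * p.2)⁻¹ * ‖cF F α a b p.1 p.2‖ ^ 2))
    (fun p => 2 * (((p.1 : ℝ) * p.2)⁻¹ * ‖cF F α a b p.1 p.2‖ ^ 2))
    (fun p => 2 * T ^ 2 * (((p.1 : ℝ) * p.2)⁻¹ * ‖mF F α p.1 p.2‖ ^ 2))
    (fun p => by positivity) (fun p => by positivity) (fun p => by positivity) (fun p => by positivity)
    (fun A B _ _ _ => by
      simp only
      have h8 : ‖cF F α a b A B - ((b - a : ℝ) : ℂ) * mF F α A B‖ ≤
          ‖cF F α a b A B‖ + (b - a) * ‖mF F α A B‖ := by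
        refine (norm_sub_le _ _).trans (le_of_eq ?_)
        rw [norm_mul, Complex.norm_real, Real.norm_eq_abs, abs_of_nonneg hba0]
      have h9 : ‖cF F α a b A B - ((b - a : ℝ) : ℂ) * mF F α A B‖ ^ 2 ≤
          2 * ‖cF F α a b A B‖ ^ 2 + 2 * T ^ 2 * ‖mF F α A B‖ ^ 2 := by
        have h10 : (b - a) * ‖mF F α A B‖ ≤ T * ‖mF F α A B‖ :=
          mul_le_mul_of_nonneg_right (by linarith) (norm_nonneg _)
        have h11 : ‖cF F α a b A B - ((b - a : ℝ) : ℂ) * mF F α A B‖ ≤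
          ‖cF F α a b A B‖ + T * ‖mF F α A B‖ := by linarith
        refine (pow_le_pow_left₀ (norm_nonneg _) h11 2).trans ?_
        nlinarith [sq_nonneg (‖cF F α a b A B‖ - T * ‖mF F α A B‖)]
      calc ((A : ℝ) * B)⁻¹ * ‖cF F α a b A B - ((b - a : ℝ) : ℂ) * mF F α A B‖ ^ 2 ≤
            ((A : ℝ) * B)⁻¹ * (2 * ‖cF F α a b A B‖ ^ 2 + 2 * T ^ 2 * ‖mF F α A B‖ ^ 2) :=
            mul_le_mul_of_nonneg_left h9 (by positivity)
        _ = _ := by ring)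
    (fun A B hA hB hAM hMB => by
      simp only
      have hm : mF F α A B = 0 := by
        unfold mF
        rw [if_neg]
        intro h
        have := Nat.le_of_dvd (by omega) h
        omega
      rw [hm, mul_zero, sub_zero]
      have : 0 ≤ ((A : ℝ) * B)⁻¹ * ‖cF F α a b A B‖ ^ 2 := by positivity
      linarith)
  refine hsplit.trans ?_
  -- the four parts
  have p1 : ∑ p ∈ Finset.Icc 1 M ×ˢ Finset.Icc 1 M, ((p.1 : ℝ) * p.2)⁻¹ *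
      ‖cF F α a b p.1 p.2 - ((b - a : ℝ) : ℂ) * mF F α p.1 p.2‖ ^ 2 ≤
      2 * C1 ^ 2 * C2 * T ^ (e + 4 * δ) := by
    have h8 := h2 T (T ^ ((F.card : ℝ) / 6)) hT (by positivity)
    rw [← hM, ← Finset.sum_product'] at h8
    have h9 : ∑ p ∈ Finset.Icc 1 M ×ˢ Finset.Icc 1 M, ((p.1 : ℝ) * p.2)⁻¹ *
        ‖cF F α a b p.1 p.2 - ((b - a : ℝ) : ℂ) * mF F α p.1 p.2‖ ^ 2 ≤
        ∑ p ∈ Finset.Icc 1 M ×ˢ Finset.Icc 1 M, (C1 * T ^ δ) ^ 2 * (((p.1 : ℝ) * p.2)⁻¹ *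
        (T ^ ((F.card : ℝ) / 6) + ((p.1 : ℝ) / p.2) ^ (1 / 2 : ℝ) * (1 + dd p.1 p.2)) ^ 2) := by
      refine Finset.sum_le_sum fun p hp => ?_
      rw [Finset.mem_product, Finset.mem_Icc, Finset.mem_Icc] at hp
      have hA : ((p.1 : ℕ) : ℝ) ≤ T := le_trans (by exact_mod_cast hp.1.2) hMT
      have hB : ((p.2 : ℕ) : ℝ) ≤ T := le_trans (by exact_mod_cast hp.2.2) hMT
      have h10 := h1 T a b p.1 p.2 hT ha hab hb hp.1.1 hA hp.2.1 hB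
      have h11 := pow_le_pow_left₀ (norm_nonneg _) h10 2
      calc _ ≤ ((p.1 : ℝ) * p.2)⁻¹ * (C1 * T ^ δ *
            (T ^ ((F.card : ℝ) / 6) + ((p.1 : ℝ) / p.2) ^ (1 / 2 : ℝ) * (1 + dd p.1 p.2))) ^ 2 :=
            mul_le_mul_of_nonneg_left h11 (by positivity)
        _ = _ := by ring
    refine h9.trans ?_
    rw [← Finset.mul_sum]
    have h12 : (T ^ ((F.card : ℝ) / 6)) ^ 2 = T ^ ((F.card : ℝ) / 3) := by
      rw [← Real.rpow_natCast, ← Real.rpow_mul hT0.le]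
      congr 1
      push_cast
      ring
    rw [h12] at h8
    have h13 : T + T ^ ((F.card : ℝ) / 3) ≤ 2 * T ^ e := by
      have h14 : T ^ (1 : ℝ) ≤ T ^ e := Real.rpow_le_rpow_of_exponent_le hT1 he1
      have h15 : T ^ ((F.card : ℝ) / 3) ≤ T ^ e := Real.rpow_le_rpow_of_exponent_le hT1 he2
      rw [Real.rpow_one] at h14
      linarith
    calc (C1 * T ^ δ) ^ 2 * ∑ p ∈ Finset.Icc 1 M ×ˢ Finset.Icc 1 M, (((p.1 : ℝ) * p.2)⁻¹ *
        (T ^ ((F.card : ℝ) / 6) + ((p.1 : ℝ) / p.2) ^ (1 / 2 : ℝ) * (1 + dd p.1 p.2)) ^ 2) ≤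
          (C1 * T ^ δ) ^ 2 * (C2 * T ^ δ * (2 * T ^ e)) := by
          refine mul_le_mul_of_nonneg_left (h8.trans ?_) (by positivity)
          exact mul_le_mul_of_nonneg_left h13 (by positivity)
      _ = 2 * C1 ^ 2 * C2 * T ^ (e + 3 * δ) := by
          have : T ^ (e + 3 * δ) = T ^ e * (T ^ δ * T ^ δ * T ^ δ) := by
            rw [← Real.rpow_add hT0, ← Real.rpow_add hT0, ← Real.rpow_add hT0]
            congr 1
            ring
          rw [this]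
          ring
      _ ≤ _ := by
          refine mul_le_mul_of_nonneg_left ?_ (by positivity)
          exact Real.rpow_le_rpow_of_exponent_le hT1 (by linarith)
  have hpow3 : (C7 * T ^ δ) ^ 3 * (C5 * T ^ (e + δ)) = C5 * C7 ^ 3 * T ^ (e + 4 * δ) := by
    have : T ^ (e + 4 * δ) = T ^ (e + δ) * (T ^ δ * T ^ δ * T ^ δ) := by
      rw [← Real.rpow_add hT0, ← Real.rpow_add hT0, ← Real.rpow_add hT0]
      congr 1
      ring
    rw [this]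
    ring
  have hH : ∀ Y : ℕ, 1 ≤ Y → Y = X → ∑ n ∈ Finset.Icc 1 Y, (n : ℝ)⁻¹ ≤ C7 * T ^ δ := by
    intro Y _ hY
    rw [hY]
    exact (harm X).trans hlog
  have hsq : (1 + Real.log X) ^ 2 ≤ (C7 * T ^ δ) ^ 2 := pow_le_pow_left₀ (by linarith) hlog 2
  have p2 : ∑ p ∈ Finset.Icc M X ×ˢ Finset.Icc 1 X, 2 * (((p.1 : ℝ) * p.2)⁻¹ * ‖cF F α a b p.1 p.2‖ ^ 2) ≤
      2 * C3 * C5 * C7 ^ 3 * T ^ (e + 4 * δ) := by
    rw [Finset.sum_product_right]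
    have h8 : ∀ B ∈ Finset.Icc 1 X, ∑ A ∈ Finset.Icc M X,
        2 * (((A : ℝ) * B)⁻¹ * ‖cF F α a b A B‖ ^ 2) ≤
        (B : ℝ)⁻¹ * (2 * (C3 * (C7 * T ^ δ) ^ 2 * (C5 * T ^ (e + δ)))) := by
      intro B hB
      rw [Finset.mem_Icc] at hB
      have h9 := h3 F α a b M X B hab hba hM1 hB.1
      have h10 : ∑ A ∈ Finset.Icc M X, 2 * (((A : ℝ) * B)⁻¹ * ‖cF F α a b A B‖ ^ 2) =
          (B : ℝ)⁻¹ * (2 * ∑ A ∈ Finset.Icc M X, (A : ℝ)⁻¹ * ‖cF F α a b A B‖ ^ 2) := by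
        rw [Finset.mul_sum, Finset.mul_sum]
        refine Finset.sum_congr rfl fun A _ => ?_
        rw [mul_inv]
        ring
      rw [h10]
      refine mul_le_mul_of_nonneg_left ?_ (by positivity)
      refine mul_le_mul_of_nonneg_left (h9.trans ?_) (by norm_num)
      exact mul_le_mul (mul_le_mul_of_nonneg_left hsq hC3.le) hI hI0 (by positivity)
    refine (Finset.sum_le_sum h8).trans ?_
    rw [← Finset.sum_mul]
    refine (mul_le_mul_of_nonneg_right (hH X hX1 rfl) (by positivity)).trans (le_of_eq ?_)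
    calc _ = 2 * C3 * ((C7 * T ^ δ) ^ 3 * (C5 * T ^ (e + δ))) := by ring
      _ = _ := by rw [hpow3]; ring
  have p3 : ∑ p ∈ Finset.Icc 1 X ×ˢ Finset.Icc M X, 2 * (((p.1 : ℝ) * p.2)⁻¹ * ‖cF F α a b p.1 p.2‖ ^ 2) ≤
      2 * C4 * C5 * C7 ^ 3 * T ^ (e + 4 * δ) := by
    rw [Finset.sum_product]
    have h8 : ∀ A ∈ Finset.Icc 1 X, ∑ B ∈ Finset.Icc M X,
        2 * (((A : ℝ) * B)⁻¹ * ‖cF F α a b A B‖ ^ 2) ≤
        (A : ℝ)⁻¹ * (2 * (C4 * (C7 * T ^ δ) ^ 2 * (C5 * T ^ (e + δ)))) := by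
      intro A hA
      rw [Finset.mem_Icc] at hA
      have h9 := h4 F α a b M X A hab hba hM1 hA.1
      have h10 : ∑ B ∈ Finset.Icc M X, 2 * (((A : ℝ) * B)⁻¹ * ‖cF F α a b A B‖ ^ 2) =
          (A : ℝ)⁻¹ * (2 * ∑ B ∈ Finset.Icc M X, (B : ℝ)⁻¹ * ‖cF F α a b A B‖ ^ 2) := by
        rw [Finset.mul_sum, Finset.mul_sum]
        refine Finset.sum_congr rfl fun B _ => ?_
        rw [mul_inv]
        ring
      rw [h10]
      refine mul_le_mul_of_nonneg_left ?_ (by positivity)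
      refine mul_le_mul_of_nonneg_left (h9.trans ?_) (by norm_num)
      exact mul_le_mul (mul_le_mul_of_nonneg_left hsq hC4.le) hI hI0 (by positivity)
    refine (Finset.sum_le_sum h8).trans ?_
    rw [← Finset.sum_mul]
    refine (mul_le_mul_of_nonneg_right (hH X hX1 rfl) (by positivity)).trans (le_of_eq ?_)
    calc _ = 2 * C4 * ((C7 * T ^ δ) ^ 3 * (C5 * T ^ (e + δ))) := by ring
      _ = _ := by rw [hpow3]; ring
  have p4 : ∑ p ∈ Finset.Icc M X ×ˢ Finset.Icc 1 X,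
      2 * T ^ 2 * (((p.1 : ℝ) * p.2)⁻¹ * ‖mF F α p.1 p.2‖ ^ 2) ≤ 8 * C6 ^ 3 * T ^ (e + 4 * δ) := by
    rw [← Finset.mul_sum, Finset.sum_product]
    have h8 : ∀ A ∈ Finset.Icc M X, ∑ B ∈ Finset.Icc 1 X, ((A : ℝ) * B)⁻¹ * ‖mF F α A B‖ ^ 2 ≤
        (C6 * T ^ δ) ^ 3 * ((A : ℝ) ^ 2)⁻¹ := by
      intro A hA
      rw [Finset.mem_Icc] at hA
      have hA1 : 1 ≤ A := hM1.trans hA.1
      have h9 : ∑ B ∈ Finset.Icc 1 X, ((A : ℝ) * B)⁻¹ * ‖mF F α A B‖ ^ 2 ≤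
          ∑ B ∈ Finset.Icc 1 X, (C6 * T ^ δ) ^ 2 * (if B ∣ A then ((A : ℝ) ^ 2)⁻¹ else 0) := by
        refine Finset.sum_le_sum fun B hB => ?_
        rw [Finset.mem_Icc] at hB
        exact mF_sq F α hA1 hB.1 fun n hn hnA => hdiv n hn (hnA.trans hA.2)
      refine h9.trans ?_
      rw [← Finset.mul_sum]
      refine (mul_le_mul_of_nonneg_left (sum_dvd A X hA1) (by positivity)).trans ?_
      calc (C6 * T ^ δ) ^ 2 * ((A.divisors.card : ℝ) * ((A : ℝ) ^ 2)⁻¹) ≤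
            (C6 * T ^ δ) ^ 2 * ((C6 * T ^ δ) * ((A : ℝ) ^ 2)⁻¹) := by
            refine mul_le_mul_of_nonneg_left ?_ (by positivity)
            exact mul_le_mul_of_nonneg_right (hdiv1 A hA1 hA.2) (by positivity)
        _ = _ := by ring
    have h10 : ∑ A ∈ Finset.Icc M X, ∑ B ∈ Finset.Icc 1 X, ((A : ℝ) * B)⁻¹ * ‖mF F α A B‖ ^ 2 ≤
        (C6 * T ^ δ) ^ 3 * (2 * (M : ℝ)⁻¹) := by
      refine (Finset.sum_le_sum h8).trans ?_
      rw [← Finset.mul_sum]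
      exact mul_le_mul_of_nonneg_left (tail_sq M X hM1) (by positivity)
    have h11 : (M : ℝ)⁻¹ ≤ 2 * T⁻¹ := by
      rw [inv_le_iff_one_le_mul₀ hM0]
      have : T⁻¹ * T = 1 := inv_mul_cancel₀ hT0.ne'
      have h12 : 0 < T⁻¹ := by positivity
      nlinarith
    calc 2 * T ^ 2 * ∑ A ∈ Finset.Icc M X, ∑ B ∈ Finset.Icc 1 X, ((A : ℝ) * B)⁻¹ * ‖mF F α A B‖ ^ 2 ≤
          2 * T ^ 2 * ((C6 * T ^ δ) ^ 3 * (2 * (2 * T⁻¹))) := by
          refine mul_le_mul_of_nonneg_left (h10.trans ?_) (by positivity)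
          refine mul_le_mul_of_nonneg_left ?_ (by positivity)
          linarith
      _ = 8 * C6 ^ 3 * (T ^ (1 : ℝ) * (T ^ δ * T ^ δ * T ^ δ)) := by
          rw [Real.rpow_one]
          field_simp
          ring
      _ = 8 * C6 ^ 3 * T ^ (1 + 3 * δ) := by
          congr 1
          rw [← Real.rpow_add hT0, ← Real.rpow_add hT0, ← Real.rpow_add hT0]
          congr 1
          ring
      _ ≤ _ := by
          refine mul_le_mul_of_nonneg_left ?_ (by positivity)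
          exact Real.rpow_le_rpow_of_exponent_le hT1 (by linarith)
  have hfin : (2 * C1 ^ 2 * C2 + 2 * C3 * C5 * C7 ^ 3 + 2 * C4 * C5 * C7 ^ 3 + 8 * C6 ^ 3) * T ^ (e + 4 * δ) =
      2 * C1 ^ 2 * C2 * T ^ (e + 4 * δ) + 2 * C3 * C5 * C7 ^ 3 * T ^ (e + 4 * δ) +
      2 * C4 * C5 * C7 ^ 3 * T ^ (e + 4 * δ) + 8 * C6 ^ 3 * T ^ (e + 4 * δ) := by ring
  rw [hfin]
  exact add_le_add (add_le_add (add_le_add p1 p2) p3) p4

end

end Pool.Agent.Z72.SF.OdfA
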