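import Pool.Agent.Z72.SQ.Stm

set_option autoImplicit false

/-!
Project SF (helper72): shifted moments of zeta of order `2k` with up to four fixed shifts `α_j` (`j` in `F`) and all
the other shifts in `[0,U]`, `T^{1/3} ≤ U ≤ T`: remainder `T^{(1+e)/2+ε} U^{-1/2}` with `e = max 1 ((|F|+1)/3)`.
Statements.
-/

namespace Pool.Agent.Z72.SF

open Complex Filter Topology MeasureTheory Set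
open Pool.Agent.TH612.GS (z zN PN mP SN zr Sep DD tup ch wt dr IG)
open Pool.Agent.TH612.CF (Zg GG Qs zab)
open Pool.Agent.N879.PU (fs)
open Pool.Agent.N879.PZ (Wb)

noncomputable section

variable {k : ℕ}

/-- the fixed block -/
def AF (F : Finset (Fin k)) (α : Fin k → ℝ) (t : ℝ) : ℂ := ∏ j ∈ F, z (t + α j)

/-- the shift vector: the coordinates on the left with index in `F` are those of `α` -/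
def mx (F : Finset (Fin k)) (α : Fin k → ℝ) (ξ : Fin k ⊕ Fin k → ℝ) : Fin k ⊕ Fin k → ℝ :=
  Sum.elim (fun j => if j ∈ F then α j else ξ (Sum.inl j)) (fun l => ξ (Sum.inr l))

/-- the other factors, `1` for the indices in `F` -/
def hF (F : Finset (Fin k)) (f : ℝ → ℂ) (i : Fin k ⊕ Fin k) (u : ℝ) : ℂ :=
  Sum.elim (fun j => if j ∈ F then 1 else f u) (fun _ => (starRingEnd ℂ) (f u)) i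

/-- the exponent of the second moment of the fixed block -/
def ee (m : ℕ) : ℝ := max 1 ((m + 1) / 3)

/-- indices of fixed coordinates -/
def inF (F : Finset (Fin k)) : Fin k ⊕ Fin k → Prop := Sum.elim (fun j => j ∈ F) (fun _ => False)

/-- separated vectors -/
def SepF (F : Finset (Fin k)) (α : Fin k → ℝ) (U : ℝ) : Set (Fin k ⊕ Fin k → ℝ) :=
  {ξ | (∀ i, 0 ≤ ξ i ∧ ξ i ≤ U) ∧ ∀ p q, p ≠ q → ¬ (inF F p ∧ inF F q) →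
    U ^ (1 / 2 : ℝ) ≤ |mx F α ξ p - mx F α ξ q|}

/-- the coefficients of the fixed block -/
def tauF (F : Finset (Fin k)) (α : Fin k → ℝ) (n : ℕ) : ℂ :=
  ∑ d ∈ (Nat.finMulAntidiag k n).filter (fun d => ∀ j, j ∉ F → d j = 1), ∏ j ∈ F, (d j : ℂ) ^ (-(I * (α j : ℂ)))

/-- the mean value of the fixed block twisted by `(A/B)^{it}` -/
def mF (F : Finset (Fin k)) (α : Fin k → ℝ) (A B : ℕ) : ℂ :=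
  if B ∣ A then tauF F α (A / B) * ((A / B : ℕ) : ℂ) ^ (-(1 / 2) : ℂ) else 0

/-- the twisted integral of the fixed block -/
def cF (F : Finset (Fin k)) (α : Fin k → ℝ) (a b : ℝ) (A B : ℕ) : ℂ :=
  ∫ t in a..b, AF F α t * (((A : ℝ) / (B : ℝ) : ℝ) : ℂ) ^ (I * (t : ℂ))

/-- tuples in `[1,N]` with entries `1` at the indices in `F` -/
def tF (F : Finset (Fin k)) (N : ℕ) : Finset (Fin k ⊕ Fin k → ℕ) :=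
  (tup k N).filter (fun ν => ∀ j ∈ F, ν (Sum.inl j) = 1)

/-- the diagonal sum -/
def Sf (F : Finset (Fin k)) (α : Fin k → ℝ) (N : ℕ) (ξ : Fin k ⊕ Fin k → ℝ) : ℂ :=
  ∑ ν ∈ tF F N, (wt ν : ℂ) * ch ν ξ * mF F α (∏ j, ν (Sum.inr j)) (∏ j, ν (Sum.inl j))

/-- distance to the multiples -/
def dd (A B : ℕ) : ℝ := if A % B = 0 then 0 else (B : ℝ) / (min (A % B) (B - A % B) : ℕ)

/-! ### Statements -/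

/-- A2F: second moment of the fixed block -/
def S_A2F : Prop := ∀ (k : ℕ) (F : Finset (Fin k)) (α : Fin k → ℝ) (ε : ℝ), F.card ≤ 4 → 0 < ε → ∃ C : ℝ, 0 < C ∧
  ∀ T : ℝ, 3 ≤ T → ∫ t in (0:ℝ)..T, ‖AF F α t‖ ^ 2 ≤ C * T ^ (ee F.card + ε)

/-- ZC: the convexity bound between Weyl's bound and the 1-line -/
def S_ZC : Prop := ∀ ε : ℝ, 0 < ε → ∃ C : ℝ, 0 < C ∧ ∀ σ t : ℝ, 1 / 2 ≤ σ → σ ≤ 2 → 1 ≤ |t| →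
  ‖riemannZeta (σ + I * t)‖ ≤ C * |t| ^ (max 0 ((1 - σ) / 3) + ε)

/-- RNF: the twisted integrals -/
def S_RNF : Prop := ∀ (k : ℕ) (F : Finset (Fin k)) (α : Fin k → ℝ) (ε : ℝ), F.card ≤ 4 → 0 < ε → ∃ C : ℝ, 0 < C ∧
  ∀ (T a b : ℝ) (A B : ℕ), 3 ≤ T → 0 ≤ a → a ≤ b → b ≤ T → 1 ≤ A → (A : ℝ) ≤ T → 1 ≤ B → (B : ℝ) ≤ T →
  ‖cF F α a b A B - ((b - a : ℝ) : ℂ) * mF F α A B‖ ≤
    C * T ^ ε * (T ^ ((F.card : ℝ) / 6) + ((A : ℝ) / B) ^ (1 / 2 : ℝ) * (1 + dd A B))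

/-- NTF: the sum over the twists -/
def S_NTF : Prop := ∀ ε : ℝ, 0 < ε → ∃ C : ℝ, 0 < C ∧ ∀ (T X : ℝ), 3 ≤ T → 0 ≤ X →
  ∑ A ∈ Finset.Icc 1 ⌊T⌋₊, ∑ B ∈ Finset.Icc 1 ⌊T⌋₊, ((A : ℝ) * B)⁻¹ *
    (X + ((A : ℝ) / B) ^ (1 / 2 : ℝ) * (1 + dd A B)) ^ 2 ≤ C * T ^ ε * (T + X ^ 2)

/-- ODF: the off-diagonal terms are small on average -/
def S_ODF : Prop := ∀ (k : ℕ) (F : Finset (Fin k)) (α : Fin k → ℝ) (ε : ℝ), F.card ≤ 4 → 0 < ε → ∃ C : ℝ, 0 < C ∧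
  ∀ (T U a b : ℝ) (N : ℕ), 3 ≤ T → 1 ≤ U → U ≤ T → 1 ≤ N → (N : ℝ) ≤ 16 * U → 0 ≤ a → a ≤ b → b ≤ T →
  ∫⁻ ξ, ENNReal.ofReal (‖(∫ t in a..b, AF F α t * ∏ i, hF F (PN N) i (t + ξ i)) -
      ((b - a : ℝ) : ℂ) * Sf F α N ξ‖ ^ 2) ∂(mP (Fin k ⊕ Fin k) U) ≤
    ENNReal.ofReal (C * U ^ (2 * k) * T ^ (ee F.card + ε))

/-- SAF: the smoothed sum of the diagonal series; only cross differences matter -/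
def S_SAF : Prop := ∀ k : ℕ, ∃ (W : ℝ → ℂ) (C U₀ : ℝ) (B : ℕ), 0 < C ∧ 3 ≤ U₀ ∧ 2 * k + 4 ≤ B ∧ (∀ y : ℝ, ‖W y‖ ≤ 1) ∧
  (∀ y : ℝ, 0 < y → y ≤ 1 → ‖W y - 1‖ ≤ C * y) ∧
  ∀ U : ℝ, U₀ ≤ U → ∀ γ : Fin k ⊕ Fin k → ℝ, (∀ i, |γ i| ≤ U) →
    (∀ j l : Fin k, U ^ (1 / 2 : ℝ) ≤ |γ (Sum.inl j) - γ (Sum.inr l)|) →
    ‖zr γ - ∑ n ∈ Finset.Icc 1 ⌊U ^ (2 * B)⌋₊, dr γ n * W (n / U ^ B)‖ ≤ C / U

/-- DTF: the tail of the diagonal series is small on average -/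
def S_DTF : Prop := ∀ (k : ℕ) (F : Finset (Fin k)) (α : Fin k → ℝ) (B : ℕ) (ε : ℝ), 0 < ε → ∃ C : ℝ, 0 < C ∧
  ∀ (U : ℝ) (N : ℕ), 3 ≤ U → U ≤ 2 * N → (N : ℝ) ≤ 16 * U →
  (∀ W : ℕ → ℂ, (∀ n, ‖W n‖ ≤ 1) → ∀ Y : ℕ, (Y : ℝ) ≤ U ^ B →
    ∫⁻ ξ, ENNReal.ofReal (‖∑ n ∈ Finset.Ioc N Y, dr (mx F α ξ) n * W n‖ ^ 2) ∂(mP (Fin k ⊕ Fin k) U) ≤
      ENNReal.ofReal (C * U ^ (2 * k) * U ^ (ε - 1))) ∧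
  ∫⁻ ξ, ENNReal.ofReal (‖Sf F α N ξ - ∑ n ∈ Finset.Icc 1 N, dr (mx F α ξ) n‖ ^ 2) ∂(mP (Fin k ⊕ Fin k) U) ≤
    ENNReal.ofReal (C * U ^ (2 * k) * U ^ (ε - 1))

/-- DGF: the diagonal sum is close to the first term of the recipe on average -/
def S_DGF : Prop := ∀ (k : ℕ) (F : Finset (Fin k)) (α : Fin k → ℝ) (ε : ℝ), 0 < ε → ∃ C U₀ : ℝ, 0 < C ∧ 3 ≤ U₀ ∧
  ∀ (U : ℝ) (N : ℕ), U₀ ≤ U → U ≤ 2 * N → (N : ℝ) ≤ 16 * U →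
  ∫⁻ ξ in SepF F α U, ENNReal.ofReal (‖Sf F α N ξ - zr (mx F α ξ)‖ ^ 2) ∂(mP (Fin k ⊕ Fin k) U) ≤
    ENNReal.ofReal (C * U ^ (2 * k) * U ^ (ε - 1))

/-- SWF: the terms with at least one swap are small on average -/
def S_SWF : Prop := ∀ (k : ℕ) (F : Finset (Fin k)) (α : Fin k → ℝ), ∃ C T₀ : ℝ, 0 < C ∧ 3 ≤ T₀ ∧ ∀ (T U S : ℝ)
  (π : Equiv.Perm (Fin k ⊕ Fin k)), T₀ ≤ T → 0 < U → U ≤ T → 0 ≤ S → S ≤ T →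
  (∃ j, (π (Sum.inr j)).isLeft = true) →
  ∫⁻ ξ, ENNReal.ofReal (‖∫ t in (0:ℝ)..S, GG t (fun i => (mx F α ξ i : ℂ)) π‖ ^ 2)
    ∂(mP (Fin k ⊕ Fin k) U) ≤ ENNReal.ofReal (C * U ^ (2 * k - 1) * T ^ 2 * Real.log T ^ 2)

/-- ZAF: the values of `ζ_{π(γ)}(1/2)` for separated vectors -/
def S_ZAF : Prop := ∀ (k : ℕ) (F : Finset (Fin k)) (α : Fin k → ℝ), (∀ i ∈ F, ∀ j ∈ F, i ≠ j → α i ≠ α j) →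
  ∃ (C T₀ : ℝ) (B : ℕ), 0 < C ∧ 3 ≤ T₀ ∧ ∀ T : ℝ, T₀ ≤ T → ∀ ξ ∈ SepF F α T, ∀ π : Equiv.Perm (Fin k ⊕ Fin k),
  ‖zab (fun j => (mx F α ξ (π (Sum.inl j)) : ℂ)) (fun j => (mx F α ξ (π (Sum.inr j)) : ℂ))‖ ≤
    C * Real.log T ^ B

/-- NAF: almost all vectors are separated -/
def S_NAF : Prop := ∀ (k : ℕ) (F : Finset (Fin k)) (α : Fin k → ℝ), ∃ C T₀ : ℝ, 0 < C ∧ 1 ≤ T₀ ∧ ∀ T : ℝ, T₀ ≤ T →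
  mP (Fin k ⊕ Fin k) T (SepF F α T)ᶜ ≤ ENNReal.ofReal (C * T ^ (2 * k - 1 / 2 : ℝ))

/-- RPF: replacement of all the factors which are not fixed -/
def S_RPF : Prop := ∀ (k : ℕ) (F : Finset (Fin k)) (α : Fin k → ℝ) (ε : ℝ), 1 ≤ k → 0 < ε → ∃ C : ℝ, 0 < C ∧
  ∀ T U : ℝ, 3 ≤ U → U ≤ T → T ^ (1 / 3 : ℝ) ≤ U →
  (∀ N : ℕ, 8 * U ≤ N → (N : ℝ) ≤ 16 * U → ∀ b : ℝ, 0 ≤ b → b ≤ U →
    ∫⁻ ξ, ENNReal.ofReal (‖∫ t in (0:ℝ)..b, AF F α t * (∏ i, hF F z i (t + ξ i) - ∏ i, hF F (PN N) i (t + ξ i))‖ ^ 2)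
      ∂(mP (Fin k ⊕ Fin k) U) ≤ ENNReal.ofReal (C * T ^ ε * U ^ (2 * k) * ∫ t in (0:ℝ)..b, ‖AF F α t‖ ^ 2)) ∧
  ∀ N : ℕ, U ≤ 2 * N → (N : ℝ) ≤ U → ∀ b : ℝ, U ≤ b → b ≤ T →
    ∫⁻ ξ, ENNReal.ofReal (‖∫ t in U..b, AF F α t * (∏ i, hF F z i (t + ξ i) - ∏ i, hF F (PN N) i (t + ξ i))‖ ^ 2)
      ∂(mP (Fin k ⊕ Fin k) U) ≤ ENNReal.ofReal (C * T ^ (1 + ε) * U ^ (2 * k - 1) * ∫ t in U..b, ‖AF F α t‖ ^ 2)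

/-- the exceptional set -/
def BadF (F : Finset (Fin k)) (α : Fin k → ℝ) (U S lam : ℝ) : Set (Fin k ⊕ Fin k → ℝ) :=
  {ξ | (∀ i, 0 ≤ ξ i ∧ ξ i ≤ U) ∧ lam < ‖DD S (mx F α ξ)‖}

/-- MUF: the exceptional set has small measure -/
def S_MUF : Prop := ∀ (k : ℕ) (F : Finset (Fin k)) (ε : ℝ), 1 ≤ k → F.card ≤ 4 → 0 < ε → ∃ δ : ℝ, 0 < δ ∧
  ∀ α : Fin k → ℝ, (∀ i ∈ F, ∀ j ∈ F, i ≠ j → α i ≠ α j) → ∃ T₀ : ℝ,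
  ∀ T U S : ℝ, T₀ ≤ T → T ^ (1 / 3 : ℝ) ≤ U → U ≤ T → 0 ≤ S → S ≤ T →
  mP (Fin k ⊕ Fin k) U (BadF F α U S (T ^ ((1 + ee F.card) / 2 + ε) * U ^ (-(1 / 2) : ℝ))) ≤
    ENNReal.ofReal (U ^ (2 * k) * T ^ (-δ))

end

end Pool.Agent.Z72.SF
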